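import Mathlib

/-!
# Banach limits and `L`-asymptotic limits of power bounded operators
-/

set_option autoImplicit false

namespace Pool.Agent.Q203.AsymptoticLimit

open Filter Topology
open scoped BoundedContinuousFunction InnerProductSpace

/-- A Banach limit on the complex space `ℓ^∞(ℕ)`: a positive shift-invariant linear functional
with value `1` at the constant sequence `1`. -/
structure BanachLimit where
  /-- the underlying linear functional -/
  toLin : (ℕ →ᵇ ℂ) →ₗ[ℂ] ℂ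
  nonneg' : ∀ f : ℕ →ᵇ ℂ, (∀ n, 0 ≤ (f n).re ∧ (f n).im = 0) →
    0 ≤ (toLin f).re ∧ (toLin f).im = 0
  shift' : ∀ f g : ℕ →ᵇ ℂ, (∀ n, g n = f (n + 1)) → toLin g = toLin f
  one' : toLin 1 = 1

variable {H : Type*} [NormedAddCommGroup H] [InnerProductSpace ℂ H]

/-- Power bounded operators. -/
def PowerBounded (T : H →L[ℂ] H) : Prop := ∃ M : ℝ, ∀ n : ℕ, ‖T ^ n‖ ≤ M

/-- `A` is the `L`-asymptotic limit of `T`: the positive operator with
`⟨A x, y⟩ = L (⟨T^n x, T^n y⟩)_n` (inner products linear in the first variable). -/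
def IsAsymptoticLimit [CompleteSpace H] (L : BanachLimit) (T A : H →L[ℂ] H) : Prop :=
  A.IsPositive ∧ ∀ (x y : H) (g : ℕ →ᵇ ℂ),
    (∀ n, g n = inner ℂ ((T ^ n) y) ((T ^ n) x)) → inner ℂ y (A x) = L.toLin g

/-- The real functional induced by a Banach limit. -/
noncomputable def BanachLimit.real (L : BanachLimit) : (ℕ →ᵇ ℝ) →ₗ[ℝ] ℝ :=
  Complex.reCLM.toLinearMap ∘ₗ (L.toLin.restrictScalars ℝ) ∘ₗ
    (Complex.ofRealCLM.compLeftContinuousBounded ℕ).toLinearMap

/-- Embedding real sequences. -/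
noncomputable def cpx (f : ℕ →ᵇ ℝ) : ℕ →ᵇ ℂ := Complex.ofRealCLM.compLeftContinuousBounded ℕ f

theorem cpx_apply (f : ℕ →ᵇ ℝ) (n : ℕ) : cpx f n = (f n : ℂ) := rfl

theorem real_apply (L : BanachLimit) (f : ℕ →ᵇ ℝ) : L.real f = (L.toLin (cpx f)).re := rfl

theorem real_nonneg (L : BanachLimit) (f : ℕ →ᵇ ℝ) (hf : ∀ n, 0 ≤ f n) : 0 ≤ L.real f := by
  rw [real_apply]
  exact (L.nonneg' (cpx f) (fun n => by simp [cpx_apply, hf n])).1

theorem real_mono (L : BanachLimit) (f g : ℕ →ᵇ ℝ) (h : ∀ n, f n ≤ g n) :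
    L.real f ≤ L.real g := by
  have h1 := real_nonneg L (g - f) (fun n => by simp [h n])
  rw [map_sub] at h1
  linarith

theorem real_shift (L : BanachLimit) (f g : ℕ →ᵇ ℝ) (h : ∀ n, g n = f (n + 1)) :
    L.real g = L.real f := by
  rw [real_apply, real_apply, L.shift' (cpx f) (cpx g) (fun n => by simp [cpx_apply, h n])]

theorem real_const (L : BanachLimit) (c : ℝ) :
    L.real (BoundedContinuousFunction.const ℕ c) = c := by
  have h1 : BoundedContinuousFunction.const ℕ c = c • (1 : ℕ →ᵇ ℝ) := by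
    ext n
    simp
  have h2 : cpx (1 : ℕ →ᵇ ℝ) = 1 := by
    ext n
    simp [cpx_apply]
  rw [h1, map_smul, real_apply, h2, L.one']
  simp

theorem real_le_of_le (L : BanachLimit) (f : ℕ →ᵇ ℝ) (c : ℝ) (h : ∀ n, f n ≤ c) :
    L.real f ≤ c := by
  have := real_mono L f (BoundedContinuousFunction.const ℕ c) h
  rwa [real_const] at this

theorem le_real_of_le (L : BanachLimit) (f : ℕ →ᵇ ℝ) (c : ℝ) (h : ∀ n, c ≤ f n) :
    c ≤ L.real f := by
  have := real_mono L (BoundedContinuousFunction.const ℕ c) f h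
  rwa [real_const] at this

theorem inner_self_real (z : H) : inner ℂ z z = ((‖z‖ ^ 2 : ℝ) : ℂ) := by
  rw [inner_self_eq_norm_sq_to_K]
  norm_cast

theorem exists_orthonormal_seq [CompleteSpace H] (hdim : ¬ FiniteDimensional ℂ H) :
    ∃ f : ℕ → H, Orthonormal ℂ f := by
  obtain ⟨w, b, hb⟩ := exists_hilbertBasis ℂ H
  have hinf : w.Infinite := by
    intro hfin
    apply hdim
    have : Finite w := hfin
    have h1 : FiniteDimensional ℂ (Submodule.span ℂ (Set.range b)) :=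
      FiniteDimensional.span_of_finite ℂ (Set.finite_range b)
    have h2 := b.dense_span
    have h3 : IsClosed ((Submodule.span ℂ (Set.range b) : Submodule ℂ H) : Set H) :=
      Submodule.closed_of_finiteDimensional _
    rw [h3.submodule_topologicalClosure_eq] at h2
    rw [h2] at h1
    exact (Submodule.topEquiv (R := ℂ) (M := H)).finiteDimensional
  let e := Set.Infinite.natEmbedding w hinf
  exact ⟨fun n => b (e n), b.orthonormal.comp e e.injective⟩

section powers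

variable {T : H →L[ℂ] H} {M : ℝ}

theorem norm_pow_le (hM : ∀ n : ℕ, ‖T ^ n‖ ≤ M) (n : ℕ) (x : H) : ‖(T ^ n) x‖ ≤ M * ‖x‖ :=
  le_trans ((T ^ n).le_opNorm x) (by gcongr; exact hM n)

theorem M_nonneg (hM : ∀ n : ℕ, ‖T ^ n‖ ≤ M) : 0 ≤ M := le_trans (norm_nonneg _) (hM 0)

/-- The sequence `‖T^n x‖²`. -/
noncomputable def normSeq (T : H →L[ℂ] H) (M : ℝ) (hM : ∀ n : ℕ, ‖T ^ n‖ ≤ M) (x : H) :
    ℕ →ᵇ ℝ :=
  BoundedContinuousFunction.ofNormedAddCommGroupDiscrete (fun n => ‖(T ^ n) x‖ ^ 2)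
    ((M * ‖x‖) ^ 2) (fun n => by
      rw [Real.norm_eq_abs, abs_of_nonneg (by positivity)]
      have := norm_pow_le hM n x
      gcongr)

theorem normSeq_apply (hM : ∀ n : ℕ, ‖T ^ n‖ ≤ M) (x : H) (n : ℕ) :
    normSeq T M hM x n = ‖(T ^ n) x‖ ^ 2 := rfl

variable [CompleteSpace H] {L : BanachLimit} {A : H →L[ℂ] H}

theorem quad_eq (hA : IsAsymptoticLimit L T A) (hM : ∀ n : ℕ, ‖T ^ n‖ ≤ M) (x : H) :
    (inner ℂ x (A x)).re = L.real (normSeq T M hM x) := by
  rw [real_apply, hA.2 x x (cpx (normSeq T M hM x))]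
  intro n
  rw [cpx_apply, normSeq_apply, inner_self_eq_norm_sq_to_K]
  norm_cast

theorem quad_T (hA : IsAsymptoticLimit L T A) (hM : ∀ n : ℕ, ‖T ^ n‖ ≤ M) (x : H) :
    (inner ℂ (T x) (A (T x))).re = (inner ℂ x (A x)).re := by
  rw [quad_eq hA hM, quad_eq hA hM]
  apply real_shift
  intro n
  rw [normSeq_apply, normSeq_apply, pow_succ]
  rfl

theorem quad_pow (hA : IsAsymptoticLimit L T A) (hM : ∀ n : ℕ, ‖T ^ n‖ ≤ M) (n : ℕ) (x : H) :
    (inner ℂ ((T ^ n) x) (A ((T ^ n) x))).re = (inner ℂ x (A x)).re := by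
  induction n with
  | zero => simp
  | succ n ih =>
    rw [pow_succ', ← ih]
    exact quad_T hA hM ((T ^ n) x)

end powers

end Pool.Agent.Q203.AsymptoticLimit
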