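import Mathlib

/-!
# Bishop-Phelps-Bollobas type properties and one-complemented range subspaces
-/

set_option autoImplicit false

namespace Pool.Agent.Q203.BPB

open Filter Topology
open scoped ENNReal

/-- The pointwise Bishop-Phelps-Bollobas property of the pair `(X, Y)` (real scalars). -/
def PointwiseBPB (X Y : Type*) [NormedAddCommGroup X] [NormedSpace ℝ X]
    [NormedAddCommGroup Y] [NormedSpace ℝ Y] : Prop :=
  ∀ ε : ℝ, 0 < ε → ∃ η : ℝ, 0 < η ∧ ∀ (T : X →L[ℝ] Y) (x₀ : X), ‖T‖ = 1 → ‖x₀‖ = 1 →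
    1 - η < ‖T x₀‖ → ∃ S : X →L[ℝ] Y, ‖S‖ = 1 ∧ ‖S x₀‖ = 1 ∧ ‖S - T‖ < ε

/-- The Bishop-Phelps-Bollobas property of the pair `(X, Y)` (real scalars). -/
def BPBp (X Y : Type*) [NormedAddCommGroup X] [NormedSpace ℝ X]
    [NormedAddCommGroup Y] [NormedSpace ℝ Y] : Prop :=
  ∀ ε : ℝ, 0 < ε → ∃ η : ℝ, 0 < η ∧ ∀ (T : X →L[ℝ] Y) (x₀ : X), ‖T‖ = 1 → ‖x₀‖ = 1 →
    1 - η < ‖T x₀‖ → ∃ (x : X) (S : X →L[ℝ] Y), ‖x‖ = 1 ∧ ‖S‖ = 1 ∧ ‖S x‖ = 1 ∧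
      ‖x - x₀‖ < ε ∧ ‖S - T‖ < ε

/-- The subspace `Y₁` is the range of a norm-one linear projection. -/
def OneComplemented {Y : Type*} [NormedAddCommGroup Y] [NormedSpace ℝ Y]
    (Y₁ : Submodule ℝ Y) : Prop :=
  ∃ P : Y →L[ℝ] Y, (∀ y, P (P y) = P y) ∧ ‖P‖ = 1 ∧ Set.range P = (Y₁ : Set Y)

section transfer

variable {X Y Z : Type*} [NormedAddCommGroup X] [NormedSpace ℝ X]
  [NormedAddCommGroup Y] [NormedSpace ℝ Y] [NormedAddCommGroup Z] [NormedSpace ℝ Z]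

theorem norm_comp_iso (e : Y ≃ₗᵢ[ℝ] Z) (T : X →L[ℝ] Y) :
    ‖(e.toContinuousLinearEquiv : Y →L[ℝ] Z).comp T‖ = ‖T‖ :=
  e.toLinearIsometry.norm_toContinuousLinearMap_comp

theorem pointwise_transfer (e : Y ≃ₗᵢ[ℝ] Z) (h : PointwiseBPB X Z) : PointwiseBPB X Y := by
  intro ε hε
  obtain ⟨η, hη, h⟩ := h ε hε
  refine ⟨η, hη, fun T x₀ hT hx hTx => ?_⟩
  obtain ⟨S, hS1, hS2, hS3⟩ := h ((e.toContinuousLinearEquiv : Y →L[ℝ] Z).comp T) x₀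
    (by rw [norm_comp_iso]; exact hT) hx (by
      show 1 - η < ‖e (T x₀)‖
      rw [e.norm_map]; exact hTx)
  refine ⟨(e.symm.toContinuousLinearEquiv : Z →L[ℝ] Y).comp S, ?_, ?_, ?_⟩
  · rw [norm_comp_iso, hS1]
  · show ‖e.symm (S x₀)‖ = 1
    rw [e.symm.norm_map, hS2]
  · have h1 : (e.symm.toContinuousLinearEquiv : Z →L[ℝ] Y).comp S - T =
        (e.symm.toContinuousLinearEquiv : Z →L[ℝ] Y).comp
          (S - (e.toContinuousLinearEquiv : Y →L[ℝ] Z).comp T) := by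
      ext x
      simp
    rw [h1, norm_comp_iso]
    exact hS3

theorem bpbp_transfer (e : Y ≃ₗᵢ[ℝ] Z) (h : BPBp X Z) : BPBp X Y := by
  intro ε hε
  obtain ⟨η, hη, h⟩ := h ε hε
  refine ⟨η, hη, fun T x₀ hT hx hTx => ?_⟩
  obtain ⟨x, S, hx1, hS1, hS2, hxx, hS3⟩ := h ((e.toContinuousLinearEquiv : Y →L[ℝ] Z).comp T) x₀
    (by rw [norm_comp_iso]; exact hT) hx (by
      show 1 - η < ‖e (T x₀)‖
      rw [e.norm_map]; exact hTx)
  refine ⟨x, (e.symm.toContinuousLinearEquiv : Z →L[ℝ] Y).comp S, hx1, ?_, ?_, hxx, ?_⟩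
  · rw [norm_comp_iso, hS1]
  · show ‖e.symm (S x)‖ = 1
    rw [e.symm.norm_map, hS2]
  · have h1 : (e.symm.toContinuousLinearEquiv : Z →L[ℝ] Y).comp S - T =
        (e.symm.toContinuousLinearEquiv : Z →L[ℝ] Y).comp
          (S - (e.toContinuousLinearEquiv : Y →L[ℝ] Z).comp T) := by
      ext x
      simp
    rw [h1, norm_comp_iso]
    exact hS3

end transfer

section beta

variable {X Y : Type*} [NormedAddCommGroup X] [NormedSpace ℝ X]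
  [NormedAddCommGroup Y] [NormedSpace ℝ Y]

/-- Property `β` with constant `0`. -/
structure Beta (I : Type*) (Y : Type*) [NormedAddCommGroup Y] [NormedSpace ℝ Y] where
  /-- the vectors -/
  y : I → Y
  /-- the functionals -/
  ys : I → (Y →L[ℝ] ℝ)
  hy : ∀ i, ‖y i‖ ≤ 1
  hys : ∀ i, ‖ys i‖ ≤ 1
  hself : ∀ i, ys i (y i) = 1
  hne : ∀ i j, i ≠ j → ys i (y j) = 0
  hnorm : ∀ (v : Y) (c : ℝ), 0 ≤ c → (∀ i, |ys i v| ≤ c) → ‖v‖ ≤ c

theorem Beta.perturb {I : Type*} (b : Beta I Y) (T : X →L[ℝ] Y) (hT : ‖T‖ ≤ 1) (i : I)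
    (g : X →L[ℝ] ℝ) (hg : ‖g‖ ≤ 1) :
    ∃ S : X →L[ℝ] Y, ‖S‖ ≤ 1 ∧ (∀ x, b.ys i (S x) = g x) ∧
      ‖S - T‖ ≤ ‖g - (b.ys i).comp T‖ := by
  let S : X →L[ℝ] Y := T + (g - (b.ys i).comp T).smulRight (b.y i)
  have hSi : ∀ x, b.ys i (S x) = g x := by
    intro x
    simp [S, b.hself]
  refine ⟨S, ?_, hSi, ?_⟩
  · apply ContinuousLinearMap.opNorm_le_bound _ zero_le_one
    intro x
    rw [one_mul]
    apply b.hnorm _ _ (norm_nonneg x)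
    intro j
    by_cases hij : j = i
    · subst hij
      rw [hSi]
      calc |g x| ≤ ‖g‖ * ‖x‖ := g.le_opNorm x
        _ ≤ 1 * ‖x‖ := by gcongr
        _ = ‖x‖ := one_mul _
    · have : b.ys j (S x) = b.ys j (T x) := by
        simp [S, b.hne j i hij]
      rw [this]
      calc |b.ys j (T x)| ≤ ‖b.ys j‖ * ‖T x‖ := (b.ys j).le_opNorm _
        _ ≤ 1 * (‖T‖ * ‖x‖) := by
            gcongr
            · exact b.hys j
            · exact T.le_opNorm x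
        _ ≤ 1 * (1 * ‖x‖) := by gcongr
        _ = ‖x‖ := by ring
  · have : S - T = (g - (b.ys i).comp T).smulRight (b.y i) := by
      simp [S]
    rw [this, ContinuousLinearMap.norm_smulRight_apply]
    calc ‖g - (b.ys i).comp T‖ * ‖b.y i‖ ≤ ‖g - (b.ys i).comp T‖ * 1 := by
          gcongr
          exact b.hy i
      _ = _ := mul_one _

theorem Beta.exists_large {I : Type*} (b : Beta I Y) {v : Y} {c : ℝ} (hc : 0 ≤ c)
    (h : c < ‖v‖) : ∃ i, c < |b.ys i v| := by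
  by_contra hcon
  push Not at hcon
  exact absurd (b.hnorm v c hc hcon) (not_le.mpr h)

theorem Beta.pointwise {I : Type*} (b : Beta I Y)
    (hX : ∀ ε : ℝ, 0 < ε → ∃ η : ℝ, 0 < η ∧ ∀ (g : X →L[ℝ] ℝ) (x₀ : X), ‖g‖ ≤ 1 → ‖x₀‖ = 1 →
      1 - η < |g x₀| → ∃ g' : X →L[ℝ] ℝ, ‖g'‖ ≤ 1 ∧ |g' x₀| = 1 ∧ ‖g' - g‖ < ε) :
    PointwiseBPB X Y := by
  intro ε hε
  obtain ⟨η, hη, h⟩ := hX ε hε
  refine ⟨min η 1, by positivity, fun T x₀ hT hx hTx => ?_⟩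
  have hm : min η 1 ≤ 1 := min_le_right _ _
  have hm2 : min η 1 ≤ η := min_le_left _ _
  obtain ⟨i, hi⟩ := b.exists_large (by linarith) hTx
  have hg : ‖(b.ys i).comp T‖ ≤ 1 := by
    refine le_trans ((b.ys i).opNorm_comp_le T) ?_
    rw [hT, mul_one]
    exact b.hys i
  obtain ⟨g', hg1, hg2, hg3⟩ := h ((b.ys i).comp T) x₀ hg hx (lt_of_le_of_lt (by linarith) hi)
  obtain ⟨S, hS1, hS2, hS3⟩ := b.perturb T hT.le i g' hg1
  have hSx : ‖S x₀‖ = 1 := by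
    apply le_antisymm
    · calc ‖S x₀‖ ≤ ‖S‖ * ‖x₀‖ := S.le_opNorm _
        _ ≤ 1 * 1 := by rw [hx]; gcongr
        _ = 1 := one_mul _
    · calc (1 : ℝ) = |b.ys i (S x₀)| := by rw [hS2, hg2]
        _ ≤ ‖b.ys i‖ * ‖S x₀‖ := (b.ys i).le_opNorm _
        _ ≤ 1 * ‖S x₀‖ := by gcongr; exact b.hys i
        _ = ‖S x₀‖ := one_mul _
  refine ⟨S, le_antisymm hS1 ?_, hSx, lt_of_le_of_lt hS3 hg3⟩
  have := S.le_opNorm x₀
  rwa [hSx, hx, mul_one] at this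

theorem Beta.bpbp {I : Type*} (b : Beta I Y)
    (hX : ∀ ε : ℝ, 0 < ε → ∃ η : ℝ, 0 < η ∧ ∀ (g : X →L[ℝ] ℝ) (x₀ : X), ‖g‖ ≤ 1 → ‖x₀‖ = 1 →
      1 - η < |g x₀| → ∃ (x : X) (g' : X →L[ℝ] ℝ), ‖x‖ = 1 ∧ ‖g'‖ ≤ 1 ∧ |g' x| = 1 ∧
        ‖x - x₀‖ < ε ∧ ‖g' - g‖ < ε) :
    BPBp X Y := by
  intro ε hε
  obtain ⟨η, hη, h⟩ := hX ε hε
  refine ⟨min η 1, by positivity, fun T x₀ hT hx hTx => ?_⟩
  have hm : min η 1 ≤ 1 := min_le_right _ _
  have hm2 : min η 1 ≤ η := min_le_left _ _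
  obtain ⟨i, hi⟩ := b.exists_large (by linarith) hTx
  have hg : ‖(b.ys i).comp T‖ ≤ 1 := by
    refine le_trans ((b.ys i).opNorm_comp_le T) ?_
    rw [hT, mul_one]
    exact b.hys i
  obtain ⟨x, g', hx1, hg1, hg2, hxx, hg3⟩ := h ((b.ys i).comp T) x₀ hg hx
    (lt_of_le_of_lt (by linarith) hi)
  obtain ⟨S, hS1, hS2, hS3⟩ := b.perturb T hT.le i g' hg1
  have hSx : ‖S x‖ = 1 := by
    apply le_antisymm
    · calc ‖S x‖ ≤ ‖S‖ * ‖x‖ := S.le_opNorm _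
        _ ≤ 1 * 1 := by rw [hx1]; gcongr
        _ = 1 := one_mul _
    · calc (1 : ℝ) = |b.ys i (S x)| := by rw [hS2, hg2]
        _ ≤ ‖b.ys i‖ * ‖S x‖ := (b.ys i).le_opNorm _
        _ ≤ 1 * ‖S x‖ := by gcongr; exact b.hys i
        _ = ‖S x‖ := one_mul _
  refine ⟨x, S, hx1, le_antisymm hS1 ?_, hSx, hxx, lt_of_le_of_lt hS3 hg3⟩
  have := S.le_opNorm x
  rwa [hSx, hx1, mul_one] at this

end beta

section compactness

variable {X : Type*} [NormedAddCommGroup X] [NormedSpace ℝ X] [FiniteDimensional ℝ X]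

/-- The Bishop-Phelps-Bollobas theorem for functionals in finite dimensions. -/
theorem functional_bpb (ε : ℝ) (hε : 0 < ε) :
    ∃ η : ℝ, 0 < η ∧ ∀ (g : X →L[ℝ] ℝ) (x₀ : X), ‖g‖ ≤ 1 → ‖x₀‖ = 1 →
      1 - η < |g x₀| → ∃ (x : X) (g' : X →L[ℝ] ℝ), ‖x‖ = 1 ∧ ‖g'‖ ≤ 1 ∧ |g' x| = 1 ∧
        ‖x - x₀‖ < ε ∧ ‖g' - g‖ < ε := by
  by_contra hcon
  push Not at hcon
  have hcon' : ∀ n : ℕ, ∃ (g : X →L[ℝ] ℝ) (x₀ : X), ‖g‖ ≤ 1 ∧ ‖x₀‖ = 1 ∧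
      1 - 1 / ((n : ℝ) + 1) < |g x₀| ∧ ∀ (x : X) (g' : X →L[ℝ] ℝ), ‖x‖ = 1 → ‖g'‖ ≤ 1 →
        |g' x| = 1 → ‖x - x₀‖ < ε → ε ≤ ‖g' - g‖ := fun n => hcon _ (by positivity)
  choose g x hg hx hgx hno using hcon'
  have : ProperSpace X := FiniteDimensional.proper_real X
  have : ProperSpace (X →L[ℝ] ℝ) := FiniteDimensional.proper_real _
  have hK : IsCompact ((Metric.closedBall (0 : X →L[ℝ] ℝ) 1) ×ˢ (Metric.closedBall (0 : X) 1)) :=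
    (isCompact_closedBall _ _).prod (isCompact_closedBall _ _)
  obtain ⟨⟨g₀, x₀⟩, -, φ, hφ, hlim⟩ := hK.tendsto_subseq (x := fun n => (g n, x n)) (fun n => by
    rw [Set.mem_prod, mem_closedBall_zero_iff, mem_closedBall_zero_iff]
    exact ⟨hg n, (hx n).le⟩)
  have hl1 : Tendsto (fun n => g (φ n)) atTop (𝓝 g₀) := (continuous_fst.tendsto _).comp hlim
  have hl2 : Tendsto (fun n => x (φ n)) atTop (𝓝 x₀) := (continuous_snd.tendsto _).comp hlim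
  have h1 : ‖g₀‖ ≤ 1 := le_of_tendsto' hl1.norm (fun n => hg _)
  have h2 : ‖x₀‖ = 1 := tendsto_nhds_unique hl2.norm (by simp only [hx]; exact tendsto_const_nhds)
  have h3 : Tendsto (fun n => |g (φ n) (x (φ n))|) atTop (𝓝 |g₀ x₀|) := by
    have hc : Continuous (fun p : (X →L[ℝ] ℝ) × X => |p.1 p.2|) := by
      have := isBoundedBilinearMap_apply (𝕜 := ℝ) (E := X) (F := ℝ)
      exact this.continuous.abs
    exact (hc.tendsto (g₀, x₀)).comp hlim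
  have h4 : 1 ≤ |g₀ x₀| := by
    have h5 : Tendsto (fun n => 1 - 1 / (((φ n : ℕ) : ℝ) + 1)) atTop (𝓝 (1 - 0)) :=
      tendsto_const_nhds.sub (tendsto_one_div_add_atTop_nhds_zero_nat.comp hφ.tendsto_atTop)
    rw [sub_zero] at h5
    exact le_of_tendsto_of_tendsto' h5 h3 (fun n => (hgx _).le)
  have h5 : |g₀ x₀| = 1 := by
    apply le_antisymm _ h4
    calc |g₀ x₀| ≤ ‖g₀‖ * ‖x₀‖ := g₀.le_opNorm _
      _ ≤ 1 * 1 := by rw [h2]; gcongr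
      _ = 1 := one_mul _
  have h6 : Tendsto (fun n => ‖x₀ - x (φ n)‖) atTop (𝓝 0) := by
    have := (hl2.const_sub x₀).norm
    simpa using this
  have h7 : Tendsto (fun n => ‖g₀ - g (φ n)‖) atTop (𝓝 0) := by
    have := (hl1.const_sub g₀).norm
    simpa using this
  obtain ⟨n, hn1, hn2⟩ := ((h6.eventually_lt_const hε).and (h7.eventually_lt_const hε)).exists
  exact absurd (hno (φ n) x₀ g₀ h2 h1 h5 hn1) (not_le.mpr hn2)

/-- The pointwise version for functionals on a smooth finite-dimensional space. -/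
theorem functional_pointwise
    (hsm : ∀ (x : X) (f g : X →L[ℝ] ℝ), ‖x‖ = 1 → ‖f‖ ≤ 1 → ‖g‖ ≤ 1 → f x = 1 → g x = 1 → f = g)
    (ε : ℝ) (hε : 0 < ε) :
    ∃ η : ℝ, 0 < η ∧ ∀ (g : X →L[ℝ] ℝ) (x₀ : X), ‖g‖ ≤ 1 → ‖x₀‖ = 1 →
      1 - η < |g x₀| → ∃ g' : X →L[ℝ] ℝ, ‖g'‖ ≤ 1 ∧ |g' x₀| = 1 ∧ ‖g' - g‖ < ε := by
  by_contra hcon
  push Not at hcon
  have hcon' : ∀ n : ℕ, ∃ (g : X →L[ℝ] ℝ) (x₀ : X) (f : X →L[ℝ] ℝ), ‖g‖ ≤ 1 ∧ ‖x₀‖ = 1 ∧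
      1 - 1 / ((n : ℝ) + 1) < g x₀ ∧ ‖f‖ ≤ 1 ∧ f x₀ = 1 ∧ ε ≤ ‖f - g‖ := by
    intro n
    obtain ⟨g, x₀, hg, hx, hgx, hno⟩ := hcon (1 / ((n : ℝ) + 1)) (by positivity)
    obtain ⟨f, hf1, hf2⟩ := exists_dual_vector'' ℝ x₀
    have hf3 : f x₀ = 1 := by simpa [hx] using hf2
    rcases abs_cases (g x₀) with ⟨habs, _⟩ | ⟨habs, _⟩
    · exact ⟨g, x₀, f, hg, hx, by rwa [habs] at hgx, hf1, hf3, hno f hf1 (by rw [hf3]; simp)⟩
    · refine ⟨-g, x₀, f, by rwa [norm_neg], hx, by rwa [habs] at hgx, hf1, hf3, ?_⟩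
      have := hno (-f) (by rwa [norm_neg]) (by simp [hf3])
      rw [← norm_neg] at this
      convert! this using 2
      abel
  choose g x f hg hx hgx hf hfx hno using hcon'
  have : ProperSpace X := FiniteDimensional.proper_real X
  have : ProperSpace (X →L[ℝ] ℝ) := FiniteDimensional.proper_real _
  have hK : IsCompact ((Metric.closedBall (0 : X →L[ℝ] ℝ) 1) ×ˢ
      ((Metric.closedBall (0 : X →L[ℝ] ℝ) 1) ×ˢ (Metric.closedBall (0 : X) 1))) :=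
    (isCompact_closedBall _ _).prod ((isCompact_closedBall _ _).prod (isCompact_closedBall _ _))
  obtain ⟨⟨g₀, f₀, x₀⟩, -, φ, hφ, hlim⟩ := hK.tendsto_subseq (x := fun n => (g n, f n, x n))
    (fun n => by
      simp only [Set.mem_prod, mem_closedBall_zero_iff]
      exact ⟨hg n, hf n, (hx n).le⟩)
  have hl1 : Tendsto (fun n => g (φ n)) atTop (𝓝 g₀) := (continuous_fst.tendsto _).comp hlim
  have hl12 : Tendsto (fun n => (f (φ n), x (φ n))) atTop (𝓝 (f₀, x₀)) :=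
    (continuous_snd.tendsto _).comp hlim
  have hl3 : Tendsto (fun n => f (φ n)) atTop (𝓝 f₀) := (continuous_fst.tendsto _).comp hl12
  have hl2 : Tendsto (fun n => x (φ n)) atTop (𝓝 x₀) := (continuous_snd.tendsto _).comp hl12
  have h1 : ‖g₀‖ ≤ 1 := le_of_tendsto' hl1.norm (fun n => hg _)
  have h1' : ‖f₀‖ ≤ 1 := le_of_tendsto' hl3.norm (fun n => hf _)
  have h2 : ‖x₀‖ = 1 := tendsto_nhds_unique hl2.norm (by simp only [hx]; exact tendsto_const_nhds)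
  have hc : Continuous (fun p : (X →L[ℝ] ℝ) × X => p.1 p.2) :=
    (isBoundedBilinearMap_apply (𝕜 := ℝ) (E := X) (F := ℝ)).continuous
  have h3 : Tendsto (fun n => g (φ n) (x (φ n))) atTop (𝓝 (g₀ x₀)) :=
    (hc.tendsto (g₀, x₀)).comp (hl1.prodMk_nhds hl2)
  have h3' : f₀ x₀ = 1 := by
    have h4 : Tendsto (fun n => f (φ n) (x (φ n))) atTop (𝓝 (f₀ x₀)) :=
      (hc.tendsto (f₀, x₀)).comp hl12
    simp only [hfx] at h4
    exact tendsto_nhds_unique h4 tendsto_const_nhds |>.symm ▸ rfl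
  have h4 : 1 ≤ g₀ x₀ := by
    have h5 : Tendsto (fun n => 1 - 1 / (((φ n : ℕ) : ℝ) + 1)) atTop (𝓝 (1 - 0)) :=
      tendsto_const_nhds.sub (tendsto_one_div_add_atTop_nhds_zero_nat.comp hφ.tendsto_atTop)
    rw [sub_zero] at h5
    exact le_of_tendsto_of_tendsto' h5 h3 (fun n => (hgx _).le)
  have h5 : g₀ x₀ = 1 := by
    apply le_antisymm _ h4
    calc g₀ x₀ ≤ |g₀ x₀| := le_abs_self _
      _ ≤ ‖g₀‖ * ‖x₀‖ := g₀.le_opNorm _
      _ ≤ 1 * 1 := by rw [h2]; gcongr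
      _ = 1 := one_mul _
  have h6 := hsm x₀ f₀ g₀ h2 h1' h1 h3' h5
  have h7 : Tendsto (fun n => ‖f (φ n) - g (φ n)‖) atTop (𝓝 0) := by
    have := (hl3.sub hl1).norm
    rwa [h6, sub_self, norm_zero] at this
  have := ge_of_tendsto' h7 (fun n => hno (φ n))
  linarith

end compactness

end Pool.Agent.Q203.BPB
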