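import Pool.Agent.Q203.BetaExt

/-!
# Pairs without the (pointwise) Bishop-Phelps-Bollobas property
-/

set_option autoImplicit false

namespace Pool.Agent.Q203.BPBFail

open Filter Topology Pool.Agent.Q203.BPB
open scoped ENNReal InnerProductSpace

section sums

variable {X : Type} [NormedAddCommGroup X] [NormedSpace ℝ X] {V : ℕ → Type}
  [∀ n, NormedAddCommGroup (V n)] [∀ n, NormedSpace ℝ (V n)]

/-- An operator into one summand. -/
noncomputable def into (n : ℕ) (T : X →L[ℝ] V n) : X →L[ℝ] lp V ∞ :=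
  LinearMap.mkContinuous
    { toFun := fun x => lp.single ∞ n (T x)
      map_add' := fun x y => by
        rw [map_add, lp.single_add]
      map_smul' := fun c x => by
        rw [map_smul, lp.single_smul, RingHom.id_apply] } ‖T‖ (fun x => by
      show ‖lp.single ∞ n (T x)‖ ≤ ‖T‖ * ‖x‖
      rw [lp.norm_single (by norm_num)]
      exact T.le_opNorm x)

theorem into_apply (n : ℕ) (T : X →L[ℝ] V n) (x : X) : into n T x = lp.single ∞ n (T x) := rfl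

theorem norm_into (n : ℕ) (T : X →L[ℝ] V n) : ‖into n T‖ = ‖T‖ := by
  apply le_antisymm
  · exact LinearMap.mkContinuous_norm_le _ (norm_nonneg _) _
  · apply ContinuousLinearMap.opNorm_le_bound _ (norm_nonneg _)
    intro x
    have := (into n T).le_opNorm x
    rwa [into_apply, lp.norm_single (by norm_num)] at this

/-- The component of an operator. -/
noncomputable def comp (n : ℕ) (S : X →L[ℝ] lp V ∞) : X →L[ℝ] V n :=
  LinearMap.mkContinuous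
    { toFun := fun x => (S x : ∀ n, V n) n
      map_add' := fun x y => by
        rw [map_add]; rfl
      map_smul' := fun c x => by
        rw [map_smul]; rfl } ‖S‖ (fun x =>
      le_trans (lp.norm_apply_le_norm (by norm_num) (S x) n) (S.le_opNorm x))

theorem comp_apply (n : ℕ) (S : X →L[ℝ] lp V ∞) (x : X) : comp n S x = (S x : ∀ n, V n) n := rfl

theorem norm_comp_le (n : ℕ) (S : X →L[ℝ] lp V ∞) : ‖comp n S‖ ≤ ‖S‖ :=
  LinearMap.mkContinuous_norm_le _ (norm_nonneg _) _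

theorem comp_sub_into (n : ℕ) (S : X →L[ℝ] lp V ∞) (T : X →L[ℝ] V n) :
    ‖comp n S - T‖ ≤ ‖S - into n T‖ := by
  have : comp n S - T = comp n (S - into n T) := by
    ext x
    show (S x : ∀ n, V n) n - T x = ((S x - into n T x : lp V ∞) : ∀ n, V n) n
    rw [lp.coeFn_sub, Pi.sub_apply, into_apply, lp.single_apply_self]
  rw [this]
  exact norm_comp_le n _

theorem comp_norm_one (n : ℕ) (S : X →L[ℝ] lp V ∞) (T : X →L[ℝ] V n) (x : X) (hx : ‖x‖ = 1)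
    (hSx : ‖S x‖ = 1) (hST : ‖S - into n T‖ < 1) : ‖comp n S x‖ = 1 := by
  have hle : ‖comp n S x‖ ≤ 1 := by
    rw [← hSx]
    exact lp.norm_apply_le_norm (by norm_num) (S x) n
  apply le_antisymm hle
  by_contra hlt
  push Not at hlt
  have h1 : ‖S x‖ ≤ max ‖comp n S x‖ ‖S - into n T‖ := by
    apply lp.norm_le_of_forall_le (le_trans (norm_nonneg _) (le_max_left _ _))
    intro k
    by_cases hk : k = n
    · subst hk
      exact le_max_left _ _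
    · apply le_trans _ (le_max_right _ _)
      have e1 : (S x : ∀ n, V n) k = ((S - into n T) x : ∀ n, V n) k := by
        show (S x : ∀ n, V n) k = ((S x - into n T x : lp V ∞) : ∀ n, V n) k
        rw [lp.coeFn_sub, Pi.sub_apply, into_apply, lp.single_apply, Pi.single_eq_of_ne hk,
          sub_zero]
      rw [e1]
      refine le_trans (lp.norm_apply_le_norm (by norm_num) _ k) ?_
      have := (S - into n T).le_opNorm x
      rwa [hx, mul_one] at this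
  rw [hSx] at h1
  exact absurd h1 (not_le.mpr (max_lt hlt hST))

theorem not_pointwise (T : ∀ n, X →L[ℝ] V n) (hT : ∀ n, ‖T n‖ = 1) (x₀ : X) (hx₀ : ‖x₀‖ = 1)
    (hlim : Tendsto (fun n => ‖T n x₀‖) atTop (𝓝 1)) (ε₀ : ℝ) (hε₀ : 0 < ε₀) (hε₁ : ε₀ ≤ 1)
    (hno : ∀ n (S : X →L[ℝ] V n), ‖S‖ ≤ 1 → ‖S x₀‖ = 1 → ε₀ ≤ ‖S - T n‖) :
    ¬ PointwiseBPB X (lp V ∞) := by
  intro h
  obtain ⟨η, hη, h⟩ := h ε₀ hε₀
  obtain ⟨n, hn⟩ := (hlim.eventually_const_lt (show 1 - η < 1 by linarith)).exists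
  obtain ⟨S, hS1, hS2, hS3⟩ := h (into n (T n)) x₀ (by rw [norm_into, hT]) hx₀ (by
    rw [into_apply, lp.norm_single (by norm_num)]
    exact hn)
  have h1 := comp_norm_one n S (T n) x₀ hx₀ hS2 (by linarith)
  have h2 := hno n (comp n S) (le_trans (norm_comp_le n S) hS1.le) h1
  have h3 := comp_sub_into n S (T n)
  linarith

theorem not_bpbp (T : ∀ n, X →L[ℝ] V n) (hT : ∀ n, ‖T n‖ = 1) (x₀ : X) (hx₀ : ‖x₀‖ = 1)
    (hlim : Tendsto (fun n => ‖T n x₀‖) atTop (𝓝 1)) (ε₀ : ℝ) (hε₀ : 0 < ε₀) (hε₁ : ε₀ ≤ 1)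
    (hno : ∀ n (S : X →L[ℝ] V n) (x : X), ‖x‖ = 1 → ‖x - x₀‖ < ε₀ → ‖S‖ ≤ 1 → ‖S x‖ = 1 →
      ε₀ ≤ ‖S - T n‖) :
    ¬ BPBp X (lp V ∞) := by
  intro h
  obtain ⟨η, hη, h⟩ := h ε₀ hε₀
  obtain ⟨n, hn⟩ := (hlim.eventually_const_lt (show 1 - η < 1 by linarith)).exists
  obtain ⟨x, S, hx, hS1, hS2, hxx, hS3⟩ := h (into n (T n)) x₀ (by rw [norm_into, hT]) hx₀ (by
    rw [into_apply, lp.norm_single (by norm_num)]
    exact hn)
  have h1 := comp_norm_one n S (T n) x hx hS2 (by linarith)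
  have h2 := hno n (comp n S) x hx hxx (le_trans (norm_comp_le n S) hS1.le) h1
  have h3 := comp_sub_into n S (T n)
  linarith

end sums

/-- The ambient three-dimensional space with norm `max (√(a² + c²), |b|)`. -/
abbrev G : Type := EuclideanSpace ℝ (Fin 2) × ℝ

/-- The two-dimensional spaces with norm `max (√(a² + b² / (n + 1)), |b|)`. -/
def VV (n : ℕ) : Submodule ℝ G where
  carrier := {g | g.1 1 * Real.sqrt (n + 1) = g.2}
  add_mem' := by
    intro a b ha hb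
    have ha' : a.1 1 * Real.sqrt (n + 1) = a.2 := ha
    have hb' : b.1 1 * Real.sqrt (n + 1) = b.2 := hb
    show (a.1 1 + b.1 1) * Real.sqrt (n + 1) = a.2 + b.2
    rw [add_mul, ha', hb']
  zero_mem' := by
    show (0 : ℝ) * Real.sqrt (n + 1) = 0
    rw [zero_mul]
  smul_mem' := by
    intro c a ha
    have ha' : a.1 1 * Real.sqrt (n + 1) = a.2 := ha
    show (c * a.1 1) * Real.sqrt (n + 1) = c * a.2
    rw [mul_assoc, ha']

theorem mem_VV {n : ℕ} {g : G} : g ∈ VV n ↔ g.1 1 * Real.sqrt (n + 1) = g.2 := Iff.rfl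

theorem norm_sq_two (u : EuclideanSpace ℝ (Fin 2)) : ‖u‖ ^ 2 = u 0 ^ 2 + u 1 ^ 2 := by
  rw [EuclideanSpace.norm_sq_eq, Fin.sum_univ_two, Real.norm_eq_abs, Real.norm_eq_abs, sq_abs,
    sq_abs]

theorem norm_VV {n : ℕ} (g : VV n) : ‖g‖ = max ‖(g : G).1‖ |(g : G).2| := rfl

/-- The vector `(a, c; c √(n+1))` of `VV n`. -/
noncomputable def mkV (n : ℕ) (a c : ℝ) : VV n :=
  ⟨(WithLp.toLp 2 ![a, c], c * Real.sqrt (n + 1)), rfl⟩

theorem mkV_add (n : ℕ) (a c a' c' : ℝ) : mkV n (a + a') (c + c') = mkV n a c + mkV n a' c' := by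
  apply Subtype.ext
  apply Prod.ext
  · ext i
    fin_cases i <;> rfl
  · show (c + c') * Real.sqrt (n + 1) = c * Real.sqrt (n + 1) + c' * Real.sqrt (n + 1)
    ring

theorem mkV_smul (n : ℕ) (r a c : ℝ) : mkV n (r * a) (r * c) = r • mkV n a c := by
  apply Subtype.ext
  apply Prod.ext
  · ext i
    fin_cases i <;> rfl
  · show (r * c) * Real.sqrt (n + 1) = r * (c * Real.sqrt (n + 1))
    ring

theorem norm_mkV (n : ℕ) (a c : ℝ) :
    ‖mkV n a c‖ = max (Real.sqrt (a ^ 2 + c ^ 2)) |c * Real.sqrt (n + 1)| := by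
  rw [norm_VV]
  congr 1
  rw [← Real.sqrt_sq (norm_nonneg _), norm_sq_two]
  rfl

instance (n : ℕ) : CompleteSpace (VV n) := FiniteDimensional.complete ℝ _

/-- The space failing both properties. -/
abbrev ZZ : Type := lp (fun n => VV n) ∞

instance : Nontrivial ZZ := by
  refine ⟨0, lp.single ∞ 0 (mkV 0 1 0), ?_⟩
  intro h
  have h1 : ‖(lp.single ∞ 0 (mkV 0 1 0) : ZZ)‖ = 0 := by rw [← h, norm_zero]
  rw [lp.norm_single (by norm_num), norm_mkV] at h1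
  norm_num at h1

section question1

/-- The space `ℓ₄²`. -/
abbrev X4 : Type := PiLp 4 (fun _ : Fin 2 => ℝ)

instance : Fact ((1 : ℝ≥0∞) ≤ 4) := ⟨by norm_num⟩

theorem norm_X4 (x : X4) : ‖x‖ ^ 4 = x 0 ^ 4 + x 1 ^ 4 := by
  have h := PiLp.norm_eq_of_nat (p := 4) 4 (by norm_num) x
  rw [h, Fin.sum_univ_two]
  have h0 : (0 : ℝ) ≤ ‖x 0‖ ^ 4 + ‖x 1‖ ^ 4 := by positivity
  have h1 : ((‖x 0‖ ^ 4 + ‖x 1‖ ^ 4) ^ (1 / ((4 : ℕ) : ℝ))) ^ 4 = ‖x 0‖ ^ 4 + ‖x 1‖ ^ 4 := by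
    rw [← Real.rpow_natCast, ← Real.rpow_mul h0]
    norm_num
  rw [h1, Real.norm_eq_abs, Real.norm_eq_abs]
  have e : ∀ a : ℝ, |a| ^ 4 = a ^ 4 := fun a => by
    rw [show (4 : ℕ) = 2 * 2 by norm_num, pow_mul, pow_mul, sq_abs]
  rw [e, e]

/-- The first unit vector of `ℓ₄²`. -/
noncomputable def vec (a b : ℝ) : X4 := WithLp.toLp 4 ![a, b]

theorem norm_vec (a b : ℝ) : ‖vec a b‖ ^ 4 = a ^ 4 + b ^ 4 := norm_X4 (vec a b)

theorem pow4_inj {a b : ℝ} (ha : 0 ≤ a) (hb : 0 ≤ b) (h : a ^ 4 = b ^ 4) : a = b :=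
  (pow_left_inj₀ ha hb (by norm_num)).mp h

theorem X4_formula (x : X4) (f : X4 →L[ℝ] ℝ) (hx : ‖x‖ = 1) (hf : ‖f‖ ≤ 1) (hfx : f x = 1)
    (y : X4) : f y = x 0 ^ 3 * y 0 + x 1 ^ 3 * y 1 := by
  set p : ℝ → ℝ := fun t => (x 0 + t * y 0) ^ 4 + (x 1 + t * y 1) ^ 4 - (1 + t * f y) ^ 4 with hp
  have hpos : ∀ t, 0 ≤ p t := by
    intro t
    have h1 : |f (x + t • y)| ≤ ‖x + t • y‖ := by
      calc |f (x + t • y)| ≤ ‖f‖ * ‖x + t • y‖ := f.le_opNorm _
        _ ≤ 1 * ‖x + t • y‖ := by gcongr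
        _ = _ := one_mul _
    have h2 : |f (x + t • y)| ^ 4 ≤ ‖x + t • y‖ ^ 4 := by gcongr
    rw [norm_X4, map_add, map_smul, hfx, smul_eq_mul] at h2
    have e : ∀ a : ℝ, |a| ^ 4 = a ^ 4 := fun a => by
      rw [show (4 : ℕ) = 2 * 2 by norm_num, pow_mul, pow_mul, sq_abs]
    rw [e] at h2
    simp only [hp]
    have h3 : (x + t • y) 0 = x 0 + t * y 0 := rfl
    have h4 : (x + t • y) 1 = x 1 + t * y 1 := rfl
    rw [h3, h4] at h2
    linarith
  have h0 : p 0 = 0 := by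
    have h1 := norm_X4 x
    rw [hx] at h1
    simp only [hp]
    linarith
  have hder : HasDerivAt p (4 * (x 0 ^ 3 * y 0 + x 1 ^ 3 * y 1) - 4 * f y) 0 := by
    have e1 : ∀ a b : ℝ, HasDerivAt (fun t : ℝ => (a + t * b) ^ 4) (4 * a ^ 3 * b) 0 := by
      intro a b
      have h1 : HasDerivAt (fun t : ℝ => a + t * b) b 0 := by
        simpa using ((hasDerivAt_id (0 : ℝ)).mul_const b).const_add a
      have h2 := h1.pow 4
      refine h2.congr_deriv ?_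
      norm_num
    have h1 := ((e1 (x 0) (y 0)).add (e1 (x 1) (y 1))).sub (e1 1 (f y))
    refine h1.congr_deriv ?_
    ring
  have hmin : IsLocalMin p 0 := Filter.Eventually.of_forall fun t => by
    show p 0 ≤ p t
    rw [h0]
    exact hpos t
  have := hmin.hasDerivAt_eq_zero hder
  linarith

/-- The parameter `1 / (4 (n + 1))`. -/
noncomputable def dd (n : ℕ) : ℝ := 1 / (4 * (n + 1))

theorem dd_pos (n : ℕ) : 0 < dd n := by unfold dd; positivity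

theorem dd_le (n : ℕ) : dd n ≤ 1 / 4 := by
  unfold dd
  apply one_div_le_one_div_of_le (by norm_num)
  have : (0 : ℝ) ≤ n := n.cast_nonneg
  linarith

/-- The parameter `c_n` with `c_n⁴ + d_n² = 1`. -/
noncomputable def cc (n : ℕ) : ℝ := Real.sqrt (Real.sqrt (1 - dd n ^ 2))

theorem cc_pow (n : ℕ) : cc n ^ 4 = 1 - dd n ^ 2 := by
  have h := dd_le n
  have h2 := dd_pos n
  have h3 : 0 ≤ 1 - dd n ^ 2 := by nlinarith
  unfold cc
  rw [show (4 : ℕ) = 2 * 2 by norm_num, pow_mul, Real.sq_sqrt (Real.sqrt_nonneg _),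
    Real.sq_sqrt h3]

theorem cc_nonneg (n : ℕ) : 0 ≤ cc n := Real.sqrt_nonneg _

theorem tendsto_dd : Tendsto dd atTop (𝓝 0) := by
  have h : Tendsto (fun n : ℕ => (1 / 4 : ℝ) * (1 / ((n : ℝ) + 1))) atTop (𝓝 ((1 / 4) * 0)) :=
    tendsto_one_div_add_atTop_nhds_zero_nat.const_mul _
  rw [mul_zero] at h
  refine h.congr (fun n => ?_)
  unfold dd
  field_simp

theorem tendsto_cc : Tendsto cc atTop (𝓝 1) := by
  have h1 : Tendsto (fun n => Real.sqrt (Real.sqrt (1 - dd n ^ 2))) atTop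
      (𝓝 (Real.sqrt (Real.sqrt (1 - 0 ^ 2)))) :=
    ((tendsto_dd.pow 2).const_sub 1).sqrt.sqrt
  norm_num at h1
  exact h1

/-- `√(d_n) · √(n+1) = 1/2`. -/
theorem sqrt_dd (n : ℕ) : Real.sqrt (dd n) * Real.sqrt (n + 1) = 1 / 2 := by
  rw [← Real.sqrt_mul (dd_pos n).le]
  have : dd n * (n + 1) = (1 / 2) ^ 2 := by
    unfold dd
    field_simp
    norm_num
  rw [this, Real.sqrt_sq (by norm_num)]

/-- The operators `T_n (x₁, x₂) = (c_n x₁, x₂ √d_n)`. -/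
noncomputable def T4l (n : ℕ) : X4 →ₗ[ℝ] VV n where
  toFun x := mkV n (cc n * x 0) (Real.sqrt (dd n) * x 1)
  map_add' x y := by
    rw [← mkV_add]
    congr 1
    · show cc n * (x 0 + y 0) = _
      ring
    · show Real.sqrt (dd n) * (x 1 + y 1) = _
      ring
  map_smul' r x := by
    rw [RingHom.id_apply, ← mkV_smul]
    congr 1
    · show cc n * (r * x 0) = _
      ring
    · show Real.sqrt (dd n) * (r * x 1) = _
      ring

theorem T4_bound (n : ℕ) (x : X4) : ‖T4l n x‖ ≤ 1 * ‖x‖ := by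
  show ‖mkV n (cc n * x 0) (Real.sqrt (dd n) * x 1)‖ ≤ 1 * ‖x‖
  rw [norm_mkV, one_mul]
  have hx := norm_X4 x
  have hd := dd_pos n
  apply max_le
  · apply Real.sqrt_le_iff.mpr
    refine ⟨norm_nonneg _, ?_⟩
    have h1 : ((cc n * x 0) ^ 2 + (Real.sqrt (dd n) * x 1) ^ 2) =
        cc n ^ 2 * x 0 ^ 2 + dd n * x 1 ^ 2 := by
      rw [mul_pow, mul_pow, Real.sq_sqrt hd.le]
    rw [h1]
    have h2 : (cc n ^ 2 * x 0 ^ 2 + dd n * x 1 ^ 2) ^ 2 ≤ (‖x‖ ^ 2) ^ 2 := by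
      have h3 : (‖x‖ ^ 2) ^ 2 = (cc n ^ 4 + dd n ^ 2) * (x 0 ^ 4 + x 1 ^ 4) := by
        rw [cc_pow, ← hx]
        ring
      rw [h3]
      nlinarith [sq_nonneg (cc n ^ 2 * x 1 ^ 2 - dd n * x 0 ^ 2)]
    exact le_of_sq_le_sq h2 (by positivity)
  · have h1 : Real.sqrt (dd n) * x 1 * Real.sqrt (n + 1) = (1 / 2) * x 1 := by
      rw [← sqrt_dd n]
      ring
    rw [h1, abs_mul]
    have h2 : |x 1| ≤ ‖x‖ := by
      have h3 : |x 1| ^ 4 ≤ ‖x‖ ^ 4 := by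
        rw [hx, show (4 : ℕ) = 2 * 2 by norm_num, pow_mul, pow_mul, pow_mul, sq_abs]
        nlinarith [sq_nonneg (x 0 ^ 2)]
      exact le_of_pow_le_pow_left₀ (by norm_num) (norm_nonneg _) h3
    have h3 : |(1 / 2 : ℝ)| = 1 / 2 := by norm_num
    rw [h3]
    nlinarith [abs_nonneg (x 1)]

/-- The operators as continuous maps. -/
noncomputable def T4 (n : ℕ) : X4 →L[ℝ] VV n := (T4l n).mkContinuous 1 (T4_bound n)

theorem T4_apply (n : ℕ) (x : X4) : T4 n x = mkV n (cc n * x 0) (Real.sqrt (dd n) * x 1) := rfl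

theorem norm_T4 (n : ℕ) : ‖T4 n‖ = 1 := by
  apply le_antisymm
  · exact LinearMap.mkContinuous_norm_le _ zero_le_one _
  · have hd := dd_pos n
    have hsq : Real.sqrt (dd n) ^ 4 = dd n ^ 2 := by
      rw [show (4 : ℕ) = 2 * 2 by norm_num, pow_mul, Real.sq_sqrt hd.le]
    have hx : ‖vec (cc n) (Real.sqrt (dd n))‖ = 1 := by
      apply pow4_inj (norm_nonneg _) zero_le_one
      rw [norm_vec, cc_pow, hsq]
      ring
    have h := (T4 n).le_opNorm (vec (cc n) (Real.sqrt (dd n)))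
    rw [hx, mul_one] at h
    refine le_trans ?_ h
    rw [T4_apply, norm_mkV]
    apply le_trans _ (le_max_left _ _)
    have h1 : (cc n * (vec (cc n) (Real.sqrt (dd n))) 0) ^ 2 +
        (Real.sqrt (dd n) * (vec (cc n) (Real.sqrt (dd n))) 1) ^ 2 = 1 := by
      show (cc n * cc n) ^ 2 + (Real.sqrt (dd n) * Real.sqrt (dd n)) ^ 2 = 1
      rw [Real.mul_self_sqrt hd.le]
      have := cc_pow n
      nlinarith
    rw [h1, Real.sqrt_one]

theorem T4_e1 (n : ℕ) : ‖T4 n (vec 1 0)‖ = cc n := by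
  rw [T4_apply, norm_mkV]
  show max (Real.sqrt ((cc n * 1) ^ 2 + (Real.sqrt (dd n) * 0) ^ 2))
    |Real.sqrt (dd n) * 0 * Real.sqrt (n + 1)| = cc n
  rw [mul_zero, zero_mul, abs_zero, mul_one]
  norm_num
  rw [Real.sqrt_sq (cc_nonneg n)]

theorem norm_e1 : ‖vec 1 0‖ = 1 := by
  apply pow4_inj (norm_nonneg _) zero_le_one
  rw [norm_vec]
  norm_num

theorem no_S (n : ℕ) (S : X4 →L[ℝ] VV n) (hS : ‖S‖ ≤ 1) (hS1 : ‖S (vec 1 0)‖ = 1) :
    1 / 4 ≤ ‖S - T4 n‖ := by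
  by_contra hlt
  push Not at hlt
  -- second coordinates
  have hsnd : ∀ x : X4, ‖x‖ = 1 → |((S x : VV n) : G).2 - ((T4 n x : VV n) : G).2| < 1 / 4 := by
    intro x hx
    have h1 := (S - T4 n).le_opNorm x
    rw [hx, mul_one] at h1
    have h2 : |((S x : VV n) : G).2 - ((T4 n x : VV n) : G).2| ≤ ‖(S - T4 n) x‖ := by
      rw [norm_VV]
      exact le_max_right _ _
    linarith
  have hn2 : ‖vec 0 1‖ = 1 := by
    apply pow4_inj (norm_nonneg _) zero_le_one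
    rw [norm_vec]
    norm_num
  have h1 := hsnd (vec 1 0) norm_e1
  have h2 := hsnd (vec 0 1) hn2
  have e1 : ((T4 n (vec 1 0) : VV n) : G).2 = 0 := by
    show Real.sqrt (dd n) * 0 * Real.sqrt (n + 1) = 0
    ring
  have e2 : ((T4 n (vec 0 1) : VV n) : G).2 = 1 / 2 := by
    show Real.sqrt (dd n) * 1 * Real.sqrt (n + 1) = 1 / 2
    rw [mul_one, sqrt_dd]
  rw [e1, sub_zero] at h1
  rw [e2] at h2
  set u : EuclideanSpace ℝ (Fin 2) := ((S (vec 1 0) : VV n) : G).1 with hu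
  set v : EuclideanSpace ℝ (Fin 2) := ((S (vec 0 1) : VV n) : G).1 with hv
  have hun : ‖u‖ = 1 := by
    rw [norm_VV] at hS1
    rcases max_choice ‖u‖ |((S (vec 1 0) : VV n) : G).2| with h | h
    · rw [← hu, h] at hS1
      exact hS1
    · rw [← hu, h] at hS1
      linarith
  have hvne : 0 < ‖v‖ ^ 2 := by
    have hb : ((S (vec 0 1) : VV n) : G).2 ≠ 0 := by
      intro h0
      rw [h0] at h2
      norm_num at h2
    have hm : v 1 * Real.sqrt (n + 1) = ((S (vec 0 1) : VV n) : G).2 := (S (vec 0 1)).2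
    have hv0 : v ≠ 0 := by
      intro h0
      apply hb
      rw [← hm, h0]
      show (0 : ℝ) * Real.sqrt (n + 1) = 0
      ring
    have := norm_pos_iff.mpr hv0
    positivity
  have hkey : ∀ t : ℝ, ‖u + t • v‖ ^ 4 ≤ 1 + t ^ 4 := by
    intro t
    have h3 : ‖u + t • v‖ ≤ ‖vec 1 t‖ := by
      have e3 : S (vec 1 t) = S (vec 1 0) + t • S (vec 0 1) := by
        rw [← map_smul, ← map_add]
        congr 1
        ext i
        fin_cases i
        · show (1 : ℝ) = 1 + t * 0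
          ring
        · show t = 0 + t * 1
          ring
      have h4 : ‖u + t • v‖ ≤ ‖S (vec 1 t)‖ := by
        rw [norm_VV, e3]
        exact le_max_left _ _
      calc ‖u + t • v‖ ≤ ‖S (vec 1 t)‖ := h4
        _ ≤ ‖S‖ * ‖vec 1 t‖ := S.le_opNorm _
        _ ≤ 1 * ‖vec 1 t‖ := by gcongr
        _ = _ := one_mul _
    have h4 : ‖u + t • v‖ ^ 4 ≤ ‖vec 1 t‖ ^ 4 := by gcongr
    rw [norm_vec] at h4
    linarith
  have hexp : ∀ t : ℝ, ‖u + t • v‖ ^ 2 = 1 + 2 * t * ⟪u, v⟫_ℝ + t ^ 2 * ‖v‖ ^ 2 := by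
    intro t
    rw [norm_add_sq_real, hun, inner_smul_right, norm_smul, mul_pow, Real.norm_eq_abs, sq_abs]
    ring
  set β := ‖v‖ ^ 2 with hβ
  set α := ⟪u, v⟫_ℝ with hα
  have h5 := hkey (Real.sqrt β)
  have h6 := hkey (-Real.sqrt β)
  have e5 : ‖u + (Real.sqrt β) • v‖ ^ 4 = (1 + 2 * Real.sqrt β * α + β * β) ^ 2 := by
    rw [show (4 : ℕ) = 2 * 2 by norm_num, pow_mul, hexp, Real.sq_sqrt hvne.le]
  have e6 : ‖u + (-Real.sqrt β) • v‖ ^ 4 = (1 - 2 * Real.sqrt β * α + β * β) ^ 2 := by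
    rw [show (4 : ℕ) = 2 * 2 by norm_num, pow_mul, hexp, neg_sq, Real.sq_sqrt hvne.le]
    ring
  have e7 : Real.sqrt β ^ 4 = β ^ 2 := by
    rw [show (4 : ℕ) = 2 * 2 by norm_num, pow_mul, Real.sq_sqrt hvne.le]
  have e8 : (-Real.sqrt β) ^ 4 = β ^ 2 := by
    rw [show (4 : ℕ) = 2 * 2 by norm_num, pow_mul, neg_sq, Real.sq_sqrt hvne.le]
  rw [e5, e7] at h5
  rw [e6, e8] at h6
  nlinarith [sq_nonneg (2 * Real.sqrt β * α), sq_nonneg (β * β)]

theorem not_pointwise_X4 : ¬ PointwiseBPB X4 ZZ :=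
  not_pointwise T4 norm_T4 (vec 1 0) norm_e1 (by simp only [T4_e1]; exact tendsto_cc) (1 / 4)
    (by norm_num) (by norm_num) no_S

end question1

section question2

/-- The space `ℓ₁²`. -/
abbrev X1 : Type := PiLp 1 (fun _ : Fin 2 => ℝ)

theorem norm_X1 (x : X1) : ‖x‖ = |x 0| + |x 1| := by
  have h := PiLp.norm_eq_of_nat (p := 1) 1 (by norm_num) x
  rw [h, Fin.sum_univ_two]
  simp

/-- The parameter `√(1 - d_n)` with `d_n = 1 / (4 (n + 1))`. -/
noncomputable def c1 (n : ℕ) : ℝ := Real.sqrt (1 - dd n)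

theorem c1_sq (n : ℕ) : c1 n ^ 2 = 1 - dd n := by
  unfold c1
  rw [Real.sq_sqrt]
  have := dd_le n
  linarith

theorem c1_nonneg (n : ℕ) : 0 ≤ c1 n := Real.sqrt_nonneg _

theorem tendsto_c1 : Tendsto c1 atTop (𝓝 1) := by
  have h1 : Tendsto (fun n => Real.sqrt (1 - dd n)) atTop (𝓝 (Real.sqrt (1 - 0))) :=
    (tendsto_dd.const_sub 1).sqrt
  norm_num at h1
  exact h1

/-- The operators with `T_n e₁ = (c, √d)` and `T_n e₂ = (c, -√d)`. -/
noncomputable def T1l (n : ℕ) : X1 →ₗ[ℝ] VV n where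
  toFun x := mkV n (c1 n * (x 0 + x 1)) (Real.sqrt (dd n) * (x 0 - x 1))
  map_add' x y := by
    rw [← mkV_add]
    congr 1
    · show c1 n * (x 0 + y 0 + (x 1 + y 1)) = _
      ring
    · show Real.sqrt (dd n) * (x 0 + y 0 - (x 1 + y 1)) = _
      ring
  map_smul' r x := by
    rw [RingHom.id_apply, ← mkV_smul]
    congr 1
    · show c1 n * (r * x 0 + r * x 1) = _
      ring
    · show Real.sqrt (dd n) * (r * x 0 - r * x 1) = _
      ring

theorem T1_bound (n : ℕ) (x : X1) : ‖T1l n x‖ ≤ 1 * ‖x‖ := by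
  show ‖mkV n (c1 n * (x 0 + x 1)) (Real.sqrt (dd n) * (x 0 - x 1))‖ ≤ 1 * ‖x‖
  rw [norm_mkV, one_mul]
  have hx := norm_X1 x
  have hd := dd_pos n
  have hd2 := dd_le n
  have ha : |x 0 + x 1| ≤ ‖x‖ := by
    rw [hx]
    exact abs_add_le _ _
  have hb : |x 0 - x 1| ≤ ‖x‖ := by
    rw [hx]
    exact abs_sub _ _
  have ha2 : (x 0 + x 1) ^ 2 ≤ ‖x‖ ^ 2 := by
    rw [← sq_abs (x 0 + x 1)]
    gcongr
  have hb2 : (x 0 - x 1) ^ 2 ≤ ‖x‖ ^ 2 := by
    rw [← sq_abs (x 0 - x 1)]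
    gcongr
  apply max_le
  · apply Real.sqrt_le_iff.mpr
    refine ⟨norm_nonneg _, ?_⟩
    rw [mul_pow, mul_pow, Real.sq_sqrt hd.le, c1_sq]
    nlinarith
  · have h1 : Real.sqrt (dd n) * (x 0 - x 1) * Real.sqrt (n + 1) = (1 / 2) * (x 0 - x 1) := by
      rw [← sqrt_dd n]
      ring
    rw [h1, abs_mul]
    have h3 : |(1 / 2 : ℝ)| = 1 / 2 := by norm_num
    rw [h3]
    have := abs_nonneg (x 0 - x 1)
    linarith

/-- The operators as continuous maps. -/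
noncomputable def T1 (n : ℕ) : X1 →L[ℝ] VV n := (T1l n).mkContinuous 1 (T1_bound n)

theorem T1_apply (n : ℕ) (x : X1) :
    T1 n x = mkV n (c1 n * (x 0 + x 1)) (Real.sqrt (dd n) * (x 0 - x 1)) := rfl

/-- Vectors of `ℓ₁²`. -/
noncomputable def vec1 (a b : ℝ) : X1 := WithLp.toLp 1 ![a, b]

theorem norm_vec1 (a b : ℝ) : ‖vec1 a b‖ = |a| + |b| := norm_X1 (vec1 a b)

theorem norm_T1 (n : ℕ) : ‖T1 n‖ = 1 := by
  apply le_antisymm
  · exact LinearMap.mkContinuous_norm_le _ zero_le_one _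
  · have hd := dd_pos n
    have hx : ‖vec1 1 0‖ = 1 := by
      rw [norm_vec1]
      norm_num
    have h := (T1 n).le_opNorm (vec1 1 0)
    rw [hx, mul_one] at h
    refine le_trans ?_ h
    rw [T1_apply, norm_mkV]
    apply le_trans _ (le_max_left _ _)
    have h1 : (c1 n * ((vec1 1 0) 0 + (vec1 1 0) 1)) ^ 2 +
        (Real.sqrt (dd n) * ((vec1 1 0) 0 - (vec1 1 0) 1)) ^ 2 = 1 := by
      show (c1 n * (1 + 0)) ^ 2 + (Real.sqrt (dd n) * (1 - 0)) ^ 2 = 1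
      rw [mul_pow, mul_pow, Real.sq_sqrt hd.le, c1_sq]
      ring
    rw [h1, Real.sqrt_one]

theorem T1_x0 (n : ℕ) : ‖T1 n (vec1 (1 / 2) (1 / 2))‖ = c1 n := by
  rw [T1_apply, norm_mkV]
  show max (Real.sqrt ((c1 n * (1 / 2 + 1 / 2)) ^ 2 + (Real.sqrt (dd n) * (1 / 2 - 1 / 2)) ^ 2))
    |Real.sqrt (dd n) * (1 / 2 - 1 / 2) * Real.sqrt (n + 1)| = c1 n
  norm_num
  rw [Real.sqrt_sq (c1_nonneg n)]

theorem norm_x0 : ‖vec1 (1 / 2) (1 / 2)‖ = 1 := by
  rw [norm_vec1]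
  norm_num

theorem no_S1 (n : ℕ) (S : X1 →L[ℝ] VV n) (x : X1) (hx : ‖x‖ = 1)
    (hxx : ‖x - vec1 (1 / 2) (1 / 2)‖ < 1 / 8) (hS : ‖S‖ ≤ 1) (hSx : ‖S x‖ = 1) :
    1 / 8 ≤ ‖S - T1 n‖ := by
  by_contra hlt
  push Not at hlt
  have hsnd : ∀ x : X1, ‖x‖ = 1 → |((S x : VV n) : G).2 - ((T1 n x : VV n) : G).2| < 1 / 8 := by
    intro x hx
    have h1 := (S - T1 n).le_opNorm x
    rw [hx, mul_one] at h1
    have h2 : |((S x : VV n) : G).2 - ((T1 n x : VV n) : G).2| ≤ ‖(S - T1 n) x‖ := by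
      rw [norm_VV]
      exact le_max_right _ _
    linarith
  have hn1 : ‖vec1 1 0‖ = 1 := by rw [norm_vec1]; norm_num
  have hn2 : ‖vec1 0 1‖ = 1 := by rw [norm_vec1]; norm_num
  have h1 := hsnd _ hn1
  have h2 := hsnd _ hn2
  have e1 : ((T1 n (vec1 1 0) : VV n) : G).2 = 1 / 2 := by
    show Real.sqrt (dd n) * (1 - 0) * Real.sqrt (n + 1) = 1 / 2
    rw [← sqrt_dd n]
    ring
  have e2 : ((T1 n (vec1 0 1) : VV n) : G).2 = -(1 / 2) := by
    show Real.sqrt (dd n) * (0 - 1) * Real.sqrt (n + 1) = -(1 / 2)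
    rw [← sqrt_dd n]
    ring
  rw [e1] at h1
  rw [e2] at h2
  set u : EuclideanSpace ℝ (Fin 2) := ((S (vec1 1 0) : VV n) : G).1 with hu
  set v : EuclideanSpace ℝ (Fin 2) := ((S (vec1 0 1) : VV n) : G).1 with hv
  set b₁ := ((S (vec1 1 0) : VV n) : G).2 with hb₁
  set b₂ := ((S (vec1 0 1) : VV n) : G).2 with hb₂
  have hul : ‖u‖ ≤ 1 := by
    have h3 : ‖u‖ ≤ ‖S (vec1 1 0)‖ := by
      rw [norm_VV]
      exact le_max_left _ _
    have h4 := S.le_opNorm (vec1 1 0)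
    rw [hn1, mul_one] at h4
    linarith
  have hvl : ‖v‖ ≤ 1 := by
    have h3 : ‖v‖ ≤ ‖S (vec1 0 1)‖ := by
      rw [norm_VV]
      exact le_max_left _ _
    have h4 := S.le_opNorm (vec1 0 1)
    rw [hn2, mul_one] at h4
    linarith
  -- the coordinates of `x`
  set l := x 0 with hl
  set m := x 1 with hm
  have hsum : |l| + |m| = 1 := by rw [← hx, norm_X1]
  have hdist : |l - 1 / 2| + |m - 1 / 2| < 1 / 8 := by
    have := norm_X1 (x - vec1 (1 / 2) (1 / 2))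
    rw [this] at hxx
    exact hxx
  have hl1 := abs_lt.mp (lt_of_le_of_lt (le_add_of_nonneg_right (abs_nonneg (m - 1 / 2))) hdist)
  have hm1 := abs_lt.mp (lt_of_le_of_lt (le_add_of_nonneg_left (abs_nonneg (l - 1 / 2))) hdist)
  have hlpos : 0 < l := by linarith [hl1.1]
  have hmpos : 0 < m := by linarith [hm1.1]
  rw [abs_of_pos hlpos, abs_of_pos hmpos] at hsum
  have hxe : x = l • vec1 1 0 + m • vec1 0 1 := by
    ext i
    fin_cases i
    · show l = l * 1 + m * 0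
      ring
    · show m = l * 0 + m * 1
      ring
  have hSe : S x = l • S (vec1 1 0) + m • S (vec1 0 1) := by
    conv_lhs => rw [hxe]
    rw [map_add, map_smul, map_smul]
  have hmax : max ‖l • u + m • v‖ |l * b₁ + m * b₂| = 1 := by
    rw [← hSx, norm_VV, hSe]
    rfl
  have h1' := abs_lt.mp h1
  have h2' := abs_lt.mp h2
  have hb : |l * b₁ + m * b₂| < 1 := by
    have k1 : l * b₁ ≤ l * (5 / 8) := mul_le_mul_of_nonneg_left (by linarith [h1'.2]) hlpos.le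
    have k2 : l * 0 ≤ l * b₁ := mul_le_mul_of_nonneg_left (by linarith [h1'.1]) hlpos.le
    have k3 : m * b₂ ≤ m * 0 := mul_le_mul_of_nonneg_left (by linarith [h2'.2]) hmpos.le
    have k4 : m * (-(5 / 8)) ≤ m * b₂ := mul_le_mul_of_nonneg_left (by linarith [h2'.1]) hmpos.le
    rw [abs_lt]
    constructor
    · linarith
    · linarith
  have hn : ‖l • u + m • v‖ = 1 := by
    rcases max_choice ‖l • u + m • v‖ |l * b₁ + m * b₂| with h | h
    · rw [h] at hmax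
      exact hmax
    · rw [h] at hmax
      linarith
  have hsq : ‖l • u + m • v‖ ^ 2 = l ^ 2 * ‖u‖ ^ 2 + 2 * (l * m) * ⟪u, v⟫_ℝ + m ^ 2 * ‖v‖ ^ 2 := by
    rw [norm_add_sq_real, inner_smul_left, inner_smul_right, norm_smul, norm_smul, mul_pow,
      mul_pow, Real.norm_eq_abs, Real.norm_eq_abs, sq_abs, sq_abs]
    simp only [conj_trivial]
    ring
  rw [hn, one_pow] at hsq
  have hu2 : ‖u‖ ^ 2 ≤ 1 := pow_le_one₀ (norm_nonneg u) hul
  have hv2 : ‖v‖ ^ 2 ≤ 1 := pow_le_one₀ (norm_nonneg v) hvl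
  have hlm : 0 < l * m := mul_pos hlpos hmpos
  have hin : 1 ≤ ⟪u, v⟫_ℝ := by
    have h3 : (l + m) ^ 2 = 1 := by rw [hsum]; norm_num
    have h4 : l ^ 2 * ‖u‖ ^ 2 ≤ l ^ 2 * 1 := mul_le_mul_of_nonneg_left hu2 (sq_nonneg l)
    have h5 : m ^ 2 * ‖v‖ ^ 2 ≤ m ^ 2 * 1 := mul_le_mul_of_nonneg_left hv2 (sq_nonneg m)
    have h6 : 2 * (l * m) * 1 ≤ 2 * (l * m) * ⟪u, v⟫_ℝ := by linarith
    exact le_of_mul_le_mul_left h6 (by positivity)
  have huv : ‖u - v‖ ^ 2 ≤ 0 := by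
    rw [norm_sub_sq_real]
    linarith
  have huv0 : u = v := by
    have : ‖u - v‖ = 0 := by
      have := le_antisymm huv (sq_nonneg _)
      exact pow_eq_zero_iff (two_ne_zero) |>.mp this
    exact sub_eq_zero.mp (norm_eq_zero.mp this)
  have hmem1 : u 1 * Real.sqrt (n + 1) = b₁ := (S (vec1 1 0)).2
  have hmem2 : v 1 * Real.sqrt (n + 1) = b₂ := (S (vec1 0 1)).2
  rw [← huv0, hmem1] at hmem2
  linarith [h1'.1, h1'.2, h2'.1, h2'.2]

theorem not_bpbp_X1 : ¬ BPBp X1 ZZ :=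
  not_bpbp T1 norm_T1 (vec1 (1 / 2) (1 / 2)) norm_x0 (by simp only [T1_x0]; exact tendsto_c1)
    (1 / 8) (by norm_num) (by norm_num) no_S1

end question2

end Pool.Agent.Q203.BPBFail
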