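import Pool.Agent.Q203.BPB

/-!
# Every real Banach space is one-complemented in a space with property `β` (constant `0`)
-/

set_option autoImplicit false

namespace Pool.Agent.Q203.BetaExt

open Filter Topology Pool.Agent.Q203.BPB
open scoped ENNReal

variable (Z : Type) [NormedAddCommGroup Z] [NormedSpace ℝ Z]

/-- The index set: functionals of norm at most one, each repeated infinitely often. -/
abbrev Idx : Type := {f : Z →L[ℝ] ℝ // ‖f‖ ≤ 1} × ℕ

/-- The bounded families indexed by `Idx Z`. -/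
abbrev Big : Type := lp (fun _ : Idx Z => ℝ) ∞

variable {Z}

/-- Families tending to zero at infinity. -/
def C0 (w : Idx Z → ℝ) : Prop := ∀ ε : ℝ, 0 < ε → {i | ε ≤ |w i|}.Finite

theorem C0.add {w v : Idx Z → ℝ} (hw : C0 w) (hv : C0 v) : C0 (fun i => w i + v i) := by
  intro ε hε
  apply ((hw (ε / 2) (by positivity)).union (hv (ε / 2) (by positivity))).subset
  intro i hi
  have hi' : ε ≤ |w i + v i| := hi
  by_contra hcon
  simp only [Set.mem_union, Set.mem_ofPred_eq, not_or, not_le] at hcon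
  have := abs_add_le (w i) (v i)
  linarith [hcon.1, hcon.2]

theorem C0.smul {w : Idx Z → ℝ} (hw : C0 w) (c : ℝ) : C0 (fun i => c * w i) := by
  intro ε hε
  apply (hw (ε / (|c| + 1)) (by positivity)).subset
  intro i hi
  have hi' : ε ≤ |c * w i| := hi
  show ε / (|c| + 1) ≤ |w i|
  rw [div_le_iff₀ (by positivity)]
  rw [abs_mul] at hi'
  nlinarith [abs_nonneg (w i), abs_nonneg c]

theorem C0.zero : C0 (fun _ : Idx Z => (0 : ℝ)) := by
  intro ε hε
  convert! Set.finite_empty (α := Idx Z)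
  ext i
  simp [hε]

theorem apply_le (f : {f : Z →L[ℝ] ℝ // ‖f‖ ≤ 1}) (z : Z) : |f.1 z| ≤ ‖z‖ := by
  calc |f.1 z| ≤ ‖f.1‖ * ‖z‖ := f.1.le_opNorm z
    _ ≤ 1 * ‖z‖ := by gcongr; exact f.2
    _ = ‖z‖ := one_mul _

/-- The canonical embedding as a linear map. -/
noncomputable def jl : Z →ₗ[ℝ] Big Z where
  toFun z := ⟨fun i => i.1.1 z, memℓp_infty_iff.mpr ⟨‖z‖, by
    rintro _ ⟨i, rfl⟩
    exact apply_le i.1 z⟩⟩
  map_add' z z' := by
    ext i
    exact map_add i.1.1 z z'
  map_smul' c z := by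
    ext i
    exact map_smul i.1.1 c z

theorem jl_apply (z : Z) (i : Idx Z) : (jl z : Idx Z → ℝ) i = i.1.1 z := rfl

theorem jl_norm (z : Z) : ‖jl z‖ = ‖z‖ := by
  apply le_antisymm
  · apply lp.norm_le_of_forall_le (norm_nonneg z)
    intro i
    exact apply_le i.1 z
  · obtain ⟨f, hf1, hf2⟩ := exists_dual_vector'' ℝ z
    have h := lp.norm_apply_le_norm (by norm_num : (∞ : ℝ≥0∞) ≠ 0) (jl z) (⟨f, hf1⟩, 0)
    rw [jl_apply] at h
    have h2 : f z = ‖z‖ := hf2
    rw [h2] at h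
    simpa using h

theorem norm_le_of_C0 (w : Big Z) (z : Z) (h : C0 (fun i => (w : Idx Z → ℝ) i - i.1.1 z)) :
    ‖z‖ ≤ ‖w‖ := by
  obtain ⟨f, hf1, hf2⟩ := exists_dual_vector'' ℝ z
  have hfz : f z = ‖z‖ := hf2
  apply le_of_forall_pos_le_add
  intro ε hε
  have hfin := h ε hε
  have hinf : (Set.range (fun k : ℕ => ((⟨f, hf1⟩, k) : Idx Z))).Infinite :=
    Set.infinite_range_of_injective (fun a b hab => (Prod.mk.inj hab).2)
  obtain ⟨i, hi, hi2⟩ := (hinf.sdiff hfin).nonempty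
  obtain ⟨k, rfl⟩ := hi
  simp only [Set.mem_ofPred_eq, not_le] at hi2
  have h3 := lp.norm_apply_le_norm (by norm_num : (∞ : ℝ≥0∞) ≠ 0) w (⟨f, hf1⟩, k)
  rw [Real.norm_eq_abs] at h3
  have h4 : |f z| ≤ |(w : Idx Z → ℝ) (⟨f, hf1⟩, k)| + |(w : Idx Z → ℝ) (⟨f, hf1⟩, k) - f z| := by
    have := abs_sub ((w : Idx Z → ℝ) (⟨f, hf1⟩, k)) ((w : Idx Z → ℝ) (⟨f, hf1⟩, k) - f z)
    have e : (w : Idx Z → ℝ) (⟨f, hf1⟩, k) - ((w : Idx Z → ℝ) (⟨f, hf1⟩, k) - f z) = f z := by
      ring
    rwa [e] at this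
  rw [hfz, abs_of_nonneg (norm_nonneg z)] at h4
  rw [hfz] at hi2
  linarith

variable (Z) in
/-- The space `Y = J(Z) + c₀`. -/
noncomputable def YY : Submodule ℝ (Big Z) where
  carrier := {w | ∃ z : Z, C0 (fun i => (w : Idx Z → ℝ) i - i.1.1 z)}
  add_mem' := by
    rintro w v ⟨z, hz⟩ ⟨z', hz'⟩
    refine ⟨z + z', ?_⟩
    have := hz.add hz'
    convert! this using 2 with i
    simp only [lp.coeFn_add, Pi.add_apply, map_add]
    ring
  zero_mem' := ⟨0, by
    convert! C0.zero (Z := Z) using 2 with i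
    simp⟩
  smul_mem' := by
    rintro c w ⟨z, hz⟩
    refine ⟨c • z, ?_⟩
    have := hz.smul c
    convert! this using 2 with i
    simp only [lp.coeFn_smul, Pi.smul_apply, map_smul, smul_eq_mul]
    ring

theorem C0_unique (w : Big Z) (z z' : Z) (h : C0 (fun i => (w : Idx Z → ℝ) i - i.1.1 z))
    (h' : C0 (fun i => (w : Idx Z → ℝ) i - i.1.1 z')) : z = z' := by
  have h1 : C0 (fun i => ((0 : Big Z) : Idx Z → ℝ) i - i.1.1 (z - z')) := by
    have := h.add (h'.smul (-1))
    convert! this using 2 with i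
    simp only [lp.coeFn_zero, Pi.zero_apply, map_sub]
    ring
  have h2 := norm_le_of_C0 0 (z - z') h1
  rw [norm_zero] at h2
  exact sub_eq_zero.mp (norm_le_zero_iff.mp h2)

/-- The projection onto `Z`. -/
noncomputable def QQ : YY Z →L[ℝ] Z :=
  LinearMap.mkContinuous
    { toFun := fun w => Classical.choose w.2
      map_add' := fun w v => by
        apply C0_unique ((w + v : YY Z) : Big Z) _ _ (Classical.choose_spec (w + v).2)
        have := (Classical.choose_spec w.2).add (Classical.choose_spec v.2)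
        convert! this using 2 with i
        simp only [Submodule.coe_add, lp.coeFn_add, Pi.add_apply, map_add]
        ring
      map_smul' := fun c w => by
        apply C0_unique ((c • w : YY Z) : Big Z) _ _ (Classical.choose_spec (c • w).2)
        have := (Classical.choose_spec w.2).smul c
        convert! this using 2 with i
        simp only [Submodule.coe_smul, lp.coeFn_smul, Pi.smul_apply, map_smul, smul_eq_mul,
          RingHom.id_apply]
        ring } 1 (fun w => by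
      rw [one_mul]
      exact norm_le_of_C0 (w : Big Z) _ (Classical.choose_spec w.2))

theorem QQ_spec (w : YY Z) : C0 (fun i => ((w : Big Z) : Idx Z → ℝ) i - i.1.1 (QQ w)) :=
  Classical.choose_spec w.2

theorem QQ_eq (w : YY Z) (z : Z) (h : C0 (fun i => ((w : Big Z) : Idx Z → ℝ) i - i.1.1 z)) :
    QQ w = z := C0_unique _ _ _ (QQ_spec w) h

theorem QQ_norm (w : YY Z) : ‖QQ w‖ ≤ ‖w‖ := norm_le_of_C0 (w : Big Z) _ (QQ_spec w)

/-- The embedding of `Z` into `YY Z`. -/
noncomputable def jj : Z →ₗᵢ[ℝ] YY Z where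
  toLinearMap := LinearMap.codRestrict (YY Z) jl (fun z => ⟨z, by
    convert! C0.zero (Z := Z) using 2 with i
    rw [jl_apply, sub_self]⟩)
  norm_map' := jl_norm

theorem QQ_jj (z : Z) : QQ (jj z) = z := by
  apply QQ_eq
  convert! C0.zero (Z := Z) using 2 with i
  show i.1.1 z - i.1.1 z = 0
  rw [sub_self]

/-- The copy of `Z` in `YY Z`. -/
noncomputable def copy (Z : Type) [NormedAddCommGroup Z] [NormedSpace ℝ Z] :
    Submodule ℝ (YY Z) := LinearMap.range (jj (Z := Z)).toLinearMap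

/-- The isometry of `Z` with its copy. -/
noncomputable def isoCopy : Z ≃ₗᵢ[ℝ] copy Z := (jj (Z := Z)).equivRange

/-- The norm-one projection. -/
noncomputable def PP (Z : Type) [NormedAddCommGroup Z] [NormedSpace ℝ Z] : YY Z →L[ℝ] YY Z :=
  (jj (Z := Z)).toContinuousLinearMap.comp QQ

theorem PP_apply (w : YY Z) : PP Z w = jj (QQ w) := rfl

theorem PP_jj (z : Z) : PP Z (jj z) = jj z := by
  rw [PP_apply, QQ_jj]

theorem norm_PP_le : ‖PP Z‖ ≤ 1 := by
  apply ContinuousLinearMap.opNorm_le_bound _ zero_le_one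
  intro y
  rw [PP_apply, one_mul, LinearIsometry.norm_map]
  exact QQ_norm y

theorem norm_PP [Nontrivial Z] : ‖PP Z‖ = 1 := by
  apply le_antisymm norm_PP_le
  obtain ⟨z, hz⟩ := exists_norm_eq Z (zero_le_one (α := ℝ))
  have h := (PP Z).le_opNorm (jj z)
  rw [PP_jj, LinearIsometry.norm_map, hz, mul_one] at h
  exact h

theorem oneComplemented_copy [Nontrivial Z] : OneComplemented (copy Z) := by
  refine ⟨PP Z, ?_, norm_PP, ?_⟩
  · intro y
    rw [PP_apply y, PP_jj]
  · apply Set.eq_of_subset_of_subset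
    · rintro _ ⟨w, rfl⟩
      rw [PP_apply]
      exact LinearMap.mem_range_self _ (QQ w)
    · intro y hy
      obtain ⟨z, hz⟩ := LinearMap.mem_range.mp hy
      refine ⟨jj z, ?_⟩
      rw [PP_jj]
      exact hz

theorem isClosed_YY [CompleteSpace Z] : IsClosed ((YY Z : Submodule ℝ (Big Z)) : Set (Big Z)) := by
  apply isClosed_of_closure_subset
  intro w hw
  obtain ⟨u, hu, hlim⟩ := mem_closure_iff_seq_limit.mp hw
  let z : ℕ → Z := fun n => QQ ⟨u n, hu n⟩
  have hzz : ∀ n m, ‖z n - z m‖ ≤ ‖u n - u m‖ := by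
    intro n m
    have : z n - z m = QQ (⟨u n, hu n⟩ - ⟨u m, hu m⟩) := (map_sub QQ _ _).symm
    rw [this]
    exact QQ_norm _
  have hcauchy : CauchySeq z := by
    rw [Metric.cauchySeq_iff]
    intro ε hε
    obtain ⟨N, hN⟩ := Metric.cauchySeq_iff.mp hlim.cauchySeq ε hε
    refine ⟨N, fun m hm n hn => ?_⟩
    have := hN m hm n hn
    rw [dist_eq_norm] at this ⊢
    exact lt_of_le_of_lt (hzz m n) this
  obtain ⟨z₀, hz₀⟩ := cauchySeq_tendsto_of_complete hcauchy
  refine ⟨z₀, fun ε hε => ?_⟩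
  have h1 : ∀ᶠ n in atTop, ‖w - u n‖ < ε / 3 := by
    have : Tendsto (fun n => ‖w - u n‖) atTop (𝓝 0) := by
      have := (hlim.const_sub w).norm
      simpa using this
    exact this.eventually_lt_const (by positivity)
  have h2 : ∀ᶠ n in atTop, ‖z n - z₀‖ < ε / 3 := by
    have : Tendsto (fun n => ‖z n - z₀‖) atTop (𝓝 0) := by
      have := (hz₀.sub_const z₀).norm
      simpa using this
    exact this.eventually_lt_const (by positivity)
  obtain ⟨n, hn1, hn2⟩ := (h1.and h2).exists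
  apply (QQ_spec ⟨u n, hu n⟩ (ε / 3) (by positivity)).subset
  intro i hi
  have hi' : ε ≤ |(w : Idx Z → ℝ) i - i.1.1 z₀| := hi
  show ε / 3 ≤ |(u n : Idx Z → ℝ) i - i.1.1 (z n)|
  have e1 : |(w : Idx Z → ℝ) i - (u n : Idx Z → ℝ) i| ≤ ‖w - u n‖ := by
    have := lp.norm_apply_le_norm (by norm_num : (∞ : ℝ≥0∞) ≠ 0) (w - u n) i
    simpa using this
  have e2 : |i.1.1 (z n) - i.1.1 z₀| ≤ ‖z n - z₀‖ := by
    rw [← map_sub]
    exact apply_le i.1 _
  have e3 : (w : Idx Z → ℝ) i - i.1.1 z₀ = ((w : Idx Z → ℝ) i - (u n : Idx Z → ℝ) i) +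
      ((u n : Idx Z → ℝ) i - i.1.1 (z n)) + (i.1.1 (z n) - i.1.1 z₀) := by ring
  rw [e3] at hi'
  have e4 := abs_add_le (((w : Idx Z → ℝ) i - (u n : Idx Z → ℝ) i) +
      ((u n : Idx Z → ℝ) i - i.1.1 (z n))) (i.1.1 (z n) - i.1.1 z₀)
  have e5 := abs_add_le ((w : Idx Z → ℝ) i - (u n : Idx Z → ℝ) i)
      ((u n : Idx Z → ℝ) i - i.1.1 (z n))
  linarith

instance [CompleteSpace Z] : CompleteSpace (YY Z) := isClosed_YY.completeSpace_coe

open Classical in
/-- Property `β` with constant `0` for `YY Z`. -/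
noncomputable def betaYY (Z : Type) [NormedAddCommGroup Z] [NormedSpace ℝ Z] :
    Beta (Idx Z) (YY Z) where
  y i := ⟨lp.single ∞ i (1 : ℝ), 0, by
    intro ε hε
    apply (Set.finite_singleton i).subset
    intro j hj
    by_contra hne
    have hne' : j ≠ i := hne
    have hj' : ε ≤ |(lp.single ∞ i (1 : ℝ) : Big Z) j - j.1.1 0| := hj
    rw [lp.single_apply, Pi.single_eq_of_ne hne', map_zero, sub_zero, abs_zero] at hj'
    linarith⟩
  ys i := LinearMap.mkContinuous
    { toFun := fun w => ((w : Big Z) : Idx Z → ℝ) i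
      map_add' := fun _ _ => rfl
      map_smul' := fun _ _ => rfl } 1 (fun w => by
        rw [one_mul]
        exact lp.norm_apply_le_norm (by norm_num : (∞ : ℝ≥0∞) ≠ 0) (w : Big Z) i)
  hy i := by
    show ‖(lp.single ∞ i (1 : ℝ) : Big Z)‖ ≤ 1
    rw [lp.norm_single (by norm_num)]
    simp
  hys i := LinearMap.mkContinuous_norm_le _ zero_le_one _
  hself i := by
    show (lp.single ∞ i (1 : ℝ) : Big Z) i = 1
    rw [lp.single_apply_self]
  hne i j hij := by
    show (lp.single ∞ j (1 : ℝ) : Big Z) i = 0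
    rw [lp.single_apply, Pi.single_eq_of_ne hij]
  hnorm v c hc h := lp.norm_le_of_forall_le hc h

theorem exists_copy (Z : Type) [NormedAddCommGroup Z] [NormedSpace ℝ Z] [Nontrivial Z] :
    ∃ (Y₁ : Submodule ℝ (YY Z)), Nonempty (Z ≃ₗᵢ[ℝ] Y₁) ∧ OneComplemented Y₁ :=
  ⟨copy Z, ⟨isoCopy⟩, oneComplemented_copy⟩

/-- Every nonzero real Banach space is isometric to a one-complemented subspace of a Banach space
with property `β` (constant `0`). -/
theorem exists_ext (Z : Type) [NormedAddCommGroup Z] [NormedSpace ℝ Z] [CompleteSpace Z]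
    [Nontrivial Z] :
    ∃ (Y : Type) (_ : NormedAddCommGroup Y) (_ : NormedSpace ℝ Y) (_ : CompleteSpace Y)
    (Y₁ : Submodule ℝ Y) (I : Type), OneComplemented Y₁ ∧ Nonempty (Beta I Y) ∧
    Nonempty (Z ≃ₗᵢ[ℝ] Y₁) := by
  obtain ⟨Y₁, e, h1⟩ := exists_copy Z
  exact ⟨YY Z, inferInstance, inferInstance, inferInstance, Y₁, Idx Z, h1, ⟨betaYY Z⟩, e⟩

end Pool.Agent.Q203.BetaExt
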