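import Mathlib

/-!
Normal Carleman operators: auxiliary facts.
-/

open MeasureTheory Set
open scoped ENNReal InnerProductSpace ComplexConjugate

namespace Pool.Agent.Q203.Carleman

/-- For a normal operator, `N* f = N h` for some `h` with `‖h‖ ≤ ‖f‖`. -/
theorem exists_h {E : Type*} [NormedAddCommGroup E] [InnerProductSpace ℂ E] [CompleteSpace E]
    (N : E →L[ℂ] E) (hN : IsStarNormal N) (f : E) :
    ∃ h : E, ‖h‖ ≤ ‖f‖ ∧ N h = N.adjoint f := by
  have hnorm : ∀ v, ‖N v‖ = ‖N.adjoint v‖ :=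
    ContinuousLinearMap.isStarNormal_iff_norm_eq_adjoint.1 hN
  let L : E →ₗ[ℂ] E := (N.adjoint : E →L[ℂ] E).toLinearMap
  obtain ⟨s, hs⟩ := L.rangeRestrict.exists_rightInverse_of_surjective L.range_rangeRestrict
  have hs' : ∀ u, N.adjoint (s u) = (u : E) := by
    intro u
    have := LinearMap.congr_fun hs u
    have h2 := congrArg Subtype.val this
    exact h2
  let φ : LinearMap.range L →ₗ[ℂ] ℂ := (innerSL ℂ f).toLinearMap ∘ₗ N.toLinearMap ∘ₗ s
  have hφa : ∀ u, φ u = inner ℂ f (N (s u)) := fun u => rfl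
  have hφ : ∀ u, ‖φ u‖ ≤ ‖f‖ * ‖u‖ := by
    intro u
    rw [hφa]
    refine (norm_inner_le_norm _ _).trans ?_
    rw [hnorm, hs']
    rfl
  obtain ⟨Φ, hΦ, hΦn⟩ := exists_extension_norm_eq (LinearMap.range L) (φ.mkContinuous ‖f‖ hφ)
  refine ⟨(InnerProductSpace.toDual ℂ E).symm Φ, ?_, ?_⟩
  · rw [LinearIsometryEquiv.norm_map, hΦn]
    exact LinearMap.mkContinuous_norm_le _ (norm_nonneg _) _
  · refine ext_inner_right ℂ fun g => ?_
    rw [ContinuousLinearMap.adjoint_inner_left, ← ContinuousLinearMap.adjoint_inner_right,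
      InnerProductSpace.toDual_symm_apply]
    have hmem : N.adjoint g ∈ LinearMap.range L := ⟨g, rfl⟩
    have h1 := hΦ ⟨N.adjoint g, hmem⟩
    simp only [LinearMap.mkContinuous_apply] at h1
    rw [h1, hφa]
    have h2 : N (s ⟨N.adjoint g, hmem⟩) - N g = 0 := by
      rw [← map_sub, ← norm_eq_zero, hnorm, map_sub, hs']
      simp
    rw [sub_eq_zero.1 h2]

variable {X : Type*} [MeasurableSpace X] {μ : Measure X}

theorem eLpNorm_two_sq (v : X → ℂ) : eLpNorm v 2 μ ^ 2 = ∫⁻ x, ‖v x‖ₑ ^ 2 ∂μ := by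
  have h := eLpNorm_nnreal_pow_eq_lintegral (f := v) (μ := μ) (p := 2) (by norm_num)
  have h1 : ((2 : NNReal) : ℝ) = 2 := by norm_num
  have h2 : ((2 : NNReal) : ℝ≥0∞) = 2 := by norm_num
  rw [h1, h2] at h
  simpa [ENNReal.rpow_ofNat] using h

/-- Cauchy-Schwarz. -/
theorem cs (f g : X → ℂ) (hf : AEStronglyMeasurable f μ) (hg : AEStronglyMeasurable g μ) :
    ‖∫ x, f x * g x ∂μ‖ₑ ≤ eLpNorm f 2 μ * eLpNorm g 2 μ := by
  refine (enorm_integral_le_lintegral_enorm _).trans ?_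
  have h := eLpNorm_smul_le_mul_eLpNorm (p := 2) (q := 2) (r := 1) hg hf
  rw [eLpNorm_one_eq_lintegral_enorm] at h
  simpa using h

section

variable [SigmaFinite μ] (N : Lp ℂ 2 μ →L[ℂ] Lp ℂ 2 μ) (ν : X → X → ℂ)
  (hν : StronglyMeasurable (Function.uncurry ν))
  (hN : ∀ f : Lp ℂ 2 μ, ∀ᵐ x ∂μ, N f x = ∫ y, ν x y * f y ∂μ)

include hν hN in
theorem ae_bound (hnormal : IsStarNormal N) (f : Lp ℂ 2 μ) :
    ∀ᵐ y ∂μ, ‖(N.adjoint f) y‖ₑ ≤ eLpNorm (ν y) 2 μ * ‖f‖ₑ := by
  obtain ⟨h, hle, hh⟩ := exists_h N hnormal f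
  rw [← hh]
  filter_upwards [hN h] with y hy
  rw [hy]
  refine (cs _ _ ?_ (Lp.aestronglyMeasurable h)).trans ?_
  · exact (hν.comp_measurable measurable_prodMk_left).aestronglyMeasurable
  · gcongr
    rw [← Lp.enorm_def]
    exact enorm_le_iff_norm_le.2 hle

include hν in
theorem prod_integrable (A E : Set X)
    (hAμ : μ A < ∞) (hEμ : μ E < ∞) (c : ℝ≥0∞) (hc : c < ∞)
    (hK : ∀ x ∈ A, ∫⁻ y, ‖ν x y‖ₑ ^ 2 ∂μ ≤ c) (φ : Lp ℂ 2 μ) :
    Integrable (fun p : X × X => φ p.1 * conj (ν p.1 p.2))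
      ((μ.restrict A).prod (μ.restrict E)) := by
  have : IsFiniteMeasure (μ.restrict A) := ⟨by simpa using hAμ⟩
  have : IsFiniteMeasure (μ.restrict E) := ⟨by simpa using hEμ⟩
  have h1 : MemLp (fun p : X × X => φ p.1) 2 ((μ.restrict A).prod (μ.restrict E)) := by
    have h2 : MemLp φ 2 (μ.restrict A) := (Lp.memLp φ).restrict A
    exact h2.comp_fst (μ.restrict E)
  have h2 : MemLp (fun p : X × X => conj (ν p.1 p.2)) 2 ((μ.restrict A).prod (μ.restrict E)) := by
    refine ⟨?_, ?_⟩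
    · exact (Complex.continuous_conj.comp_stronglyMeasurable hν).aestronglyMeasurable
    · have h3 : eLpNorm (fun p : X × X => conj (ν p.1 p.2)) 2
          ((μ.restrict A).prod (μ.restrict E)) ^ 2 < ∞ := by
        rw [eLpNorm_two_sq]
        simp only [RCLike.enorm_conj]
        rw [lintegral_prod _ (by
          exact (hν.enorm.pow_const 2).aemeasurable)]
        calc ∫⁻ x in A, ∫⁻ y in E, ‖ν x y‖ₑ ^ 2 ∂μ ∂μ
            ≤ ∫⁻ x in A, c ∂μ := by
              refine setLIntegral_mono measurable_const fun x hx => ?_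
              exact (setLIntegral_le_lintegral _ _).trans (hK x hx)
          _ = c * μ A := by simp
          _ < ∞ := ENNReal.mul_lt_top hc hAμ
      by_contra h4
      rw [not_lt_top_iff] at h4
      rw [h4] at h3
      simp at h3
  exact h1.integrable_mul h2

include hν hN in
theorem formula (A : Set X) (hA : MeasurableSet A)
    (hAμ : μ A < ∞) (c : ℝ≥0∞) (hc : c < ∞)
    (hK : ∀ x ∈ A, ∫⁻ y, ‖ν x y‖ₑ ^ 2 ∂μ ≤ c) (φ ψ : Lp ℂ 2 μ)
    (hψ : ψ =ᵐ[μ] A.indicator φ) :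
    ∀ᵐ y ∂μ, (N.adjoint ψ) y = ∫ x in A, φ x * conj (ν x y) ∂μ := by
  refine ae_eq_of_forall_setIntegral_eq_of_sigmaFinite ?_ ?_ ?_
  · intro E hE hEμ
    have : IsFiniteMeasure (μ.restrict E) := ⟨by simpa using hEμ⟩
    have h2 : MemLp (N.adjoint ψ) 2 (μ.restrict E) := (Lp.memLp _).restrict E
    exact h2.integrable (by norm_num)
  · intro E hE hEμ
    exact (prod_integrable ν hν A E hAμ hEμ c hc hK φ).integral_prod_right
  · intro E hE hEμ
    have h1 := L2.inner_indicatorConstLp_one hE hEμ.ne (N.adjoint ψ)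
    rw [← h1, ContinuousLinearMap.adjoint_inner_right, L2.inner_def]
    have h3 : ∀ᵐ x ∂μ, inner ℂ ((N (indicatorConstLp 2 hE hEμ.ne (1 : ℂ))) x) (ψ x) =
        A.indicator (fun x => ∫ y in E, φ x * conj (ν x y) ∂μ) x := by
      filter_upwards [hN (indicatorConstLp 2 hE hEμ.ne (1 : ℂ)), hψ] with x hx hx2
      rw [hx, hx2]
      have h4 : ∫ y, ν x y * (indicatorConstLp 2 hE hEμ.ne (1 : ℂ)) y ∂μ = ∫ y in E, ν x y ∂μ := by
        rw [← integral_indicator hE]
        refine integral_congr_ae ?_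
        filter_upwards [indicatorConstLp_coeFn (p := 2) (hs := hE) (hμs := hEμ.ne) (c := (1 : ℂ))]
          with y hy
        rw [hy]
        by_cases hyE : y ∈ E
        · simp [hyE]
        · simp [hyE]
      rw [h4]
      by_cases hxA : x ∈ A
      · simp only [indicator_of_mem hxA, RCLike.inner_apply]
        rw [integral_const_mul, ← integral_conj]
      · simp [indicator_of_notMem hxA]
    rw [integral_congr_ae h3, integral_indicator hA]
    exact integral_integral_swap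
      (prod_integrable ν hν A E hAμ hEμ c hc hK φ)

end

end Pool.Agent.Q203.Carleman
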