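import Mathlib

/-!
Closed range extensions of abstract operator pairs: the operators and their properties.
-/

open scoped InnerProductSpace ComplexConjugate

namespace Pool.Agent.Q203.ClosedRange

/-- The range of a partially defined operator is closed. -/
def HasClosedRange {𝕜 : Type} [RCLike 𝕜] {E F : Type} [NormedAddCommGroup E]
    [InnerProductSpace 𝕜 E] [NormedAddCommGroup F] [InnerProductSpace 𝕜 F]
    (A : E →ₗ.[𝕜] F) : Prop :=
  IsClosed {y : F | ∃ x : A.domain, A x = y}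

/-- `iY A ⊆ T iX` in the sense of inclusion of graphs. -/
def Extends {𝕜 : Type} [RCLike 𝕜] {E F X Y : Type} [NormedAddCommGroup E]
    [InnerProductSpace 𝕜 E] [NormedAddCommGroup F] [InnerProductSpace 𝕜 F]
    [NormedAddCommGroup X] [InnerProductSpace 𝕜 X] [NormedAddCommGroup Y]
    [InnerProductSpace 𝕜 Y] (A : E →ₗ.[𝕜] F) (T : X →ₗ.[𝕜] Y) (iX : E →ₗᵢ[𝕜] X)
    (iY : F →ₗᵢ[𝕜] Y) : Prop :=
  ∀ x : A.domain, ∃ h : iX (x : E) ∈ T.domain, T ⟨iX (x : E), h⟩ = iY (A x)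

/-- The pair `(A_c, B_c)` admits a closed-range extension: there are Hilbert spaces `X`, `Y`, a
densely defined closed operator `T` from `X` to `Y` with closed range and linear isometries
`iX`, `iY` such that `iY A₀ ⊆ T iX` and `iX B₀ ⊆ - T* iY`, where `A₀`, `B₀` are the closures
of `A_c`, `B_c`. -/
def ClosedRangeExtension {𝕜 : Type} [RCLike 𝕜] {H₀ H₁ : Type}
    [NormedAddCommGroup H₀] [InnerProductSpace 𝕜 H₀]
    [NormedAddCommGroup H₁] [InnerProductSpace 𝕜 H₁]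
    (A_c : H₀ →ₗ.[𝕜] H₁) (B_c : H₁ →ₗ.[𝕜] H₀) : Prop :=
  ∃ (X Y : Type) (_ : NormedAddCommGroup X) (_ : InnerProductSpace 𝕜 X) (_ : CompleteSpace X)
    (_ : NormedAddCommGroup Y) (_ : InnerProductSpace 𝕜 Y) (_ : CompleteSpace Y)
    (T : X →ₗ.[𝕜] Y) (iX : H₀ →ₗᵢ[𝕜] X) (iY : H₁ →ₗᵢ[𝕜] Y),
    Dense (T.domain : Set X) ∧ T.IsClosed ∧ HasClosedRange T ∧
    Extends A_c.closure T iX iY ∧ Extends B_c.closure (-T.adjoint) iY iX

/-- `A_c` and `B_c` are densely defined and `A_c ⊆ -B_c*`. -/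
def AdmissiblePair {𝕜 : Type} [RCLike 𝕜] {H₀ H₁ : Type}
    [NormedAddCommGroup H₀] [InnerProductSpace 𝕜 H₀]
    [NormedAddCommGroup H₁] [InnerProductSpace 𝕜 H₁] [CompleteSpace H₁]
    (A_c : H₀ →ₗ.[𝕜] H₁) (B_c : H₁ →ₗ.[𝕜] H₀) : Prop :=
  Dense (A_c.domain : Set H₀) ∧ Dense (B_c.domain : Set H₁) ∧ A_c ≤ -B_c.adjoint

variable (𝕜 : Type) [RCLike 𝕜]

/-- The Hilbert space `ℓ²(ℕ × ℕ)`. -/
abbrev H := lp (fun _ : ℕ × ℕ => 𝕜) 2

/-- The vector with coordinates `1/n`, `n ≥ 1`, in row `k`. -/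
noncomputable def g (k : ℕ) : H 𝕜 :=
  ⟨fun p => if p.1 = k ∧ p.2 ≠ 0 then ((p.2 : 𝕜))⁻¹ else 0, by
    apply memℓp_gen
    have hinj : Function.Injective (fun n : ℕ => ((k, n) : ℕ × ℕ)) := by
      intro a b h
      simpa using h
    rw [← hinj.summable_iff]
    · have h2 : Summable fun n : ℕ => 1 / (n : ℝ) ^ 2 := by
        simp
      refine Summable.of_nonneg_of_le (fun n => Real.rpow_nonneg (norm_nonneg _) _)
        (fun n => ?_) h2
      simp only [Function.comp, true_and]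
      by_cases h : n = 0
      · simp [h]
      · simp [h]
    · intro x hx
      have : x.1 ≠ k := by
        intro h
        apply hx
        exact ⟨x.2, by rw [← h]⟩
      simp [this]⟩

/-- The vector with coordinates `1/(k+1)` in column `j`. -/
noncomputable def col (j : ℕ) : H 𝕜 :=
  ⟨fun p => if p.2 = j then ((p.1 : 𝕜) + 1)⁻¹ else 0, by
    apply memℓp_gen
    have hinj : Function.Injective (fun n : ℕ => ((n, j) : ℕ × ℕ)) := by
      intro a b h
      simpa using h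
    rw [← hinj.summable_iff]
    · have h2 : Summable fun n : ℕ => 1 / ((n : ℝ) + 1) ^ 2 := by
        have h3 : Summable fun n : ℕ => 1 / (n : ℝ) ^ 2 := by simp
        have h4 := (summable_nat_add_iff 1).2 h3
        simpa using h4
      refine Summable.of_nonneg_of_le (fun n => Real.rpow_nonneg (norm_nonneg _) _)
        (fun n => ?_) h2
      simp only [Function.comp, if_true]
      have : ‖((n : 𝕜) + 1)‖ = (n : ℝ) + 1 := by
        have : ((n : 𝕜) + 1) = ((n + 1 : ℕ) : 𝕜) := by push_cast; rfl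
        rw [this, RCLike.norm_natCast]
        push_cast
        rfl
      rw [norm_inv, this]
      simp
    · intro x hx
      have : x.2 ≠ j := by
        intro h
        apply hx
        exact ⟨x.1, by rw [← h]⟩
      simp [this]⟩

theorem g_apply (k : ℕ) (p : ℕ × ℕ) :
    g 𝕜 k p = if p.1 = k ∧ p.2 ≠ 0 then ((p.2 : 𝕜))⁻¹ else 0 := rfl

theorem col_apply (j : ℕ) (p : ℕ × ℕ) :
    col 𝕜 j p = if p.2 = j then ((p.1 : 𝕜) + 1)⁻¹ else 0 := rfl

/-- Graph of the multiplication operator `T`. -/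
noncomputable def GT : Submodule 𝕜 (H 𝕜 × H 𝕜) where
  carrier := {x | ∀ p, x.2 p = (p.2 : 𝕜) * x.1 p}
  zero_mem' := by
    intro p
    simp
  add_mem' := by
    intro a b ha hb p
    simp only [Prod.snd_add, Prod.fst_add, lp.coeFn_add, Pi.add_apply]
    rw [ha p, hb p]
    ring
  smul_mem' := by
    intro c a ha p
    simp only [Prod.smul_snd, Prod.smul_fst, lp.coeFn_smul, Pi.smul_apply, smul_eq_mul]
    rw [ha p]
    ring

/-- Graph of the restriction `S`. -/
noncomputable def GS : Submodule 𝕜 (H 𝕜 × H 𝕜) where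
  carrier := {x | (∀ p, x.2 p = (p.2 : 𝕜) * x.1 p) ∧
    ∀ k : ℕ, x.1 (k, 0) + ((k : 𝕜) + 1) * inner 𝕜 (g 𝕜 k) x.2 = 0}
  zero_mem' := by
    refine ⟨fun p => by simp, fun k => by simp⟩
  add_mem' := by
    intro a b ha hb
    refine ⟨(GT 𝕜).add_mem ha.1 hb.1, fun k => ?_⟩
    have h1 := ha.2 k
    have h2 := hb.2 k
    simp only [Prod.snd_add, Prod.fst_add, lp.coeFn_add, Pi.add_apply, inner_add_right]
    linear_combination h1 + h2
  smul_mem' := by
    intro c a ha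
    refine ⟨(GT 𝕜).smul_mem c ha.1, fun k => ?_⟩
    have h1 := ha.2 k
    simp only [Prod.smul_snd, Prod.smul_fst, lp.coeFn_smul, Pi.smul_apply, smul_eq_mul,
      inner_smul_right]
    linear_combination c * h1

theorem mem_GT (x : H 𝕜 × H 𝕜) : x ∈ GT 𝕜 ↔ ∀ p, x.2 p = (p.2 : 𝕜) * x.1 p := Iff.rfl

theorem mem_GS (x : H 𝕜 × H 𝕜) : x ∈ GS 𝕜 ↔ (∀ p, x.2 p = (p.2 : 𝕜) * x.1 p) ∧
    ∀ k : ℕ, x.1 (k, 0) + ((k : 𝕜) + 1) * inner 𝕜 (g 𝕜 k) x.2 = 0 := Iff.rfl

/-- Graph of the operator `-S`. -/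
noncomputable def GB : Submodule 𝕜 (H 𝕜 × H 𝕜) :=
  (GS 𝕜).comap (LinearMap.prodMap LinearMap.id (-LinearMap.id))

theorem mem_GB (x : H 𝕜 × H 𝕜) : x ∈ GB 𝕜 ↔ (x.1, -x.2) ∈ GS 𝕜 := Iff.rfl

theorem fun_GT : ∀ x ∈ GT 𝕜, x.1 = 0 → x.2 = 0 := by
  intro x hx h
  ext p
  rw [hx p, h]
  simp

theorem fun_GS : ∀ x ∈ GS 𝕜, x.1 = 0 → x.2 = 0 := fun x hx h => fun_GT 𝕜 x hx.1 h

theorem fun_GB : ∀ x ∈ GB 𝕜, x.1 = 0 → x.2 = 0 := fun x hx h => by
  have := fun_GS 𝕜 _ hx h
  simpa using this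

theorem cont_apply (p : ℕ × ℕ) : Continuous fun x : H 𝕜 => x p := by
  have : (fun x : H 𝕜 => x p) = fun x : H 𝕜 => inner 𝕜 (lp.single 2 p (1 : 𝕜)) x := by
    funext x
    rw [lp.inner_single_left]
    simp
  rw [this]
  fun_prop

theorem closed_GT : IsClosed (GT 𝕜 : Set (H 𝕜 × H 𝕜)) := by
  have : (GT 𝕜 : Set (H 𝕜 × H 𝕜)) = ⋂ p : ℕ × ℕ, {x | x.2 p = (p.2 : 𝕜) * x.1 p} := by
    ext x
    simp [mem_GT]
  rw [this]
  refine isClosed_iInter fun p => isClosed_eq ?_ ?_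
  · exact (cont_apply 𝕜 p).comp continuous_snd
  · exact continuous_const.mul ((cont_apply 𝕜 p).comp continuous_fst)

theorem closed_GS : IsClosed (GS 𝕜 : Set (H 𝕜 × H 𝕜)) := by
  have : (GS 𝕜 : Set (H 𝕜 × H 𝕜)) = (GT 𝕜 : Set (H 𝕜 × H 𝕜)) ∩
      ⋂ k : ℕ, {x | x.1 (k, 0) + ((k : 𝕜) + 1) * inner 𝕜 (g 𝕜 k) x.2 = 0} := by
    ext x
    simp [mem_GT, mem_GS]
  rw [this]
  refine (closed_GT 𝕜).inter (isClosed_iInter fun k => isClosed_eq ?_ continuous_const)
  exact ((cont_apply 𝕜 _).comp continuous_fst).add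
    (continuous_const.mul (by fun_prop))

theorem closed_GB : IsClosed (GB 𝕜 : Set (H 𝕜 × H 𝕜)) := by
  have : (GB 𝕜 : Set (H 𝕜 × H 𝕜)) = (fun x : H 𝕜 × H 𝕜 => (x.1, -x.2)) ⁻¹' (GS 𝕜) := by
    ext x
    simp [mem_GB]
  rw [this]
  exact (closed_GS 𝕜).preimage (by fun_prop)

/-- Multiplication operator by `n`. -/
noncomputable def T : H 𝕜 →ₗ.[𝕜] H 𝕜 := (GT 𝕜).toLinearPMap

/-- The closed symmetric restriction of `T`. -/
noncomputable def S : H 𝕜 →ₗ.[𝕜] H 𝕜 := (GS 𝕜).toLinearPMap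

/-- The negative of `S`. -/
noncomputable def B : H 𝕜 →ₗ.[𝕜] H 𝕜 := (GB 𝕜).toLinearPMap

theorem T_graph : (T 𝕜).graph = GT 𝕜 := Submodule.toLinearPMap_graph_eq _ (fun_GT 𝕜)

theorem S_graph : (S 𝕜).graph = GS 𝕜 := Submodule.toLinearPMap_graph_eq _ (fun_GS 𝕜)

theorem B_graph : (B 𝕜).graph = GB 𝕜 := Submodule.toLinearPMap_graph_eq _ (fun_GB 𝕜)

theorem T_closed : (T 𝕜).IsClosed := by
  unfold LinearPMap.IsClosed
  rw [T_graph]
  exact closed_GT 𝕜

theorem S_closed : (S 𝕜).IsClosed := by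
  unfold LinearPMap.IsClosed
  rw [S_graph]
  exact closed_GS 𝕜

theorem B_closed : (B 𝕜).IsClosed := by
  unfold LinearPMap.IsClosed
  rw [B_graph]
  exact closed_GB 𝕜

theorem closure_eq {E F : Type} [NormedAddCommGroup E] [NormedSpace 𝕜 E] [NormedAddCommGroup F]
    [NormedSpace 𝕜 F] (f : E →ₗ.[𝕜] F) (hf : f.IsClosed) : f.closure = f := by
  apply LinearPMap.eq_of_eq_graph
  rw [← hf.isClosable.graph_closure_eq_closure_graph]
  exact IsClosed.submodule_topologicalClosure_eq hf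

variable {𝕜}

theorem T_mem (x : (T 𝕜).domain) (p : ℕ × ℕ) : T 𝕜 x p = (p.2 : 𝕜) * (x : H 𝕜) p := by
  have h := (T 𝕜).mem_graph x
  rw [T_graph, mem_GT] at h
  exact h p

theorem S_mem (x : (S 𝕜).domain) : ((x : H 𝕜), S 𝕜 x) ∈ GS 𝕜 := by
  have h := (S 𝕜).mem_graph x
  rwa [S_graph] at h

theorem B_mem (x : (B 𝕜).domain) : ((x : H 𝕜), -(B 𝕜 x)) ∈ GS 𝕜 := by
  have h := (B 𝕜).mem_graph x
  rwa [B_graph] at h

theorem exists_S {u w : H 𝕜} (h : (u, w) ∈ GS 𝕜) : ∃ x : (S 𝕜).domain, (x : H 𝕜) = u ∧ S 𝕜 x = w := by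
  rw [← S_graph, LinearPMap.mem_graph_iff] at h
  exact h

theorem exists_B {u w : H 𝕜} (h : (u, w) ∈ GS 𝕜) :
    ∃ x : (B 𝕜).domain, (x : H 𝕜) = u ∧ B 𝕜 x = -w := by
  have h' : (u, -w) ∈ GB 𝕜 := by
    rw [mem_GB]
    simpa using h
  rw [← B_graph, LinearPMap.mem_graph_iff] at h'
  exact h'

/-- The symmetry relation. -/
theorem symm {u w u' w' : H 𝕜} (h : (u, w) ∈ GT 𝕜) (h' : (u', w') ∈ GT 𝕜) :
    inner 𝕜 w u' = inner 𝕜 u w' := by
  rw [lp.inner_eq_tsum, lp.inner_eq_tsum]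
  congr 1
  funext p
  have h1 := h p
  have h2 := h' p
  simp only at h1 h2
  rw [h1, h2]
  simp only [RCLike.inner_apply, map_mul, map_natCast]
  ring

/-- Test elements of the graph of `S`. -/
theorem test_mem (k n : ℕ) (hn : n ≠ 0) :
    (lp.single 2 (k, n) (1 : 𝕜) - ((k : 𝕜) + 1) • lp.single 2 (k, 0) (1 : 𝕜),
      (n : 𝕜) • lp.single 2 (k, n) (1 : 𝕜)) ∈ GS 𝕜 := by
  rw [mem_GS]
  refine ⟨fun p => ?_, fun j => ?_⟩
  · simp only [lp.coeFn_smul, lp.coeFn_sub, Pi.smul_apply, Pi.sub_apply, lp.single_apply,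
      smul_eq_mul, Pi.single_apply]
    by_cases h1 : p = (k, n)
    · subst h1
      have : ((k, n) : ℕ × ℕ) ≠ (k, 0) := by
        intro h
        exact hn (by simpa using h)
      simp [this]
    · by_cases h2 : p = (k, 0)
      · subst h2
        simp [h1]
      · simp [h1, h2]
  · simp only [lp.coeFn_smul, lp.coeFn_sub, Pi.smul_apply, Pi.sub_apply, lp.single_apply,
      smul_eq_mul, Pi.single_apply, inner_smul_right, lp.inner_single_right]
    rw [g_apply]
    by_cases h1 : j = k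
    · subst h1
      have hn' : (n : 𝕜) ≠ 0 := Nat.cast_ne_zero.2 hn
      have : ((j, 0) : ℕ × ℕ) ≠ (j, n) := by
        intro h
        exact hn (by simpa using h.symm)
      simp [this, hn, hn']
    · have h3 : ((j, 0) : ℕ × ℕ) ≠ (k, n) := by
        intro h
        exact h1 (congrArg Prod.fst h)
      have h4 : ((j, 0) : ℕ × ℕ) ≠ (k, 0) := by
        intro h
        exact h1 (congrArg Prod.fst h)
      have h5 : k ≠ j := fun h => h1 h.symm
      simp [h3, h4, h5]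

theorem tendsto_row (x : H 𝕜) (k : ℕ) : Filter.Tendsto (fun n => x (k, n)) Filter.atTop (nhds 0) := by
  have h1 : Summable fun p => ‖x p‖ ^ 2 := by
    have := lp.memℓp x
    have h2 := this.summable (by norm_num)
    simpa using h2
  have hinj : Function.Injective (fun n : ℕ => ((k, n) : ℕ × ℕ)) := by
    intro a b h
    simpa using h
  have h2 := (h1.comp_injective hinj).tendsto_atTop_zero
  simp only [Function.comp_def] at h2
  have h3 : Filter.Tendsto (fun n => ‖x (k, n)‖) Filter.atTop (nhds 0) := by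
    have := (Real.continuous_sqrt.tendsto 0).comp h2
    simpa [Function.comp_def, Real.sqrt_sq (norm_nonneg _)] using this
  exact tendsto_zero_iff_norm_tendsto_zero.2 h3

theorem S_dense : Dense ((S 𝕜).domain : Set (H 𝕜)) := by
  rw [Submodule.dense_iff_topologicalClosure_eq_top, Submodule.topologicalClosure_eq_top_iff]
  rw [Submodule.eq_bot_iff]
  intro p hp
  rw [Submodule.mem_orthogonal'] at hp
  have key : ∀ k n : ℕ, n ≠ 0 → p (k, n) = ((k : 𝕜) + 1) * p (k, 0) := by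
    intro k n hn
    obtain ⟨x, hx, -⟩ := exists_S (test_mem (𝕜 := 𝕜) k n hn)
    have h := hp x x.2
    rw [hx, inner_sub_right, inner_smul_right, lp.inner_single_right, lp.inner_single_right] at h
    simp only [RCLike.inner_apply, one_mul] at h
    have h2 : conj (p (k, n)) = conj (((k : 𝕜) + 1) * p (k, 0)) := by
      simp only [map_mul, map_add, map_natCast, map_one]
      linear_combination h
    exact (starRingEnd 𝕜).injective h2
  have h0 : ∀ k : ℕ, p (k, 0) = 0 := by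
    intro k
    have h1 := tendsto_row p k
    have h2 : Filter.Tendsto (fun n => p (k, n)) Filter.atTop (nhds (((k : 𝕜) + 1) * p (k, 0))) := by
      refine tendsto_const_nhds.congr' ?_
      filter_upwards [Filter.eventually_gt_atTop 0] with n hn
      exact (key k n hn.ne').symm
    have h3 := tendsto_nhds_unique h1 h2
    have h4 : ((k : 𝕜) + 1) ≠ 0 := Nat.cast_add_one_ne_zero k
    rcases mul_eq_zero.1 h3.symm with h5 | h5
    · exact absurd h5 h4
    · exact h5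
  ext q
  obtain ⟨k, n⟩ := q
  by_cases hn : n = 0
  · subst hn
    simpa using h0 k
  · rw [key k n hn, h0 k]
    simp

theorem B_domain : (B 𝕜).domain = (S 𝕜).domain := by
  ext x
  constructor
  · intro hx
    obtain ⟨y, hy, -⟩ := exists_S (B_mem ⟨x, hx⟩)
    have hy' : (y : H 𝕜) = x := hy
    rw [← hy']
    exact y.2
  · intro hx
    obtain ⟨y, hy, -⟩ := exists_B (S_mem ⟨x, hx⟩)
    have hy' : (y : H 𝕜) = x := hy
    rw [← hy']
    exact y.2

theorem B_dense : Dense ((B 𝕜).domain : Set (H 𝕜)) := by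
  rw [B_domain]
  exact S_dense

theorem S_le_T : S 𝕜 ≤ T 𝕜 := by
  apply LinearPMap.le_of_le_graph
  rw [S_graph, T_graph]
  intro x hx
  exact hx.1

theorem T_dense : Dense ((T 𝕜).domain : Set (H 𝕜)) :=
  S_dense.mono (S_le_T (𝕜 := 𝕜)).1

theorem T_range_closed : IsClosed (Set.range (fun x : (T 𝕜).domain => T 𝕜 x)) := by
  have : Set.range (fun x : (T 𝕜).domain => T 𝕜 x) = ⋂ k : ℕ, {w : H 𝕜 | w (k, 0) = 0} := by
    ext w
    simp only [Set.mem_range, Set.mem_iInter]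
    constructor
    · rintro ⟨x, rfl⟩ k
      have := T_mem x (k, 0)
      change T 𝕜 x (k, 0) = 0
      rw [this]
      simp
    · intro hw
      have hmem : Memℓp (fun p : ℕ × ℕ => ((p.2 : 𝕜))⁻¹ * w p) 2 := by
        apply memℓp_gen
        have h2 := (lp.memℓp w).summable (by norm_num)
        refine Summable.of_nonneg_of_le (fun n => by positivity) (fun p => ?_) h2
        apply Real.rpow_le_rpow (norm_nonneg _) _ (by norm_num)
        rw [norm_mul, norm_inv, RCLike.norm_natCast]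
        by_cases h : p.2 = 0
        · simp [h]
        · have : (1 : ℝ) ≤ p.2 := by exact_mod_cast Nat.one_le_iff_ne_zero.2 h
          have h3 : ((p.2 : ℝ))⁻¹ ≤ 1 := inv_le_one_of_one_le₀ this
          exact mul_le_of_le_one_left (norm_nonneg _) h3
      have hG : ((⟨_, hmem⟩ : H 𝕜), w) ∈ GT 𝕜 := by
        intro p
        simp only
        by_cases h : p.2 = 0
        · have h5 : w p = 0 := by
            have := hw p.1
            have h6 : p = (p.1, 0) := by rw [← h]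
            rw [h6]
            exact this
          rw [h5]
          simp [h]
        · have hp' : (p.2 : 𝕜) ≠ 0 := Nat.cast_ne_zero.2 h
          change w p = (p.2 : 𝕜) * (((p.2 : 𝕜))⁻¹ * w p)
          rw [← mul_assoc, mul_inv_cancel₀ hp', one_mul]
      rw [← T_graph, LinearPMap.mem_graph_iff] at hG
      obtain ⟨y, -, hy⟩ := hG
      exact ⟨y, hy⟩
  rw [this]
  exact isClosed_iInter fun k => isClosed_eq (cont_apply 𝕜 _) continuous_const

/-- A closed submodule containing all `single p 1` with `p` in column `j` contains `col j`. -/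
theorem col_mem (K : Submodule 𝕜 (H 𝕜)) (hK : IsClosed (K : Set (H 𝕜))) (j : ℕ)
    (h : ∀ k : ℕ, lp.single 2 (k, j) (1 : 𝕜) ∈ K) : col 𝕜 j ∈ K := by
  have h1 := lp.hasSum_single (p := 2) (by norm_num) (col 𝕜 j)
  refine hK.mem_of_tendsto h1 (Filter.Eventually.of_forall fun s => K.sum_mem fun p _ => ?_)
  rw [col_apply]
  by_cases hp : p.2 = j
  · have h2 : p = (p.1, j) := by rw [← hp]
    rw [if_pos hp]
    have h3 : lp.single 2 p (((p.1 : 𝕜) + 1)⁻¹) =
        (((p.1 : 𝕜) + 1)⁻¹) • (lp.single 2 (p.1, j) (1 : 𝕜) : H 𝕜) := by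
      rw [← lp.single_smul, ← h2]
      simp
    rw [h3]
    exact K.smul_mem _ (h _)
  · rw [if_neg hp, lp.single_zero]
    exact K.zero_mem

end Pool.Agent.Q203.ClosedRange
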