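import Mathlib
set_option autoImplicit false
namespace Pool.Agent.Q203.EssSpec
open Filter Topology

variable {H : Type*} [NormedAddCommGroup H] [InnerProductSpace ℂ H] [CompleteSpace H]

/-- The essential spectrum: `z` such that `A - z` is not invertible modulo the compact
operators. -/
def essSpectrum (A : H →L[ℂ] H) : Set ℂ :=
  {z | ¬ ∃ B : H →L[ℂ] H,
    IsCompactOperator (B * (A - z • (1 : H →L[ℂ] H)) - 1 : H →L[ℂ] H) ∧
    IsCompactOperator ((A - z • (1 : H →L[ℂ] H)) * B - 1 : H →L[ℂ] H)}

theorem isCompact_sub_of_essSpectrum (A : H →L[ℂ] H) (hA : IsSelfAdjoint A) (t : ℝ)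
    (ht : essSpectrum A ⊆ {(t : ℂ)}) :
    IsCompactOperator (A - (t : ℂ) • (1 : H →L[ℂ] H)) := by
  let Φ : C(spectrum ℝ A, ℝ) →⋆ₐ[ℝ] (H →L[ℂ] H) := cfcHom hA
  let J : Ideal C(spectrum ℝ A, ℝ) :=
    { carrier := {h | IsCompactOperator (Φ h)}
      add_mem' := fun {a b} ha hb => by
        show IsCompactOperator (Φ (a + b))
        rw [map_add]
        exact ha.add hb
      zero_mem' := by
        show IsCompactOperator (Φ 0)
        rw [map_zero]
        exact isCompactOperator_zero
      smul_mem' := fun c a ha => by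
        show IsCompactOperator (Φ (c * a))
        rw [map_mul]
        exact IsCompactOperator.clm_comp ha (Φ c) }
  have hJc : IsClosed (J : Set C(spectrum ℝ A, ℝ)) := by
    have h1 : IsClosed {B : H →L[ℂ] H | IsCompactOperator B} := isClosed_setOfPred_isCompactOperator
    exact h1.preimage (cfcHom_continuous hA)
  have hid := ContinuousMap.idealOfSet_ofIdeal_isClosed hJc
  have hlocal : ∀ x : spectrum ℝ A, (x : ℝ) ≠ t → x ∈ ContinuousMap.setOfIdeal J := by
    intro x hx
    rw [ContinuousMap.mem_setOfIdeal]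
    have hx2 : ((x : ℝ) : ℂ) ∉ essSpectrum A := by
      intro h
      have := ht h
      rw [Set.mem_singleton_iff] at this
      exact hx (by exact_mod_cast this)
    obtain ⟨B, hB, -⟩ : ∃ B : H →L[ℂ] H,
        IsCompactOperator (B * (A - ((x : ℝ) : ℂ) • (1 : H →L[ℂ] H)) - 1 : H →L[ℂ] H) ∧
        IsCompactOperator ((A - ((x : ℝ) : ℂ) • (1 : H →L[ℂ] H)) * B - 1 : H →L[ℂ] H) := by
      by_contra hcon
      exact hx2 hcon
    set r : ℝ := 1 / (2 * (‖B‖ + 1)) with hr
    have hrpos : 0 < r := by positivity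
    let h : C(spectrum ℝ A, ℝ) := ⟨fun y => max 0 (1 - |(y : ℝ) - x| / r), by fun_prop⟩
    let k : C(spectrum ℝ A, ℝ) := ⟨fun y => max (-r) (min r ((y : ℝ) - x)), by fun_prop⟩
    refine ⟨h, ?_, by simp [h]⟩
    have hk : ‖k‖ ≤ r := by
      rw [ContinuousMap.norm_le _ hrpos.le]
      intro y
      show ‖max (-r) (min r ((y : ℝ) - x))‖ ≤ r
      rw [Real.norm_eq_abs, abs_le]
      constructor
      · exact le_max_left _ _
      · exact max_le (by linarith) (min_le_left _ _)
    have hkh : (((ContinuousMap.id ℝ).restrict (spectrum ℝ A)) -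
        algebraMap ℝ C(spectrum ℝ A, ℝ) x) * h = k * h := by
      ext y
      show ((y : ℝ) - x) * max 0 (1 - |(y : ℝ) - x| / r) =
        max (-r) (min r ((y : ℝ) - x)) * max 0 (1 - |(y : ℝ) - x| / r)
      by_cases hy : |(y : ℝ) - x| ≤ r
      · rw [abs_le] at hy
        rw [min_eq_right hy.2, max_eq_right hy.1]
      · push Not at hy
        have : max 0 (1 - |(y : ℝ) - x| / r) = 0 := by
          apply max_eq_left
          rw [sub_nonpos, one_le_div hrpos]
          exact hy.le
        rw [this, mul_zero, mul_zero]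
    have hkey : (A - ((x : ℝ) : ℂ) • (1 : H →L[ℂ] H)) * Φ h = Φ k * Φ h := by
      rw [← map_mul, ← hkh, map_mul, map_sub]
      have e1 : Φ ((ContinuousMap.id ℝ).restrict (spectrum ℝ A)) = A := cfcHom_id hA
      rw [e1, AlgHomClass.commutes, Algebra.algebraMap_eq_smul_one]
      congr 2
    -- estimate of the distance to the compact operators
    set K : Set (H →L[ℂ] H) := {C | IsCompactOperator C} with hK
    have hKne : K.Nonempty := ⟨0, isCompactOperator_zero⟩
    have hKc : IsClosed K := isClosed_setOfPred_isCompactOperator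
    have hd : ∀ C ∈ K, Metric.infDist (Φ h) K ≤ 1 / 2 * dist (Φ h) C := by
      intro C hC
      set C' : H →L[ℂ] H := B * (Φ k * C) -
        (B * (A - ((x : ℝ) : ℂ) • (1 : H →L[ℂ] H)) - 1) * Φ h with hC'
      have hC'K : C' ∈ K := by
        apply IsCompactOperator.sub
        · have h1 : IsCompactOperator (Φ k * C) := IsCompactOperator.clm_comp hC (Φ k)
          exact IsCompactOperator.clm_comp h1 B
        · exact IsCompactOperator.comp_clm hB (Φ h)
      have h2 : Φ h - C' = B * (Φ k * (Φ h - C)) := by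
        rw [hC', mul_sub (Φ k), ← hkey]
        generalize (A - ((x : ℝ) : ℂ) • (1 : H →L[ℂ] H)) = D
        noncomm_ring
      refine le_trans (Metric.infDist_le_dist_of_mem hC'K) ?_
      rw [dist_eq_norm, dist_eq_norm, h2]
      have h3 : ‖Φ k‖ ≤ r := by
        have : ‖Φ k‖ = ‖k‖ := norm_cfcHom A k hA
        rw [this]; exact hk
      calc ‖B * (Φ k * (Φ h - C))‖ ≤ ‖B‖ * (‖Φ k‖ * ‖Φ h - C‖) := by
            refine le_trans (norm_mul_le _ _) ?_
            gcongr
            exact norm_mul_le _ _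
        _ ≤ ‖B‖ * (r * ‖Φ h - C‖) := by gcongr
        _ = (‖B‖ * r) * ‖Φ h - C‖ := by ring
        _ ≤ 1 / 2 * ‖Φ h - C‖ := by
            gcongr
            rw [hr, mul_one_div, div_le_div_iff₀ (by positivity) (by norm_num)]
            linarith
    have hz : Metric.infDist (Φ h) K = 0 := by
      by_contra hne
      have hpos : 0 < Metric.infDist (Φ h) K :=
        lt_of_le_of_ne Metric.infDist_nonneg (Ne.symm hne)
      obtain ⟨C, hC, hlt⟩ := (Metric.infDist_lt_iff hKne).mp
        (by linarith : Metric.infDist (Φ h) K < 2 * Metric.infDist (Φ h) K)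
      have := hd C hC
      linarith
    exact (hKc.mem_iff_infDist_zero hKne).mpr hz
  have hmem : (((ContinuousMap.id ℝ).restrict (spectrum ℝ A)) -
      algebraMap ℝ C(spectrum ℝ A, ℝ) t) ∈ J := by
    rw [← hid, ContinuousMap.mem_idealOfSet]
    intro x hx
    by_cases hxt : (x : ℝ) = t
    · show (x : ℝ) - t = 0
      rw [hxt, sub_self]
    · exact absurd (hlocal x hxt) hx
  have hfin : IsCompactOperator (Φ (((ContinuousMap.id ℝ).restrict (spectrum ℝ A)) -
      algebraMap ℝ C(spectrum ℝ A, ℝ) t)) := hmem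
  rw [map_sub] at hfin
  have e1 : Φ ((ContinuousMap.id ℝ).restrict (spectrum ℝ A)) = A := cfcHom_id hA
  rw [e1, AlgHomClass.commutes, Algebra.algebraMap_eq_smul_one] at hfin
  exact hfin

end Pool.Agent.Q203.EssSpec
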