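import Mathlib

open Set Topology Filter MeasureTheory intervalIntegral

namespace Pool.Agent.Q203.Hd

/-- The length, in the conformal metric `lam (dx² + dy²)`, of the curve `γ` restricted to
`[0, 1]`. -/
noncomputable def len (lam : ℂ → ℝ) (γ : ℝ → ℂ) : ℝ :=
  ∫ s in (0:ℝ)..1, Real.sqrt (lam (γ s)) * ‖deriv γ s‖

/-- The Riemannian distance of the conformal metric `lam (dx² + dy²)` on `ℂ`: the infimum of the
lengths of the `C¹` curves joining the two points. -/
noncomputable def gdist (lam : ℂ → ℝ) (p q : ℂ) : ℝ :=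
  sInf {L : ℝ | ∃ γ : ℝ → ℂ, ContDiff ℝ 1 γ ∧ γ 0 = p ∧ γ 1 = q ∧ L = len lam γ}

/-- Completeness of the distance: every Cauchy sequence converges. -/
def Complete (lam : ℂ → ℝ) : Prop :=
  ∀ x : ℕ → ℂ, (∀ ε > 0, ∃ N, ∀ m ≥ N, ∀ n ≥ N, gdist lam (x m) (x n) < ε) →
    ∃ y, Tendsto (fun n => gdist lam (x n) y) atTop (𝓝 0)

section basics

variable {lam : ℂ → ℝ}

lemma cont_speed (hc : Continuous lam) {γ : ℝ → ℂ} (hγ : ContDiff ℝ 1 γ) :
    Continuous fun s => Real.sqrt (lam (γ s)) * ‖deriv γ s‖ :=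
  ((hc.comp hγ.continuous).sqrt).mul (hγ.continuous_deriv le_rfl).norm

lemma len_nonneg (γ : ℝ → ℂ) : 0 ≤ len lam γ := by
  unfold len
  apply intervalIntegral.integral_nonneg (by norm_num)
  intro s _
  positivity

lemma bdd (p q : ℂ) : BddBelow {L : ℝ | ∃ γ : ℝ → ℂ, ContDiff ℝ 1 γ ∧ γ 0 = p ∧ γ 1 = q ∧
    L = len lam γ} := by
  refine ⟨0, ?_⟩
  rintro L ⟨γ, _, _, _, rfl⟩
  exact len_nonneg γ

lemma nonem (p q : ℂ) : {L : ℝ | ∃ γ : ℝ → ℂ, ContDiff ℝ 1 γ ∧ γ 0 = p ∧ γ 1 = q ∧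
    L = len lam γ}.Nonempty := by
  refine ⟨len lam (fun s : ℝ => p + (s : ℂ) * (q - p)), _, ?_, ?_, ?_, rfl⟩
  · exact contDiff_const.add ((Complex.ofRealCLM.contDiff).mul contDiff_const)
  · simp
  · simp

lemma gdist_nonneg (p q : ℂ) : 0 ≤ gdist lam p q := by
  apply Real.sInf_nonneg
  rintro L ⟨γ, _, _, _, rfl⟩
  exact len_nonneg γ

lemma gdist_le_len {γ : ℝ → ℂ} (hγ : ContDiff ℝ 1 γ) : gdist lam (γ 0) (γ 1) ≤ len lam γ :=
  csInf_le (bdd _ _) ⟨γ, hγ, rfl, rfl, rfl⟩

lemma exists_len_lt (p q : ℂ) {ε : ℝ} (hε : 0 < ε) :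
    ∃ γ : ℝ → ℂ, ContDiff ℝ 1 γ ∧ γ 0 = p ∧ γ 1 = q ∧ len lam γ < gdist lam p q + ε := by
  obtain ⟨L, ⟨γ, h1, h2, h3, rfl⟩, h⟩ := exists_lt_of_csInf_lt (nonem (lam := lam) p q)
    (show sInf _ < gdist lam p q + ε by unfold gdist; linarith)
  exact ⟨γ, h1, h2, h3, h⟩

/-- Length of a subarc bounds the distance. -/
lemma gdist_le_sub {γ : ℝ → ℂ} (hγ : ContDiff ℝ 1 γ) {a b : ℝ} (hab : a ≤ b) :
    gdist lam (γ a) (γ b) ≤ ∫ s in a..b, Real.sqrt (lam (γ s)) * ‖deriv γ s‖ := by
  set δ : ℝ → ℂ := fun s => γ (a + (b - a) * s) with hδ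
  have hd : ContDiff ℝ 1 δ := hγ.comp (contDiff_const.add (contDiff_const.mul contDiff_id))
  have h0 : δ 0 = γ a := by simp [hδ]
  have h1 : δ 1 = γ b := by simp [hδ]
  rw [← h0, ← h1]
  refine (gdist_le_len hd).trans (le_of_eq ?_)
  unfold len
  have hder : ∀ s, deriv δ s = (b - a) • deriv γ (a + (b - a) * s) := by
    intro s
    have h2 : HasDerivAt (fun s : ℝ => a + (b - a) * s) (b - a) s := by
      simpa using ((hasDerivAt_id s).const_mul (b - a)).const_add a
    have h3 : HasDerivAt γ (deriv γ (a + (b - a) * s)) (a + (b - a) * s) :=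
      (hγ.differentiable one_ne_zero _).hasDerivAt
    exact (h3.scomp s h2).deriv
  have : (fun s => Real.sqrt (lam (δ s)) * ‖deriv δ s‖) = fun s => (b - a) *
      (fun t => Real.sqrt (lam (γ t)) * ‖deriv γ t‖) (a + (b - a) * s) := by
    funext s
    rw [hder s, norm_smul, Real.norm_of_nonneg (by linarith)]
    simp only [hδ]
    ring
  rw [this, intervalIntegral.integral_const_mul]
  have h5 := intervalIntegral.mul_integral_comp_add_mul
    (f := fun t => Real.sqrt (lam (γ t)) * ‖deriv γ t‖) (a := 0) (b := 1) (b - a) a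
  rw [h5]
  simp

lemma gdist_self (p : ℂ) : gdist lam p p = 0 := by
  apply le_antisymm _ (gdist_nonneg _ _)
  have h : ContDiff ℝ 1 (fun _ : ℝ => p) := contDiff_const
  refine (gdist_le_len (lam := lam) h).trans (le_of_eq ?_)
  simp [len]

lemma gdist_comm_le (p q : ℂ) : gdist lam p q ≤ gdist lam q p := by
  apply le_of_forall_pos_lt_add
  intro ε hε
  obtain ⟨γ, h1, h2, h3, h4⟩ := exists_len_lt (lam := lam) q p hε
  set δ : ℝ → ℂ := fun s => γ (1 - s) with hδ
  have hd : ContDiff ℝ 1 δ := h1.comp (contDiff_const.sub contDiff_id)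
  have hh0 : δ 0 = p := by simp [hδ, h3]
  have hh1 : δ 1 = q := by simp [hδ, h2]
  have h5 := gdist_le_len (lam := lam) hd
  rw [hh0, hh1] at h5
  refine lt_of_le_of_lt h5 ?_
  refine lt_of_le_of_lt (le_of_eq ?_) h4
  unfold len
  have hder : ∀ s, deriv δ s = - deriv γ (1 - s) := by
    intro s
    have h2 : HasDerivAt (fun s : ℝ => 1 - s) (-1) s := by
      simpa using ((hasDerivAt_id s).const_sub 1)
    have h3 : HasDerivAt γ (deriv γ (1 - s)) (1 - s) :=
      (h1.differentiable one_ne_zero _).hasDerivAt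
    have h4 := (h3.scomp s h2).deriv
    rw [neg_one_smul] at h4
    exact h4
  have : (fun s => Real.sqrt (lam (δ s)) * ‖deriv δ s‖) = fun s =>
      (fun t => Real.sqrt (lam (γ t)) * ‖deriv γ t‖) (1 - s) := by
    funext s
    rw [hder s, norm_neg]
  rw [this, intervalIntegral.integral_comp_sub_left
    (fun t => Real.sqrt (lam (γ t)) * ‖deriv γ t‖)]
  simp

lemma gdist_comm (p q : ℂ) : gdist lam p q = gdist lam q p :=
  le_antisymm (gdist_comm_le p q) (gdist_comm_le q p)

lemma len_reparam {γ : ℝ → ℂ} (hc : Continuous lam) (hγ : ContDiff ℝ 1 γ) {σ σ' : ℝ → ℝ} (a b : ℝ)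
    (hσ : ∀ s, HasDerivAt σ (σ' s) s) (hσ' : Continuous σ') :
    ∫ s in a..b, (Real.sqrt (lam (γ (σ s))) * ‖deriv γ (σ s)‖) * σ' s =
      ∫ t in (σ a)..(σ b), Real.sqrt (lam (γ t)) * ‖deriv γ t‖ := by
  have := intervalIntegral.integral_comp_mul_deriv (a := a) (b := b) (f := σ) (f' := σ')
    (g := fun t => Real.sqrt (lam (γ t)) * ‖deriv γ t‖) (fun s _ => hσ s) hσ'.continuousOn
    (cont_speed hc hγ)
  simpa [Function.comp_def] using this

lemma gdist_triangle (hc : Continuous lam) (p q r : ℂ) :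
    gdist lam p r ≤ gdist lam p q + gdist lam q r := by
  apply le_of_forall_pos_lt_add
  intro ε hε
  obtain ⟨γ₁, h1, h2, h3, h4⟩ := exists_len_lt (lam := lam) p q (half_pos hε)
  obtain ⟨γ₂, k1, k2, k3, k4⟩ := exists_len_lt (lam := lam) q r (half_pos hε)
  set σ : ℝ → ℝ := Real.smoothTransition with hσ
  have hσc : ContDiff ℝ 1 σ := Real.smoothTransition.contDiff
  have hσd : ∀ s, HasDerivAt σ (deriv σ s) s := fun s =>
    (hσc.differentiable one_ne_zero s).hasDerivAt
  have hσc' : Continuous (deriv σ) := hσc.continuous_deriv le_rfl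
  have hσm : ∀ s, 0 ≤ deriv σ s := fun s => Real.smoothTransition.monotone.deriv_nonneg
  set Γ : ℝ → ℂ := fun s => γ₁ (σ (2 * s)) + γ₂ (σ (2 * s - 1)) - q with hΓ
  have hΓc : ContDiff ℝ 1 Γ :=
    ((h1.comp (hσc.comp (contDiff_const.mul contDiff_id))).add
      (k1.comp (hσc.comp ((contDiff_const.mul contDiff_id).sub contDiff_const)))).sub contDiff_const
  have hΓ0 : Γ 0 = p := by
    have e1 : σ (2 * 0) = 0 := by rw [hσ]; simp
    have e2 : σ (2 * 0 - 1) = 0 := Real.smoothTransition.zero_of_nonpos (by norm_num)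
    simp only [hΓ, e1, e2, h2, k2]; ring
  have hΓ1 : Γ 1 = r := by
    have e1 : σ (2 * 1) = 1 := Real.smoothTransition.one_of_one_le (by norm_num)
    have e2 : σ (2 * 1 - 1) = 1 := Real.smoothTransition.one_of_one_le (by norm_num)
    simp only [hΓ, e1, e2, h3, k3]; ring
  have h5 := gdist_le_len (lam := lam) hΓc
  rw [hΓ0, hΓ1] at h5
  -- the two pieces
  have d1 : ∀ s, HasDerivAt (fun s => σ (2 * s)) (deriv σ (2 * s) * 2) s := by
    intro s
    have : HasDerivAt (fun s : ℝ => 2 * s) 2 s := by simpa using (hasDerivAt_id s).const_mul 2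
    exact (hσd (2 * s)).comp s this
  have d2 : ∀ s, HasDerivAt (fun s => σ (2 * s - 1)) (deriv σ (2 * s - 1) * 2) s := by
    intro s
    have : HasDerivAt (fun s : ℝ => 2 * s - 1) 2 s := by
      simpa using ((hasDerivAt_id s).const_mul 2).sub_const 1
    exact (hσd (2 * s - 1)).comp s this
  have g1 : ∀ s, HasDerivAt (fun s => γ₁ (σ (2 * s)))
      ((deriv σ (2 * s) * 2) • deriv γ₁ (σ (2 * s))) s := by
    intro s
    exact ((h1.differentiable one_ne_zero _).hasDerivAt).scomp s (d1 s)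
  have g2 : ∀ s, HasDerivAt (fun s => γ₂ (σ (2 * s - 1)))
      ((deriv σ (2 * s - 1) * 2) • deriv γ₂ (σ (2 * s - 1))) s := by
    intro s
    exact ((k1.differentiable one_ne_zero _).hasDerivAt).scomp s (d2 s)
  have hdΓ : ∀ s, deriv Γ s = (deriv σ (2 * s) * 2) • deriv γ₁ (σ (2 * s)) +
      (deriv σ (2 * s - 1) * 2) • deriv γ₂ (σ (2 * s - 1)) := by
    intro s
    exact (((g1 s).add (g2 s)).sub_const q).deriv
  have z1 : ∀ t, t ≤ 0 → deriv σ t = 0 := by
    intro t ht
    rcases ht.lt_or_eq with ht | rfl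
    · have : σ =ᶠ[𝓝 t] fun _ => 0 := by
        filter_upwards [Iio_mem_nhds ht] with y hy
        exact Real.smoothTransition.zero_of_nonpos hy.le
      rw [this.deriv_eq]; simp
    · have : IsLocalMin σ 0 := by
        apply Filter.Eventually.of_forall
        intro y
        rw [hσ, Real.smoothTransition.zero]
        exact Real.smoothTransition.nonneg y
      exact this.deriv_eq_zero
  have z2 : ∀ t, 1 ≤ t → deriv σ t = 0 := by
    intro t ht
    rcases ht.lt_or_eq with ht | rfl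
    · have : σ =ᶠ[𝓝 t] fun _ => 1 := by
        filter_upwards [Ioi_mem_nhds ht] with y hy
        exact Real.smoothTransition.one_of_one_le (le_of_lt hy)
      rw [this.deriv_eq]; simp
    · have : IsLocalMax σ 1 := by
        apply Filter.Eventually.of_forall
        intro y
        rw [hσ, Real.smoothTransition.one]
        exact Real.smoothTransition.le_one y
      exact this.deriv_eq_zero
  have hint : ∀ a b, IntervalIntegrable (fun s => Real.sqrt (lam (Γ s)) * ‖deriv Γ s‖) volume a b :=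
    fun a b => (cont_speed hc hΓc).intervalIntegrable a b
  have hsplit : len lam Γ = (∫ s in (0:ℝ)..(1/2), Real.sqrt (lam (Γ s)) * ‖deriv Γ s‖) +
      ∫ s in (1/2:ℝ)..1, Real.sqrt (lam (Γ s)) * ‖deriv Γ s‖ := by
    unfold len
    rw [intervalIntegral.integral_add_adjacent_intervals (hint _ _) (hint _ _)]
  have p1 : (∫ s in (0:ℝ)..(1/2), Real.sqrt (lam (Γ s)) * ‖deriv Γ s‖) = len lam γ₁ := by
    have := len_reparam (lam := lam) hc h1 (0:ℝ) (1/2) d1 ((hσc'.comp (by fun_prop)).mul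
      continuous_const)
    have e0 : σ (2 * 0) = 0 := by rw [hσ]; simp
    have e1 : σ (2 * (1/2)) = 1 := Real.smoothTransition.one_of_one_le (by norm_num)
    rw [e0, e1] at this
    unfold len
    rw [← this]
    apply intervalIntegral.integral_congr
    intro s hs
    rw [uIcc_of_le (by norm_num)] at hs
    have e2 : σ (2 * s - 1) = 0 := Real.smoothTransition.zero_of_nonpos (by linarith [hs.2])
    have e3 : Γ s = γ₁ (σ (2 * s)) := by simp only [hΓ, e2, k2]; ring
    have e4 : deriv Γ s = (deriv σ (2 * s) * 2) • deriv γ₁ (σ (2 * s)) := by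
      rw [hdΓ, z1 (2 * s - 1) (by linarith [hs.2])]; simp
    simp only [e3, e4, norm_smul, Real.norm_of_nonneg (mul_nonneg (hσm (2 * s)) zero_le_two)]
    ring
  have p2 : (∫ s in (1/2:ℝ)..1, Real.sqrt (lam (Γ s)) * ‖deriv Γ s‖) = len lam γ₂ := by
    have := len_reparam (lam := lam) hc k1 (1/2:ℝ) 1 d2 ((hσc'.comp (by fun_prop)).mul
      continuous_const)
    have e0 : σ (2 * (1/2) - 1) = 0 := Real.smoothTransition.zero_of_nonpos (by norm_num)
    have e1 : σ (2 * 1 - 1) = 1 := Real.smoothTransition.one_of_one_le (by norm_num)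
    rw [e0, e1] at this
    unfold len
    rw [← this]
    apply intervalIntegral.integral_congr
    intro s hs
    rw [uIcc_of_le (by norm_num)] at hs
    have e2 : σ (2 * s) = 1 := Real.smoothTransition.one_of_one_le (by linarith [hs.1])
    have e3 : Γ s = γ₂ (σ (2 * s - 1)) := by simp only [hΓ, e2, h3]; ring
    have e4 : deriv Γ s = (deriv σ (2 * s - 1) * 2) • deriv γ₂ (σ (2 * s - 1)) := by
      rw [hdΓ, z2 (2 * s) (by linarith [hs.1])]; simp
    simp only [e3, e4, norm_smul, Real.norm_of_nonneg (mul_nonneg (hσm (2 * s - 1)) zero_le_two)]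
    ring
  rw [p1, p2] at hsplit
  linarith

/-- Calibration: a `C¹` function with gradient at most `√lam` is 1-Lipschitz for `gdist`. -/
lemma calib (hc : Continuous lam) {ψ : ℂ → ℝ} (hψ : ContDiff ℝ 1 ψ)
    (hb : ∀ z, ‖fderiv ℝ ψ z‖ ≤ Real.sqrt (lam z)) (p q : ℂ) :
    ψ q - ψ p ≤ gdist lam p q := by
  apply le_csInf (nonem p q)
  rintro L ⟨γ, hγ, h0, h1, rfl⟩
  have hd : ∀ s, HasDerivAt (fun s => ψ (γ s)) (fderiv ℝ ψ (γ s) (deriv γ s)) s := by
    intro s
    exact ((hψ.differentiable one_ne_zero (γ s)).hasFDerivAt).comp_hasDerivAt s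
      (hγ.differentiable one_ne_zero s).hasDerivAt
  have hcont : Continuous fun s => fderiv ℝ ψ (γ s) (deriv γ s) :=
    ((hψ.continuous_fderiv one_ne_zero).comp hγ.continuous).clm_apply
      (hγ.continuous_deriv le_rfl)
  have hftc := intervalIntegral.integral_eq_sub_of_hasDerivAt (a := 0) (b := 1)
    (fun s _ => hd s) (hcont.intervalIntegrable _ _)
  rw [← h0, ← h1, ← hftc]
  unfold len
  apply intervalIntegral.integral_mono_on zero_le_one (hcont.intervalIntegrable _ _)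
    ((cont_speed hc hγ).intervalIntegrable _ _)
  intro s _
  calc fderiv ℝ ψ (γ s) (deriv γ s) ≤ ‖fderiv ℝ ψ (γ s) (deriv γ s)‖ := Real.le_norm_self _
    _ ≤ ‖fderiv ℝ ψ (γ s)‖ * ‖deriv γ s‖ := ContinuousLinearMap.le_opNorm _ _
    _ ≤ _ := by gcongr; exact hb _

/-- Distances along a segment. -/
lemma gdist_seg (p q : ℂ) {M : ℝ} (hM : ∀ s ∈ Icc (0:ℝ) 1, lam (p + (s:ℂ) * (q - p)) ≤ M ^ 2)
    (hM0 : 0 ≤ M) (hc : Continuous lam) : gdist lam p q ≤ M * ‖q - p‖ := by
  have hγ : ContDiff ℝ 1 (fun s : ℝ => p + (s : ℂ) * (q - p)) :=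
    contDiff_const.add ((Complex.ofRealCLM.contDiff).mul contDiff_const)
  have h := gdist_le_len (lam := lam) hγ
  simp only [Complex.ofReal_zero, zero_mul, add_zero, Complex.ofReal_one, one_mul,
    add_sub_cancel] at h
  refine h.trans ?_
  have hd : ∀ s : ℝ, deriv (fun s : ℝ => p + (s : ℂ) * (q - p)) s = q - p := by
    intro s
    have : HasDerivAt (fun s : ℝ => (s : ℂ)) 1 s := Complex.ofRealCLM.hasDerivAt
    simpa using ((this.mul_const (q - p)).const_add p).deriv
  have e : M * ‖q - p‖ = ∫ s in (0:ℝ)..1, M * ‖q - p‖ := by simp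
  rw [e]
  unfold len
  apply intervalIntegral.integral_mono_on zero_le_one
    ((cont_speed hc hγ).intervalIntegrable _ _) (by simp)
  intro s hs
  rw [hd]
  gcongr
  rw [Real.sqrt_le_left hM0]
  exact hM s hs

end basics

end Pool.Agent.Q203.Hd
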