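import Pool.Agent.Q203.Hd8

open Set Topology Filter MeasureTheory intervalIntegral

namespace Pool.Agent.Q203.Hd

lemma exists_N {a : ℝ} (ha : 0 < a) : ∃ N : ℕ, 1 ≤ N ∧ 7 * Real.exp (-(N:ℝ)) ≤ a ∧
    7 * Real.exp (-(N:ℝ)) ≤ 1 / (2 * N) := by
  have h1 : Tendsto (fun x : ℝ => x ^ 1 * Real.exp (-x)) atTop (𝓝 0) :=
    Real.tendsto_pow_mul_exp_neg_atTop_nhds_zero 1
  have h2 : Tendsto (fun x : ℝ => Real.exp (-x)) atTop (𝓝 0) := Real.tendsto_exp_neg_atTop_nhds_zero
  have h1' := h1.comp tendsto_natCast_atTop_atTop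
  have h2' := h2.comp tendsto_natCast_atTop_atTop
  have e1 : ∀ᶠ N : ℕ in atTop, (N:ℝ) ^ 1 * Real.exp (-(N:ℝ)) < 1 / 14 :=
    h1'.eventually (gt_mem_nhds (by norm_num))
  have e2 : ∀ᶠ N : ℕ in atTop, Real.exp (-(N:ℝ)) < a / 7 :=
    h2'.eventually (gt_mem_nhds (by positivity))
  obtain ⟨N, hN1, hN2, hN3⟩ := (e1.and (e2.and (eventually_ge_atTop 1))).exists
  have hN0 : (0:ℝ) < N := by exact_mod_cast hN3
  refine ⟨N, hN3, by linarith, ?_⟩
  rw [le_div_iff₀ (by positivity)]
  rw [pow_one] at hN1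
  linarith

set_option maxHeartbeats 1000000 in
lemma potential {E : ℂ → ℝ} (hE : Continuous E) {c : ℝ} (hc : 0 ≤ c)
    (hst : ∀ w, ∃ δ > 0, ∀ r : ℝ, 0 < r → r < δ → 4 * E w - (2 * c + 1) * r ^ 2 ≤ four E w r)
    {w₀ : ℂ} {Xb : ℝ} (hX4 : 4 ≤ Xb) (hXb : ∀ w, ‖w - w₀‖ ≤ 11 → E w ≤ Xb)
    (hpts : ∀ t, w₀.re ≤ t → t ≤ w₀.re + 1 →
      ∃ w' : ℂ, w'.re = t ∧ |w'.im - w₀.im| ≤ Real.pi ∧ E w' ≤ 1) :
    E w₀ ≤ (1 - Real.log 2 / 18) * Xb + 121 * (c + 1) := by
  classical
  obtain ⟨r₁, hr₁, hunif⟩ := unif hE (isCompact_closedBall w₀ 5) one_pos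
  obtain ⟨N, hN1, hNa, hNb⟩ := exists_N (half_pos hr₁)
  have hN0 : (0:ℝ) < N := by exact_mod_cast hN1
  set r₀ := min (r₁ / 2) (1 / (2 * (N:ℝ))) with hr₀
  have hr00 : 0 < r₀ := lt_min (by positivity) (by positivity)
  have hr0e : 7 * Real.exp (-(N:ℝ)) ≤ r₀ := le_min hNa hNb
  have hr0a : r₀ < r₁ := lt_of_le_of_lt (min_le_left _ _) (by linarith)
  have hr0b : r₀ ≤ 1 / (2 * (N:ℝ)) := min_le_right _ _
  -- the points
  have hptsN : ∀ i : ℕ, i < N → ∃ w' : ℂ, w'.re = w₀.re + (i:ℝ) / N ∧
      |w'.im - w₀.im| ≤ Real.pi ∧ E w' ≤ 1 := by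
    intro i hi
    apply hpts
    · have : 0 ≤ (i:ℝ) / N := by positivity
      linarith
    · have : (i:ℝ) / N ≤ 1 := by
        rw [div_le_one hN0]; exact_mod_cast hi.le
      linarith
  choose! W hW1 hW2 hW3 using hptsN
  have hWdist : ∀ i < N, ‖W i - w₀‖ ≤ 7 / 2 := by
    intro i hi
    have e1 : (W i - w₀).re = (i:ℝ) / N := by rw [Complex.sub_re, hW1 i hi]; ring
    have e2 : |(W i - w₀).im| ≤ Real.pi := by rw [Complex.sub_im]; exact hW2 i hi
    have h0 : 0 ≤ (i:ℝ) / N := by positivity
    have h1 : (i:ℝ) / N ≤ 1 := by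
      rw [div_le_one hN0]; exact_mod_cast hi.le
    have h2 : ‖W i - w₀‖ ^ 2 ≤ (7 / 2) ^ 2 := by
      rw [Complex.sq_norm, Complex.normSq_apply, e1]
      have h3 : (W i - w₀).im * (W i - w₀).im ≤ Real.pi ^ 2 := by
        rw [← sq, ← sq_abs]
        gcongr
      have h4 : Real.pi ^ 2 ≤ 3.15 ^ 2 := by
        have := Real.pi_lt_d2
        have := Real.pi_pos
        gcongr
      nlinarith
    exact abs_le_of_sq_le_sq' h2 (by norm_num) |>.2
  by_cases hnear : ∃ j < N, ‖w₀ - W j‖ < r₀
  · -- w₀ is close to one of the points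
    obtain ⟨j, hj, hjn⟩ := hnear
    have h1 := hunif (W j) (by
      rw [Metric.mem_closedBall, dist_eq_norm]
      exact (hWdist j hj).trans (by norm_num)) w₀ (hjn.trans hr0a)
    rw [Real.norm_eq_abs] at h1
    have h2 := (abs_lt.mp h1).2
    have h3 := hW3 j hj
    have h4 : Real.log 2 ≤ 1 := by
      have := Real.log_two_lt_d9; linarith
    nlinarith
  push Not at hnear
  -- barrier
  set A := Xb / 18 with hA
  have hA0 : 0 < A := by positivity
  set h : ℂ → ℝ := fun w => A / N * ∑ i ∈ Finset.range N, (Real.log 7 - Real.log ‖w - W i‖) with hh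
  set φ : ℂ → ℝ := fun w => (Xb - E w) - h w - (c + 1) * ‖w - w₀‖ ^ 2 + 121 * (c + 1) with hφ
  set Ω : Set ℂ := Metric.closedBall w₀ 11 ∩ {w | ∀ i < N, r₀ ≤ ‖w - W i‖} with hΩ
  have hΩc : IsCompact Ω := by
    apply (isCompact_closedBall w₀ 11).inter_right
    have : {w : ℂ | ∀ i < N, r₀ ≤ ‖w - W i‖} = ⋂ i, ⋂ (_ : i < N), {w | r₀ ≤ ‖w - W i‖} := by
      ext w; simp
    rw [this]
    exact isClosed_iInter fun i => isClosed_iInter fun _ =>
      isClosed_le continuous_const (by fun_prop)
  have hw0Ω : w₀ ∈ Ω := ⟨Metric.mem_closedBall_self (by norm_num), fun i hi => hnear i hi⟩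
  have hφc : ContinuousOn φ Ω := by
    have h1 : ContinuousOn h Ω := by
      apply continuousOn_const.mul
      apply continuousOn_finsetSum
      intro i hi
      apply continuousOn_const.sub
      apply ContinuousOn.log
      · exact (continuous_id.sub continuous_const).norm.continuousOn
      · intro w hw
        have := hw.2 i (Finset.mem_range.mp hi)
        have h3 : 0 < ‖w - W i‖ := by linarith
        exact h3.ne'
    exact (((continuous_const.sub hE).continuousOn.sub h1).sub
      (continuous_const.mul ((continuous_id.sub continuous_const).norm.pow 2)).continuousOn).add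
      continuousOn_const
  -- sum bound near a point
  have hcircle : ∀ j < N, ∀ w, ‖w - W j‖ = r₀ → h w ≤ Xb / 2 := by
    intro j hj w hw
    have hbd : ∀ i ∈ (Finset.range N).erase j, Real.log 7 - Real.log ‖w - W i‖ ≤
        Real.log (14 * N) - Real.log (Nat.dist i j : ℝ) := by
      intro i hi
      simp only [Finset.mem_erase, Finset.mem_range] at hi
      have hd0 : 0 < Nat.dist i j := Nat.dist_pos_of_ne hi.1
      have hd1 : (1:ℝ) ≤ Nat.dist i j := by exact_mod_cast hd0
      have e1 : |(W i - W j).re| = (Nat.dist i j : ℝ) / N := by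
        rw [Complex.sub_re, hW1 i hi.2, hW1 j hj]
        have : w₀.re + (i:ℝ) / N - (w₀.re + (j:ℝ) / N) = ((i:ℝ) - j) / N := by ring
        rw [this, abs_div, abs_of_pos hN0]
        congr 1
        rcases le_total i j with hij | hij
        · rw [Nat.dist_eq_sub_of_le hij, Nat.cast_sub hij, abs_sub_comm, abs_of_nonneg]
          have : (i:ℝ) ≤ j := by exact_mod_cast hij
          linarith
        · rw [Nat.dist_eq_sub_of_le_right hij, Nat.cast_sub hij, abs_of_nonneg]
          have : (j:ℝ) ≤ i := by exact_mod_cast hij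
          linarith
      have e2 : (Nat.dist i j : ℝ) / N ≤ ‖W i - W j‖ := e1 ▸ Complex.abs_re_le_norm _
      have e3 : ‖W i - W j‖ ≤ ‖w - W i‖ + ‖w - W j‖ := by
        calc ‖W i - W j‖ = ‖(w - W j) - (w - W i)‖ := by congr 1; ring
          _ ≤ ‖w - W j‖ + ‖w - W i‖ := norm_sub_le _ _
          _ = _ := add_comm _ _
      have e4 : (Nat.dist i j : ℝ) / (2 * N) ≤ ‖w - W i‖ := by
        have : r₀ ≤ (Nat.dist i j : ℝ) / (2 * N) := hr0b.trans (by gcongr)
        have h5 : (Nat.dist i j : ℝ) / N = (Nat.dist i j : ℝ) / (2 * N) +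
            (Nat.dist i j : ℝ) / (2 * N) := by field_simp; norm_num
        linarith
      have e5 : Real.log ((Nat.dist i j : ℝ) / (2 * N)) ≤ Real.log ‖w - W i‖ :=
        Real.log_le_log (by positivity) e4
      rw [Real.log_div (by positivity) (by positivity)] at e5
      have e6 : Real.log (14 * N) = Real.log 7 + Real.log (2 * N) := by
        rw [← Real.log_mul (by norm_num) (by positivity)]
        congr 1; ring
      linarith
    have hj' : Real.log 7 - Real.log ‖w - W j‖ ≤ N := by
      rw [hw]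
      have := Real.log_le_log (by positivity) hr0e
      rw [Real.log_mul (by norm_num) (Real.exp_pos _).ne', Real.log_exp] at this
      linarith
    have hnn : ∀ k ∈ Finset.Icc 1 N, 0 ≤ Real.log (14 * N) - Real.log (k:ℝ) := by
      intro k hk
      rw [Finset.mem_Icc] at hk
      have hk1 : (1:ℝ) ≤ k := by exact_mod_cast hk.1
      have hk2 : (k:ℝ) ≤ N := by exact_mod_cast hk.2
      have := Real.log_le_log (by linarith) (show (k:ℝ) ≤ 14 * N by linarith)
      linarith
    have hsum := sum_two_sided hj (f := fun k => Real.log (14 * N) - Real.log (k:ℝ)) hnn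
    have hsum2 := sum_logs hN1
    have htot : ∑ i ∈ Finset.range N, (Real.log 7 - Real.log ‖w - W i‖) ≤ 9 * N := by
      rw [← Finset.add_sum_erase _ _ (Finset.mem_range.mpr hj)]
      have := Finset.sum_le_sum hbd
      linarith
    calc h w ≤ A / N * (9 * N) := by
          simp only [hh]
          gcongr
      _ = Xb / 2 := by rw [hA]; field_simp; norm_num
  -- minimum principle
  obtain ⟨ws, hwsΩ, hmin⟩ := hΩc.exists_isMinOn ⟨w₀, hw0Ω⟩ hφc
  have hws11 : ‖ws - w₀‖ ≤ 11 := by
    have := hwsΩ.1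
    rwa [Metric.mem_closedBall, dist_eq_norm] at this
  have hφws : 0 ≤ φ ws := by
    by_contra hneg
    push Not at hneg
    by_cases hb1 : ‖ws - w₀‖ = 11
    · -- outer circle
      have hh0 : h ws ≤ 0 := by
        simp only [hh]
        apply mul_nonpos_of_nonneg_of_nonpos (by positivity)
        apply Finset.sum_nonpos
        intro i hi
        have hi' := Finset.mem_range.mp hi
        have h1 : 7 ≤ ‖ws - W i‖ := by
          have h2 : ‖ws - w₀‖ ≤ ‖ws - W i‖ + ‖W i - w₀‖ := by
            calc ‖ws - w₀‖ = ‖(ws - W i) + (W i - w₀)‖ := by congr 1; ring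
              _ ≤ _ := norm_add_le _ _
          have := hWdist i hi'
          linarith
        have := Real.log_le_log (by norm_num) h1
        linarith
      have hEx := hXb ws hws11
      simp only [hφ, hb1] at hneg
      linarith
    · have hlt : ‖ws - w₀‖ < 11 := lt_of_le_of_ne hws11 hb1
      by_cases hb2 : ∃ j < N, ‖ws - W j‖ = r₀
      · obtain ⟨j, hj, hjr⟩ := hb2
        have h1 := hcircle j hj ws hjr
        have h2 := hunif (W j) (by
          rw [Metric.mem_closedBall, dist_eq_norm]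
          exact (hWdist j hj).trans (by norm_num)) ws (by rw [hjr]; exact hr0a)
        rw [Real.norm_eq_abs] at h2
        have h3 := (abs_lt.mp h2).2
        have h4 := hW3 j hj
        have h5 : ‖ws - w₀‖ ^ 2 ≤ 121 := by
          have : ‖ws - w₀‖ ^ 2 ≤ 11 ^ 2 := by gcongr
          linarith
        have h6 : (c + 1) * ‖ws - w₀‖ ^ 2 ≤ (c + 1) * 121 := by gcongr
        simp only [hφ] at hneg
        linarith
      · push Not at hb2
        have hgt : ∀ i < N, r₀ < ‖ws - W i‖ := fun i hi =>
          lt_of_le_of_ne (hwsΩ.2 i hi) (Ne.symm (hb2 i hi))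
        -- a uniform margin
        obtain ⟨μ, hμ, hμb⟩ : ∃ μ > 0, ∀ i < N, r₀ + μ ≤ ‖ws - W i‖ := by
          have hne : (Finset.range N).Nonempty := ⟨0, Finset.mem_range.mpr hN1⟩
          obtain ⟨i₀, hi₀, hmin0⟩ := Finset.exists_min_image (Finset.range N)
            (fun i => ‖ws - W i‖) hne
          refine ⟨‖ws - W i₀‖ - r₀, by linarith [hgt i₀ (Finset.mem_range.mp hi₀)], ?_⟩
          intro i hi
          have := hmin0 i (Finset.mem_range.mpr hi)
          linarith
        obtain ⟨δ, hδ, hstE⟩ := hst ws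
        obtain ⟨r, hr, hr1, hr2, hr3, hr4, hr5⟩ : ∃ r : ℝ, 0 < r ∧ r < δ ∧ r < μ ∧
            r < 11 - ‖ws - w₀‖ ∧ r < r₀ ∧ r ^ 2 * (A / r₀ ^ 4) < 1 := by
          have e0 : ∀ᶠ r : ℝ in 𝓝[>] 0, 0 < r := self_mem_nhdsWithin
          have e1 : ∀ᶠ r : ℝ in 𝓝[>] 0, r < δ := nhdsWithin_le_nhds (gt_mem_nhds hδ)
          have e2 : ∀ᶠ r : ℝ in 𝓝[>] 0, r < μ := nhdsWithin_le_nhds (gt_mem_nhds hμ)
          have e3 : ∀ᶠ r : ℝ in 𝓝[>] 0, r < 11 - ‖ws - w₀‖ :=
            nhdsWithin_le_nhds (gt_mem_nhds (by linarith))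
          have e4 : ∀ᶠ r : ℝ in 𝓝[>] 0, r < r₀ := nhdsWithin_le_nhds (gt_mem_nhds hr00)
          have e5 : ∀ᶠ r : ℝ in 𝓝[>] 0, r ^ 2 * (A / r₀ ^ 4) < 1 := by
            apply nhdsWithin_le_nhds
            have : Tendsto (fun r : ℝ => r ^ 2 * (A / r₀ ^ 4)) (𝓝 0) (𝓝 (0 ^ 2 * (A / r₀ ^ 4))) :=
              Continuous.tendsto (by fun_prop) 0
            exact this.eventually (gt_mem_nhds (by norm_num))
          exact (e0.and (e1.and (e2.and (e3.and (e4.and e5))))).exists
        have hrn : ‖(r:ℂ)‖ = r := by rw [Complex.norm_real, Real.norm_of_nonneg hr.le]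
        have hin : ∀ v : ℂ, ‖v‖ = r → φ ws ≤ φ (ws + v) := by
          intro v hv
          apply hmin
          refine ⟨?_, ?_⟩
          · rw [Metric.mem_closedBall, dist_eq_norm]
            calc ‖ws + v - w₀‖ = ‖(ws - w₀) + v‖ := by congr 1; ring
              _ ≤ ‖ws - w₀‖ + ‖v‖ := norm_add_le _ _
              _ ≤ 11 := by linarith
          · intro i hi
            have h1 := hμb i hi
            have h2 : ‖ws - W i‖ ≤ ‖ws + v - W i‖ + ‖v‖ := by
              calc ‖ws - W i‖ = ‖(ws + v - W i) - v‖ := by congr 1; ring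
                _ ≤ _ := norm_sub_le _ _
            linarith
        have b1 := hin r hrn
        have b2 := hin (-r) (by rw [norm_neg, hrn])
        have b3 := hin (Complex.I * r) (by simp only [norm_mul, Complex.norm_I, hrn, one_mul])
        have b4 := hin (-(Complex.I * r)) (by
          simp only [norm_neg, norm_mul, Complex.norm_I, hrn, one_mul])
        have f1 := hstE r hr hr1
        have f2 := four_sq ws w₀ r
        have f3 : h (ws + r) + h (ws + -r) + (h (ws + Complex.I * r) + h (ws + -(Complex.I * r))) ≥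
            4 * h ws - A * (r ^ 4 / r₀ ^ 4) := by
          have e : h (ws + r) + h (ws + -r) + (h (ws + Complex.I * r) + h (ws + -(Complex.I * r))) =
              A / N * ∑ i ∈ Finset.range N, (4 * Real.log 7 -
                four (fun z => Real.log ‖z - W i‖) ws r) := by
            simp only [hh, ← mul_add, ← Finset.sum_add_distrib]
            congr 1
            apply Finset.sum_congr rfl
            intro i _
            unfold four
            simp only [sub_eq_add_neg]
            ring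
          rw [e]
          have e2 : 4 * h ws - A * (r ^ 4 / r₀ ^ 4) = A / N * ∑ i ∈ Finset.range N,
              (4 * (Real.log 7 - Real.log ‖ws - W i‖) - r ^ 4 / r₀ ^ 4) := by
            rw [Finset.sum_sub_distrib, ← Finset.mul_sum]
            simp only [hh, Finset.sum_const, Finset.card_range, nsmul_eq_mul]
            field_simp
          rw [e2]
          apply mul_le_mul_of_nonneg_left _ (by positivity)
          apply Finset.sum_le_sum
          intro i hi
          have hi' := Finset.mem_range.mp hi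
          have h1 := four_logsub (w := ws) (a := W i) hr (by linarith [hgt i hi'])
          have h2 : r ^ 4 / ‖ws - W i‖ ^ 4 ≤ r ^ 4 / r₀ ^ 4 := by
            have := hgt i hi'
            gcongr
          linarith
        unfold four at f1 f2
        simp only [sub_eq_add_neg] at f1 f2
        simp only [hφ, sub_eq_add_neg] at b1 b2 b3 b4
        have hf3' : A * (r ^ 4 / r₀ ^ 4) = r ^ 2 * (r ^ 2 * (A / r₀ ^ 4)) := by
          field_simp
        have hr20 : 0 < r ^ 2 := by positivity
        have h8 : r ^ 2 * (r ^ 2 * (A / r₀ ^ 4)) < r ^ 2 * 1 := by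
          exact mul_lt_mul_of_pos_left hr5 hr20
        have hcr : 0 ≤ c * r ^ 2 := by positivity
        have h9 := congrArg (fun t => (c + 1) * t) f2
        simp only [mul_add] at h9
        rw [hf3'] at f3
        nlinarith
  have hφ0 : 0 ≤ φ w₀ := hφws.trans (hmin hw0Ω)
  simp only [hφ, sub_self, norm_zero] at hφ0
  have hh1 : A * Real.log 2 ≤ h w₀ := by
    have e : A * Real.log 2 = A / N * ∑ i ∈ Finset.range N, Real.log 2 := by
      simp only [Finset.sum_const, Finset.card_range, nsmul_eq_mul]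
      field_simp
    rw [e]
    simp only [hh]
    apply mul_le_mul_of_nonneg_left _ (by positivity)
    apply Finset.sum_le_sum
    intro i hi
    have hi' := Finset.mem_range.mp hi
    have h1 := hnear i hi'
    have h2 := hWdist i hi'
    rw [norm_sub_rev] at h2
    have h3 := Real.log_le_log (by linarith) h2
    have h4 : Real.log 7 = Real.log 2 + Real.log (7 / 2) := by
      rw [← Real.log_mul (by norm_num) (by norm_num)]
      norm_num
    linarith
  have hA2 : A * Real.log 2 = Real.log 2 / 18 * Xb := by rw [hA]; ring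
  norm_num at hφ0
  linarith

end Pool.Agent.Q203.Hd
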