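import Pool.Agent.Q203.Hd7
import Pool.Agent.Q203.Hd9

open Set Topology Filter MeasureTheory intervalIntegral

namespace Pool.Agent.Q203.Hd

lemma exp_hasFDeriv (w : ℂ) : HasFDerivAt Complex.exp
    ((ContinuousLinearMap.toSpanSingleton ℂ (Complex.exp w)).restrictScalars ℝ) w :=
  ((Complex.hasDerivAt_exp w).hasFDerivAt).restrictScalars ℝ

lemma fderiv_comp_exp {u : ℂ → ℝ} (hu : ContDiff ℝ 2 u) (w e : ℂ) :
    fderiv ℝ (fun w => u (Complex.exp w)) w e = fderiv ℝ u (Complex.exp w) (e * Complex.exp w) := by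
  have h := ((hasFDerivAt1 hu (Complex.exp w)).comp w (exp_hasFDeriv w)).fderiv
  change fderiv ℝ (u ∘ Complex.exp) w e = _
  rw [h]
  simp

lemma comp_exp_contDiff {u : ℂ → ℝ} (hu : ContDiff ℝ 2 u) :
    ContDiff ℝ 2 (fun w => u (Complex.exp w)) :=
  hu.comp (Complex.contDiff_exp (𝕜 := ℝ))

lemma line_D2' {F : ℂ → ℝ} (hF : ContDiff ℝ 2 F) {g v : ℝ → ℂ} {g' v' : ℂ}
    (hg : HasDerivAt g g' 0) (hv : HasDerivAt v v' 0) :
    HasDerivAt (fun t : ℝ => fderiv ℝ F (g t) (v t))
      (fderiv ℝ (fderiv ℝ F) (g 0) g' (v 0) + fderiv ℝ F (g 0) v') 0 :=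
  ((hasFDerivAt2 hF (g 0)).comp_hasDerivAt (0:ℝ) hg).clm_apply hv

lemma line_D2 {F : ℂ → ℝ} (hF : ContDiff ℝ 2 F) (w e : ℂ) :
    HasDerivAt (fun t : ℝ => fderiv ℝ F (w + (t : ℂ) * e) e) (D2 F w e) 0 := by
  have d1 : HasDerivAt (fun t : ℝ => w + (t : ℂ) * e) e 0 := by
    have : HasDerivAt (fun s : ℝ => (s : ℂ)) 1 (0:ℝ) := Complex.ofRealCLM.hasDerivAt
    simpa using (this.mul_const e).const_add w
  have h := line_D2' hF d1 (hasDerivAt_const (0:ℝ) e)
  rw [map_zero, add_zero, Complex.ofReal_zero, zero_mul, add_zero] at h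
  unfold D2
  exact h

lemma D2_comp_exp {u : ℂ → ℝ} (hu : ContDiff ℝ 2 u) (w e : ℂ) :
    D2 (fun w => u (Complex.exp w)) w e = D2 u (Complex.exp w) (e * Complex.exp w) +
      fderiv ℝ u (Complex.exp w) (e * (e * Complex.exp w)) := by
  have d1 : HasDerivAt (fun t : ℝ => w + (t : ℂ) * e) e 0 := by
    have : HasDerivAt (fun s : ℝ => (s : ℂ)) 1 (0:ℝ) := Complex.ofRealCLM.hasDerivAt
    simpa using (this.mul_const e).const_add w
  have hw0 : w + ((0:ℝ) : ℂ) * e = w := by simp
  have a1 := line_D2 (comp_exp_contDiff hu) w e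
  have d2 : HasDerivAt (fun t : ℝ => Complex.exp (w + (t : ℂ) * e)) (e * Complex.exp w) 0 := by
    have := d1.cexp
    rw [hw0, mul_comm] at this
    exact this
  have a2 := line_D2' hu d2 (d2.const_mul e)
  rw [hw0] at a2
  have e1 : (fun t : ℝ => fderiv ℝ (fun w => u (Complex.exp w)) (w + (t : ℂ) * e) e) =
      fun t : ℝ => fderiv ℝ u (Complex.exp (w + (t : ℂ) * e))
      (e * Complex.exp (w + (t : ℂ) * e)) := by
    funext t
    exact fderiv_comp_exp hu _ _
  rw [e1] at a1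
  exact a1.unique a2

lemma lap_comp_exp {u : ℂ → ℝ} (hu : ContDiff ℝ 2 u) (w : ℂ) :
    lap (fun w => u (Complex.exp w)) w = ‖Complex.exp w‖ ^ 2 * lap u (Complex.exp w) := by
  unfold lap
  rw [D2_comp_exp hu, D2_comp_exp hu]
  have e1 : Complex.I * (Complex.I * Complex.exp w) = -(1 * (1 * Complex.exp w)) := by
    rw [← mul_assoc, Complex.I_mul_I]; ring
  rw [e1, map_neg]
  have := D2_rot u (Complex.exp w) (Complex.exp w)
  unfold lap at this
  rw [← this]
  ring_nf

/-- the inverse of the conformal factor in the logarithmic coordinate -/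
noncomputable def Ew (u : ℂ → ℝ) (w : ℂ) : ℝ := Real.exp (-(u (Complex.exp w) + 2 * w.re))

lemma Ew_cont {u : ℂ → ℝ} (hu : ContDiff ℝ 2 u) : Continuous (Ew u) := by
  unfold Ew
  exact Real.continuous_exp.comp (((hu.continuous.comp Complex.continuous_exp).add
    (continuous_const.mul Complex.continuous_re)).neg)

lemma Ew_eq (u : ℂ → ℝ) (w : ℂ) :
    Ew u w = 1 / (lm u (Complex.exp w) * ‖Complex.exp w‖ ^ 2) := by
  unfold Ew lm
  rw [Complex.norm_exp, ← Real.exp_nat_mul, ← Real.exp_add, Real.exp_neg, one_div]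
  norm_num

lemma Ew_stencil {u : ℂ → ℝ} (hu : ContDiff ℝ 2 u) {c : ℝ}
    (hlap : ∀ z, lap u z ≤ 2 * c * lm u z) (w : ℂ) :
    ∃ δ > 0, ∀ r : ℝ, 0 < r → r < δ → 4 * Ew u w - (2 * c + 1) * r ^ 2 ≤ four (Ew u) w r := by
  have hE0 : 0 < Ew u w := Real.exp_pos _
  obtain ⟨δ, hδ, hst⟩ := stencil (comp_exp_contDiff hu) (K := {w}) isCompact_singleton
    (η := 1 / Ew u w) (by positivity)
  refine ⟨δ, hδ, ?_⟩
  intro r hr hr1
  have hrn : ‖(r:ℂ)‖ = r := by rw [Complex.norm_real, Real.norm_of_nonneg hr.le]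
  have f1 := (abs_le.mp (hst w rfl r (by rw [hrn]; exact hr1))).2
  rw [hrn, lap_comp_exp hu] at f1
  have hdir : ∀ w' : ℂ, Ew u w * (1 - ((u (Complex.exp w') + 2 * w'.re) -
      (u (Complex.exp w) + 2 * w.re))) ≤ Ew u w' := by
    intro w'
    have : Ew u w' = Ew u w * Real.exp (-((u (Complex.exp w') + 2 * w'.re) -
      (u (Complex.exp w) + 2 * w.re))) := by
      unfold Ew; rw [← Real.exp_add]; congr 1; ring
    rw [this]
    gcongr
    have := Real.add_one_le_exp (-((u (Complex.exp w') + 2 * w'.re) -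
      (u (Complex.exp w) + 2 * w.re)))
    linarith
  have b1 := hdir (w + r)
  have b2 := hdir (w - r)
  have b3 := hdir (w + Complex.I * r)
  have b4 := hdir (w - Complex.I * r)
  have hElap : Ew u w * (‖Complex.exp w‖ ^ 2 * lap u (Complex.exp w)) ≤ 2 * c := by
    rw [Ew_eq]
    have h1 := lm_pos u (Complex.exp w)
    have h2 : 0 < ‖Complex.exp w‖ := norm_pos_iff.mpr (Complex.exp_ne_zero w)
    have : 1 / (lm u (Complex.exp w) * ‖Complex.exp w‖ ^ 2) *
        (‖Complex.exp w‖ ^ 2 * lap u (Complex.exp w)) = lap u (Complex.exp w) /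
        lm u (Complex.exp w) := by field_simp
    rw [this, div_le_iff₀ h1]
    exact hlap _
  unfold four at f1 ⊢
  simp only [Complex.add_re, Complex.sub_re, Complex.mul_re, Complex.I_re, Complex.I_im,
    Complex.ofReal_re, Complex.ofReal_im] at b1 b2 b3 b4
  set E := Ew u w
  set U0 := u (Complex.exp w)
  set U1 := u (Complex.exp (w + ↑r))
  set U2 := u (Complex.exp (w - ↑r))
  set U3 := u (Complex.exp (w + Complex.I * ↑r))
  set U4 := u (Complex.exp (w - Complex.I * ↑r))
  set Λ := ‖Complex.exp w‖ ^ 2 * lap u (Complex.exp w)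
  have g1 : E * (U1 + U2 + (U3 + U4) - 4 * U0) ≤ E * (r ^ 2 * Λ + 1 / E * r ^ 2) := by
    gcongr
    linarith
  have g2 : E * (r ^ 2 * Λ + 1 / E * r ^ 2) = r ^ 2 * (E * Λ) + r ^ 2 := by field_simp
  have g3 : r ^ 2 * (E * Λ) ≤ r ^ 2 * (2 * c) := by gcongr
  nlinarith

/-- points with small `Ew` on every vertical line -/
lemma Ew_points {u : ℂ → ℝ} (hu : ContDiff ℝ 2 u) (hsub : ∀ z, 0 ≤ lap u z) {t : ℝ}
    (ht : -u 0 / 2 ≤ t) (θ : ℝ) :
    ∃ w' : ℂ, w'.re = t ∧ |w'.im - θ| ≤ Real.pi ∧ Ew u w' ≤ 1 := by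
  obtain ⟨z, hz, huz⟩ := circle_max hu hsub (Real.exp_pos t)
  have hz0 : z ≠ 0 := by
    intro h; rw [h, norm_zero] at hz; exact (Real.exp_pos t).ne hz
  set z' := z * Complex.exp (-(θ * Complex.I)) with hz'
  have hz'n : ‖z'‖ = Real.exp t := by
    rw [hz', norm_mul, hz, Complex.norm_exp]; simp
  set w' : ℂ := ⟨t, θ + Complex.arg z'⟩ with hw'
  have hexp : Complex.exp w' = z := by
    have h1 : w' = (t : ℂ) + θ * Complex.I + (Complex.arg z') * Complex.I := by
      apply Complex.ext <;> simp [hw']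
    rw [h1, Complex.exp_add, Complex.exp_add]
    have h2 := Complex.norm_mul_exp_arg_mul_I z'
    rw [hz'n, Complex.ofReal_exp] at h2
    calc Complex.exp t * Complex.exp (θ * Complex.I) * Complex.exp (z'.arg * Complex.I)
        = Complex.exp (θ * Complex.I) * (Complex.exp t * Complex.exp (z'.arg * Complex.I)) := by
          ring
      _ = Complex.exp (θ * Complex.I) * z' := by rw [h2]
      _ = z * (Complex.exp (θ * Complex.I) * Complex.exp (-(θ * Complex.I))) := by
          rw [hz']; ring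
      _ = z := by rw [← Complex.exp_add]; simp
  refine ⟨w', rfl, ?_, ?_⟩
  · have : w'.im - θ = Complex.arg z' := by simp [hw']
    rw [this]
    exact Complex.abs_arg_le_pi z'
  · unfold Ew
    rw [hexp, Real.exp_le_one_iff]
    have : w'.re = t := rfl
    rw [this]
    linarith

lemma pow_lim {q a C : ℝ} (hq0 : 0 ≤ q) (hq1 : q < 1) :
    Tendsto (fun n : ℕ => q ^ n * (C * (a + 11 * n) ^ 2)) atTop (𝓝 0) := by
  have habs : |q| < 1 := by rw [abs_of_nonneg hq0]; exact hq1
  have h0 := tendsto_pow_const_mul_const_pow_of_abs_lt_one 0 habs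
  have h1 := tendsto_pow_const_mul_const_pow_of_abs_lt_one 1 habs
  have h2 := tendsto_pow_const_mul_const_pow_of_abs_lt_one 2 habs
  have h := ((h0.const_mul (C * a ^ 2)).add (h1.const_mul (C * (22 * a)))).add
    (h2.const_mul (C * 121))
  simp only [mul_zero, add_zero] at h
  refine h.congr ?_
  intro n
  ring

/-- The conformal factor in the logarithmic coordinate is bounded below. -/
theorem Ew_bounded {u : ℂ → ℝ} (hu : ContDiff ℝ 2 u) (hcomp : Complete (lm u)) {c : ℝ}
    (hc0 : 0 ≤ c) (hlap : ∀ z, lap u z ≤ 2 * c * lm u z) (hsub : ∀ z, 0 ≤ lap u z) :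
    ∃ C T : ℝ, 0 < C ∧ 0 < T ∧ ∀ w : ℂ, T ≤ w.re → Ew u w ≤ C := by
  have hlc : Continuous (lm u) := lm_cont hu
  -- the ball condition
  have hcont := continuous_gdist hlc 0
  obtain ⟨x0, _, hx0max⟩ := (isCompact_closedBall (0:ℂ) (Real.exp 1)).exists_isMaxOn
    ⟨0, Metric.mem_closedBall_self (Real.exp_pos 1).le⟩ hcont.continuousOn
  set Re := gdist (lm u) 0 x0 with hRe
  obtain ⟨B, hB⟩ := hopf_rinow hlc (lm_pos u) hcomp 0 (Re + 1)
  have hfar : ∀ p : ℂ, B < ‖p‖ → ∀ x, gdist (lm u) p x ≤ 1 → Real.exp 1 ≤ ‖x‖ := by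
    intro p hp x hx
    by_contra hlt
    push Not at hlt
    have h1 : gdist (lm u) 0 x ≤ Re := hx0max (by simpa using hlt.le)
    have h2 := gdist_triangle hlc 0 x p
    rw [gdist_comm x p] at h2
    have := hB p (by linarith)
    linarith
  set T₀ := max (max (-u 0 / 2) 1) (|B| + 1) with hT₀
  have hT1 : 1 ≤ T₀ := (le_max_right _ _).trans (le_max_left _ _)
  have hTu : -u 0 / 2 ≤ T₀ := (le_max_left _ _).trans (le_max_left _ _)
  have hTB : |B| + 1 ≤ T₀ := le_max_right _ _
  set C₁ := 36 + 3 * c with hC₁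
  have hC₁0 : 0 < C₁ := by positivity
  have hbase : ∀ w : ℂ, T₀ ≤ w.re → Ew u w ≤ C₁ * w.re ^ 2 := by
    intro w hw
    have hn : ‖Complex.exp w‖ = Real.exp w.re := Complex.norm_exp w
    have hBn : B < ‖Complex.exp w‖ := by
      rw [hn]
      have h1 := Real.add_one_le_exp w.re
      have h2 := le_abs_self B
      linarith
    have h := cheng_yau hu hcomp hc0 hlap (hfar _ hBn)
    rw [hn, Real.log_exp, ← hn] at h
    have h1 := lm_pos u (Complex.exp w)
    have h2 : 0 < ‖Complex.exp w‖ := norm_pos_iff.mpr (Complex.exp_ne_zero w)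
    rw [Ew_eq, div_le_iff₀ (by positivity)]
    linarith
  set q := 1 - Real.log 2 / 18 with hq
  have hl2 : 0 < Real.log 2 := Real.log_pos (by norm_num)
  have hl2' : Real.log 2 < 1 := by have := Real.log_two_lt_d9; linarith
  have hq0 : 0 ≤ q := by rw [hq]; linarith
  have hq1 : q < 1 := by rw [hq]; linarith
  set C₅ := C₁ * (T₀ + 11) ^ 2 with hC₅
  set C' := max (max C₅ 4) (121 * (c + 1) / (1 - q)) with hC'
  have hC'5 : C₅ ≤ C' := (le_max_left _ _).trans (le_max_left _ _)
  have hC'4 : 4 ≤ C' := (le_max_right _ _).trans (le_max_left _ _)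
  have hC'q : 121 * (c + 1) ≤ (1 - q) * C' := by
    have : 121 * (c + 1) / (1 - q) ≤ C' := le_max_right _ _
    rw [div_le_iff₀ (by linarith)] at this
    linarith
  have hiter : ∀ n : ℕ, ∀ w : ℂ, T₀ ≤ w.re →
      Ew u w ≤ C' + q ^ n * (C₁ * (w.re + 11 * n) ^ 2) := by
    intro n
    induction n with
    | zero =>
      intro w hw
      have := hbase w hw
      simp
      linarith
    | succ n ih =>
      intro w₀ hw₀
      have hpos : 0 ≤ q ^ (n + 1) * (C₁ * (w₀.re + 11 * ((n + 1 : ℕ) : ℝ)) ^ 2) := by positivity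
      by_cases hcase : w₀.re ≤ T₀ + 11
      · have h1 := hbase w₀ hw₀
        have h2 : C₁ * w₀.re ^ 2 ≤ C₅ := by
          rw [hC₅]
          have : 0 ≤ w₀.re := by linarith
          gcongr
        linarith
      · push Not at hcase
        set Xb := C' + q ^ n * (C₁ * (w₀.re + 11 + 11 * n) ^ 2) with hXb
        have hqn : 0 ≤ q ^ n * (C₁ * (w₀.re + 11 + 11 * n) ^ 2) := by positivity
        have hX : ∀ w, ‖w - w₀‖ ≤ 11 → Ew u w ≤ Xb := by
          intro w hw
          have h1 : |w.re - w₀.re| ≤ 11 := by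
            have := Complex.abs_re_le_norm (w - w₀)
            rw [Complex.sub_re] at this
            exact this.trans hw
          obtain ⟨h2, h3⟩ := abs_le.mp h1
          have h4 := ih w (by linarith)
          refine h4.trans ?_
          rw [hXb]
          have h5 : 0 ≤ w.re + 11 * n := by
            have : (0:ℝ) ≤ n := Nat.cast_nonneg n
            linarith
          gcongr
          linarith
        have hp := potential (Ew_cont hu) hc0 (Ew_stencil hu hlap) (w₀ := w₀) (Xb := Xb)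
          (by linarith) hX (fun t ht _ => Ew_points hu hsub (by linarith) w₀.im)
        rw [← hq] at hp
        have e : q * Xb = q * C' + q ^ (n + 1) * (C₁ * (w₀.re + 11 * ((n + 1 : ℕ) : ℝ)) ^ 2) := by
          rw [hXb]; push_cast; ring
        rw [e] at hp
        linarith
  refine ⟨C', T₀, by linarith, by linarith, ?_⟩
  intro w hw
  have hlim := (pow_lim (a := w.re) (C := C₁) hq0 hq1).const_add C'
  rw [add_zero] at hlim
  exact ge_of_tendsto' hlim (fun n => hiter n w hw)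

end Pool.Agent.Q203.Hd
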