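import Pool.Agent.Q203.Hd1

open Set Topology Filter MeasureTheory intervalIntegral

namespace Pool.Agent.Q203.Hd

section topo

variable {lam : ℂ → ℝ}

/-- Points close for `gdist` are close. -/
lemma bump (hc : Continuous lam) (hp : ∀ z, 0 < lam z) (x : ℂ) {R : ℝ} (hR : 0 < R) :
    ∃ ε > 0, ∀ y, gdist lam x y < ε → ‖y - x‖ < R := by
  set σ : ℝ → ℝ := Real.smoothTransition with hσ
  have hσc : ContDiff ℝ 1 σ := Real.smoothTransition.contDiff
  set φ : ℂ → ℝ := fun z => σ (‖z - x‖ ^ 2 / R ^ 2) with hφ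
  have hφc : ContDiff ℝ 1 φ :=
    hσc.comp (((contDiff_id.sub contDiff_const).norm_sq ℝ).div_const _)
  have hfc : Continuous (fderiv ℝ φ) := hφc.continuous_fderiv one_ne_zero
  obtain ⟨M, hM⟩ : ∃ M, ∀ z ∈ Metric.closedBall x R, ‖fderiv ℝ φ z‖ ≤ M :=
    (isCompact_closedBall x R).exists_bound_of_continuousOn hfc.continuousOn
  obtain ⟨z0, hz0, hmin⟩ := (isCompact_closedBall x R).exists_isMinOn
    ⟨x, Metric.mem_closedBall_self hR.le⟩ (hc.sqrt.continuousOn)
  set m := Real.sqrt (lam z0) with hm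
  have hm0 : 0 < m := Real.sqrt_pos.mpr (hp z0)
  have hM0 : 0 ≤ M := (norm_nonneg _).trans (hM x (Metric.mem_closedBall_self hR.le))
  set c := m / (M + 1) with hcdef
  have hc0 : 0 < c := by positivity
  refine ⟨c, hc0, ?_⟩
  intro y hy
  have hψc : ContDiff ℝ 1 (fun z => c * φ z) := contDiff_const.mul hφc
  have hψb : ∀ z, ‖fderiv ℝ (fun z => c * φ z) z‖ ≤ Real.sqrt (lam z) := by
    intro z
    rw [fderiv_const_mul (hφc.differentiable one_ne_zero z), norm_smul,
      Real.norm_of_nonneg hc0.le]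
    by_cases hz : z ∈ Metric.closedBall x R
    · calc c * ‖fderiv ℝ φ z‖ ≤ c * M := by gcongr; exact hM z hz
        _ ≤ m := by
          rw [hcdef, div_mul_eq_mul_div, div_le_iff₀ (by positivity)]
          nlinarith
        _ ≤ _ := hmin hz
    · have hlt : R < ‖z - x‖ := by
        simpa [dist_eq_norm] using hz
      have : φ =ᶠ[𝓝 z] fun _ => 1 := by
        have hop : IsOpen {w : ℂ | R < ‖w - x‖} :=
          isOpen_lt continuous_const (by fun_prop)
        filter_upwards [hop.mem_nhds hlt] with w hw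
        apply Real.smoothTransition.one_of_one_le
        rw [le_div_iff₀ (by positivity), one_mul]
        have : R < ‖w - x‖ := hw
        gcongr
      rw [this.fderiv_eq]
      simp
  have h1 := calib hc hψc hψb x y
  have h2 : φ x = 0 := by simp [hφ, hσ]
  have h3 : φ y < 1 := by
    simp only [h2, mul_zero, sub_zero] at h1
    by_contra hcon
    push Not at hcon
    nlinarith
  by_contra hcon
  push Not at hcon
  have : φ y = 1 := by
    apply Real.smoothTransition.one_of_one_le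
    rw [le_div_iff₀ (by positivity), one_mul]
    gcongr
  linarith

/-- Local Lipschitz bound. -/
lemma loclip (hc : Continuous lam) (x : ℂ) {a : ℝ} (ha : Real.sqrt (lam x) < a) :
    ∃ δ > 0, ∀ y, ‖y - x‖ < δ → gdist lam x y ≤ a * ‖y - x‖ := by
  have hcs : Continuous fun z => Real.sqrt (lam z) := hc.sqrt
  have hop : IsOpen {z | Real.sqrt (lam z) < a} := isOpen_lt hcs continuous_const
  obtain ⟨δ, hδ, hsub⟩ := Metric.isOpen_iff.mp hop x ha
  refine ⟨δ, hδ, ?_⟩
  intro y hy
  have ha0 : 0 ≤ a := (Real.sqrt_nonneg _).trans ha.le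
  apply gdist_seg x y _ ha0 hc
  intro s hs
  have hmem : x + (s : ℂ) * (y - x) ∈ Metric.ball x δ := by
    rw [Metric.mem_ball, dist_eq_norm]
    simp only [add_sub_cancel_left, norm_mul, Complex.norm_real, Real.norm_eq_abs]
    calc |s| * ‖y - x‖ ≤ 1 * ‖y - x‖ := by
          gcongr; rw [abs_le]; exact ⟨by linarith [hs.1], hs.2⟩
      _ < δ := by simpa using hy
  have h := hsub hmem
  change Real.sqrt (lam _) < a at h
  exact (Real.sqrt_lt' (by
    exact lt_of_le_of_lt (Real.sqrt_nonneg _) h)).mp h |>.le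

lemma tendsto_gdist_zero (hc : Continuous lam) (x : ℂ) {y : ℕ → ℂ} (hy : Tendsto y atTop (𝓝 x)) :
    Tendsto (fun n => gdist lam x (y n)) atTop (𝓝 0) := by
  obtain ⟨δ, hδ, h⟩ := loclip hc x (a := Real.sqrt (lam x) + 1) (by linarith)
  have h1 : Tendsto (fun n => (Real.sqrt (lam x) + 1) * ‖y n - x‖) atTop (𝓝 0) := by
    have : Tendsto (fun n => ‖y n - x‖) atTop (𝓝 0) := by
      have := (tendsto_iff_norm_sub_tendsto_zero).mp hy
      exact this
    simpa using this.const_mul (Real.sqrt (lam x) + 1)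
  apply squeeze_zero' (Eventually.of_forall fun n => gdist_nonneg _ _) _ h1
  have : ∀ᶠ n in atTop, ‖y n - x‖ < δ := by
    have := (Metric.tendsto_nhds.mp hy) δ hδ
    simpa [dist_eq_norm] using this
  filter_upwards [this] with n hn
  exact h _ hn

lemma continuous_gdist (hc : Continuous lam) (p : ℂ) : Continuous (gdist lam p) := by
  rw [continuous_iff_continuousAt]
  intro x
  obtain ⟨δ, hδ, h⟩ := loclip hc x (a := Real.sqrt (lam x) + 1) (by linarith)
  rw [ContinuousAt, tendsto_iff_norm_sub_tendsto_zero]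
  have h1 : Tendsto (fun y => (Real.sqrt (lam x) + 1) * ‖y - x‖) (𝓝 x) (𝓝 0) := by
    have : Continuous fun y => (Real.sqrt (lam x) + 1) * ‖y - x‖ := by fun_prop
    have := this.tendsto x
    simpa using this
  apply squeeze_zero' (Eventually.of_forall fun n => norm_nonneg _) _ h1
  filter_upwards [Metric.ball_mem_nhds x hδ] with y hy
  rw [Metric.mem_ball, dist_eq_norm] at hy
  have h2 := h y hy
  have h3 := gdist_triangle hc p x y
  have h4 := gdist_triangle hc p y x
  rw [gdist_comm y x] at h4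
  rw [Real.norm_eq_abs, abs_le]
  constructor <;> linarith

/-- `Unb x R`: there are points arbitrarily far away (in the Euclidean sense) at distance `< R`. -/
def Unb (lam : ℂ → ℝ) (x : ℂ) (R : ℝ) : Prop := ∀ n : ℕ, ∃ y, (n : ℝ) ≤ ‖y‖ ∧ gdist lam x y < R

lemma midpoint_exists (hc : Continuous lam) (x y : ℂ) {R : ℝ} (h : gdist lam x y < R) :
    ∃ m, gdist lam x m ≤ R / 2 ∧ gdist lam m y ≤ R / 2 := by
  obtain ⟨γ, h1, h2, h3, h4⟩ := exists_len_lt (lam := lam) x y (show 0 < R - gdist lam x y by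
    linarith)
  have hlen : len lam γ < R := by linarith
  set F : ℝ → ℝ := fun s => ∫ t in (0:ℝ)..s, Real.sqrt (lam (γ t)) * ‖deriv γ t‖ with hF
  have hsp := cont_speed hc h1
  have hFc : Continuous F := intervalIntegral.continuous_primitive
    (fun a b => hsp.intervalIntegrable a b) 0
  have hF0 : F 0 = 0 := by simp [hF]
  have hF1 : F 1 = len lam γ := rfl
  have hnn := len_nonneg (lam := lam) γ
  obtain ⟨s, hs, hFs⟩ : ∃ s ∈ Icc (0:ℝ) 1, F s = len lam γ / 2 := by
    have := intermediate_value_Icc zero_le_one hFc.continuousOn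
    apply this
    rw [hF0, hF1]
    constructor <;> linarith
  refine ⟨γ s, ?_, ?_⟩
  · have := gdist_le_sub (lam := lam) h1 hs.1
    rw [h2] at this
    refine this.trans ?_
    change F s ≤ R / 2
    linarith
  · have := gdist_le_sub (lam := lam) h1 hs.2
    rw [h3] at this
    refine this.trans ?_
    have hadd : F s + ∫ t in s..1, Real.sqrt (lam (γ t)) * ‖deriv γ t‖ = F 1 :=
      intervalIntegral.integral_add_adjacent_intervals (hsp.intervalIntegrable _ _)
        (hsp.intervalIntegrable _ _)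
    linarith

lemma unb_step (hc : Continuous lam) (x : ℂ) {R : ℝ} (hR : 0 < R) (h : Unb lam x R) :
    ∃ x', gdist lam x x' ≤ 2 / 3 * R ∧ Unb lam x' (2 / 3 * R) := by
  choose y hy1 hy2 using h
  choose m hm1 hm2 using fun n => midpoint_exists hc x (y n) (hy2 n)
  by_cases hB : ∃ B : ℝ, ∃ᶠ n in atTop, m n ∈ Metric.closedBall (0:ℂ) B
  · obtain ⟨B, hB⟩ := hB
    obtain ⟨a, _, φ, hφ, hlim⟩ := (isCompact_closedBall (0:ℂ) B).tendsto_subseq' hB
    have h0 := tendsto_gdist_zero hc a hlim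
    have hev : ∀ᶠ k in atTop, gdist lam a (m (φ k)) < R / 6 := by
      have := h0.eventually (gt_mem_nhds (show (0:ℝ) < R / 6 by positivity))
      exact this
    refine ⟨a, ?_, ?_⟩
    · obtain ⟨k, hk⟩ := hev.exists
      have := gdist_triangle hc x (m (φ k)) a
      rw [gdist_comm (m (φ k)) a] at this
      have := hm1 (φ k)
      linarith
    · intro n
      obtain ⟨k, hk1, hk2⟩ := (hev.and (eventually_ge_atTop n)).exists
      refine ⟨y (φ k), ?_, ?_⟩
      · refine le_trans ?_ (hy1 (φ k))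
        exact_mod_cast hk2.trans (hφ.id_le k)
      · have := gdist_triangle hc a (m (φ k)) (y (φ k))
        have := hm2 (φ k)
        linarith
  · push Not at hB
    refine ⟨x, ?_, ?_⟩
    · rw [gdist_self]; positivity
    · intro n
      have := hB (n : ℝ)
      obtain ⟨k, hk⟩ := this.exists
      refine ⟨m k, ?_, ?_⟩
      · simp only [Metric.mem_closedBall, dist_zero_right, not_le] at hk
        exact hk.le
      · have := hm1 k
        linarith

/-- Hopf–Rinow: bounded sets for a complete conformal metric are Euclidean-bounded. -/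
theorem hopf_rinow (hc : Continuous lam) (hp : ∀ z, 0 < lam z) (hcomp : Complete lam) (p : ℂ)
    (R : ℝ) : ∃ B, ∀ y, gdist lam p y ≤ R → ‖y‖ ≤ B := by
  by_contra hcon
  push Not at hcon
  set R' := max R 0 + 1 with hR'
  have hR'0 : 0 < R' := by positivity
  have hU : Unb lam p R' := by
    intro n
    obtain ⟨y, h1, h2⟩ := hcon n
    refine ⟨y, h2.le, lt_of_le_of_lt h1 ?_⟩
    have := le_max_left R 0
    linarith
  -- iterate
  have step : ∀ k : ℕ, ∀ x : {x : ℂ // Unb lam x ((2 / 3) ^ k * R')},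
      ∃ x' : {x : ℂ // Unb lam x ((2 / 3) ^ (k + 1) * R')},
        gdist lam x.1 x'.1 ≤ (2 / 3) ^ (k + 1) * R' := by
    intro k x
    obtain ⟨x', h1, h2⟩ := unb_step hc x.1 (by positivity) x.2
    have e : 2 / 3 * ((2 / 3 : ℝ) ^ k * R') = (2 / 3) ^ (k + 1) * R' := by ring
    exact ⟨⟨x', e ▸ h2⟩, h1.trans e.le⟩
  choose nxt hnxt using step
  let X : (k : ℕ) → {x : ℂ // Unb lam x ((2 / 3) ^ k * R')} := fun k =>
    Nat.rec (motive := fun k => {x : ℂ // Unb lam x ((2 / 3) ^ k * R')})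
      ⟨p, by simpa using hU⟩ (fun k x => nxt k x) k
  have hX : ∀ k, gdist lam (X k).1 (X (k + 1)).1 ≤ (2 / 3) ^ (k + 1) * R' := fun k => hnxt k (X k)
  have hsum : ∀ m j, gdist lam (X m).1 (X (m + j)).1 ≤
      2 * ((2 / 3) ^ m * R') * (1 - (2 / 3) ^ j) := by
    intro m j
    induction j with
    | zero => simp [gdist_self]
    | succ j ih =>
      have h1 := gdist_triangle hc (X m).1 (X (m + j)).1 (X (m + (j + 1))).1
      have h2 := hX (m + j)
      have e : (2 / 3 : ℝ) ^ (m + j + 1) * R' =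
          2 * ((2 / 3) ^ m * R') * ((2 / 3) ^ j - (2 / 3) ^ (j + 1)) := by
        rw [pow_add, pow_add]; ring
      have h2' : gdist lam (X (m + j)).1 (X (m + (j + 1))).1 ≤
          2 * ((2 / 3) ^ m * R') * ((2 / 3) ^ j - (2 / 3) ^ (j + 1)) := h2.trans e.le
      linarith
  have hsum' : ∀ m n, m ≤ n → gdist lam (X m).1 (X n).1 ≤ 2 * ((2 / 3) ^ m * R') := by
    intro m n hmn
    obtain ⟨j, rfl⟩ := Nat.exists_eq_add_of_le hmn
    refine (hsum m j).trans ?_
    have : 0 ≤ (2 / 3 : ℝ) ^ j := by positivity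
    have h2 : 0 ≤ 2 * ((2 / 3 : ℝ) ^ m * R') := by positivity
    nlinarith
  have hpow : Tendsto (fun m : ℕ => 2 * ((2 / 3 : ℝ) ^ m * R')) atTop (𝓝 0) := by
    have := (tendsto_pow_atTop_nhds_zero_of_lt_one (r := (2/3:ℝ)) (by norm_num)
      (by norm_num)).mul_const R'
    simpa using this.const_mul 2
  obtain ⟨y, hy⟩ := hcomp (fun n => (X n).1) (by
    intro ε hε
    obtain ⟨N, hN⟩ := (hpow.eventually (gt_mem_nhds hε)).exists_forall_of_atTop
    refine ⟨N, fun m hm n hn => ?_⟩
    rcases le_total m n with h | h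
    · exact lt_of_le_of_lt (hsum' m n h) (hN m hm)
    · rw [gdist_comm]
      exact lt_of_le_of_lt (hsum' n m h) (hN n hn))
  obtain ⟨ε, hε, hball⟩ := bump hc hp y (R := 1) one_pos
  have e1 : ∀ᶠ k in atTop, gdist lam (X k).1 y < ε / 2 :=
    hy.eventually (gt_mem_nhds (by positivity))
  have e2 : ∀ᶠ k : ℕ in atTop, 2 * ((2 / 3 : ℝ) ^ k * R') < ε / 2 :=
    hpow.eventually (gt_mem_nhds (by positivity))
  obtain ⟨k, hk1, hk2⟩ := (e1.and e2).exists
  obtain ⟨n, hn⟩ := exists_nat_gt (‖y‖ + 1)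
  obtain ⟨z, hz1, hz2⟩ := (X k).2 n
  have hpos : 0 ≤ (2 / 3 : ℝ) ^ k * R' := by positivity
  have h1 : gdist lam y z < ε := by
    have := gdist_triangle hc y (X k).1 z
    rw [gdist_comm y (X k).1] at this
    linarith
  have h2 := hball z h1
  have h3 : ‖z‖ ≤ ‖z - y‖ + ‖y‖ := by
    calc ‖z‖ = ‖(z - y) + y‖ := by ring_nf
      _ ≤ _ := norm_add_le _ _
  linarith

end topo

end Pool.Agent.Q203.Hd
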