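import Pool.Agent.Q203.Hd2

open Set Topology Filter MeasureTheory intervalIntegral

namespace Pool.Agent.Q203.Hd

/-- second derivative along `v` -/
noncomputable def D2 (F : ℂ → ℝ) (x v : ℂ) : ℝ := fderiv ℝ (fderiv ℝ F) x v v

/-- the Laplacian -/
noncomputable def lap (F : ℂ → ℝ) (x : ℂ) : ℝ := D2 F x 1 + D2 F x Complex.I

lemma lap_eq (F : ℂ → ℝ) (x : ℂ) : Laplacian.laplacian F x = lap F x := by
  rw [InnerProductSpace.laplacian_eq_iteratedFDeriv_complexPlane]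
  simp only [iteratedFDeriv_two_apply]
  rfl

lemma bil (A : ℂ →L[ℝ] ℂ →L[ℝ] ℝ) (a b : ℝ) :
    A (a • (1:ℂ) + b • Complex.I) (a • (1:ℂ) + b • Complex.I) =
      a ^ 2 * A 1 1 + a * b * (A 1 Complex.I + A Complex.I 1) + b ^ 2 * A Complex.I Complex.I := by
  simp only [map_add, map_smul, add_apply, smul_apply, smul_eq_mul]
  ring

lemma D2_rot (F : ℂ → ℝ) (x h : ℂ) :
    D2 F x h + D2 F x (Complex.I * h) = ‖h‖ ^ 2 * lap F x := by
  have e1 : h = h.re • (1:ℂ) + h.im • Complex.I := by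
    apply Complex.ext <;> simp
  have e2 : Complex.I * h = (-h.im) • (1:ℂ) + h.re • Complex.I := by
    apply Complex.ext <;> simp
  have n1 : ‖h‖ ^ 2 = h.re ^ 2 + h.im ^ 2 := by
    rw [Complex.sq_norm, Complex.normSq_apply]; ring
  have b1 := bil (fderiv ℝ (fderiv ℝ F) x) h.re h.im
  have b2 := bil (fderiv ℝ (fderiv ℝ F) x) (-h.im) h.re
  rw [← e1] at b1
  rw [← e2] at b2
  unfold lap D2
  rw [b1, b2, n1]
  ring

/-- a crude second order Taylor estimate -/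
lemma taylor_crude {g g' g'' : ℝ → ℝ} (hg : ∀ t, HasDerivAt g (g' t) t)
    (hg' : ∀ t, HasDerivAt g' (g'' t) t) {A M : ℝ} (hM : ∀ t ∈ Icc (0:ℝ) 1, |g'' t - A| ≤ M) :
    |g 1 - g 0 - g' 0 - A / 2| ≤ M := by
  have hM0 : 0 ≤ M := (abs_nonneg _).trans (hM 0 ⟨le_rfl, zero_le_one⟩)
  have h1 : ∀ t ∈ Icc (0:ℝ) 1, |g' t - g' 0 - A * t| ≤ M := by
    intro t ht
    have := (convex_Icc (0:ℝ) 1).norm_image_sub_le_of_norm_hasDerivWithin_le
      (f := fun t => g' t - A * t) (f' := fun t => g'' t - A) (C := M) (x := 0) (y := t)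
      (fun s _ => (((hg' s).sub (by simpa using (hasDerivAt_id s).const_mul A))).hasDerivWithinAt)
      (fun s hs => by simpa [Real.norm_eq_abs] using hM s hs) ⟨le_rfl, zero_le_one⟩ ht
    simp only [mul_zero, sub_zero, Real.norm_eq_abs] at this
    have e : g' t - A * t - g' 0 = g' t - g' 0 - A * t := by ring
    rw [e] at this
    refine this.trans ?_
    rw [abs_of_nonneg ht.1]
    nlinarith [ht.2]
  have := (convex_Icc (0:ℝ) 1).norm_image_sub_le_of_norm_hasDerivWithin_le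
      (f := fun t => g t - g' 0 * t - A / 2 * t ^ 2) (f' := fun t => g' t - g' 0 - A * t) (C := M)
      (x := 0) (y := 1)
      (fun s _ => by
        have a1 : HasDerivAt (fun t : ℝ => g' 0 * t) (g' 0) s := by
          simpa using (hasDerivAt_id s).const_mul (g' 0)
        have a2 : HasDerivAt (fun t : ℝ => A / 2 * t ^ 2) (A * s) s := by
          have := (hasDerivAt_pow 2 s).const_mul (A / 2)
          have e5 : A / 2 * (((2:ℕ):ℝ) * s ^ (2 - 1)) = A * s := by norm_num; ring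
          rw [e5] at this
          exact this
        exact ((hg s).sub a1 |>.sub a2).hasDerivWithinAt)
      (fun s hs => by simpa [Real.norm_eq_abs] using h1 s hs) ⟨le_rfl, zero_le_one⟩
      ⟨zero_le_one, le_rfl⟩
  simp only [Real.norm_eq_abs, mul_one, mul_zero, one_pow, sub_zero, abs_one] at this
  have e : g 1 - g 0 - g' 0 - A / 2 = g 1 - g' 0 - A / 2 - (g 0 - A / 2 * 0 ^ 2) := by ring
  rw [e]; exact this

lemma unif {E : Type*} [NormedAddCommGroup E] {G : ℂ → E} (hG : Continuous G) {K : Set ℂ}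
    (hK : IsCompact K) {η : ℝ} (hη : 0 < η) :
    ∃ δ > 0, ∀ x ∈ K, ∀ y, ‖y - x‖ < δ → ‖G y - G x‖ < η := by
  have h := hK.uniformContinuousAt_of_continuousAt (r := {p : E × E | dist p.1 p.2 < η}) G
    (fun a _ => hG.continuousAt) (Metric.dist_mem_uniformity hη)
  obtain ⟨δ, hδ, hsub⟩ := Metric.mem_uniformity_dist.mp h
  refine ⟨δ, hδ, ?_⟩
  intro x hx y hxy
  have h1 : dist x y < δ := by rwa [dist_comm, dist_eq_norm]
  have h2 := hsub h1 hx
  change dist (G x) (G y) < η at h2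
  rwa [dist_comm, dist_eq_norm] at h2

lemma hasFDerivAt1 {F : ℂ → ℝ} (hF : ContDiff ℝ 2 F) (x : ℂ) :
    HasFDerivAt F (fderiv ℝ F x) x := (hF.differentiable two_ne_zero x).hasFDerivAt

lemma contDiff_fderiv1 {F : ℂ → ℝ} (hF : ContDiff ℝ 2 F) : ContDiff ℝ 1 (fderiv ℝ F) :=
  hF.fderiv_right (by norm_num)

lemma hasFDerivAt2 {F : ℂ → ℝ} (hF : ContDiff ℝ 2 F) (x : ℂ) :
    HasFDerivAt (fderiv ℝ F) (fderiv ℝ (fderiv ℝ F) x) x :=
  ((contDiff_fderiv1 hF).differentiable one_ne_zero x).hasFDerivAt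

lemma cont_D2F {F : ℂ → ℝ} (hF : ContDiff ℝ 2 F) : Continuous (fderiv ℝ (fderiv ℝ F)) :=
  (contDiff_fderiv1 hF).continuous_fderiv one_ne_zero

lemma cont_lap {F : ℂ → ℝ} (hF : ContDiff ℝ 2 F) : Continuous (lap F) := by
  unfold lap D2
  exact (((cont_D2F hF).clm_apply continuous_const).clm_apply continuous_const).add
    (((cont_D2F hF).clm_apply continuous_const).clm_apply continuous_const)

lemma second_order {F : ℂ → ℝ} (hF : ContDiff ℝ 2 F) {K : Set ℂ} (hK : IsCompact K) {η : ℝ}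
    (hη : 0 < η) : ∃ δ > 0, ∀ x ∈ K, ∀ v : ℂ, ‖v‖ < δ →
      |F (x + v) + F (x - v) - 2 * F x - D2 F x v| ≤ η * ‖v‖ ^ 2 := by
  obtain ⟨δ, hδ, h⟩ := unif (E := ℂ →L[ℝ] ℂ →L[ℝ] ℝ) (cont_D2F hF) hK (half_pos hη)
  refine ⟨δ, hδ, ?_⟩
  intro x hx v hv
  have d1 : ∀ t : ℝ, HasDerivAt (fun t : ℝ => x + (t : ℂ) * v) v t := by
    intro t
    have : HasDerivAt (fun s : ℝ => (s : ℂ)) 1 t := Complex.ofRealCLM.hasDerivAt
    simpa using (this.mul_const v).const_add x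
  have d2 : ∀ t : ℝ, HasDerivAt (fun t : ℝ => x - (t : ℂ) * v) (-v) t := by
    intro t
    have : HasDerivAt (fun s : ℝ => (s : ℂ)) 1 t := Complex.ofRealCLM.hasDerivAt
    simpa using (this.mul_const v).const_sub x
  set g : ℝ → ℝ := fun t => F (x + (t : ℂ) * v) + F (x - (t : ℂ) * v) with hg
  set g' : ℝ → ℝ := fun t => fderiv ℝ F (x + (t : ℂ) * v) v + fderiv ℝ F (x - (t : ℂ) * v) (-v)
    with hg'
  set g'' : ℝ → ℝ := fun t => fderiv ℝ (fderiv ℝ F) (x + (t : ℂ) * v) v v +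
    fderiv ℝ (fderiv ℝ F) (x - (t : ℂ) * v) (-v) (-v) with hg''
  have h1 : ∀ t, HasDerivAt g (g' t) t := by
    intro t
    exact ((hasFDerivAt1 hF _).comp_hasDerivAt t (d1 t)).add
      ((hasFDerivAt1 hF _).comp_hasDerivAt t (d2 t))
  have h2 : ∀ t, HasDerivAt g' (g'' t) t := by
    intro t
    have a1 := ((hasFDerivAt2 hF _).comp_hasDerivAt t (d1 t)).clm_apply (hasDerivAt_const t v)
    have a2 := ((hasFDerivAt2 hF _).comp_hasDerivAt t (d2 t)).clm_apply (hasDerivAt_const t (-v))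
    simp only [map_zero, add_zero] at a1 a2
    exact a1.add a2
  have hb : ∀ t ∈ Icc (0:ℝ) 1, |g'' t - 2 * D2 F x v| ≤ η * ‖v‖ ^ 2 := by
    intro t ht
    have ht' : ‖(t : ℂ) * v‖ < δ := by
      rw [norm_mul, Complex.norm_real, Real.norm_of_nonneg ht.1]
      calc t * ‖v‖ ≤ 1 * ‖v‖ := by gcongr; exact ht.2
        _ < δ := by simpa using hv
    have b1 := h x hx (x + (t : ℂ) * v) (by simpa using ht')
    have b2 := h x hx (x - (t : ℂ) * v) (by
      have : x - (t:ℂ) * v - x = -((t:ℂ) * v) := by ring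
      rw [this, norm_neg]; exact ht')
    have c1 : ‖(fderiv ℝ (fderiv ℝ F) (x + (t : ℂ) * v) - fderiv ℝ (fderiv ℝ F) x) v v‖ ≤
        η / 2 * ‖v‖ ^ 2 := by
      calc _ ≤ ‖(fderiv ℝ (fderiv ℝ F) (x + (t : ℂ) * v) - fderiv ℝ (fderiv ℝ F) x)‖ * ‖v‖ * ‖v‖ :=
            ContinuousLinearMap.le_opNorm₂ _ _ _
        _ ≤ η / 2 * ‖v‖ * ‖v‖ := by gcongr
        _ = _ := by ring
    have c2 : ‖(fderiv ℝ (fderiv ℝ F) (x - (t : ℂ) * v) - fderiv ℝ (fderiv ℝ F) x) (-v) (-v)‖ ≤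
        η / 2 * ‖v‖ ^ 2 := by
      calc _ ≤ ‖(fderiv ℝ (fderiv ℝ F) (x - (t : ℂ) * v) - fderiv ℝ (fderiv ℝ F) x)‖ * ‖-v‖ *
              ‖-v‖ := ContinuousLinearMap.le_opNorm₂ _ _ _
        _ = ‖(fderiv ℝ (fderiv ℝ F) (x - (t : ℂ) * v) - fderiv ℝ (fderiv ℝ F) x)‖ * ‖v‖ * ‖v‖ := by
            rw [norm_neg]
        _ ≤ η / 2 * ‖v‖ * ‖v‖ := by gcongr
        _ = _ := by ring
    have e : g'' t - 2 * D2 F x v =
        (fderiv ℝ (fderiv ℝ F) (x + (t : ℂ) * v) - fderiv ℝ (fderiv ℝ F) x) v v +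
        (fderiv ℝ (fderiv ℝ F) (x - (t : ℂ) * v) - fderiv ℝ (fderiv ℝ F) x) (-v) (-v) := by
      simp only [hg'', D2, sub_apply, map_neg, neg_apply, neg_neg]
      ring
    rw [e]
    calc _ ≤ _ + _ := abs_add_le _ _
      _ ≤ η / 2 * ‖v‖ ^ 2 + η / 2 * ‖v‖ ^ 2 := add_le_add c1 c2
      _ = _ := by ring
  have h3 := taylor_crude h1 h2 hb
  have e1 : g 1 = F (x + v) + F (x - v) := by simp [hg]
  have e0 : g 0 = 2 * F x := by simp [hg]; ring
  have e2 : g' 0 = 0 := by simp [hg']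
  rw [e1, e0, e2] at h3
  have e3 : F (x + v) + F (x - v) - 2 * F x - 0 - 2 * D2 F x v / 2 =
      F (x + v) + F (x - v) - 2 * F x - D2 F x v := by ring
  rwa [e3] at h3

/-- the sum of the four values of `F` at `x ± h`, `x ± I h` -/
noncomputable def four (F : ℂ → ℝ) (x h : ℂ) : ℝ :=
  F (x + h) + F (x - h) + (F (x + Complex.I * h) + F (x - Complex.I * h))

lemma stencil {F : ℂ → ℝ} (hF : ContDiff ℝ 2 F) {K : Set ℂ} (hK : IsCompact K) {η : ℝ}
    (hη : 0 < η) : ∃ δ > 0, ∀ x ∈ K, ∀ h : ℂ, ‖h‖ < δ →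
      |four F x h - 4 * F x - ‖h‖ ^ 2 * lap F x| ≤ η * ‖h‖ ^ 2 := by
  obtain ⟨δ, hδ, h⟩ := second_order hF hK (half_pos hη)
  refine ⟨δ, hδ, ?_⟩
  intro x hx v hv
  have h1 := h x hx v hv
  have h2 := h x hx (Complex.I * v) (by simpa using hv)
  have h3 : ‖Complex.I * v‖ = ‖v‖ := by simp
  rw [h3] at h2
  rw [← D2_rot]
  unfold four
  rw [abs_le] at *
  constructor <;> linarith [h1.1, h1.2, h2.1, h2.2]

lemma first_order {F : ℂ → ℝ} (hF : ContDiff ℝ 2 F) {K : Set ℂ} (hK : IsCompact K) {η : ℝ}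
    (hη : 0 < η) : ∃ δ > 0, ∀ x ∈ K, ∀ v : ℂ, ‖v‖ < δ →
      |F (x + v) - F x - fderiv ℝ F x v| ≤ η * ‖v‖ := by
  obtain ⟨δ, hδ, h⟩ := unif (E := ℂ →L[ℝ] ℝ) (hF.continuous_fderiv two_ne_zero) hK hη
  refine ⟨δ, hδ, ?_⟩
  intro x hx v hv
  have d1 : ∀ t : ℝ, HasDerivAt (fun t : ℝ => x + (t : ℂ) * v) v t := by
    intro t
    have : HasDerivAt (fun s : ℝ => (s : ℂ)) 1 t := Complex.ofRealCLM.hasDerivAt
    simpa using (this.mul_const v).const_add x
  have := (convex_Icc (0:ℝ) 1).norm_image_sub_le_of_norm_hasDerivWithin_le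
      (f := fun t : ℝ => F (x + (t : ℂ) * v) - t * fderiv ℝ F x v)
      (f' := fun t : ℝ => fderiv ℝ F (x + (t : ℂ) * v) v - fderiv ℝ F x v) (C := η * ‖v‖)
      (x := 0) (y := 1)
      (fun s _ => by
        have a1 := (hasFDerivAt1 hF (x + (s : ℂ) * v)).comp_hasDerivAt s (d1 s)
        have a2 : HasDerivAt (fun t : ℝ => t * fderiv ℝ F x v) (fderiv ℝ F x v) s := by
          simpa using (hasDerivAt_id s).mul_const (fderiv ℝ F x v)
        exact (a1.sub a2).hasDerivWithinAt)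
      (fun s hs => by
        have ht' : ‖(s : ℂ) * v‖ < δ := by
          rw [norm_mul, Complex.norm_real, Real.norm_of_nonneg hs.1]
          calc s * ‖v‖ ≤ 1 * ‖v‖ := by gcongr; exact hs.2
            _ < δ := by simpa using hv
        have b1 := h x hx (x + (s : ℂ) * v) (by simpa using ht')
        calc ‖fderiv ℝ F (x + (s : ℂ) * v) v - fderiv ℝ F x v‖
            = ‖(fderiv ℝ F (x + (s : ℂ) * v) - fderiv ℝ F x) v‖ := by simp
          _ ≤ ‖fderiv ℝ F (x + (s : ℂ) * v) - fderiv ℝ F x‖ * ‖v‖ :=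
            ContinuousLinearMap.le_opNorm _ _
          _ ≤ η * ‖v‖ := by gcongr) ⟨le_rfl, zero_le_one⟩
      ⟨zero_le_one, le_rfl⟩
  simp only [Real.norm_eq_abs, Complex.ofReal_one, one_mul, Complex.ofReal_zero, zero_mul, add_zero,
    sub_zero, abs_one, mul_one] at this
  have e : F (x + v) - fderiv ℝ F x v - F x = F (x + v) - F x - fderiv ℝ F x v := by ring
  rwa [e] at this

end Pool.Agent.Q203.Hd
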