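import Pool.Agent.Q203.Hd3

open Set Topology Filter MeasureTheory intervalIntegral

namespace Pool.Agent.Q203.Hd

/-- the complex derivative `∂u/∂z` -/
noncomputable def dz (u : ℂ → ℝ) (x : ℂ) : ℂ :=
  ((fderiv ℝ u x 1 : ℝ) - Complex.I * (fderiv ℝ u x Complex.I : ℝ)) / 2

lemma du_eq (u : ℂ → ℝ) (x h : ℂ) : fderiv ℝ u x h = 2 * (dz u x * h).re := by
  have e1 : h = h.re • (1:ℂ) + h.im • Complex.I := by
    apply Complex.ext <;> simp
  conv_lhs => rw [e1]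
  rw [map_add, map_smul, map_smul]
  unfold dz
  simp only [smul_eq_mul, Complex.mul_re, Complex.div_re, Complex.div_im, Complex.sub_re,
    Complex.sub_im, Complex.ofReal_re, Complex.ofReal_im, Complex.I_re, Complex.I_im,
    Complex.mul_im]
  norm_num [Complex.normSq_apply]
  ring

lemma cont_dz {u : ℂ → ℝ} (hu : ContDiff ℝ 2 u) : Continuous (dz u) := by
  unfold dz
  have h1 : Continuous (fderiv ℝ u) := hu.continuous_fderiv two_ne_zero
  have h2 : Continuous fun x => fderiv ℝ u x 1 := h1.clm_apply continuous_const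
  have h3 : Continuous fun x => fderiv ℝ u x Complex.I := h1.clm_apply continuous_const
  exact ((Complex.continuous_ofReal.comp h2).sub (continuous_const.mul
    (Complex.continuous_ofReal.comp h3))).div_const _

/-- the conformal factor `exp u` -/
noncomputable def lm (u : ℂ → ℝ) (z : ℂ) : ℝ := Real.exp (u z)

lemma lm_pos (u : ℂ → ℝ) (z : ℂ) : 0 < lm u z := Real.exp_pos _

lemma lm_contDiff {u : ℂ → ℝ} (hu : ContDiff ℝ 2 u) : ContDiff ℝ 2 (lm u) := hu.exp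

lemma lm_cont {u : ℂ → ℝ} (hu : ContDiff ℝ 2 u) : Continuous (lm u) := (lm_contDiff hu).continuous

lemma fderiv_lm {u : ℂ → ℝ} (hu : ContDiff ℝ 2 u) (x : ℂ) :
    fderiv ℝ (lm u) x = lm u x • fderiv ℝ u x := (hasFDerivAt1 hu x).exp.fderiv

lemma D2_lm {u : ℂ → ℝ} (hu : ContDiff ℝ 2 u) (x v : ℂ) :
    D2 (lm u) x v = lm u x * (D2 u x v + (fderiv ℝ u x v) ^ 2) := by
  unfold D2
  have e : fderiv ℝ (lm u) = fun x => lm u x • fderiv ℝ u x := funext fun x => fderiv_lm hu x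
  have h1 : HasFDerivAt (lm u) (lm u x • fderiv ℝ u x) x := (hasFDerivAt1 hu x).exp
  have h2 := (h1.smul (hasFDerivAt2 hu x)).fderiv
  rw [e, show (fun x => lm u x • fderiv ℝ u x) = (lm u) • (fderiv ℝ u) from rfl, h2]
  simp only [add_apply, smul_apply, ContinuousLinearMap.smulRight_apply, smul_eq_mul]
  ring

lemma lap_lm {u : ℂ → ℝ} (hu : ContDiff ℝ 2 u) (x : ℂ) :
    lap (lm u) x = lm u x * (lap u x + 4 * ‖dz u x‖ ^ 2) := by
  unfold lap
  rw [D2_lm hu, D2_lm hu]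
  have : 4 * ‖dz u x‖ ^ 2 = (fderiv ℝ u x 1) ^ 2 + (fderiv ℝ u x Complex.I) ^ 2 := by
    rw [Complex.sq_norm, Complex.normSq_apply]
    unfold dz
    simp only [Complex.div_re, Complex.div_im, Complex.sub_re,
      Complex.sub_im, Complex.ofReal_re, Complex.ofReal_im, Complex.I_re, Complex.I_im,
      Complex.mul_im, Complex.mul_re]
    norm_num [Complex.normSq_apply]
    ring
  rw [this]
  ring

/-- the four-point energy density -/
noncomputable def fourE (u : ℂ → ℝ) (x v h k : ℂ) : ℝ :=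
  lm u (x + h) * ‖v + k‖ ^ 2 + lm u (x - h) * ‖v - k‖ ^ 2 +
    (lm u (x + Complex.I * h) * ‖v + Complex.I * k‖ ^ 2 +
      lm u (x - Complex.I * h) * ‖v - Complex.I * k‖ ^ 2)

set_option maxHeartbeats 2000000 in
lemma pointwise {u : ℂ → ℝ} (hu : ContDiff ℝ 2 u) {K : Set ℂ} (hK : IsCompact K) {η : ℝ}
    (hη : 0 < η) : ∃ δ > 0, ∀ x ∈ K, ∀ v h k : ℂ, ‖h‖ < δ →
      fourE u x v h k ≤ 4 * lm u x * ‖v‖ ^ 2 + lm u x * (‖h‖ ^ 2 * ‖v‖ ^ 2 * lap u x +
        4 * ‖dz u x * h * v + k‖ ^ 2) + η * (‖h‖ ^ 2 * ‖v‖ ^ 2 + ‖k‖ ^ 2) := by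
  set η' := η / 6 with hη'
  have hη'0 : 0 < η' := by positivity
  obtain ⟨δ₁, hδ₁, H1⟩ := stencil (lm_contDiff hu) hK hη'0
  obtain ⟨δ₂, hδ₂, H2⟩ := first_order (lm_contDiff hu) hK hη'0
  obtain ⟨M, hM⟩ : ∃ M, ∀ x ∈ K, ‖lap (lm u) x‖ ≤ M :=
    hK.exists_bound_of_continuousOn (cont_lap (lm_contDiff hu)).continuousOn
  set M' := max M 0 with hM'
  have hM'0 : 0 ≤ M' := le_max_right _ _
  set δ₃ := min 1 (η' / (M' + 1)) with hδ₃
  have hδ₃0 : 0 < δ₃ := lt_min one_pos (by positivity)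
  refine ⟨min (min δ₁ δ₂) δ₃, lt_min (lt_min hδ₁ hδ₂) hδ₃0, ?_⟩
  intro x hx v h k hh
  have hh1 : ‖h‖ < δ₁ := lt_of_lt_of_le hh ((min_le_left _ _).trans (min_le_left _ _))
  have hh2 : ‖h‖ < δ₂ := lt_of_lt_of_le hh ((min_le_left _ _).trans (min_le_right _ _))
  have hh3 : ‖h‖ < δ₃ := lt_of_lt_of_le hh (min_le_right _ _)
  have hh4 : ‖h‖ ≤ 1 := hh3.le.trans (min_le_left _ _)
  have hh5 : ‖h‖ ≤ η' / (M' + 1) := hh3.le.trans (min_le_right _ _)
  have s0 := H1 x hx h hh1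
  have f1 := H2 x hx h hh2
  have f2 := H2 x hx (-h) (by simpa using hh2)
  have f3 := H2 x hx (Complex.I * h) (by simpa using hh2)
  have f4 := H2 x hx (-(Complex.I * h)) (by simpa using hh2)
  rw [norm_neg] at f2 f4
  have nI : ‖Complex.I * h‖ = ‖h‖ := by simp
  rw [nI] at f3 f4
  rw [← sub_eq_add_neg] at f2 f4
  rw [map_neg, fderiv_lm hu, smul_apply, smul_eq_mul, du_eq] at f2 f4
  rw [fderiv_lm hu, smul_apply, smul_eq_mul, du_eq] at f1 f3
  have hre : (dz u x * (Complex.I * h)).re = - (dz u x * h).im := by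
    have : dz u x * (Complex.I * h) = Complex.I * (dz u x * h) := by ring
    rw [this]; simp
  rw [hre] at f3 f4
  have hMM : |lap (lm u) x| ≤ M' := by
    have := hM x hx
    rw [Real.norm_eq_abs] at this
    exact this.trans (le_max_left _ _)
  rw [lap_lm hu] at s0 hMM
  set κ := k * (starRingEnd ℂ) v with hκ
  have hκn : ‖κ‖ = ‖k‖ * ‖v‖ := by rw [hκ]; simp
  have n1 : ‖v + k‖ ^ 2 = ‖v‖ ^ 2 + ‖k‖ ^ 2 + 2 * κ.re := by
    rw [Complex.sq_norm, Complex.sq_norm, Complex.sq_norm, hκ]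
    simp only [Complex.normSq_apply, Complex.add_re, Complex.add_im, Complex.mul_re,
      Complex.conj_re, Complex.conj_im]
    ring
  have n2 : ‖v - k‖ ^ 2 = ‖v‖ ^ 2 + ‖k‖ ^ 2 - 2 * κ.re := by
    rw [Complex.sq_norm, Complex.sq_norm, Complex.sq_norm, hκ]
    simp only [Complex.normSq_apply, Complex.sub_re, Complex.sub_im, Complex.mul_re,
      Complex.conj_re, Complex.conj_im]
    ring
  have n3 : ‖v + Complex.I * k‖ ^ 2 = ‖v‖ ^ 2 + ‖k‖ ^ 2 - 2 * κ.im := by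
    rw [Complex.sq_norm, Complex.sq_norm, Complex.sq_norm, hκ]
    simp only [Complex.normSq_apply, Complex.add_re, Complex.add_im, Complex.mul_re, Complex.mul_im,
      Complex.conj_re, Complex.conj_im, Complex.I_re, Complex.I_im]
    ring
  have n4 : ‖v - Complex.I * k‖ ^ 2 = ‖v‖ ^ 2 + ‖k‖ ^ 2 + 2 * κ.im := by
    rw [Complex.sq_norm, Complex.sq_norm, Complex.sq_norm, hκ]
    simp only [Complex.normSq_apply, Complex.sub_re, Complex.sub_im, Complex.mul_re, Complex.mul_im,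
      Complex.conj_re, Complex.conj_im, Complex.I_re, Complex.I_im]
    ring
  have n5 : ‖dz u x * h * v + k‖ ^ 2 = ‖dz u x‖ ^ 2 * ‖h‖ ^ 2 * ‖v‖ ^ 2 +
      2 * ((dz u x * h).re * κ.re + (dz u x * h).im * κ.im) + ‖k‖ ^ 2 := by
    have : ‖dz u x‖ ^ 2 * ‖h‖ ^ 2 * ‖v‖ ^ 2 = ‖dz u x * h * v‖ ^ 2 := by
      rw [norm_mul, norm_mul]; ring
    rw [this]
    generalize dz u x * h = α
    rw [Complex.sq_norm, Complex.sq_norm, Complex.sq_norm, hκ]
    simp only [Complex.normSq_apply, Complex.add_re, Complex.add_im, Complex.mul_re, Complex.mul_im,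
      Complex.conj_re, Complex.conj_im]
    ring
  have hκr : |κ.re| ≤ ‖k‖ * ‖v‖ := hκn ▸ Complex.abs_re_le_norm κ
  have hκi : |κ.im| ≤ ‖k‖ * ‖v‖ := hκn ▸ Complex.abs_im_le_norm κ
  -- abbreviations
  unfold fourE
  rw [n1, n2, n3, n4, n5]
  unfold four at s0
  set a1 := lm u (x + h)
  set a2 := lm u (x - h)
  set a3 := lm u (x + Complex.I * h)
  set a4 := lm u (x - Complex.I * h)
  set a0 := lm u x
  set gr := (dz u x * h).re
  set gi := (dz u x * h).im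
  set ΔL := a0 * (lap u x + 4 * ‖dz u x‖ ^ 2) with hΔL
  set V := ‖v‖ ^ 2
  set H := ‖h‖ ^ 2 with hH
  set Q := ‖k‖ ^ 2
  have hV : 0 ≤ V := by positivity
  have hH0 : 0 ≤ H := by positivity
  have hQ : 0 ≤ Q := by positivity
  -- error terms
  set e0 := a1 + a2 + (a3 + a4) - 4 * a0 - H * ΔL with he0
  set e1 := a1 - a2 - 4 * a0 * gr with he1
  set e2 := a3 - a4 + 4 * a0 * gi with he2
  have he1b : |e1| ≤ 2 * η' * ‖h‖ := by
    rw [abs_le] at f1 f2 ⊢
    constructor <;> [skip; skip] <;> simp only [he1] <;> linarith [f1.1, f1.2, f2.1, f2.2]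
  have he2b : |e2| ≤ 2 * η' * ‖h‖ := by
    rw [abs_le] at f3 f4 ⊢
    constructor <;> [skip; skip] <;> simp only [he2] <;> linarith [f3.1, f3.2, f4.1, f4.2]
  have main : a1 * (V + Q + 2 * κ.re) + a2 * (V + Q - 2 * κ.re) +
      (a3 * (V + Q - 2 * κ.im) + a4 * (V + Q + 2 * κ.im)) =
      4 * a0 * V + a0 * (H * V * lap u x + 4 * (‖dz u x‖ ^ 2 * H * V +
        2 * (gr * κ.re + gi * κ.im) + Q)) +
      (e0 * V + e0 * Q + H * ΔL * Q + 2 * (e1 * κ.re - e2 * κ.im)) := by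
    simp only [he0, he1, he2, hΔL]
    ring
  rw [main]
  have g1 : e0 * V ≤ η' * H * V := by
    exact mul_le_mul_of_nonneg_right ((le_abs_self e0).trans s0) hV
  have g2 : e0 * Q ≤ η' * Q := by
    have h1 := (le_abs_self e0).trans s0
    have h2 : H ≤ 1 := by rw [hH]; exact pow_le_one₀ (norm_nonneg h) hh4
    have h3 : η' * H ≤ η' := mul_le_of_le_one_right hη'0.le h2
    exact mul_le_mul_of_nonneg_right (h1.trans h3) hQ
  have g3 : H * ΔL * Q ≤ η' * Q := by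
    have h1 : ΔL ≤ M' := (le_abs_self _).trans hMM
    have h2 : H * M' ≤ η' := by
      have h3 : ‖h‖ * (M' + 1) ≤ η' := by rwa [le_div_iff₀ (by positivity)] at hh5
      have h4 : H ≤ ‖h‖ := by rw [hH]; exact pow_le_of_le_one (norm_nonneg h) hh4 two_ne_zero
      have h5 : H * M' ≤ ‖h‖ * (M' + 1) :=
        mul_le_mul h4 (by linarith) hM'0 (norm_nonneg h)
      exact h5.trans h3
    have h3 : H * ΔL ≤ η' := (mul_le_mul_of_nonneg_left h1 hH0).trans h2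
    exact mul_le_mul_of_nonneg_right h3 hQ
  have g4 : 2 * (e1 * κ.re - e2 * κ.im) ≤ η' * (4 * (H * V + Q)) := by
    have h1 : e1 * κ.re ≤ 2 * η' * ‖h‖ * (‖k‖ * ‖v‖) := by
      calc e1 * κ.re ≤ |e1 * κ.re| := le_abs_self _
        _ = |e1| * |κ.re| := abs_mul _ _
        _ ≤ _ := mul_le_mul he1b hκr (abs_nonneg _) (by positivity)
    have h2 : -(e2 * κ.im) ≤ 2 * η' * ‖h‖ * (‖k‖ * ‖v‖) := by
      calc -(e2 * κ.im) ≤ |e2 * κ.im| := neg_le_abs _
        _ = |e2| * |κ.im| := abs_mul _ _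
        _ ≤ _ := mul_le_mul he2b hκi (abs_nonneg _) (by positivity)
    have h3 : 2 * (‖h‖ * ‖v‖ * ‖k‖) ≤ H * V + Q := by
      have : H * V + Q - 2 * (‖h‖ * ‖v‖ * ‖k‖) = (‖h‖ * ‖v‖ - ‖k‖) ^ 2 := by
        simp only [H, V, Q]; ring
      linarith [sq_nonneg (‖h‖ * ‖v‖ - ‖k‖)]
    have h4 := mul_le_mul_of_nonneg_left h3 hη'0.le
    linarith
  have hη6 : η = 6 * η' := by rw [hη']; ring
  rw [hη6]
  have := mul_nonneg hη'0.le (mul_nonneg hH0 hV)
  linarith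

end Pool.Agent.Q203.Hd
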