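import Pool.Agent.Q203.Hd4

open Set Topology Filter MeasureTheory intervalIntegral

namespace Pool.Agent.Q203.Hd

lemma iadd {f g : ℝ → ℝ} (hf : Continuous f) (hg : Continuous g) :
    (∫ s in (0:ℝ)..1, (f s + g s)) = (∫ s in (0:ℝ)..1, f s) + ∫ s in (0:ℝ)..1, g s :=
  intervalIntegral.integral_add (hf.intervalIntegrable _ _) (hg.intervalIntegrable _ _)

lemma isub {f g : ℝ → ℝ} (hf : Continuous f) (hg : Continuous g) :
    (∫ s in (0:ℝ)..1, (f s - g s)) = (∫ s in (0:ℝ)..1, f s) - ∫ s in (0:ℝ)..1, g s :=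
  intervalIntegral.integral_sub (hf.intervalIntegrable _ _) (hg.intervalIntegrable _ _)

lemma cs {g w : ℝ → ℝ} (hg : Continuous g) (hw : Continuous w) (hwp : ∀ s, 0 < w s) :
    (∫ s in (0:ℝ)..1, g s) ^ 2 ≤ (∫ s in (0:ℝ)..1, w s) * ∫ s in (0:ℝ)..1, g s ^ 2 / w s := by
  set W := ∫ s in (0:ℝ)..1, w s with hW
  set G := ∫ s in (0:ℝ)..1, g s with hG
  have hWp : 0 < W := intervalIntegral.intervalIntegral_pos_of_pos
    (hw.intervalIntegrable _ _) hwp zero_lt_one
  have hq : Continuous fun s => g s ^ 2 / w s := (hg.pow 2).div hw fun s => (hwp s).ne'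
  set t := G / W with ht
  have h0 : 0 ≤ ∫ s in (0:ℝ)..1, (g s - t * w s) ^ 2 / w s := by
    apply intervalIntegral.integral_nonneg zero_le_one
    intro s _
    have := hwp s
    positivity
  have e : (fun s => (g s - t * w s) ^ 2 / w s) = fun s => g s ^ 2 / w s - 2 * t * g s +
      t ^ 2 * w s := by
    funext s
    have := (hwp s).ne'
    field_simp
    ring
  have c2 : Continuous fun s => 2 * t * g s := continuous_const.mul hg
  have c1 : Continuous fun s => g s ^ 2 / w s - 2 * t * g s := hq.sub c2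
  have c3 : Continuous fun s => t ^ 2 * w s := continuous_const.mul hw
  rw [e, iadd c1 c3, isub hq c2, intervalIntegral.integral_const_mul,
    intervalIntegral.integral_const_mul, ← hW, ← hG] at h0
  have h1 : 2 * t * G - t ^ 2 * W = G ^ 2 / W := by
    rw [ht]; field_simp; ring
  have h2 : G ^ 2 / W ≤ ∫ s in (0:ℝ)..1, g s ^ 2 / w s := by linarith
  rw [div_le_iff₀ hWp] at h2
  linarith

set_option maxHeartbeats 4000000 in
/-- The core estimate: the variation of the energy of one curve. -/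
lemma core {u : ℂ → ℝ} (hu : ContDiff ℝ 2 u) {c : ℝ} (hc0 : 0 ≤ c)
    (hlap : ∀ z, lap u z ≤ 2 * c * lm u z) {γ : ℝ → ℂ} (hγ : ContDiff ℝ 1 γ) {p q : ℂ}
    (h0 : γ 0 = p) (h1 : γ 1 = q) {K : Set ℂ} (hK : ∀ s ∈ Icc (0:ℝ) 1, γ s ∈ K)
    {m g₁ : ℝ} (hm : 0 < m) (hmK : ∀ x ∈ K, m ≤ Real.sqrt (lm u x))
    (hgK : ∀ x ∈ K, ‖dz u x‖ ≤ g₁) {η δ : ℝ} (hη : 0 < η)
    (hpt : ∀ x ∈ K, ∀ v h k : ℂ, ‖h‖ < δ →
      fourE u x v h k ≤ 4 * lm u x * ‖v‖ ^ 2 + lm u x * (‖h‖ ^ 2 * ‖v‖ ^ 2 * lap u x +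
        4 * ‖dz u x * h * v + k‖ ^ 2) + η * (‖h‖ ^ 2 * ‖v‖ ^ 2 + ‖k‖ ^ 2))
    {r ε : ℝ} (hr : 0 < r) (hε : 0 < ε) (hrδ : r * (Real.sqrt (lm u q) / m) < δ) :
    four (fun z => gdist (lm u) p z ^ 2) q r ≤
      4 * ((len (lm u) γ + ε) * len (lm u) γ) +
      r ^ 2 * lm u q * (2 * c * ((len (lm u) γ + ε) * len (lm u) γ) + 4) +
      η * r ^ 2 * (2 * (lm u q / m ^ 2) * (1 + 1 / m ^ 2 + g₁ ^ 2 / m ^ 2)) *
        ((len (lm u) γ + ε) ^ 2 + 1) := by
  have hlc : Continuous (lm u) := lm_cont hu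
  have hsp : Continuous fun s => Real.sqrt (lm u (γ s)) * ‖deriv γ s‖ := cont_speed hlc hγ
  have hγ' : Continuous (deriv γ) := hγ.continuous_deriv le_rfl
  set ω : ℝ → ℝ := fun s => Real.sqrt (lm u (γ s)) * ‖deriv γ s‖ + ε with hω
  have hωc : Continuous ω := hsp.add continuous_const
  have hωp : ∀ s, 0 < ω s := fun s => by simp only [hω]; positivity
  set L := len (lm u) γ with hL
  set W := L + ε with hW
  have hL0 : 0 ≤ L := len_nonneg γ
  have hWp : 0 < W := by positivity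
  have hWint : ∫ s in (0:ℝ)..1, ω s = W := by
    simp only [hω]
    rw [intervalIntegral.integral_add (hsp.intervalIntegrable _ _) (by simp)]
    simp [hW, hL, len]
  set G : ℝ → ℂ := fun s => dz u (γ s) * deriv γ s with hG
  have hGc : Continuous G := ((cont_dz hu).comp hγ.continuous).mul hγ'
  set A : ℝ → ℂ := fun s => ∫ t in (0:ℝ)..s, G t with hA
  have hAd : ∀ s, HasDerivAt A (G s) s := fun s => by
    exact intervalIntegral.integral_hasDerivAt_right (hGc.intervalIntegrable _ _)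
      (hGc.stronglyMeasurableAtFilter _ _) hGc.continuousAt
  set B : ℝ → ℂ := fun s => Complex.exp (A 1 - A s) with hB
  have hBd : ∀ s, HasDerivAt B (-(G s) * B s) s := by
    intro s
    have := ((hAd s).const_sub (A 1)).cexp
    convert this using 1
    ring
  have hBc : Continuous B := continuous_iff_continuousAt.mpr fun s => (hBd s).continuousAt
  have hBn : ∀ s, ‖B s‖ ^ 2 * lm u (γ s) = lm u q := by
    intro s
    have hN : ∀ s, HasDerivAt (fun s => u (γ s) - 2 * (A s).re) 0 s := by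
      intro s
      have a1 := (hasFDerivAt1 hu (γ s)).comp_hasDerivAt s
        (hγ.differentiable one_ne_zero s).hasDerivAt
      have a2 : HasDerivAt (fun s => (A s).re) (G s).re s := by
        have := (Complex.reCLM.hasFDerivAt (x := A s)).comp_hasDerivAt s (hAd s)
        exact this
      have a3 := a1.sub (a2.const_mul 2)
      rw [du_eq, show 2 * (dz u (γ s) * deriv γ s).re - 2 * (G s).re = 0 by
        simp only [hG]; ring] at a3
      exact a3
    have hconst := is_const_of_deriv_eq_zero (f := fun s => u (γ s) - 2 * (A s).re)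
      (fun s => (hN s).differentiableAt) (fun s => (hN s).deriv) s 1
    simp only [h1] at hconst
    have hre : 2 * (A 1 - A s).re = u q - u (γ s) := by
      rw [Complex.sub_re]; linarith
    have : ‖B s‖ ^ 2 = Real.exp (u q - u (γ s)) := by
      rw [hB]
      simp only [Complex.norm_exp]
      rw [← hre, two_mul, Real.exp_add, sq]
    rw [this]
    unfold lm
    rw [← Real.exp_add]
    ring_nf
  have hB1 : B 1 = 1 := by simp [hB]
  set f : ℝ → ℝ := fun s => (∫ t in (0:ℝ)..s, ω t) / W with hf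
  have hfd : ∀ s, HasDerivAt f (ω s / W) s := fun s => by
    exact (intervalIntegral.integral_hasDerivAt_right (hωc.intervalIntegrable _ _)
      (hωc.stronglyMeasurableAtFilter _ _) hωc.continuousAt).div_const W
  have hfc : Continuous f := continuous_iff_continuousAt.mpr fun s => (hfd s).continuousAt
  have hf0 : f 0 = 0 := by simp [hf]
  have hf1 : f 1 = 1 := by simp only [hf]; rw [hWint]; field_simp
  have hfm : Monotone f := monotone_of_deriv_nonneg (fun s => (hfd s).differentiableAt)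
    (fun s => by rw [(hfd s).deriv]; exact div_nonneg (hωp s).le hWp.le)
  have hf01 : ∀ s ∈ Icc (0:ℝ) 1, 0 ≤ f s ∧ f s ≤ 1 := fun s hs =>
    ⟨hf0 ▸ hfm hs.1, hf1 ▸ hfm hs.2⟩
  set b : ℝ → ℂ := fun s => (f s : ℂ) * B s with hb
  set b' : ℝ → ℂ := fun s => ((ω s / W : ℝ) : ℂ) * B s + (f s : ℂ) * (-(G s) * B s) with hb'
  have hbd : ∀ s, HasDerivAt b (b' s) s := fun s => ((hfd s).ofReal_comp).mul (hBd s)
  have hb'c : Continuous b' := by
    simp only [hb']
    exact ((Complex.continuous_ofReal.comp (hωc.div_const W)).mul hBc).add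
      ((Complex.continuous_ofReal.comp hfc).mul ((hGc.neg).mul hBc))
  have hbc : Continuous b := continuous_iff_continuousAt.mpr fun s => (hbd s).continuousAt
  -- the varied curves
  have hvar : ∀ ζ : ℂ, gdist (lm u) p (q + ζ) ^ 2 ≤
      W * ∫ s in (0:ℝ)..1, (lm u (γ s + ζ * b s) * ‖deriv γ s + ζ * b' s‖ ^ 2) / ω s := by
    intro ζ
    set Γ : ℝ → ℂ := fun s => γ s + ζ * b s with hΓ
    have hΓd : ∀ s, HasDerivAt Γ (deriv γ s + ζ * b' s) s := fun s =>
      ((hγ.differentiable one_ne_zero s).hasDerivAt).add ((hbd s).const_mul ζ)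
    have hΓc : ContDiff ℝ 1 Γ := by
      rw [contDiff_one_iff_deriv]
      refine ⟨fun s => (hΓd s).differentiableAt, ?_⟩
      have : deriv Γ = fun s => deriv γ s + ζ * b' s := funext fun s => (hΓd s).deriv
      rw [this]
      exact hγ'.add (continuous_const.mul hb'c)
    have hΓ0 : Γ 0 = p := by simp [hΓ, hb, hf0, h0]
    have hΓ1 : Γ 1 = q + ζ := by simp [hΓ, hb, hf1, hB1, h1]
    have h2 := gdist_le_len (lam := lm u) hΓc
    rw [hΓ0, hΓ1] at h2
    have h3 : gdist (lm u) p (q + ζ) ^ 2 ≤ (len (lm u) Γ) ^ 2 := by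
      have := gdist_nonneg (lam := lm u) p (q + ζ)
      gcongr
    refine h3.trans ?_
    have h4 := cs (cont_speed hlc hΓc) hωc hωp
    rw [hWint] at h4
    unfold len
    refine h4.trans (le_of_eq ?_)
    congr 1
    apply intervalIntegral.integral_congr
    intro s _
    simp only
    rw [(hΓd s).deriv, mul_pow, Real.sq_sqrt (lm_pos u _).le]
  have v1 := hvar r
  have v2 := hvar (-r)
  have v3 := hvar (Complex.I * r)
  have v4 := hvar (-(Complex.I * r))
  have hcont : ∀ ζ : ℂ, Continuous fun s => (lm u (γ s + ζ * b s) *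
      ‖deriv γ s + ζ * b' s‖ ^ 2) / ω s := by
    intro ζ
    exact ((hlc.comp (hγ.continuous.add (continuous_const.mul hbc))).mul
      ((hγ'.add (continuous_const.mul hb'c)).norm.pow 2)).div hωc fun s => (hωp s).ne'
  have hsum : four (fun z => gdist (lm u) p z ^ 2) q r ≤
      W * ∫ s in (0:ℝ)..1, fourE u (γ s) (deriv γ s) (r * b s) (r * b' s) / ω s := by
    have k1 : Continuous fun s => (lm u (γ s + r * b s) * ‖deriv γ s + r * b' s‖ ^ 2) / ω s +
        (lm u (γ s + -r * b s) * ‖deriv γ s + -r * b' s‖ ^ 2) / ω s := (hcont _).add (hcont _)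
    have k2 : Continuous fun s => (lm u (γ s + Complex.I * r * b s) *
          ‖deriv γ s + Complex.I * r * b' s‖ ^ 2) / ω s +
        (lm u (γ s + -(Complex.I * r) * b s) *
          ‖deriv γ s + -(Complex.I * r) * b' s‖ ^ 2) / ω s := (hcont _).add (hcont _)
    have e : (∫ s in (0:ℝ)..1, fourE u (γ s) (deriv γ s) (r * b s) (r * b' s) / ω s) =
        (∫ s in (0:ℝ)..1, (lm u (γ s + r * b s) * ‖deriv γ s + r * b' s‖ ^ 2) / ω s) +
        (∫ s in (0:ℝ)..1, (lm u (γ s + -r * b s) * ‖deriv γ s + -r * b' s‖ ^ 2) / ω s) +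
        ((∫ s in (0:ℝ)..1, (lm u (γ s + Complex.I * r * b s) *
          ‖deriv γ s + Complex.I * r * b' s‖ ^ 2) / ω s) +
        (∫ s in (0:ℝ)..1, (lm u (γ s + -(Complex.I * r) * b s) *
          ‖deriv γ s + -(Complex.I * r) * b' s‖ ^ 2) / ω s)) := by
      rw [← iadd (hcont _) (hcont _), ← iadd (hcont _) (hcont _), ← iadd k1 k2]
      apply intervalIntegral.integral_congr
      intro s _
      simp only [fourE]
      have t1 : γ s - ↑r * b s = γ s + -↑r * b s := by ring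
      have t2 : deriv γ s - ↑r * b' s = deriv γ s + -↑r * b' s := by ring
      have t3 : γ s + Complex.I * (↑r * b s) = γ s + Complex.I * r * b s := by ring
      have t4 : deriv γ s + Complex.I * (↑r * b' s) = deriv γ s + Complex.I * r * b' s := by ring
      have t5 : γ s - Complex.I * (↑r * b s) = γ s + -(Complex.I * r) * b s := by ring
      have t6 : deriv γ s - Complex.I * (↑r * b' s) = deriv γ s + -(Complex.I * r) * b' s := by ring
      rw [t1, t2, t3, t4, t5, t6]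
      ring
    rw [e]
    unfold four
    simp only [sub_eq_add_neg]
    linarith
  refine hsum.trans ?_
  -- pointwise bound of the integrand
  set C₂ := 2 * (lm u q / m ^ 2) * (1 + 1 / m ^ 2 + g₁ ^ 2 / m ^ 2) with hC₂
  have hlq := lm_pos u q
  have hfourc : Continuous fun s => fourE u (γ s) (deriv γ s) (r * b s) (r * b' s) / ω s := by
    unfold fourE
    have hbr : Continuous fun s => (r:ℂ) * b s := continuous_const.mul hbc
    have hbr' : Continuous fun s => (r:ℂ) * b' s := continuous_const.mul hb'c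
    refine Continuous.div ?_ hωc fun s => (hωp s).ne'
    exact (((hlc.comp (hγ.continuous.add hbr)).mul ((hγ'.add hbr').norm.pow 2)).add
      ((hlc.comp (hγ.continuous.sub hbr)).mul ((hγ'.sub hbr').norm.pow 2))).add
      (((hlc.comp (hγ.continuous.add (continuous_const.mul hbr))).mul
        ((hγ'.add (continuous_const.mul hbr')).norm.pow 2)).add
      ((hlc.comp (hγ.continuous.sub (continuous_const.mul hbr))).mul
        ((hγ'.sub (continuous_const.mul hbr')).norm.pow 2)))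
  have hbound : ∀ s ∈ Icc (0:ℝ) 1, fourE u (γ s) (deriv γ s) (r * b s) (r * b' s) / ω s ≤
      (4 + r ^ 2 * lm u q * (2 * c)) * (Real.sqrt (lm u (γ s)) * ‖deriv γ s‖) +
      (4 * r ^ 2 * lm u q / W ^ 2 + η * r ^ 2 * C₂ * (1 + 1 / W ^ 2)) * ω s := by
    intro s hs
    have hx := hK s hs
    have hlx := lm_pos u (γ s)
    have hBs := hBn s
    obtain ⟨hfs0, hfs1⟩ := hf01 s hs
    set x := γ s
    set v := deriv γ s
    set S := Real.sqrt (lm u x) with hS
    have hS2 : S ^ 2 = lm u x := Real.sq_sqrt hlx.le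
    have hSm : m ≤ S := hmK x hx
    have hS0 : 0 < S := lt_of_lt_of_le hm hSm
    have hωs : ω s = S * ‖v‖ + ε := rfl
    have hωs' : S * ‖v‖ ≤ ω s := by rw [hωs]; linarith
    have hv0 : 0 ≤ ‖v‖ := norm_nonneg v
    have hωp' := hωp s
    -- norm of b
    have hbn : ‖b s‖ ≤ ‖B s‖ := by
      simp only [hb, norm_mul, Complex.norm_real, Real.norm_of_nonneg hfs0]
      exact mul_le_of_le_one_left (norm_nonneg _) hfs1
    have hBb : ‖B s‖ ^ 2 ≤ lm u q / m ^ 2 := by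
      rw [le_div_iff₀ (by positivity), ← hBs, ← hS2]
      gcongr
    have hBb' : ‖B s‖ ≤ Real.sqrt (lm u q) / m := by
      rw [le_div_iff₀ hm]
      apply Real.le_sqrt_of_sq_le
      rw [mul_pow]
      rwa [le_div_iff₀ (by positivity)] at hBb
    have hhn : ‖(r:ℂ) * b s‖ < δ := by
      rw [norm_mul, Complex.norm_real, Real.norm_of_nonneg hr.le]
      refine lt_of_le_of_lt ?_ hrδ
      gcongr
      exact hbn.trans hBb'
    have hP := hpt x hx v (r * b s) (r * b' s) hhn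
    have n1 : ‖(r:ℂ) * b s‖ ^ 2 = r ^ 2 * ‖b s‖ ^ 2 := by
      rw [norm_mul, Complex.norm_real, Real.norm_of_nonneg hr.le]; ring
    have n2 : ‖(r:ℂ) * b' s‖ ^ 2 = r ^ 2 * ‖b' s‖ ^ 2 := by
      rw [norm_mul, Complex.norm_real, Real.norm_of_nonneg hr.le]; ring
    have n3 : ‖dz u x * (r * b s) * v + r * b' s‖ ^ 2 = r ^ 2 * ((ω s / W) ^ 2 * ‖B s‖ ^ 2) := by
      have : dz u x * (r * b s) * v + r * b' s = (r : ℂ) * (((ω s / W : ℝ) : ℂ) * B s) := by
        simp only [hb, hb', hG]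
        ring
      rw [this, norm_mul, norm_mul, Complex.norm_real, Complex.norm_real,
        Real.norm_of_nonneg hr.le, Real.norm_of_nonneg (div_nonneg hωp'.le hWp.le)]
      ring
    rw [n1, n2, n3] at hP
    -- main terms
    have m1 : lm u x * (r ^ 2 * ‖b s‖ ^ 2 * ‖v‖ ^ 2 * lap u x) ≤
        r ^ 2 * lm u q * (2 * c) * (S * ‖v‖ * ω s) := by
      have a1 : lap u x ≤ 2 * c * lm u x := hlap x
      have a2 : ‖b s‖ ^ 2 * lm u x ≤ lm u q := by
        rw [← hBs]; gcongr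
      have a3 : lm u x * ‖v‖ ^ 2 ≤ S * ‖v‖ * ω s := by
        rw [← hS2]
        have : S ^ 2 * ‖v‖ ^ 2 = S * ‖v‖ * (S * ‖v‖) := by ring
        rw [this]
        gcongr
      calc lm u x * (r ^ 2 * ‖b s‖ ^ 2 * ‖v‖ ^ 2 * lap u x)
          = r ^ 2 * (‖b s‖ ^ 2 * lm u x) * ‖v‖ ^ 2 * lap u x := by ring
        _ ≤ r ^ 2 * (‖b s‖ ^ 2 * lm u x) * ‖v‖ ^ 2 * (2 * c * lm u x) := by gcongr
        _ = r ^ 2 * (2 * c) * (‖b s‖ ^ 2 * lm u x) * (lm u x * ‖v‖ ^ 2) := by ring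
        _ ≤ r ^ 2 * (2 * c) * (lm u q) * (S * ‖v‖ * ω s) := by gcongr
        _ = _ := by ring
    have m2 : 4 * lm u x * ‖v‖ ^ 2 ≤ 4 * (S * ‖v‖ * ω s) := by
      rw [← hS2]
      have : 4 * S ^ 2 * ‖v‖ ^ 2 = 4 * (S * ‖v‖ * (S * ‖v‖)) := by ring
      rw [this]
      gcongr
    have m3 : lm u x * (4 * (r ^ 2 * ((ω s / W) ^ 2 * ‖B s‖ ^ 2))) =
        4 * r ^ 2 * lm u q / W ^ 2 * ω s * ω s := by
      rw [← hBs]; field_simp
    have hvω : ‖v‖ ≤ ω s / m := by
      rw [le_div_iff₀ hm]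
      nlinarith
    have hb'n : ‖b' s‖ ^ 2 ≤ 2 * (lm u q / m ^ 2) * (1 / W ^ 2 + g₁ ^ 2 / m ^ 2) * ω s ^ 2 := by
      have b1 : ‖b' s‖ ≤ (ω s / W) * ‖B s‖ + g₁ * (ω s / m) * ‖B s‖ := by
        simp only [hb']
        refine (norm_add_le _ _).trans ?_
        rw [norm_mul, norm_mul, norm_mul, Complex.norm_real, Complex.norm_real,
          Real.norm_of_nonneg (div_nonneg hωp'.le hWp.le), Real.norm_of_nonneg hfs0, norm_neg, hG]
        simp only [norm_mul]
        have hg1 := hgK x hx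
        have hg0 : 0 ≤ g₁ := (norm_nonneg _).trans hg1
        have : f s * (‖dz u x‖ * ‖v‖ * ‖B s‖) ≤ g₁ * (ω s / m) * ‖B s‖ := by
          calc f s * (‖dz u x‖ * ‖v‖ * ‖B s‖) ≤ 1 * (g₁ * (ω s / m) * ‖B s‖) := by gcongr
            _ = _ := one_mul _
        linarith
      have b2 : ‖b' s‖ ^ 2 ≤ ((ω s / W) * ‖B s‖ + g₁ * (ω s / m) * ‖B s‖) ^ 2 := by
        gcongr
      have b3 : ((ω s / W) * ‖B s‖ + g₁ * (ω s / m) * ‖B s‖) ^ 2 ≤
          2 * ((ω s / W) ^ 2 + (g₁ * (ω s / m)) ^ 2) * ‖B s‖ ^ 2 := by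
        nlinarith [sq_nonneg ((ω s / W) * ‖B s‖ - g₁ * (ω s / m) * ‖B s‖)]
      have b4 : 2 * ((ω s / W) ^ 2 + (g₁ * (ω s / m)) ^ 2) * ‖B s‖ ^ 2 ≤
          2 * ((ω s / W) ^ 2 + (g₁ * (ω s / m)) ^ 2) * (lm u q / m ^ 2) := by gcongr
      have b5 : 2 * ((ω s / W) ^ 2 + (g₁ * (ω s / m)) ^ 2) * (lm u q / m ^ 2) =
          2 * (lm u q / m ^ 2) * (1 / W ^ 2 + g₁ ^ 2 / m ^ 2) * ω s ^ 2 := by
        field_simp
      linarith
    have hbvn : ‖b s‖ ^ 2 * ‖v‖ ^ 2 ≤ (lm u q / m ^ 2) * (1 / m ^ 2) * ω s ^ 2 := by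
      have : ‖b s‖ ^ 2 ≤ lm u q / m ^ 2 := by
        refine le_trans ?_ hBb
        gcongr
      calc ‖b s‖ ^ 2 * ‖v‖ ^ 2 ≤ (lm u q / m ^ 2) * (ω s / m) ^ 2 := by gcongr
        _ = _ := by field_simp
    have m4 : η * (r ^ 2 * ‖b s‖ ^ 2 * ‖v‖ ^ 2 + r ^ 2 * ‖b' s‖ ^ 2) ≤
        η * r ^ 2 * C₂ * (1 + 1 / W ^ 2) * ω s * ω s := by
      have c1 : ‖b s‖ ^ 2 * ‖v‖ ^ 2 + ‖b' s‖ ^ 2 ≤ C₂ * (1 + 1 / W ^ 2) * ω s ^ 2 := by
        have c2 : (lm u q / m ^ 2) * (1 / m ^ 2) * ω s ^ 2 +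
            2 * (lm u q / m ^ 2) * (1 / W ^ 2 + g₁ ^ 2 / m ^ 2) * ω s ^ 2 ≤
            C₂ * (1 + 1 / W ^ 2) * ω s ^ 2 := by
          rw [← add_mul]
          gcongr
          rw [hC₂]
          have p1 : 0 ≤ lm u q / m ^ 2 := by positivity
          have p2 : 0 ≤ 1 / m ^ 2 := by positivity
          have p3 : 0 ≤ 1 / W ^ 2 := by positivity
          have p4 : 0 ≤ g₁ ^ 2 / m ^ 2 := by positivity
          have q1 := mul_nonneg p1 p2
          have q2 := mul_nonneg q1 p3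
          have q3 := mul_nonneg (mul_nonneg p1 p4) p3
          nlinarith
        linarith
      calc η * (r ^ 2 * ‖b s‖ ^ 2 * ‖v‖ ^ 2 + r ^ 2 * ‖b' s‖ ^ 2)
          = η * r ^ 2 * (‖b s‖ ^ 2 * ‖v‖ ^ 2 + ‖b' s‖ ^ 2) := by ring
        _ ≤ η * r ^ 2 * (C₂ * (1 + 1 / W ^ 2) * ω s ^ 2) := by gcongr
        _ = _ := by ring
    rw [div_le_iff₀ hωp']
    have key : ((4 + r ^ 2 * lm u q * (2 * c)) * (S * ‖v‖) +
        (4 * r ^ 2 * lm u q / W ^ 2 + η * r ^ 2 * C₂ * (1 + 1 / W ^ 2)) * ω s) * ω s =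
        4 * (S * ‖v‖ * ω s) + r ^ 2 * lm u q * (2 * c) * (S * ‖v‖ * ω s) +
        4 * r ^ 2 * lm u q / W ^ 2 * ω s * ω s + η * r ^ 2 * C₂ * (1 + 1 / W ^ 2) * ω s * ω s := by
      ring
    rw [key]
    have key2 : lm u x * (r ^ 2 * ‖b s‖ ^ 2 * ‖v‖ ^ 2 * lap u x +
        4 * (r ^ 2 * ((ω s / W) ^ 2 * ‖B s‖ ^ 2))) =
        lm u x * (r ^ 2 * ‖b s‖ ^ 2 * ‖v‖ ^ 2 * lap u x) +
        lm u x * (4 * (r ^ 2 * ((ω s / W) ^ 2 * ‖B s‖ ^ 2))) := by ring
    rw [key2, m3] at hP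
    linarith
  have cc1 : Continuous fun s => (4 + r ^ 2 * lm u q * (2 * c)) *
      (Real.sqrt (lm u (γ s)) * ‖deriv γ s‖) := continuous_const.mul hsp
  have cc2 : Continuous fun s => (4 * r ^ 2 * lm u q / W ^ 2 + η * r ^ 2 * C₂ * (1 + 1 / W ^ 2)) *
      ω s := continuous_const.mul hωc
  have cc3 : Continuous fun s => (4 + r ^ 2 * lm u q * (2 * c)) *
      (Real.sqrt (lm u (γ s)) * ‖deriv γ s‖) +
      (4 * r ^ 2 * lm u q / W ^ 2 + η * r ^ 2 * C₂ * (1 + 1 / W ^ 2)) * ω s := cc1.add cc2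
  have hint := intervalIntegral.integral_mono_on (μ := volume) (a := 0) (b := 1) zero_le_one
    (hfourc.intervalIntegrable _ _) (cc3.intervalIntegrable _ _) hbound
  rw [iadd cc1 cc2, intervalIntegral.integral_const_mul,
    intervalIntegral.integral_const_mul, hWint] at hint
  have hLint : (∫ s in (0:ℝ)..1, Real.sqrt (lm u (γ s)) * ‖deriv γ s‖) = L := rfl
  rw [hLint] at hint
  refine (mul_le_mul_of_nonneg_left hint hWp.le).trans (le_of_eq ?_)
  field_simp
  ring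

end Pool.Agent.Q203.Hd
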