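import Pool.Agent.Q203.Hd5

open Set Topology Filter MeasureTheory intervalIntegral

namespace Pool.Agent.Q203.Hd

/-- Laplacian comparison for the squared distance, in four-point form. -/
theorem CL {u : ℂ → ℝ} (hu : ContDiff ℝ 2 u) (hcomp : Complete (lm u)) {c : ℝ} (hc0 : 0 ≤ c)
    (hlap : ∀ z, lap u z ≤ 2 * c * lm u z) (p q : ℂ) {η : ℝ} (hη : 0 < η) :
    ∃ r₁ > 0, ∀ r : ℝ, 0 < r → r < r₁ → four (fun z => gdist (lm u) p z ^ 2) q r ≤
      4 * gdist (lm u) p q ^ 2 +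
        r ^ 2 * (lm u q * (2 * c * gdist (lm u) p q ^ 2 + 4) + η) := by
  have hlc : Continuous (lm u) := lm_cont hu
  set d := gdist (lm u) p q with hd
  have hd0 : 0 ≤ d := gdist_nonneg _ _
  obtain ⟨B, hB⟩ := hopf_rinow hlc (lm_pos u) hcomp p (d + 1)
  have hpB : ‖p‖ ≤ B := hB p (by rw [gdist_self]; positivity)
  set K := Metric.closedBall (0:ℂ) B with hK
  have hKc : IsCompact K := isCompact_closedBall _ _
  have hpK : p ∈ K := by simpa [hK] using hpB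
  obtain ⟨z0, _, hmin⟩ := hKc.exists_isMinOn ⟨p, hpK⟩ (hlc.sqrt.continuousOn)
  set m := Real.sqrt (lm u z0) with hm
  have hm0 : 0 < m := Real.sqrt_pos.mpr (lm_pos u z0)
  obtain ⟨g₁, hg₁⟩ := hKc.exists_bound_of_continuousOn (cont_dz hu).continuousOn
  have hlq := lm_pos u q
  set C₂ := 2 * (lm u q / m ^ 2) * (1 + 1 / m ^ 2 + g₁ ^ 2 / m ^ 2) with hC₂
  have hC₂0 : 0 ≤ C₂ := by positivity
  set η' := η / (C₂ * (d ^ 2 + 1) + 1) with hη'
  have hη'0 : 0 < η' := by positivity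
  obtain ⟨δ, hδ, hpt⟩ := pointwise hu hKc hη'0
  set a := Real.sqrt (lm u q) / m with ha
  have ha0 : 0 ≤ a := by positivity
  refine ⟨δ / (a + 1), by positivity, ?_⟩
  intro r hr hr1
  have hra : r * a < δ := by
    rw [lt_div_iff₀ (by positivity)] at hr1
    nlinarith
  -- bound for each ε
  have hbd : ∀ ε : ℝ, 0 < ε → ε ≤ 1 → four (fun z => gdist (lm u) p z ^ 2) q r ≤
      4 * ((d + 2 * ε) * (d + ε)) + r ^ 2 * lm u q * (2 * c * ((d + 2 * ε) * (d + ε)) + 4) +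
      η' * r ^ 2 * C₂ * ((d + 2 * ε) ^ 2 + 1) := by
    intro ε hε hε1
    obtain ⟨γ, h1, h2, h3, h4⟩ := exists_len_lt (lam := lm u) p q hε
    have hL0 := len_nonneg (lam := lm u) γ
    have hsp := cont_speed hlc h1
    have hγK : ∀ s ∈ Icc (0:ℝ) 1, γ s ∈ K := by
      intro s hs
      have k1 := gdist_le_sub (lam := lm u) h1 hs.1
      rw [h2] at k1
      have k2 : (∫ t in (0:ℝ)..s, Real.sqrt (lm u (γ t)) * ‖deriv γ t‖) ≤ len (lm u) γ := by
        unfold len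
        rw [← intervalIntegral.integral_add_adjacent_intervals (hsp.intervalIntegrable 0 s)
          (hsp.intervalIntegrable s 1)]
        have : 0 ≤ ∫ t in s..1, Real.sqrt (lm u (γ t)) * ‖deriv γ t‖ := by
          apply intervalIntegral.integral_nonneg hs.2
          intro t _
          positivity
        linarith
      have k3 : gdist (lm u) p (γ s) ≤ d + 1 := by linarith
      have := hB _ k3
      simpa [hK] using this
    have hc := core hu hc0 hlap h1 h2 h3 hγK hm0 (fun x hx => hmin hx) hg₁ hη'0 hpt hr hε hra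
    rw [← hC₂] at hc
    refine hc.trans ?_
    have l1 : (len (lm u) γ + ε) * len (lm u) γ ≤ (d + 2 * ε) * (d + ε) := by
      apply mul_le_mul <;> linarith
    have l2 : (len (lm u) γ + ε) ^ 2 ≤ (d + 2 * ε) ^ 2 :=
      pow_le_pow_left₀ (by positivity) (by linarith) 2
    gcongr
  -- limit
  have hlim : Tendsto (fun ε : ℝ => 4 * ((d + 2 * ε) * (d + ε)) + r ^ 2 * lm u q *
      (2 * c * ((d + 2 * ε) * (d + ε)) + 4) + η' * r ^ 2 * C₂ * ((d + 2 * ε) ^ 2 + 1))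
      (𝓝[>] 0) (𝓝 (4 * ((d + 2 * 0) * (d + 0)) + r ^ 2 * lm u q *
      (2 * c * ((d + 2 * 0) * (d + 0)) + 4) + η' * r ^ 2 * C₂ * ((d + 2 * 0) ^ 2 + 1))) := by
    apply Tendsto.mono_left _ nhdsWithin_le_nhds
    apply Continuous.tendsto
    fun_prop
  have hfin : four (fun z => gdist (lm u) p z ^ 2) q r ≤ 4 * ((d + 2 * 0) * (d + 0)) +
      r ^ 2 * lm u q * (2 * c * ((d + 2 * 0) * (d + 0)) + 4) +
      η' * r ^ 2 * C₂ * ((d + 2 * 0) ^ 2 + 1) := by
    apply ge_of_tendsto hlim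
    filter_upwards [Ioo_mem_nhdsGT (show (0:ℝ) < 1 by norm_num)] with ε hε
    exact hbd ε hε.1 hε.2.le
  have h5 : η' * (C₂ * (d ^ 2 + 1)) ≤ η := by
    rw [hη', div_mul_eq_mul_div, div_le_iff₀ (by positivity)]
    nlinarith
  have h6 : η' * r ^ 2 * C₂ * ((d + 2 * 0) ^ 2 + 1) ≤ r ^ 2 * η := by
    have : η' * r ^ 2 * C₂ * ((d + 2 * 0) ^ 2 + 1) = r ^ 2 * (η' * (C₂ * (d ^ 2 + 1))) := by ring
    rw [this]
    gcongr
  have h7 : 4 * ((d + 2 * 0) * (d + 0)) + r ^ 2 * lm u q * (2 * c * ((d + 2 * 0) * (d + 0)) + 4) =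
      4 * d ^ 2 + r ^ 2 * (lm u q * (2 * c * d ^ 2 + 4)) := by ring
  rw [h7] at hfin
  linarith

lemma log_up {y : ℝ} (hy : |y| ≤ 1 / 2) : Real.log (1 + y) ≤ y - y ^ 2 / 2 + 2 * |y| ^ 3 := by
  have h := Real.abs_log_sub_add_sum_range_le (x := -y) (by rw [abs_neg]; linarith) 2
  rw [abs_neg] at h
  norm_num [Finset.sum_range_succ] at h
  have h2 : |y| ^ 3 / (1 - |y|) ≤ 2 * |y| ^ 3 := by
    rw [div_le_iff₀ (by linarith)]
    have : 0 ≤ |y| ^ 3 := by positivity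
    nlinarith
  have h3 := (le_abs_self _).trans h
  linarith

lemma log_low {y : ℝ} (hy : |y| ≤ 1 / 2) : -y - 2 * y ^ 2 ≤ Real.log (1 - y) := by
  have h := Real.abs_log_sub_add_sum_range_le (x := y) (by linarith) 1
  norm_num [Finset.sum_range_succ] at h
  have h2 : y ^ 2 / (1 - |y|) ≤ 2 * y ^ 2 := by
    rw [div_le_iff₀ (by linarith)]
    have : 0 ≤ y ^ 2 := by positivity
    nlinarith
  have h3 := (neg_abs_le _).trans' (neg_le_neg h)
  linarith

lemma lognorm (q v : ℂ) (hq : 1 ≤ ‖q‖) (hv : ‖v‖ ≤ 1 / 2) :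
    |Real.log ‖q + v‖ - Real.log ‖q‖ - (v / q).re| ≤ ‖v‖ ^ 2 := by
  have hq0 : q ≠ 0 := by
    intro h; rw [h, norm_zero] at hq; linarith
  set w := v / q with hw
  have hwn : ‖w‖ ≤ ‖v‖ := by
    rw [hw, norm_div]
    exact div_le_self (norm_nonneg _) hq
  have hw1 : ‖w‖ < 1 := by linarith
  have h1w : (1 + w) ≠ 0 := by
    intro h
    have : w = -1 := by linear_combination h
    rw [this] at hw1
    simp at hw1
  have e1w : 1 + w = (q + v) / q := by rw [hw]; field_simp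
  have e : Real.log ‖q + v‖ - Real.log ‖q‖ = (Complex.log (1 + w)).re := by
    rw [Complex.log_re, ← Real.log_div (by
      rw [norm_ne_zero_iff]
      intro h
      apply h1w
      rw [e1w, h, zero_div]) (norm_ne_zero_iff.mpr hq0), ← norm_div, e1w]
  rw [e, ← Complex.sub_re]
  refine (Complex.abs_re_le_norm _).trans ?_
  refine (Complex.norm_log_one_add_sub_self_le hw1).trans ?_
  have h3 : (1 - ‖w‖)⁻¹ ≤ 2 := by
    rw [inv_le_comm₀ (by linarith) (by norm_num)]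
    linarith
  calc ‖w‖ ^ 2 * (1 - ‖w‖)⁻¹ / 2 ≤ ‖w‖ ^ 2 * 2 / 2 := by gcongr
    _ = ‖w‖ ^ 2 := by ring
    _ ≤ ‖v‖ ^ 2 := by gcongr

lemma four_lognorm {q : ℂ} (hq : 1 ≤ ‖q‖) {r : ℝ} (hr : 0 < r) (hr1 : r < 1 / 2) :
    four (fun z => Real.log ‖z‖) q r ≤ 4 * Real.log ‖q‖ + r ^ 4 := by
  have hne : ∀ v : ℂ, ‖v‖ < 1 → ‖q + v‖ ≠ 0 := by
    intro v hv h
    rw [norm_eq_zero] at h
    have : q = -v := by linear_combination h
    rw [this, norm_neg] at hq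
    linarith
  have hrn : ‖(r:ℂ)‖ = r := by rw [Complex.norm_real, Real.norm_of_nonneg hr.le]
  have a1 := hne r (by rw [hrn]; linarith)
  have a2 := hne (-r) (by rw [norm_neg, hrn]; linarith)
  have a3 := hne (Complex.I * r) (by simp only [norm_mul, Complex.norm_I, hrn]; linarith)
  have a4 := hne (-(Complex.I * r)) (by
    simp only [norm_neg, norm_mul, Complex.norm_I, hrn]; linarith)
  unfold four
  simp only [sub_eq_add_neg]
  rw [← Real.log_mul a1 a2, ← Real.log_mul a3 a4, ← Real.log_mul (mul_ne_zero a1 a2)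
    (mul_ne_zero a3 a4), ← norm_mul, ← norm_mul, ← norm_mul]
  have e : (q + ↑r) * (q + -↑r) * ((q + Complex.I * ↑r) * (q + -(Complex.I * ↑r))) =
      q ^ 4 - (r:ℂ) ^ 4 := by
    have : Complex.I ^ 2 = -1 := Complex.I_sq
    linear_combination (-(q^2 - r^2) * r ^ 2) * this
  rw [e]
  have hq4 : 1 ≤ ‖q‖ ^ 4 := one_le_pow₀ hq
  have h1 : ‖q ^ 4 - (r:ℂ) ^ 4‖ ≤ ‖q‖ ^ 4 * (1 + r ^ 4) := by
    calc ‖q ^ 4 - (r:ℂ) ^ 4‖ ≤ ‖q ^ 4‖ + ‖(r:ℂ) ^ 4‖ := norm_sub_le _ _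
      _ = ‖q‖ ^ 4 + r ^ 4 := by rw [norm_pow, norm_pow, hrn]
      _ ≤ _ := by
        have : 0 ≤ r ^ 4 := by positivity
        nlinarith
  have h2 : 0 < ‖q ^ 4 - (r:ℂ) ^ 4‖ := by
    rw [← e, norm_mul, norm_mul, norm_mul]
    have := norm_nonneg (q + ↑r)
    positivity
  calc Real.log ‖q ^ 4 - (r:ℂ) ^ 4‖ ≤ Real.log (‖q‖ ^ 4 * (1 + r ^ 4)) := Real.log_le_log h2 h1
    _ = 4 * Real.log ‖q‖ + Real.log (1 + r ^ 4) := by
      rw [Real.log_mul (by positivity) (by positivity), Real.log_pow]; norm_num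
    _ ≤ 4 * Real.log ‖q‖ + r ^ 4 := by
      have := Real.log_le_sub_one_of_pos (show 0 < 1 + r ^ 4 by positivity)
      linarith

end Pool.Agent.Q203.Hd
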