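import Pool.Agent.Q203.Hd6

open Set Topology Filter MeasureTheory intervalIntegral

namespace Pool.Agent.Q203.Hd

lemma loglog_dir {q v : ℂ} (hq : Real.exp 1 ≤ ‖q‖) {r : ℝ} (hr : 0 < r) (hr1 : r ≤ 1 / 8)
    (hv : ‖v‖ = r) :
    Real.log (Real.log ‖q + v‖) ≤ Real.log (Real.log ‖q‖) +
      (Real.log ‖q + v‖ - Real.log ‖q‖) / Real.log ‖q‖ -
      ((v / q).re ^ 2 - 2 * r ^ 3) / (2 * (Real.log ‖q‖) ^ 2) + 16 * r ^ 3 := by
  have he : (1:ℝ) ≤ Real.exp 1 := by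
    have := Real.add_one_le_exp (1:ℝ); linarith
  have hq1 : 1 ≤ ‖q‖ := he.trans hq
  have hq0 : 0 < ‖q‖ := by linarith
  have hH : 1 ≤ Real.log ‖q‖ := by
    rw [Real.le_log_iff_exp_le hq0]; exact hq
  have h1 := lognorm q v hq1 (by rw [hv]; linarith)
  rw [hv] at h1
  set H := Real.log ‖q‖
  set x := (v / q).re with hx
  set D := Real.log ‖q + v‖ - H with hD
  have hxr : |x| ≤ r := by
    refine (Complex.abs_re_le_norm _).trans ?_
    rw [norm_div, hv]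
    exact div_le_self hr.le hq1
  have hDx : |D - x| ≤ r ^ 2 := h1
  have hDr : |D| ≤ 2 * r := by
    have : D = (D - x) + x := by ring
    rw [this]
    refine (abs_add_le _ _).trans ?_
    nlinarith
  set y := D / H with hy
  have hyr : |y| ≤ 2 * r := by
    rw [hy, abs_div, abs_of_pos (by linarith : 0 < H)]
    exact (div_le_self (abs_nonneg _) hH).trans hDr
  have hlog : Real.log ‖q + v‖ = H * (1 + y) := by
    rw [hy]; field_simp; rw [hD]; ring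
  have hy2 : |y| ≤ 1 / 2 := by linarith
  have hy3 : 0 < 1 + y := by
    have := neg_abs_le y; linarith
  have h2 := log_up hy2
  have h3 : |y| ^ 3 ≤ 8 * r ^ 3 := by
    calc |y| ^ 3 ≤ (2 * r) ^ 3 := by gcongr
      _ = _ := by ring
  have h4 : x ^ 2 - 2 * r ^ 3 ≤ D ^ 2 := by
    have h5 : |(D - x) * x| ≤ r ^ 2 * r := by
      rw [abs_mul]; gcongr
    have h6 := neg_abs_le ((D - x) * x)
    nlinarith [sq_nonneg (D - x)]
  have h5 : (x ^ 2 - 2 * r ^ 3) / (2 * H ^ 2) ≤ y ^ 2 / 2 := by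
    rw [hy, div_pow, div_div, div_le_div_iff₀ (by positivity) (by positivity)]
    nlinarith [show 0 < H ^ 2 by positivity]
  rw [hlog, Real.log_mul (by linarith) hy3.ne']
  linarith

lemma four_loglog {q : ℂ} (hq : Real.exp 1 ≤ ‖q‖) {r : ℝ} (hr : 0 < r) (hr1 : r ≤ 1 / 8) :
    four (fun z => Real.log (Real.log ‖z‖)) q r ≤ 4 * Real.log (Real.log ‖q‖) -
      r ^ 2 * (1 / (‖q‖ ^ 2 * (Real.log ‖q‖) ^ 2)) + 69 * r ^ 3 := by
  have he : (1:ℝ) ≤ Real.exp 1 := by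
    have := Real.add_one_le_exp (1:ℝ); linarith
  have hq1 : 1 ≤ ‖q‖ := he.trans hq
  have hq0 : 0 < ‖q‖ := by linarith
  have hH : 1 ≤ Real.log ‖q‖ := by
    rw [Real.le_log_iff_exp_le hq0]; exact hq
  have hqne : q ≠ 0 := norm_pos_iff.mp hq0
  have hrn : ‖(r:ℂ)‖ = r := by rw [Complex.norm_real, Real.norm_of_nonneg hr.le]
  have a1 := loglog_dir hq hr hr1 (v := r) hrn
  have a2 := loglog_dir hq hr hr1 (v := -r) (by rw [norm_neg, hrn])
  have a3 := loglog_dir hq hr hr1 (v := Complex.I * r) (by simp only [norm_mul, Complex.norm_I, hrn,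
    one_mul])
  have a4 := loglog_dir hq hr hr1 (v := -(Complex.I * r)) (by
    simp only [norm_neg, norm_mul, Complex.norm_I, hrn, one_mul])
  have b := four_lognorm hq1 hr (by linarith)
  have x1 : ((-(r:ℂ)) / q).re = - ((r:ℂ) / q).re := by rw [neg_div]; simp
  have x2 : ((Complex.I * (r:ℂ)) / q).re = - ((r:ℂ) / q).im := by
    rw [mul_div_assoc]; simp
  have x3 : ((-(Complex.I * (r:ℂ))) / q).re = ((r:ℂ) / q).im := by
    rw [neg_div, mul_div_assoc]; simp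
  rw [x1] at a2
  rw [x2] at a3
  rw [x3] at a4
  have hw : ((r:ℂ) / q).re ^ 2 + ((r:ℂ) / q).im ^ 2 = r ^ 2 / ‖q‖ ^ 2 := by
    have : ‖(r:ℂ) / q‖ ^ 2 = r ^ 2 / ‖q‖ ^ 2 := by rw [norm_div, hrn, div_pow]
    rw [← this, Complex.sq_norm, Complex.normSq_apply]; ring
  unfold four at b ⊢
  simp only [sub_eq_add_neg] at b ⊢
  simp only [sub_eq_add_neg] at a1 a2 a3 a4
  set H := Real.log ‖q‖
  set l1 := Real.log ‖q + (r:ℂ)‖
  set l2 := Real.log ‖q + -(r:ℂ)‖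
  set l3 := Real.log ‖q + Complex.I * (r:ℂ)‖
  set l4 := Real.log ‖q + -(Complex.I * (r:ℂ))‖
  set wr := ((r:ℂ) / q).re
  set wi := ((r:ℂ) / q).im
  have s1 : (l1 + -H) / H + (l2 + -H) / H + ((l3 + -H) / H + (l4 + -H) / H) ≤ r ^ 4 := by
    have : (l1 + -H) / H + (l2 + -H) / H + ((l3 + -H) / H + (l4 + -H) / H) =
        (l1 + l2 + (l3 + l4) - 4 * H) / H := by field_simp; ring
    rw [this]
    have h0 : l1 + l2 + (l3 + l4) - 4 * H ≤ r ^ 4 := by linarith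
    rw [div_le_iff₀ (by linarith)]
    have : 0 ≤ r ^ 4 := by positivity
    nlinarith
  have s2 : (wr ^ 2 + -(2 * r ^ 3)) / (2 * H ^ 2) + ((-wr) ^ 2 + -(2 * r ^ 3)) / (2 * H ^ 2) +
      (((-wi) ^ 2 + -(2 * r ^ 3)) / (2 * H ^ 2) + (wi ^ 2 + -(2 * r ^ 3)) / (2 * H ^ 2)) ≥
      r ^ 2 * (1 / (‖q‖ ^ 2 * H ^ 2)) - 4 * r ^ 3 := by
    have e1 : (wr ^ 2 + -(2 * r ^ 3)) / (2 * H ^ 2) + ((-wr) ^ 2 + -(2 * r ^ 3)) / (2 * H ^ 2) +
      (((-wi) ^ 2 + -(2 * r ^ 3)) / (2 * H ^ 2) + (wi ^ 2 + -(2 * r ^ 3)) / (2 * H ^ 2)) =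
        (wr ^ 2 + wi ^ 2) / H ^ 2 - 4 * r ^ 3 / H ^ 2 := by
      field_simp; ring
    rw [e1, hw]
    have e2 : r ^ 2 / ‖q‖ ^ 2 / H ^ 2 = r ^ 2 * (1 / (‖q‖ ^ 2 * H ^ 2)) := by
      field_simp
    rw [e2]
    have e3 : 4 * r ^ 3 / H ^ 2 ≤ 4 * r ^ 3 := by
      apply div_le_self (by positivity)
      nlinarith
    linarith
  have s3 : r ^ 4 ≤ r ^ 3 := by
    have : 0 < r ^ 3 := by positivity
    nlinarith
  linarith

set_option maxHeartbeats 1000000 in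
theorem cheng_yau {u : ℂ → ℝ} (hu : ContDiff ℝ 2 u) (hcomp : Complete (lm u)) {c : ℝ}
    (hc0 : 0 ≤ c) (hlap : ∀ z, lap u z ≤ 2 * c * lm u z) {p : ℂ}
    (hp : ∀ x, gdist (lm u) p x ≤ 1 → Real.exp 1 ≤ ‖x‖) :
    1 ≤ (36 + 3 * c) * lm u p * (‖p‖ ^ 2 * (Real.log ‖p‖) ^ 2) := by
  have hlc : Continuous (lm u) := lm_cont hu
  have he : (1:ℝ) ≤ Real.exp 1 := by
    have := Real.add_one_le_exp (1:ℝ); linarith
  have hρc := continuous_gdist hlc p
  set ρ : ℂ → ℝ := gdist (lm u) p with hρ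
  have hρ0 : ∀ x, 0 ≤ ρ x := fun x => gdist_nonneg _ _
  set D := {x | ρ x ≤ 1} with hD
  have hDcl : IsClosed D := isClosed_le hρc continuous_const
  obtain ⟨B, hB⟩ := hopf_rinow hlc (lm_pos u) hcomp p 1
  have hDb : Bornology.IsBounded D := by
    rw [isBounded_iff_forall_norm_le]
    exact ⟨B, fun x hx => hB x hx⟩
  have hDc : IsCompact D := Metric.isCompact_of_isClosed_isBounded hDcl hDb
  have hpD : p ∈ D := by
    change gdist (lm u) p p ≤ 1
    rw [gdist_self]; norm_num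
  have hn : ∀ x ∈ D, Real.exp 1 ≤ ‖x‖ := fun x hx => hp x hx
  have hn0 : ∀ x ∈ D, 0 < ‖x‖ := fun x hx => lt_of_lt_of_le (by linarith) (hn x hx)
  have hnl : ∀ x ∈ D, 1 ≤ Real.log ‖x‖ := fun x hx => by
    rw [Real.le_log_iff_exp_le (hn0 x hx)]; exact hn x hx
  set X : ℂ → ℝ := fun x => - u x - 2 * Real.log ‖x‖ - 2 * Real.log (Real.log ‖x‖) with hX
  have hXc : ContinuousOn X D := by
    have h1 : ContinuousOn (fun x : ℂ => Real.log ‖x‖) D :=
      continuousOn_id.norm.log fun x hx => (hn0 x hx).ne'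
    have h2 : ContinuousOn (fun x : ℂ => Real.log (Real.log ‖x‖)) D :=
      h1.log fun x hx => by have := hnl x hx; positivity
    exact ((hu.continuous.neg.continuousOn).sub (continuousOn_const.mul h1)).sub
      (continuousOn_const.mul h2)
  have hΦc : ContinuousOn (fun x => (1 - ρ x ^ 2) ^ 2 * Real.exp (X x)) D :=
    ((continuous_const.sub (hρc.pow 2)).pow 2).continuousOn.mul hXc.rexp
  obtain ⟨q, hqD, hmax⟩ := hDc.exists_isMaxOn ⟨p, hpD⟩ hΦc
  have hmax' : ∀ x ∈ D, (1 - ρ x ^ 2) ^ 2 * Real.exp (X x) ≤ (1 - ρ q ^ 2) ^ 2 * Real.exp (X q) :=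
    fun x hx => hmax hx
  have hρp : ρ p = 0 := gdist_self p
  have hΦp := hmax' p hpD
  rw [hρp] at hΦp
  have hρq1 : ρ q ≤ 1 := hqD
  have hρq : ρ q < 1 := by
    rcases hρq1.lt_or_eq with h | h
    · exact h
    · exfalso
      rw [h] at hΦp
      have := Real.exp_pos (X p)
      norm_num at hΦp
      linarith
  set t₀ := 1 - ρ q ^ 2 with ht₀
  have ht0 : 0 < t₀ := by
    rw [ht₀]; nlinarith [hρ0 q]
  have ht1 : t₀ ≤ 1 := by
    rw [ht₀]; nlinarith [hρ0 q]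
  have hq := hn q hqD
  have hq0 := hn0 q hqD
  have hqH := hnl q hqD
  have hlq := lm_pos u q
  set P2 := 1 / (‖q‖ ^ 2 * (Real.log ‖q‖) ^ 2) with hP2
  have key : ∀ η : ℝ, 0 < η → 2 * P2 ≤ (2 / t₀) * (lm u q * (2 * c + 4) + η) +
      (16 / t₀ ^ 2) * (2 * Real.sqrt (lm u q) + 3 * η) ^ 2 + 2 * c * lm u q + 2 * η := by
    intro η hη
    obtain ⟨δ₁, hδ₁, H1⟩ := stencil hu (K := {q}) isCompact_singleton hη
    obtain ⟨r₁, hr₁, H2⟩ := CL hu hcomp hc0 hlap p q hη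
    set a := Real.sqrt (lm u q) + η with ha
    have ha0 : 0 < a := by positivity
    obtain ⟨δ₂, hδ₂, H3⟩ := loclip hlc q (a := a) (by rw [ha]; linarith)
    obtain ⟨δ₃, hδ₃, H4⟩ : ∃ δ > 0, ∀ z, ‖z - q‖ < δ → ρ z < 1 := by
      have hop : IsOpen {z | ρ z < 1} := isOpen_lt hρc continuous_const
      obtain ⟨δ, hδ, hs⟩ := Metric.isOpen_iff.mp hop q hρq
      exact ⟨δ, hδ, fun z hz => hs (by rwa [Metric.mem_ball, dist_eq_norm])⟩
    set s₀ := 2 * Real.sqrt (lm u q) + 3 * η with hs₀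
    have hs0 : 0 < s₀ := by positivity
    -- choose r
    obtain ⟨r, hr, hr1, hr2, hr3, hr4, hr5, hr6, hr7, hr8⟩ : ∃ r : ℝ, 0 < r ∧ r < δ₁ ∧ r < r₁ ∧
        r < δ₂ ∧ r < δ₃ ∧ r ≤ 1 / 8 ∧ 140 * r ≤ η ∧ a ^ 2 * r ≤ η ∧ s₀ * r ≤ t₀ / 2 := by
      have e0 : ∀ᶠ r : ℝ in 𝓝[>] 0, 0 < r := self_mem_nhdsWithin
      have e1 : ∀ᶠ r : ℝ in 𝓝[>] 0, r < δ₁ := nhdsWithin_le_nhds (gt_mem_nhds hδ₁)
      have e2 : ∀ᶠ r : ℝ in 𝓝[>] 0, r < r₁ := nhdsWithin_le_nhds (gt_mem_nhds hr₁)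
      have e3 : ∀ᶠ r : ℝ in 𝓝[>] 0, r < δ₂ := nhdsWithin_le_nhds (gt_mem_nhds hδ₂)
      have e4 : ∀ᶠ r : ℝ in 𝓝[>] 0, r < δ₃ := nhdsWithin_le_nhds (gt_mem_nhds hδ₃)
      have e5 : ∀ᶠ r : ℝ in 𝓝[>] 0, r < 1 / 8 := nhdsWithin_le_nhds (gt_mem_nhds (by norm_num))
      have e6 : ∀ᶠ r : ℝ in 𝓝[>] 0, r < η / 140 :=
        nhdsWithin_le_nhds (gt_mem_nhds (by positivity))
      have e7 : ∀ᶠ r : ℝ in 𝓝[>] 0, r < η / a ^ 2 :=
        nhdsWithin_le_nhds (gt_mem_nhds (by positivity))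
      have e8 : ∀ᶠ r : ℝ in 𝓝[>] 0, r < t₀ / 2 / s₀ :=
        nhdsWithin_le_nhds (gt_mem_nhds (by positivity))
      obtain ⟨r, hr0, h1, h2, h3, h4, h5, h6, h7, h8⟩ :=
        (e0.and (e1.and (e2.and (e3.and (e4.and
          (e5.and (e6.and (e7.and e8)))))))).exists
      rw [lt_div_iff₀ (by positivity)] at h6 h7 h8
      exact ⟨r, hr0, h1, h2, h3, h4, h5.le, by linarith, by linarith, by linarith⟩
    have hrn : ‖(r:ℂ)‖ = r := by rw [Complex.norm_real, Real.norm_of_nonneg hr.le]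
    -- single direction
    have hdir : ∀ v : ℂ, ‖v‖ = r → 2 * (Real.log t₀ - (ρ (q + v) ^ 2 - ρ q ^ 2) / t₀ -
        2 * (s₀ * r) ^ 2 / t₀ ^ 2) + X (q + v) ≤ 2 * Real.log t₀ + X q := by
      intro v hv
      have h1 : ρ (q + v) < 1 := H4 _ (by simpa [hv] using hr4)
      have h1D : q + v ∈ D := h1.le
      have h2 := hmax' _ h1D
      have h3 : gdist (lm u) q (q + v) ≤ a * r := by
        have := H3 (q + v) (by simpa [hv] using hr3)
        simpa [hv] using this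
      have h4 := gdist_triangle hlc p q (q + v)
      have h5 := gdist_triangle hlc p (q + v) q
      rw [gdist_comm (q + v) q] at h5
      have h6 : |ρ (q + v) - ρ q| ≤ a * r := by
        rw [abs_le]; constructor <;> simp only [hρ] <;> linarith
      set Y := ρ (q + v) ^ 2 - ρ q ^ 2 with hY
      have hYb : |Y| ≤ s₀ * r := by
        have e : Y = (ρ (q + v) - ρ q) * (2 * ρ q + (ρ (q + v) - ρ q)) := by rw [hY]; ring
        rw [e, abs_mul]
        have h7 : |2 * ρ q + (ρ (q + v) - ρ q)| ≤ 2 + a * r := by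
          refine (abs_add_le _ _).trans ?_
          rw [abs_of_nonneg (by have := hρ0 q; positivity)]
          linarith
        calc |ρ (q + v) - ρ q| * |2 * ρ q + (ρ (q + v) - ρ q)| ≤ (a * r) * (2 + a * r) := by
              gcongr
          _ = (2 * a + a ^ 2 * r) * r := by ring
          _ ≤ s₀ * r := by
            gcongr
            rw [hs₀, ha]
            rw [ha] at hr7
            linarith
      have hYt : |Y / t₀| ≤ 1 / 2 := by
        rw [abs_div, abs_of_pos ht0, div_le_iff₀ ht0]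
        linarith
      have h8 := log_low hYt
      have hYt' : 0 < 1 - Y / t₀ := by
        have := le_abs_self (Y / t₀)
        linarith
      have h9 : 1 - ρ (q + v) ^ 2 = t₀ * (1 - Y / t₀) := by
        field_simp
        rw [hY, ht₀]; ring
      have h10 : 0 < 1 - ρ (q + v) ^ 2 := by rw [h9]; positivity
      have h11 : Real.log (1 - ρ (q + v) ^ 2) = Real.log t₀ + Real.log (1 - Y / t₀) := by
        rw [h9, Real.log_mul ht0.ne' hYt'.ne']
      have h12 : 2 * Real.log (1 - ρ (q + v) ^ 2) + X (q + v) ≤ 2 * Real.log t₀ + X q := by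
        have := Real.log_le_log (by positivity) h2
        rw [Real.log_mul (by positivity) (Real.exp_pos _).ne',
          Real.log_mul (by positivity) (Real.exp_pos _).ne', Real.log_exp, Real.log_exp,
          Real.log_pow, Real.log_pow] at this
        exact_mod_cast this
      have h13 : (Y / t₀) ^ 2 ≤ (s₀ * r) ^ 2 / t₀ ^ 2 := by
        rw [div_pow]
        exact div_le_div_of_nonneg_right
          (sq_le_sq' (by linarith [neg_abs_le Y]) ((le_abs_self Y).trans hYb)) (by positivity)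
      rw [h11] at h12
      have h14 : 2 * (s₀ * r) ^ 2 / t₀ ^ 2 = 2 * ((s₀ * r) ^ 2 / t₀ ^ 2) := by ring
      rw [h14]
      linarith
    have d1 := hdir r hrn
    have d2 := hdir (-r) (by rw [norm_neg, hrn])
    have d3 := hdir (Complex.I * r) (by simp only [norm_mul, Complex.norm_I, hrn, one_mul])
    have d4 := hdir (-(Complex.I * r)) (by
      simp only [norm_neg, norm_mul, Complex.norm_I, hrn, one_mul])
    have f1 := (abs_le.mp (H1 q rfl r (by rw [hrn]; exact hr1))).2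
    rw [hrn] at f1
    have f2 := H2 r hr hr2
    have he1 : 1 ≤ ‖q‖ := he.trans hq
    have f3 := four_lognorm he1 hr (by linarith)
    have f4 := four_loglog hq hr hr5
    rw [← hP2] at f4
    have f5 : lap u q ≤ 2 * c * lm u q := hlap q
    have f6 : gdist (lm u) p q ^ 2 ≤ 1 := by
      have := hρ0 q
      exact pow_le_one₀ this hρq1
    have f7 : four (fun z => ρ z ^ 2) q r ≤ 4 * ρ q ^ 2 +
        r ^ 2 * (lm u q * (2 * c + 4) + η) := by
      refine f2.trans ?_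
      have : 2 * c * gdist (lm u) p q ^ 2 ≤ 2 * c := by nlinarith
      gcongr
    unfold four at f1 f3 f4 f7
    simp only [sub_eq_add_neg] at f1 f3 f4 f7
    simp only [hX, sub_eq_add_neg] at d1 d2 d3 d4
    have hr40 : r ^ 4 ≤ r ^ 3 := by
      have : 0 < r ^ 3 := by positivity
      nlinarith
    have hsumY : (ρ (q + r) ^ 2 + -ρ q ^ 2) / t₀ + (ρ (q + -r) ^ 2 + -ρ q ^ 2) / t₀ +
        ((ρ (q + Complex.I * r) ^ 2 + -ρ q ^ 2) / t₀ +
        (ρ (q + -(Complex.I * r)) ^ 2 + -ρ q ^ 2) / t₀) ≤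
        r ^ 2 * (lm u q * (2 * c + 4) + η) / t₀ := by
      rw [← add_div, ← add_div, ← add_div]
      gcongr
      linarith
    have hS : 2 * (s₀ * r) ^ 2 / t₀ ^ 2 = 2 * s₀ ^ 2 / t₀ ^ 2 * r ^ 2 := by ring
    rw [hS] at d1 d2 d3 d4
    have hS2 : r ^ 2 * (lm u q * (2 * c + 4) + η) / t₀ =
        (lm u q * (2 * c + 4) + η) / t₀ * r ^ 2 := by ring
    rw [hS2] at hsumY
    have hS3 : r ^ 2 * lap u q ≤ r ^ 2 * (2 * c * lm u q) := by gcongr
    have fin : r ^ 2 * (2 * P2) ≤ r ^ 2 * ((2 / t₀) * (lm u q * (2 * c + 4) + η) +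
      (16 / t₀ ^ 2) * s₀ ^ 2 + 2 * c * lm u q + 2 * η) := by
      have hr2' : 0 < r ^ 2 := by positivity
      have g1 : 140 * r ^ 3 ≤ η * r ^ 2 := by
        have : 140 * r ^ 3 = (140 * r) * r ^ 2 := by ring
        rw [this]; gcongr
      have g2 : r ^ 2 * ((2 / t₀) * (lm u q * (2 * c + 4) + η) +
          (16 / t₀ ^ 2) * s₀ ^ 2 + 2 * c * lm u q + 2 * η) =
          2 * ((lm u q * (2 * c + 4) + η) / t₀ * r ^ 2) + 8 * (2 * s₀ ^ 2 / t₀ ^ 2 * r ^ 2) +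
          r ^ 2 * (2 * c * lm u q) + 2 * (η * r ^ 2) := by ring
      rw [g2]
      linarith
    exact le_of_mul_le_mul_left fin (by positivity)
  have hlim : 2 * P2 ≤ (2 / t₀) * (lm u q * (2 * c + 4) + 0) +
      (16 / t₀ ^ 2) * (2 * Real.sqrt (lm u q) + 3 * 0) ^ 2 + 2 * c * lm u q + 2 * 0 := by
    have ht : Tendsto (fun η : ℝ => (2 / t₀) * (lm u q * (2 * c + 4) + η) +
      (16 / t₀ ^ 2) * (2 * Real.sqrt (lm u q) + 3 * η) ^ 2 + 2 * c * lm u q + 2 * η) (𝓝[>] 0)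
      (𝓝 ((2 / t₀) * (lm u q * (2 * c + 4) + 0) +
      (16 / t₀ ^ 2) * (2 * Real.sqrt (lm u q) + 3 * 0) ^ 2 + 2 * c * lm u q + 2 * 0)) := by
      apply Tendsto.mono_left _ nhdsWithin_le_nhds
      apply Continuous.tendsto
      fun_prop
    apply ge_of_tendsto ht
    filter_upwards [self_mem_nhdsWithin] with η hη
    exact key η hη
  have hsq : (2 * Real.sqrt (lm u q) + 3 * 0) ^ 2 = 4 * lm u q := by
    rw [mul_zero, add_zero, mul_pow, Real.sq_sqrt hlq.le]; norm_num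
  rw [hsq] at hlim
  have hP : P2 * t₀ ^ 2 ≤ (36 + 3 * c) * lm u q := by
    have e : ((2 / t₀) * (lm u q * (2 * c + 4) + 0) + (16 / t₀ ^ 2) * (4 * lm u q) +
        2 * c * lm u q + 2 * 0) * t₀ ^ 2 = 2 * lm u q * ((2 * c + 4) * t₀ + 32 + c * t₀ ^ 2) := by
      field_simp; ring
    have h1 := mul_le_mul_of_nonneg_right hlim (sq_nonneg t₀)
    rw [e] at h1
    have h2 : (2 * c + 4) * t₀ + 32 + c * t₀ ^ 2 ≤ 36 + 3 * c := by
      have q1 : (2 * c + 4) * t₀ ≤ (2 * c + 4) * 1 := by gcongr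
      have q2 : c * t₀ ^ 2 ≤ c * 1 := by gcongr; exact pow_le_one₀ ht0.le ht1
      linarith
    have h3 : 2 * lm u q * ((2 * c + 4) * t₀ + 32 + c * t₀ ^ 2) ≤ 2 * lm u q * (36 + 3 * c) := by
      gcongr
    linarith
  -- conclusion
  have hexpX : ∀ x ∈ D, Real.exp (X x) = 1 / (lm u x * (‖x‖ ^ 2 * (Real.log ‖x‖) ^ 2)) := by
    intro x hx
    have h1 := hn0 x hx
    have h2 : 0 < Real.log ‖x‖ := lt_of_lt_of_le one_pos (hnl x hx)
    have e1 : X x = - (u x + Real.log (‖x‖ ^ 2 * (Real.log ‖x‖) ^ 2)) := by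
      rw [Real.log_mul (by positivity) (by positivity), Real.log_pow, Real.log_pow]
      simp only [hX]; push_cast; ring
    rw [e1, Real.exp_neg, Real.exp_add, Real.exp_log (by positivity)]
    unfold lm
    rw [one_div]
  rw [hexpX p hpD, hexpX q hqD] at hΦp
  have h1 : t₀ ^ 2 * (1 / (lm u q * (‖q‖ ^ 2 * Real.log ‖q‖ ^ 2))) ≤ 36 + 3 * c := by
    have : t₀ ^ 2 * (1 / (lm u q * (‖q‖ ^ 2 * Real.log ‖q‖ ^ 2))) = (P2 * t₀ ^ 2) / lm u q := by
      rw [hP2]; field_simp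
    rw [this, div_le_iff₀ hlq]
    exact hP
  have h2 := hΦp.trans h1
  norm_num at h2
  have hp0 := hn0 p hpD
  have hpl : 0 < Real.log ‖p‖ := lt_of_lt_of_le one_pos (hnl p hpD)
  have hlp := lm_pos u p
  have h3 : 1 / (lm u p * (‖p‖ ^ 2 * Real.log ‖p‖ ^ 2)) ≤ 36 + 3 * c := by
    rw [one_div, mul_inv_rev, mul_inv_rev]; exact h2
  rw [div_le_iff₀ (by positivity)] at h3
  linarith

end Pool.Agent.Q203.Hd
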