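import Pool.Agent.Q203.Hd3

open Set Topology Filter MeasureTheory intervalIntegral

namespace Pool.Agent.Q203.Hd

/-- Four-point sum of `log ‖· - a‖`. -/
lemma four_logsub {w a : ℂ} {r : ℝ} (hr : 0 < r) (hra : r < ‖w - a‖) :
    four (fun z => Real.log ‖z - a‖) w r ≤ 4 * Real.log ‖w - a‖ + r ^ 4 / ‖w - a‖ ^ 4 := by
  set q := w - a with hq
  have hq0 : 0 < ‖q‖ := hr.trans hra
  have hne : ∀ v : ℂ, ‖v‖ < ‖q‖ → ‖q + v‖ ≠ 0 := by
    intro v hv h
    rw [norm_eq_zero] at h
    have : q = -v := by linear_combination h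
    rw [this, norm_neg] at hv
    exact lt_irrefl _ hv
  have hrn : ‖(r:ℂ)‖ = r := by rw [Complex.norm_real, Real.norm_of_nonneg hr.le]
  have a1 := hne r (by rw [hrn]; exact hra)
  have a2 := hne (-r) (by rw [norm_neg, hrn]; exact hra)
  have a3 := hne (Complex.I * r) (by simp only [norm_mul, Complex.norm_I, hrn, one_mul]; exact hra)
  have a4 := hne (-(Complex.I * r)) (by
    simp only [norm_neg, norm_mul, Complex.norm_I, hrn, one_mul]; exact hra)
  unfold four
  have t1 : w + ↑r - a = q + r := by rw [hq]; ring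
  have t2 : w - ↑r - a = q + -r := by rw [hq]; ring
  have t3 : w + Complex.I * ↑r - a = q + Complex.I * r := by rw [hq]; ring
  have t4 : w - Complex.I * ↑r - a = q + -(Complex.I * r) := by rw [hq]; ring
  simp only [t1, t2, t3, t4]
  rw [← Real.log_mul a1 a2, ← Real.log_mul a3 a4, ← Real.log_mul (mul_ne_zero a1 a2)
    (mul_ne_zero a3 a4), ← norm_mul, ← norm_mul, ← norm_mul]
  have e : (q + ↑r) * (q + -↑r) * ((q + Complex.I * ↑r) * (q + -(Complex.I * ↑r))) =
      q ^ 4 - (r:ℂ) ^ 4 := by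
    have : Complex.I ^ 2 = -1 := Complex.I_sq
    linear_combination (-(q^2 - r^2) * r ^ 2) * this
  rw [e]
  have h1 : ‖q ^ 4 - (r:ℂ) ^ 4‖ ≤ ‖q‖ ^ 4 * (1 + r ^ 4 / ‖q‖ ^ 4) := by
    calc ‖q ^ 4 - (r:ℂ) ^ 4‖ ≤ ‖q ^ 4‖ + ‖(r:ℂ) ^ 4‖ := norm_sub_le _ _
      _ = ‖q‖ ^ 4 + r ^ 4 := by rw [norm_pow, norm_pow, hrn]
      _ = _ := by field_simp
  have h2 : 0 < ‖q ^ 4 - (r:ℂ) ^ 4‖ := by
    rw [← e, norm_mul, norm_mul, norm_mul]
    have := norm_nonneg (q + ↑r)
    positivity
  calc Real.log ‖q ^ 4 - (r:ℂ) ^ 4‖ ≤ Real.log (‖q‖ ^ 4 * (1 + r ^ 4 / ‖q‖ ^ 4)) :=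
        Real.log_le_log h2 h1
    _ = 4 * Real.log ‖q‖ + Real.log (1 + r ^ 4 / ‖q‖ ^ 4) := by
      rw [Real.log_mul (by positivity) (by positivity), Real.log_pow]; norm_num
    _ ≤ 4 * Real.log ‖q‖ + r ^ 4 / ‖q‖ ^ 4 := by
      have := Real.log_le_sub_one_of_pos (show 0 < 1 + r ^ 4 / ‖q‖ ^ 4 by positivity)
      linarith

lemma four_sq (w a : ℂ) (r : ℝ) :
    four (fun z => ‖z - a‖ ^ 2) w r = 4 * ‖w - a‖ ^ 2 + 4 * r ^ 2 := by
  unfold four
  simp only [Complex.sq_norm, Complex.normSq_apply, Complex.sub_re, Complex.sub_im, Complex.add_re,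
    Complex.add_im, Complex.mul_re, Complex.mul_im, Complex.I_re, Complex.I_im, Complex.ofReal_re,
    Complex.ofReal_im]
  ring

/-- Maximum principle: a `C²` subharmonic function takes on each circle a value at least its value
at the centre. -/
lemma circle_max {u : ℂ → ℝ} (hu : ContDiff ℝ 2 u) (hsub : ∀ z, 0 ≤ lap u z) {R : ℝ}
    (hR : 0 < R) : ∃ z, ‖z‖ = R ∧ u 0 ≤ u z := by
  by_contra hcon
  push Not at hcon
  have hsc : IsCompact (Metric.sphere (0:ℂ) R) := isCompact_sphere _ _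
  have hRm : (R:ℂ) ∈ Metric.sphere (0:ℂ) R := by
    simp [abs_of_pos hR]
  obtain ⟨z1, hz1, hmax1⟩ := hsc.exists_isMaxOn ⟨_, hRm⟩ hu.continuous.continuousOn
  have hz1n : ‖z1‖ = R := by simpa using hz1
  have hM := hcon z1 hz1n
  set δ := (u 0 - u z1) / (2 * R ^ 2) with hδ
  have hδ0 : 0 < δ := by
    have : 0 < u 0 - u z1 := by linarith
    positivity
  set F : ℂ → ℝ := fun z => u z + δ * ‖z‖ ^ 2 with hF
  have hFc : Continuous F := hu.continuous.add (continuous_const.mul (continuous_norm.pow 2))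
  obtain ⟨x₀, hx₀, hmax⟩ := (isCompact_closedBall (0:ℂ) R).exists_isMaxOn
    ⟨0, Metric.mem_closedBall_self hR.le⟩ hFc.continuousOn
  have hx0R : ‖x₀‖ ≤ R := by simpa using hx₀
  have h0 : F 0 ≤ F x₀ := hmax (Metric.mem_closedBall_self hR.le)
  have hlt : ‖x₀‖ < R := by
    rcases hx0R.lt_or_eq with h | h
    · exact h
    · exfalso
      have h2 : u x₀ ≤ u z1 := hmax1 (by simpa using h)
      simp only [hF, norm_zero, h] at h0
      have h3 : δ * R ^ 2 = (u 0 - u z1) / 2 := by rw [hδ]; field_simp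
      norm_num at h0
      linarith
  obtain ⟨d, hd, hst⟩ := stencil hu (K := {x₀}) isCompact_singleton hδ0
  obtain ⟨r, hr, hr1, hr2⟩ : ∃ r : ℝ, 0 < r ∧ r < d ∧ r < R - ‖x₀‖ := by
    refine ⟨min d (R - ‖x₀‖) / 2, ?_, ?_, ?_⟩
    · have : 0 < min d (R - ‖x₀‖) := lt_min hd (by linarith)
      positivity
    · have h1 : 0 < min d (R - ‖x₀‖) := lt_min hd (by linarith)
      have := min_le_left d (R - ‖x₀‖)
      linarith
    · have h1 : 0 < min d (R - ‖x₀‖) := lt_min hd (by linarith)
      have := min_le_right d (R - ‖x₀‖)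
      linarith
  have hrn : ‖(r:ℂ)‖ = r := by rw [Complex.norm_real, Real.norm_of_nonneg hr.le]
  have f1 := (abs_le.mp (hst x₀ rfl r (by rw [hrn]; exact hr1))).1
  rw [hrn] at f1
  have f2 := four_sq x₀ 0 r
  simp only [sub_zero] at f2
  have hin : ∀ v : ℂ, ‖v‖ = r → F (x₀ + v) ≤ F x₀ := by
    intro v hv
    apply hmax
    rw [mem_closedBall_zero_iff]
    have := norm_add_le x₀ v
    linarith
  have b1 := hin r hrn
  have b2 := hin (-r) (by rw [norm_neg, hrn])
  have b3 := hin (Complex.I * r) (by simp only [norm_mul, Complex.norm_I, hrn, one_mul])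
  have b4 := hin (-(Complex.I * r)) (by simp only [norm_neg, norm_mul, Complex.norm_I, hrn, one_mul])
  unfold four at f1 f2
  simp only [sub_eq_add_neg] at f1 f2
  simp only [hF] at b1 b2 b3 b4
  have h5 := hsub x₀
  have h6 : 0 ≤ r ^ 2 * lap u x₀ := by positivity
  have h7 : 0 < δ * r ^ 2 := by positivity
  nlinarith

lemma sum_two_sided {N j : ℕ} (hj : j < N) {f : ℕ → ℝ} (hf : ∀ k ∈ Finset.Icc 1 N, 0 ≤ f k) :
    ∑ i ∈ (Finset.range N).erase j, f (Nat.dist i j) ≤ 2 * ∑ k ∈ Finset.Icc 1 N, f k := by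
  classical
  have hsplit : (Finset.range N).erase j = (Finset.range N).filter (· < j) ∪
      (Finset.range N).filter (j < ·) := by
    ext i
    simp only [Finset.mem_erase, Finset.mem_range, Finset.mem_union, Finset.mem_filter]
    omega
  have hdisj : Disjoint ((Finset.range N).filter (· < j)) ((Finset.range N).filter (j < ·)) := by
    rw [Finset.disjoint_left]
    intro i h1 h2
    simp only [Finset.mem_filter] at h1 h2
    omega
  rw [hsplit, Finset.sum_union hdisj]
  have h1 : ∑ i ∈ (Finset.range N).filter (· < j), f (Nat.dist i j) ≤ ∑ k ∈ Finset.Icc 1 N, f k := by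
    rw [← Finset.sum_image (g := fun i => Nat.dist i j) (f := f)]
    · apply Finset.sum_le_sum_of_subset_of_nonneg
      · intro k hk
        simp only [Finset.mem_image, Finset.mem_filter, Finset.mem_range, Nat.dist] at hk
        simp only [Finset.mem_Icc]
        omega
      · intro k hk _
        exact hf k hk
    · intro a ha b hb hab
      simp only [Finset.coe_filter, Finset.mem_range, mem_ofPred_eq] at ha hb
      simp only [Nat.dist] at hab
      omega
  have h2 : ∑ i ∈ (Finset.range N).filter (j < ·), f (Nat.dist i j) ≤ ∑ k ∈ Finset.Icc 1 N, f k := by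
    rw [← Finset.sum_image (g := fun i => Nat.dist i j) (f := f)]
    · apply Finset.sum_le_sum_of_subset_of_nonneg
      · intro k hk
        simp only [Finset.mem_image, Finset.mem_filter, Finset.mem_range, Nat.dist] at hk
        simp only [Finset.mem_Icc]
        omega
      · intro k hk _
        exact hf k hk
    · intro a ha b hb hab
      simp only [Finset.coe_filter, Finset.mem_range, mem_ofPred_eq] at ha hb
      simp only [Nat.dist] at hab
      omega
  linarith

lemma log_fourteen : Real.log 14 ≤ 3 := by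
  rw [Real.log_le_iff_le_exp (by norm_num)]
  have h1 := Real.exp_one_gt_d9
  have h2 : Real.exp 3 = Real.exp 1 ^ 3 := by rw [← Real.exp_nat_mul]; norm_num
  rw [h2]
  have h3 : (2.7:ℝ) ^ 3 ≤ Real.exp 1 ^ 3 := by gcongr; linarith
  linarith

lemma sum_logs {N : ℕ} (hN : 1 ≤ N) :
    ∑ k ∈ Finset.Icc 1 N, (Real.log (14 * N) - Real.log k) ≤ 4 * N := by
  rw [Finset.sum_sub_distrib]
  have h1 : ∑ k ∈ Finset.Icc 1 N, Real.log (k:ℝ) = Real.log (N.factorial : ℝ) := by
    clear hN
    induction N with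
    | zero => simp
    | succ n ih =>
      rw [Finset.sum_Icc_succ_top (by omega), ih, Nat.factorial_succ]
      push_cast
      rw [Real.log_mul (by positivity) (by positivity)]
      ring
  have hN0 : (0:ℝ) < N := by exact_mod_cast hN
  rw [h1]
  simp only [Finset.sum_const, Nat.card_Icc, add_tsub_cancel_right, nsmul_eq_mul]
  have h2 : (N:ℝ) ^ N / N.factorial ≤ Real.exp N :=
    Real.pow_div_factorial_le_exp (N:ℝ) hN0.le N
  have h3 : N * Real.log N - Real.log (N.factorial) ≤ N := by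
    have : Real.log ((N:ℝ) ^ N / N.factorial) ≤ N := by
      have := Real.log_le_log (by positivity) h2
      rwa [Real.log_exp] at this
    rw [Real.log_div (by positivity) (by positivity), Real.log_pow] at this
    exact this
  rw [Real.log_mul (by norm_num) hN0.ne']
  have := log_fourteen
  nlinarith

end Pool.Agent.Q203.Hd
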