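import Mathlib

/-!
A singular quasi-linear map on `ℓ₂` (the Kalton-Peck map, corrected by a linear map so that it
takes values in `ℓ₂`).
-/

open Filter Topology

namespace Pool.Agent.Q203.KaltonPeck

/-- The real Hilbert space `ℓ₂`. -/
abbrev L2 := lp (fun _ : ℕ => ℝ) 2

section defs

variable {H : Type} [NormedAddCommGroup H] [InnerProductSpace ℝ H]

/-- Quasi-linear maps on a Hilbert space `H`. -/
def QuasiLinear (Om : H → H) : Prop :=
  (∀ (c : ℝ) (x : H), Om (c • x) = c • Om x) ∧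
    ∃ Q : ℝ, ∀ x y : H, ‖Om (x + y) - Om x - Om y‖ ≤ Q * (‖x‖ + ‖y‖)

/-- `Phi` is trivial on the subspace `W`: it is at bounded distance from a linear map. -/
def TrivialOn (Phi : H → H) (W : Submodule ℝ H) : Prop :=
  ∃ (L : W →ₗ[ℝ] H) (C : ℝ), 0 ≤ C ∧ ∀ x : W, ‖Phi (x : H) - L x‖ ≤ C * ‖(x : H)‖

/-- `Om` is singular: not trivial on any infinite-dimensional closed subspace. -/
def Singular (Om : H → H) : Prop :=
  ∀ W : Submodule ℝ H, IsClosed (W : Set H) → ¬ FiniteDimensional ℝ W → ¬ TrivialOn Om W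

/-- The pair `(T, U)` is compatible with `Om`: `Om U - T Om` is trivial on `H`. -/
def Compatible (Om : H → H) (T U : H →L[ℝ] H) : Prop :=
  TrivialOn (fun x => Om (U x) - T (Om x)) ⊤

variable (H) in
/-- There are a singular quasi-linear map and a compatible pair of bounded operators on `H` whose
difference is not compact. -/
def HasNonCompactPair : Prop :=
  ∃ (Om : H → H) (T U : H →L[ℝ] H),
    QuasiLinear Om ∧ Singular Om ∧ Compatible Om T U ∧ ¬ IsCompactOperator (T - U)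

end defs

theorem hasSum_sq (x : L2) : HasSum (fun n => (x n) ^ 2) (‖x‖ ^ 2) := by
  have := lp.hasSum_norm (p := 2) (by norm_num) x
  simpa using this

theorem memlp_of_sq (v : ℕ → ℝ) (h : Summable fun n => (v n) ^ 2) : Memℓp v 2 := by
  apply memℓp_gen
  simpa using h

/-- Functions dominated by elements of `ℓ₂`. -/
theorem domin (v : ℕ → ℝ) (x y : L2) (c : ℝ) (hc : 0 ≤ c)
    (h : ∀ n, |v n| ≤ c * (|x n| + |y n|)) :
    ∃ hv : Memℓp v 2, ‖(⟨v, hv⟩ : L2)‖ ≤ c * (‖x‖ + ‖y‖) := by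
  have hx : Summable fun n => (|x n|) ^ 2 := by simpa using (hasSum_sq x).summable
  have hy : Summable fun n => (|y n|) ^ 2 := by simpa using (hasSum_sq y).summable
  set ax : L2 := ⟨fun n => |x n|, memlp_of_sq _ hx⟩ with hax
  set ay : L2 := ⟨fun n => |y n|, memlp_of_sq _ hy⟩ with hay
  have hnx : ‖ax‖ = ‖x‖ := by
    have h1 := hasSum_sq ax
    have h2 : HasSum (fun n => (ax n) ^ 2) (‖x‖ ^ 2) := by
      have : ∀ n, (ax n) ^ 2 = (x n) ^ 2 := fun n => sq_abs (x n)
      simp_rw [this]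
      exact hasSum_sq x
    have h3 := h1.unique h2
    exact (pow_left_inj₀ (norm_nonneg _) (norm_nonneg _) two_ne_zero).1 h3
  have hny : ‖ay‖ = ‖y‖ := by
    have h1 := hasSum_sq ay
    have h2 : HasSum (fun n => (ay n) ^ 2) (‖y‖ ^ 2) := by
      have : ∀ n, (ay n) ^ 2 = (y n) ^ 2 := fun n => sq_abs (y n)
      simp_rw [this]
      exact hasSum_sq y
    have h3 := h1.unique h2
    exact (pow_left_inj₀ (norm_nonneg _) (norm_nonneg _) two_ne_zero).1 h3
  set z : L2 := c • (ax + ay) with hz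
  have hzn : ∀ n, z n = c * (|x n| + |y n|) := fun n => rfl
  have hzle : ‖z‖ ≤ c * (‖x‖ + ‖y‖) := by
    rw [hz, norm_smul, Real.norm_eq_abs, abs_of_nonneg hc, ← hnx, ← hny]
    gcongr
    exact norm_add_le _ _
  have hle : ∀ n, (v n) ^ 2 ≤ (z n) ^ 2 := by
    intro n
    rw [hzn, ← sq_abs (v n)]
    exact pow_le_pow_left₀ (abs_nonneg _) (h n) 2
  have hs : Summable fun n => (v n) ^ 2 :=
    Summable.of_nonneg_of_le (fun n => sq_nonneg _) hle (hasSum_sq z).summable
  refine ⟨memlp_of_sq v hs, le_trans ?_ hzle⟩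
  have h4 := hasSum_le hle (hasSum_sq (⟨v, memlp_of_sq v hs⟩ : L2)) (hasSum_sq z)
  exact (pow_le_pow_iff_left₀ (norm_nonneg _) (norm_nonneg _) two_ne_zero).1 h4

theorem mul_log_le (t : ℝ) (ht : |t| ≤ 2) : |t * Real.log t| ≤ 2 := by
  rw [abs_mul]
  rw [← Real.log_abs]
  rcases eq_or_ne t 0 with h0 | h0
  · simp [h0]
  have hpos : 0 < |t| := abs_pos.2 h0
  rcases le_or_gt |t| 1 with h1 | h1
  · have := Real.abs_log_mul_self_lt |t| hpos h1
    rw [abs_mul, abs_abs, mul_comm] at this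
    linarith
  · have h2 := Real.log_le_sub_one_of_pos hpos
    have h3 : 0 ≤ Real.log |t| := Real.log_nonneg h1.le
    rw [abs_of_nonneg h3]
    nlinarith

theorem mul_log_mul (a t : ℝ) (ha : a ≠ 0) :
    (a * t) * Real.log (a * t) = a * t * Real.log a + a * (t * Real.log t) := by
  rcases eq_or_ne t 0 with h0 | h0
  · simp [h0]
  · rw [Real.log_mul ha h0]
    ring

theorem delta_aux (a b : ℝ) (hab : |b| ≤ |a|) :
    |(a + b) * Real.log (a + b) - a * Real.log a - b * Real.log b| ≤ 4 * (|a| + |b|) := by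
  rcases eq_or_ne a 0 with h0 | h0
  · subst h0
    have : b = 0 := by simpa using hab
    subst this
    simp
  · set r := b / a with hr
    have hb : b = a * r := by rw [hr]; field_simp
    have hr1 : |r| ≤ 1 := by
      rw [hr, abs_div]
      exact div_le_one_of_le₀ hab (abs_nonneg _)
    have h1 : a + b = a * (1 + r) := by rw [hb]; ring
    rw [h1, mul_log_mul a _ h0]
    have h2 : b * Real.log b = a * r * Real.log a + a * (r * Real.log r) := by
      rw [hb, mul_log_mul a _ h0]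
    rw [h2]
    have h3 : a * (1 + r) * Real.log a + a * ((1 + r) * Real.log (1 + r)) - a * Real.log a -
        (a * r * Real.log a + a * (r * Real.log r)) =
        a * ((1 + r) * Real.log (1 + r) - r * Real.log r) := by ring
    rw [h3, abs_mul]
    have h4 := mul_log_le (1 + r) (by
      have := abs_add_le 1 r
      rw [abs_one] at this
      linarith)
    have h5 := mul_log_le r (by linarith)
    have h6 := abs_sub ((1 + r) * Real.log (1 + r)) (r * Real.log r)
    have h7 : |a| * |(1 + r) * Real.log (1 + r) - r * Real.log r| ≤ |a| * 4 := by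
      gcongr
      linarith
    have := abs_nonneg b
    linarith

theorem delta_le (a b : ℝ) :
    |(a + b) * Real.log (a + b) - a * Real.log a - b * Real.log b| ≤ 4 * (|a| + |b|) := by
  rcases le_total |b| |a| with h | h
  · exact delta_aux a b h
  · have := delta_aux b a h
    rw [add_comm b a, add_comm |b| |a|] at this
    have e : (a + b) * Real.log (a + b) - a * Real.log a - b * Real.log b =
        (a + b) * Real.log (a + b) - b * Real.log b - a * Real.log a := by ring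
    rw [e]
    exact this

/-- The Kalton-Peck function. -/
noncomputable def Kf (x : L2) : ℕ → ℝ := fun n => x n * (Real.log ‖x‖ - Real.log (x n))

theorem Kf_smul (c : ℝ) (x : L2) : Kf (c • x) = c • Kf x := by
  funext n
  unfold Kf
  simp only [Pi.smul_apply, smul_eq_mul, lp.coeFn_smul, norm_smul, Real.norm_eq_abs]
  rcases eq_or_ne c 0 with h0 | h0
  · simp [h0]
  rcases eq_or_ne (x n) 0 with h1 | h1
  · simp [h1]
  have hx : ‖x‖ ≠ 0 := by
    intro h
    rw [norm_eq_zero] at h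
    apply h1
    rw [h]
    rfl
  rw [Real.log_mul (abs_ne_zero.2 h0) hx, Real.log_mul h0 h1, Real.log_abs]
  ring

theorem quasi_aux (x y : L2) (hxy : ‖y‖ ≤ ‖x‖) (hy : y ≠ 0) :
    ∃ hv : Memℓp (Kf (x + y) - Kf x - Kf y) 2,
      ‖(⟨_, hv⟩ : L2)‖ ≤ 8 * (‖x‖ + ‖y‖) := by
  set v : ℕ → ℝ := fun n => (x n + y n) * Real.log (x n + y n) - x n * Real.log (x n) -
    y n * Real.log (y n) with hv
  obtain ⟨hmem, hnorm⟩ := domin v x y 4 (by norm_num) (fun n => delta_le (x n) (y n))
  set α : ℝ := Real.log ‖x + y‖ - Real.log ‖x‖ with hα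
  set β : ℝ := Real.log ‖x‖ - Real.log ‖y‖ with hβ
  set z : L2 := α • (x + y) + β • y - ⟨v, hmem⟩ with hz
  have hzn : (z : ℕ → ℝ) = Kf (x + y) - Kf x - Kf y := by
    funext n
    have h1 : z n = α * (x n + y n) + β * y n - v n := rfl
    rw [h1]
    simp only [Pi.sub_apply, Kf, lp.coeFn_add, Pi.add_apply, hv, hα, hβ]
    ring
  have hypos : 0 < ‖y‖ := norm_pos_iff.2 hy
  have hxpos : 0 < ‖x‖ := lt_of_lt_of_le hypos hxy
  have h1 : |α| * ‖x + y‖ ≤ 2 * ‖x‖ := by
    rcases eq_or_ne ‖x + y‖ 0 with h0 | h0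
    · rw [h0]
      simp
    · have h2 := mul_log_le (‖x + y‖ / ‖x‖) (by
        rw [abs_of_nonneg (by positivity), div_le_iff₀ hxpos]
        have := norm_add_le x y
        linarith)
      rw [Real.log_div h0 hxpos.ne', ← hα, abs_mul, abs_of_nonneg (by positivity)] at h2
      have h3 : |α| * ‖x + y‖ = ‖x‖ * (‖x + y‖ / ‖x‖ * |α|) := by field_simp
      rw [h3]
      nlinarith
  have h2 : |β| * ‖y‖ ≤ 2 * ‖x‖ := by
    have h2 := mul_log_le (‖y‖ / ‖x‖) (by
      rw [abs_of_nonneg (by positivity), div_le_iff₀ hxpos]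
      linarith)
    rw [Real.log_div hypos.ne' hxpos.ne', abs_mul, abs_of_nonneg (by positivity),
      abs_sub_comm, ← hβ] at h2
    have h3 : |β| * ‖y‖ = ‖x‖ * (‖y‖ / ‖x‖ * |β|) := by field_simp
    rw [h3]
    nlinarith
  refine ⟨hzn ▸ lp.memℓp z, ?_⟩
  have h3 : (⟨Kf (x + y) - Kf x - Kf y, hzn ▸ lp.memℓp z⟩ : L2) = z := by
    apply Subtype.ext
    exact hzn.symm
  rw [h3, hz]
  have h4 := norm_sub_le (α • (x + y) + β • y) (⟨v, hmem⟩ : L2)
  have h5 := norm_add_le (α • (x + y)) (β • y)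
  rw [norm_smul, norm_smul, Real.norm_eq_abs, Real.norm_eq_abs] at h5
  linarith

theorem quasi (x y : L2) : ∃ hv : Memℓp (Kf (x + y) - Kf x - Kf y) 2,
      ‖(⟨_, hv⟩ : L2)‖ ≤ 8 * (‖x‖ + ‖y‖) := by
  have hK0 : Kf 0 = 0 := by
    funext n
    unfold Kf
    simp
  have h0 : Memℓp (0 : ℕ → ℝ) 2 := zero_memℓp
  have key0 : ∀ v : ℕ → ℝ, v = 0 → ∀ c : ℝ, 0 ≤ c →
      ∃ hv : Memℓp v 2, ‖(⟨v, hv⟩ : L2)‖ ≤ c := by
    intro v hv c hc
    subst hv
    refine ⟨h0, ?_⟩
    have : (⟨(0 : ℕ → ℝ), h0⟩ : L2) = 0 := rfl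
    rw [this, norm_zero]
    exact hc
  rcases eq_or_ne x 0 with hx | hx
  · refine key0 _ ?_ _ (by positivity)
    rw [hx, zero_add, hK0]
    simp
  rcases eq_or_ne y 0 with hy | hy
  · refine key0 _ ?_ _ (by positivity)
    rw [hy, add_zero, hK0]
    simp
  rcases le_total ‖y‖ ‖x‖ with h | h
  · exact quasi_aux x y h hy
  · have h1 := quasi_aux y x h hx
    have e : Kf (x + y) - Kf x - Kf y = Kf (y + x) - Kf y - Kf x := by
      rw [add_comm x y]
      abel
    rw [e, add_comm ‖x‖ ‖y‖]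
    exact h1

/-- The space of square summable functions. -/
noncomputable def M2 : Submodule ℝ (ℕ → ℝ) where
  carrier := {v | Memℓp v 2}
  zero_mem' := zero_memℓp
  add_mem' := fun h1 h2 => h1.add h2
  smul_mem' := fun c _ h => h.const_smul c

theorem exists_lift : ∃ L : L2 →ₗ[ℝ] (ℕ → ℝ), ∀ x, Memℓp (Kf x - L x) 2 := by
  let P : L2 →ₗ[ℝ] ((ℕ → ℝ) ⧸ M2) :=
    { toFun := fun x => M2.mkQ (Kf x)
      map_add' := by
        intro x y
        rw [← map_add, Submodule.mkQ_apply, Submodule.mkQ_apply, Submodule.Quotient.eq]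
        obtain ⟨hv, -⟩ := quasi x y
        have e : Kf (x + y) - (Kf x + Kf y) = Kf (x + y) - Kf x - Kf y := by abel
        rw [e]
        exact hv
      map_smul' := by
        intro c x
        rw [Kf_smul, map_smul]
        rfl }
  obtain ⟨s, hs⟩ := M2.mkQ.exists_rightInverse_of_surjective
    (LinearMap.range_eq_top.2 (Submodule.mkQ_surjective M2))
  refine ⟨s ∘ₗ P, fun x => ?_⟩
  have h1 : M2.mkQ (s (P x)) = P x := LinearMap.congr_fun hs (P x)
  have h2 : M2.mkQ (Kf x) = M2.mkQ (s (P x)) := by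
    rw [h1]
    rfl
  rw [Submodule.mkQ_apply, Submodule.mkQ_apply, Submodule.Quotient.eq] at h2
  exact h2

/-- The linear correction. -/
noncomputable def Lc : L2 →ₗ[ℝ] (ℕ → ℝ) := exists_lift.choose

theorem Lc_spec (x : L2) : Memℓp (Kf x - Lc x) 2 := exists_lift.choose_spec x

/-- The Kalton-Peck map with values in `ℓ₂`. -/
noncomputable def Om0 (x : L2) : L2 := ⟨Kf x - Lc x, Lc_spec x⟩

theorem Om0_coe (x : L2) : (Om0 x : ℕ → ℝ) = Kf x - Lc x := rfl

theorem Om0_smul (c : ℝ) (x : L2) : Om0 (c • x) = c • Om0 x := by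
  apply Subtype.ext
  change (Om0 (c • x) : ℕ → ℝ) = ((c • Om0 x : L2) : ℕ → ℝ)
  rw [lp.coeFn_smul, Om0_coe, Om0_coe, Kf_smul, map_smul, smul_sub]

theorem Om0_quasi (x y : L2) : ‖Om0 (x + y) - Om0 x - Om0 y‖ ≤ 8 * (‖x‖ + ‖y‖) := by
  obtain ⟨hv, hn⟩ := quasi x y
  have e : Om0 (x + y) - Om0 x - Om0 y = (⟨_, hv⟩ : L2) := by
    apply Subtype.ext
    change ((Om0 (x + y) - Om0 x - Om0 y : L2) : ℕ → ℝ) = Kf (x + y) - Kf x - Kf y
    rw [lp.coeFn_sub, lp.coeFn_sub, Om0_coe, Om0_coe, Om0_coe, map_add]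
    abel
  rw [e]
  exact hn

/-- The behaviour on disjoint blocks. -/
theorem block (N : ℕ) (u : ℕ → L2) (ε : ℕ → ℝ) (hε : ∀ k, |ε k| = 1)
    (hu : ∀ k, ‖u k‖ = 1) (hdisj : ∀ j k n, j ≠ k → u j n = 0 ∨ u k n = 0) :
    ‖∑ k ∈ Finset.range N, ε k • u k‖ ^ 2 = N ∧
    Om0 (∑ k ∈ Finset.range N, ε k • u k) - ∑ k ∈ Finset.range N, ε k • Om0 (u k) =
      Real.log ‖∑ k ∈ Finset.range N, ε k • u k‖ • ∑ k ∈ Finset.range N, ε k • u k := by
  have hsum : ∀ n, (∑ k ∈ Finset.range N, ε k • u k : L2) n =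
      ∑ k ∈ Finset.range N, ε k * u k n := by
    intro n
    rw [lp.coeFn_sum, Finset.sum_apply]
    rfl
  constructor
  · have h1 := hasSum_sq (∑ k ∈ Finset.range N, ε k • u k)
    have h2 : HasSum (fun n => ((∑ k ∈ Finset.range N, ε k • u k : L2) n) ^ 2)
        (∑ k ∈ Finset.range N, (1 : ℝ)) := by
      have h3 : ∀ n, ((∑ k ∈ Finset.range N, ε k • u k : L2) n) ^ 2 =
          ∑ k ∈ Finset.range N, (u k n) ^ 2 := by
        intro n
        rw [hsum]
        by_cases hn : ∃ k ∈ Finset.range N, u k n ≠ 0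
        · obtain ⟨k, hk, hkn⟩ := hn
          have hz : ∀ j, j ≠ k → u j n = 0 := fun j hj => (hdisj j k n hj).resolve_right hkn
          rw [Finset.sum_eq_single_of_mem k hk (fun j _ hj => by rw [hz j hj, mul_zero]),
            Finset.sum_eq_single_of_mem k hk (fun j _ hj => by rw [hz j hj]; norm_num),
            mul_pow, ← sq_abs (ε k), hε]
          norm_num
        · push Not at hn
          rw [Finset.sum_eq_zero (fun k hk => by rw [hn k hk, mul_zero]),
            Finset.sum_eq_zero (fun k hk => by rw [hn k hk]; norm_num)]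
          norm_num
      simp_rw [h3]
      refine hasSum_sum fun k _ => ?_
      have := hasSum_sq (u k)
      rwa [hu k, one_pow] at this
    rw [h1.unique h2]
    simp
  · set x := ∑ k ∈ Finset.range N, ε k • u k with hx
    apply Subtype.ext
    change ((Om0 x - ∑ k ∈ Finset.range N, ε k • Om0 (u k) : L2) : ℕ → ℝ) =
      ((Real.log ‖x‖ • x : L2) : ℕ → ℝ)
    rw [lp.coeFn_sub, lp.coeFn_smul, Om0_coe, lp.coeFn_sum]
    have hL : Lc x = ∑ k ∈ Finset.range N, ε k • Lc (u k) := by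
      rw [hx, map_sum]
      exact Finset.sum_congr rfl fun k _ => by rw [map_smul]
    have h4 : (∑ k ∈ Finset.range N, ((ε k • Om0 (u k) : L2) : ℕ → ℝ)) =
        ∑ k ∈ Finset.range N, ε k • Kf (u k) - ∑ k ∈ Finset.range N, ε k • Lc (u k) := by
      rw [← Finset.sum_sub_distrib]
      refine Finset.sum_congr rfl fun k _ => ?_
      rw [lp.coeFn_smul, Om0_coe, smul_sub]
    rw [h4, hL]
    have h5 : Kf x - ∑ k ∈ Finset.range N, ε k • Lc (u k) -
        (∑ k ∈ Finset.range N, ε k • Kf (u k) - ∑ k ∈ Finset.range N, ε k • Lc (u k)) =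
        Kf x - ∑ k ∈ Finset.range N, ε k • Kf (u k) := by abel
    rw [h5]
    funext n
    rw [Pi.sub_apply, Finset.sum_apply, Pi.smul_apply, smul_eq_mul]
    simp only [Pi.smul_apply, smul_eq_mul, Kf]
    by_cases hn : ∃ k ∈ Finset.range N, u k n ≠ 0
    · obtain ⟨k, hk, hkn⟩ := hn
      have hz : ∀ j, j ≠ k → u j n = 0 := fun j hj => (hdisj j k n hj).resolve_right hkn
      have hxn : x n = ε k * u k n := by
        rw [hx, hsum, Finset.sum_eq_single_of_mem k hk (fun j _ hj => by rw [hz j hj, mul_zero])]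
      have h6 : ∑ j ∈ Finset.range N, ε j * (u j n * (Real.log ‖u j‖ - Real.log (u j n))) =
          ε k * (u k n * (Real.log ‖u k‖ - Real.log (u k n))) :=
        Finset.sum_eq_single_of_mem k hk (fun j _ hj => by rw [hz j hj]; ring)
      rw [h6, hxn, hu k, Real.log_one]
      have hεk : ε k ≠ 0 := by
        intro h
        have := hε k
        rw [h, abs_zero] at this
        norm_num at this
      rw [Real.log_mul hεk hkn, ← Real.log_abs (ε k), hε k, Real.log_one]
      ring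
    · push Not at hn
      have hxn : x n = 0 := by
        rw [hx, hsum, Finset.sum_eq_zero (fun k hk => by rw [hn k hk, mul_zero])]
      rw [hxn, Finset.sum_eq_zero (fun k hk => by rw [hn k hk]; ring)]
      ring

/-- Choice of signs. -/
theorem signs (V : ℕ → L2) (N : ℕ) : ∃ ε : ℕ → ℝ, (∀ k, |ε k| = 1) ∧
    ‖∑ k ∈ Finset.range N, ε k • V k‖ ^ 2 ≤ ∑ k ∈ Finset.range N, ‖V k‖ ^ 2 := by
  induction N with
  | zero => exact ⟨fun _ => 1, fun _ => by simp, by simp⟩
  | succ N ih =>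
    obtain ⟨ε, hε, h⟩ := ih
    obtain ⟨e, he, hle⟩ : ∃ e : ℝ, |e| = 1 ∧
        inner ℝ (∑ k ∈ Finset.range N, ε k • V k) (e • V N) ≤ (0 : ℝ) := by
      rcases le_total (inner ℝ (∑ k ∈ Finset.range N, ε k • V k) (V N)) (0 : ℝ) with h1 | h1
      · exact ⟨1, by simp, by rwa [one_smul]⟩
      · exact ⟨-1, by simp, by rw [neg_one_smul, inner_neg_right]; linarith⟩
    refine ⟨fun k => if k = N then e else ε k, fun k => ?_, ?_⟩
    · simp only
      split_ifs
      · exact he
      · exact hε k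
    · rw [Finset.sum_range_succ, Finset.sum_range_succ]
      have h2 : ∑ k ∈ Finset.range N, (if k = N then e else ε k) • V k =
          ∑ k ∈ Finset.range N, ε k • V k := by
        refine Finset.sum_congr rfl fun k hk => ?_
        rw [if_neg (Finset.mem_range.1 hk).ne]
      rw [h2, show (fun k => if k = N then e else ε k) N = e from if_pos rfl]
      have h3 := norm_add_sq_real (∑ k ∈ Finset.range N, ε k • V k) (e • V N)
      rw [h3, norm_smul, Real.norm_eq_abs, he, one_mul]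
      linarith

/-- Iterated quasi-linearity. -/
theorem iter (d : ℕ → L2) (η : ℝ) (hη : 0 ≤ η) (hd : ∀ k, ‖d k‖ ≤ η) (N : ℕ) :
    ‖Om0 (∑ k ∈ Finset.range N, d k) - ∑ k ∈ Finset.range N, Om0 (d k)‖ ≤ 8 * η * N ^ 2 := by
  induction N with
  | zero =>
    simp only [Finset.range_zero, Finset.sum_empty, sub_zero]
    have : Om0 (0 : L2) = 0 := by
      have := Om0_smul 0 (0 : L2)
      simpa using this
    rw [this]
    simp
  | succ N ih =>
    rw [Finset.sum_range_succ, Finset.sum_range_succ]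
    set s := ∑ k ∈ Finset.range N, d k with hs
    have h1 := Om0_quasi s (d N)
    have h2 : ‖s‖ ≤ N * η := by
      refine (norm_sum_le _ _).trans ?_
      refine (Finset.sum_le_card_nsmul _ _ η fun k _ => hd k).trans ?_
      simp
    have e : Om0 (s + d N) - (∑ k ∈ Finset.range N, Om0 (d k) + Om0 (d N)) =
        (Om0 (s + d N) - Om0 s - Om0 (d N)) + (Om0 s - ∑ k ∈ Finset.range N, Om0 (d k)) := by
      abel
    rw [e]
    refine (norm_add_le _ _).trans ?_
    have h3 := hd N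
    push_cast
    nlinarith [norm_nonneg s, norm_nonneg (d N)]

/-- Gliding hump. -/
theorem hump (W : Submodule ℝ L2) (hW : ¬ FiniteDimensional ℝ W) (η : ℝ) (hη : 0 < η) (n : ℕ) :
    ∃ (w u : L2) (m : ℕ), w ∈ W ∧ ‖u‖ = 1 ∧ ‖w - u‖ ≤ η ∧ (∀ i < n, u i = 0) ∧
      ∀ i ≥ m, u i = 0 := by
  let f : W →ₗ[ℝ] (Fin n → ℝ) :=
    { toFun := fun w i => (w : L2) i
      map_add' := fun _ _ => rfl
      map_smul' := fun _ _ => rfl }
  have hf : ¬ Function.Injective f := by
    intro h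
    exact hW (FiniteDimensional.of_injective f h)
  rw [← LinearMap.ker_eq_bot, Submodule.eq_bot_iff] at hf
  push Not at hf
  obtain ⟨⟨w, hw⟩, hwk, hw0⟩ := hf
  have hwi : ∀ i < n, w i = 0 := by
    intro i hi
    have h1 := LinearMap.mem_ker.1 hwk
    exact congrFun h1 ⟨i, hi⟩
  have hwne : w ≠ 0 := by
    intro h
    apply hw0
    exact Subtype.ext h
  have hpos : 0 < ‖w‖ := norm_pos_iff.2 hwne
  have hlim := (lp.hasSum_single (p := 2) (by norm_num) w).tendsto_sum_nat
  have h1 : Tendsto (fun m => ‖w - ∑ i ∈ Finset.range m, lp.single 2 i (w i)‖) atTop (𝓝 0) := by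
    have := (hlim.const_sub w).norm
    simpa using this
  have h2 : Tendsto (fun m => η * ‖(∑ i ∈ Finset.range m, lp.single 2 i (w i) : L2)‖) atTop
      (𝓝 (η * ‖w‖)) := hlim.norm.const_mul η
  have h3 : ∀ᶠ m in atTop, ‖w - ∑ i ∈ Finset.range m, lp.single 2 i (w i)‖ <
      η * ‖(∑ i ∈ Finset.range m, lp.single 2 i (w i) : L2)‖ :=
    h1.eventually_lt h2 (by positivity)
  obtain ⟨m, hm⟩ := h3.exists
  set u' : L2 := ∑ i ∈ Finset.range m, lp.single 2 i (w i) with hu'
  have hu'n : ∀ i, u' i = if i < m then w i else 0 := by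
    intro i
    rw [hu', lp.coeFn_sum, Finset.sum_apply]
    have : ∀ j, (lp.single 2 j (w j) : L2) i = if i = j then w j else 0 := by
      intro j
      by_cases h : i = j
      · subst h
        rw [lp.single_apply_self, if_pos rfl]
      · rw [lp.single_apply_ne _ _ _ h, if_neg h]
    simp_rw [this]
    rw [Finset.sum_ite_eq]
    simp
  have hu'pos : 0 < ‖u'‖ := by
    by_contra h
    have h0 : ‖u'‖ = 0 := le_antisymm (not_lt.1 h) (norm_nonneg _)
    rw [h0, mul_zero] at hm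
    exact absurd hm (not_lt.2 (norm_nonneg _))
  refine ⟨‖u'‖⁻¹ • w, ‖u'‖⁻¹ • u', m, W.smul_mem _ hw, ?_, ?_, ?_, ?_⟩
  · rw [norm_smul, norm_inv, norm_norm, inv_mul_cancel₀ hu'pos.ne']
  · rw [← smul_sub, norm_smul, norm_inv, norm_norm, inv_mul_le_iff₀ hu'pos, mul_comm]
    exact hm.le
  · intro i hi
    rw [lp.coeFn_smul, Pi.smul_apply, hu'n, hwi i hi]
    simp
  · intro i hi
    rw [lp.coeFn_smul, Pi.smul_apply, hu'n, if_neg (not_lt.2 hi)]
    simp

/-- Sequences of humps. -/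
theorem humps (W : Submodule ℝ L2) (hW : ¬ FiniteDimensional ℝ W) (η : ℝ) (hη : 0 < η) :
    ∃ w u : ℕ → L2, (∀ k, w k ∈ W) ∧ (∀ k, ‖u k‖ = 1) ∧ (∀ k, ‖w k - u k‖ ≤ η) ∧
      ∀ j k n, j ≠ k → u j n = 0 ∨ u k n = 0 := by
  choose w u m h1 h2 h3 h4 h5 using hump W hW η hη
  let a : ℕ → ℕ := fun k => Nat.rec (motive := fun _ => ℕ) 0 (fun _ n => max n (m n)) k
  have ha : ∀ k, a (k + 1) = max (a k) (m (a k)) := fun k => rfl
  have hamono : Monotone a := monotone_nat_of_le_succ fun k => by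
    rw [ha]
    exact le_max_left _ _
  refine ⟨fun k => w (a k), fun k => u (a k), fun k => h1 _, fun k => h2 _, fun k => h3 _, ?_⟩
  have key : ∀ j k n : ℕ, j < k → u (a j) n = 0 ∨ u (a k) n = 0 := by
    intro j k n hjk
    rcases Nat.lt_or_ge n (a k) with hn | hn
    · exact Or.inr (h4 _ n hn)
    · left
      refine h5 _ n ?_
      have h6 : a (j + 1) ≤ a k := hamono hjk
      have h7 : m (a j) ≤ a (j + 1) := by
        rw [ha]
        exact le_max_right _ _
      exact h7.trans (h6.trans hn)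
  intro j k n hjk
  rcases lt_or_gt_of_ne hjk with h | h
  · exact key j k n h
  · exact (key k j n h).symm

theorem Om0_zero : Om0 (0 : L2) = 0 := by
  have := Om0_smul 0 (0 : L2)
  simpa using this

theorem Om0_neg (x : L2) : Om0 (-x) = -Om0 x := by
  have := Om0_smul (-1) x
  simpa using this

/-- The map `Om0` is singular. -/
theorem singular_Om0 : Singular Om0 := by
  intro W _ hW htriv
  obtain ⟨L, C, hC, hL⟩ := htriv
  -- choose N large
  obtain ⟨N, hN⟩ := exists_nat_gt (Real.exp (2 * (4 * C + 60)))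
  have hNpos : (0 : ℝ) < N := lt_trans (Real.exp_pos _) hN
  have hN1 : (1 : ℝ) ≤ N := by
    have : (0 : ℕ) < N := by exact_mod_cast hNpos
    exact_mod_cast this
  have hlog : 2 * (4 * C + 60) < Real.log N := by
    rw [Real.lt_log_iff_exp_lt hNpos]
    exact hN
  set η : ℝ := 1 / (N : ℝ) ^ 2 with hη
  have hηpos : 0 < η := by positivity
  have hη1 : η ≤ 1 := by
    rw [hη, div_le_one (by positivity)]
    nlinarith
  obtain ⟨w, u, hw, hu, hwu, hdisj⟩ := humps W hW η hηpos
  have hwn : ∀ k, ‖w k‖ ≤ 2 := by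
    intro k
    have h1 : w k = (w k - u k) + u k := by abel
    rw [h1]
    refine (norm_add_le _ _).trans ?_
    rw [hu k]
    have := hwu k
    linarith
  -- the fixed vectors
  set B : ℕ → L2 := fun k => Om0 (w k) - L ⟨w k, hw k⟩ with hB
  set R : ℕ → L2 := fun k => Om0 (u k) - Om0 (w k) - Om0 (u k - w k) with hR
  have hBn : ∀ k, ‖B k‖ ≤ 2 * C := by
    intro k
    have := hL ⟨w k, hw k⟩
    simp only at this
    refine this.trans ?_
    have := hwn k
    nlinarith
  have hRn : ∀ k, ‖R k‖ ≤ 24 := by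
    intro k
    have h1 := Om0_quasi (w k) (u k - w k)
    have h2 : w k + (u k - w k) = u k := by abel
    rw [h2] at h1
    refine h1.trans ?_
    have h3 := hwn k
    have h4 := hwu k
    rw [norm_sub_rev] at h4
    linarith
  obtain ⟨ε, hε, hsg⟩ := signs (fun k => B k + R k) N
  have hV : ‖∑ k ∈ Finset.range N, ε k • (B k + R k)‖ ≤ Real.sqrt N * (2 * C + 24) := by
    refine abs_le_of_sq_le_sq' (hsg.trans ?_) (by positivity) |>.2
    rw [mul_pow, Real.sq_sqrt hNpos.le]
    refine (Finset.sum_le_card_nsmul _ _ ((2 * C + 24) ^ 2) fun k _ => ?_).trans ?_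
    · have := (norm_add_le (B k) (R k)).trans (add_le_add (hBn k) (hRn k))
      gcongr
    · simp
  obtain ⟨hb1, hb2⟩ := block N u ε hε hu hdisj
  set X := ∑ k ∈ Finset.range N, ε k • u k with hX
  set Y := ∑ k ∈ Finset.range N, ε k • w k with hY
  set D := ∑ k ∈ Finset.range N, ε k • (u k - w k) with hD
  have hXn : ‖X‖ = Real.sqrt N := by
    rw [← hb1, Real.sqrt_sq (norm_nonneg _)]
  have hXY : X = Y + D := by
    rw [hX, hY, hD, ← Finset.sum_add_distrib]
    refine Finset.sum_congr rfl fun k _ => ?_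
    rw [← smul_add]
    congr 1
    abel
  have hdk : ∀ k, ‖ε k • (u k - w k)‖ ≤ η := by
    intro k
    rw [norm_smul, Real.norm_eq_abs, hε, one_mul, norm_sub_rev]
    exact hwu k
  have hDn : ‖D‖ ≤ 1 := by
    refine (norm_sum_le _ _).trans ?_
    refine (Finset.sum_le_card_nsmul _ _ η fun k _ => hdk k).trans ?_
    rw [Finset.card_range, nsmul_eq_mul, hη]
    rw [mul_one_div, div_le_one (by positivity)]
    nlinarith
  have hsqrt1 : 1 ≤ Real.sqrt N := by
    rw [Real.one_le_sqrt]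
    exact hN1
  have hYn : ‖Y‖ ≤ 2 * Real.sqrt N := by
    have h1 : Y = X - D := by rw [hXY]; abel
    rw [h1]
    refine (norm_sub_le _ _).trans ?_
    rw [hXn]
    linarith
  have hYW : Y ∈ W := W.sum_mem fun k _ => W.smul_mem _ (hw k)
  have hLY : L ⟨Y, hYW⟩ = ∑ k ∈ Finset.range N, ε k • L ⟨w k, hw k⟩ := by
    have h1 : (⟨Y, hYW⟩ : W) = ∑ k ∈ Finset.range N, ε k • (⟨w k, hw k⟩ : W) := by
      apply Subtype.ext
      simp [hY]
    rw [h1, map_sum]
    exact Finset.sum_congr rfl fun k _ => by rw [map_smul]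
  have hiter := iter (fun k => ε k • (u k - w k)) η hηpos.le hdk N
  have h8 : 8 * η * (N : ℝ) ^ 2 = 8 := by
    rw [hη]
    field_simp
  rw [h8] at hiter
  have hq := Om0_quasi Y D
  rw [← hXY] at hq
  have hkey : Real.log ‖X‖ • X =
      (Om0 X - Om0 Y - Om0 D) + (Om0 Y - L ⟨Y, hYW⟩) +
        (Om0 D - ∑ k ∈ Finset.range N, Om0 (ε k • (u k - w k))) -
          ∑ k ∈ Finset.range N, ε k • (B k + R k) := by
    rw [← hb2, hLY]
    have h9 : ∑ k ∈ Finset.range N, ε k • (B k + R k) =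
        ∑ k ∈ Finset.range N, ε k • Om0 (u k) - ∑ k ∈ Finset.range N, ε k • L ⟨w k, hw k⟩ -
          ∑ k ∈ Finset.range N, Om0 (ε k • (u k - w k)) := by
      rw [← Finset.sum_sub_distrib, ← Finset.sum_sub_distrib]
      refine Finset.sum_congr rfl fun k _ => ?_
      rw [Om0_smul, ← smul_sub, ← smul_sub]
      congr 1
      simp only [hB, hR]
      abel
    rw [h9]
    abel
  have hLYn := hL ⟨Y, hYW⟩
  simp only at hLYn
  have hfin : ‖Real.log ‖X‖ • X‖ ≤ 8 * (‖Y‖ + ‖D‖) + C * ‖Y‖ + 8 +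
      Real.sqrt N * (2 * C + 24) := by
    rw [hkey]
    refine (norm_sub_le _ _).trans ?_
    refine add_le_add ((norm_add_le _ _).trans (add_le_add
      ((norm_add_le _ _).trans (add_le_add hq hLYn)) hiter)) hV
  have hlogX : Real.log ‖X‖ = Real.log N / 2 := by
    rw [hXn, Real.log_sqrt hNpos.le]
  rw [norm_smul, hlogX, Real.norm_eq_abs, hXn] at hfin
  have h10 : Real.log N / 2 ≤ |Real.log N / 2| := le_abs_self _
  have h11 : (4 * C + 60) * Real.sqrt N < 8 * (‖Y‖ + ‖D‖) + C * ‖Y‖ + 8 +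
      Real.sqrt N * (2 * C + 24) := by
    refine lt_of_lt_of_le ?_ hfin
    have h12 : 0 < Real.sqrt N := by linarith
    have h13 : 4 * C + 60 < |Real.log N / 2| := by linarith
    exact mul_lt_mul_of_pos_right h13 h12
  have h14 : C * ‖Y‖ ≤ C * (2 * Real.sqrt N) := mul_le_mul_of_nonneg_left hYn hC
  nlinarith [hsqrt1, hYn, hDn, h14, h11]

end Pool.Agent.Q203.KaltonPeck
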