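import Mathlib

/-!
The second numerical index: general facts and the space `ℓ₁(Γ, ℂ)` (as a real space).
-/

open scoped ComplexConjugate

namespace Pool.Agent.Q203.NumIndex

section general

variable (X : Type) [NormedAddCommGroup X] [NormedSpace ℝ X]

/-- The set `Π(X)` of pairs `(x, x*)` of norm one with `x*(x) = 1`. -/
def PiSet : Set (X × StrongDual ℝ X) := {p | ‖p.1‖ = 1 ∧ ‖p.2‖ = 1 ∧ p.2 p.1 = 1}

variable {X}

/-- The numerical radius. -/
noncomputable def numRad (T : X →L[ℝ] X) : ℝ :=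
  sSup {r | ∃ p ∈ PiSet X, r = |p.2 (T p.1)|}

/-- The norm of `T` modulo the space of operators with numerical radius zero. -/
noncomputable def quotNorm (T : X →L[ℝ] X) : ℝ :=
  sInf {r | ∃ S : X →L[ℝ] X, numRad S = 0 ∧ r = ‖T - S‖}

variable (X) in
/-- The second numerical index. -/
noncomputable def secondIndex : ℝ :=
  sInf {r | ∃ T : X →L[ℝ] X, numRad T ≠ 0 ∧ r = numRad T / quotNorm T}

theorem le_norm_of_mem (T : X →L[ℝ] X) {p : X × StrongDual ℝ X} (hp : p ∈ PiSet X) :
    |p.2 (T p.1)| ≤ ‖T‖ := by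
  have h1 := p.2.le_opNorm (T p.1)
  have h2 := T.le_opNorm p.1
  rw [hp.2.1, one_mul] at h1
  rw [hp.1, mul_one] at h2
  exact h1.trans h2

theorem bdd (T : X →L[ℝ] X) : BddAbove {r | ∃ p ∈ PiSet X, r = |p.2 (T p.1)|} := by
  refine ⟨‖T‖, ?_⟩
  rintro r ⟨p, hp, rfl⟩
  exact le_norm_of_mem T hp

theorem le_numRad (T : X →L[ℝ] X) {p : X × StrongDual ℝ X} (hp : p ∈ PiSet X) :
    |p.2 (T p.1)| ≤ numRad T := le_csSup (bdd T) ⟨p, hp, rfl⟩

theorem numRad_nonneg (T : X →L[ℝ] X) : 0 ≤ numRad T := by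
  refine Real.sSup_nonneg ?_
  rintro r ⟨p, hp, rfl⟩
  exact abs_nonneg _

theorem numRad_le (T : X →L[ℝ] X) {C : ℝ} (hC : 0 ≤ C)
    (h : ∀ p ∈ PiSet X, |p.2 (T p.1)| ≤ C) : numRad T ≤ C := by
  refine Real.sSup_le ?_ hC
  rintro r ⟨p, hp, rfl⟩
  exact h p hp

theorem numRad_zero : numRad (0 : X →L[ℝ] X) = 0 := by
  refine le_antisymm (numRad_le _ le_rfl ?_) (numRad_nonneg _)
  intro p _
  simp

theorem numRad_le_add (T S : X →L[ℝ] X) : numRad T ≤ numRad S + ‖T - S‖ := by
  refine numRad_le _ (add_nonneg (numRad_nonneg _) (norm_nonneg _)) fun p hp => ?_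
  have h1 := le_numRad S hp
  have h2 := le_norm_of_mem (T - S) hp
  have h3 : p.2 (T p.1) = p.2 (S p.1) + p.2 ((T - S) p.1) := by
    rw [← map_add]
    simp
  rw [h3]
  exact (abs_add_le _ _).trans (add_le_add h1 h2)

theorem numRad_le_quotNorm (T : X →L[ℝ] X) : numRad T ≤ quotNorm T := by
  refine le_csInf ⟨‖T - 0‖, 0, numRad_zero, rfl⟩ ?_
  rintro r ⟨S, hS, rfl⟩
  have := numRad_le_add T S
  rwa [hS, zero_add] at this

theorem quotNorm_le (T S : X →L[ℝ] X) (hS : numRad S = 0) : quotNorm T ≤ ‖T - S‖ := by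
  refine csInf_le ⟨0, ?_⟩ ⟨S, hS, rfl⟩
  rintro r ⟨S', _, rfl⟩
  exact norm_nonneg _

theorem le_quotNorm (T : X →L[ℝ] X) {c : ℝ} (h : ∀ S : X →L[ℝ] X, numRad S = 0 → c ≤ ‖T - S‖) :
    c ≤ quotNorm T := by
  refine le_csInf ⟨‖T - 0‖, 0, numRad_zero, rfl⟩ ?_
  rintro r ⟨S, hS, rfl⟩
  exact h S hS

theorem secondIndex_le (T : X →L[ℝ] X) (h : numRad T ≠ 0) :
    secondIndex X ≤ numRad T / quotNorm T := by
  refine csInf_le ⟨0, ?_⟩ ⟨T, h, rfl⟩
  rintro r ⟨S, _, rfl⟩
  exact div_nonneg (numRad_nonneg _) ((numRad_nonneg _).trans (numRad_le_quotNorm _))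

/-- The approximation property with constant `C`. -/
def Approx (X : Type) [NormedAddCommGroup X] [NormedSpace ℝ X] (C : ℝ) : Prop :=
  ∀ T : X →L[ℝ] X, ∃ S : X →L[ℝ] X, numRad S = 0 ∧ ‖T - S‖ ≤ C * numRad T

theorem secondIndex_ge {C : ℝ} (hC : 0 < C) (h : Approx X C)
    (hne : ∃ T : X →L[ℝ] X, numRad T ≠ 0) : 1 / C ≤ secondIndex X := by
  obtain ⟨T₀, hT₀⟩ := hne
  refine le_csInf ⟨_, T₀, hT₀, rfl⟩ ?_
  rintro r ⟨T, hT, rfl⟩
  have hpos : 0 < numRad T := lt_of_le_of_ne (numRad_nonneg _) (Ne.symm hT)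
  have hq : 0 < quotNorm T := hpos.trans_le (numRad_le_quotNorm T)
  obtain ⟨S, hS, hTS⟩ := h T
  have h1 := (quotNorm_le T S hS).trans hTS
  rw [div_le_div_iff₀ hC hq]
  linarith

/-- Transport of operators by an isometry. -/
noncomputable def tr {Y : Type} [NormedAddCommGroup Y] [NormedSpace ℝ Y] (e : X ≃ₗᵢ[ℝ] Y)
    (T : X →L[ℝ] X) : Y →L[ℝ] Y :=
  (e.toContinuousLinearEquiv : X →L[ℝ] Y).comp
    (T.comp (e.symm.toContinuousLinearEquiv : Y →L[ℝ] X))

theorem tr_apply {Y : Type} [NormedAddCommGroup Y] [NormedSpace ℝ Y] (e : X ≃ₗᵢ[ℝ] Y)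
    (T : X →L[ℝ] X) (y : Y) : tr e T y = e (T (e.symm y)) := rfl

theorem numRad_tr_le {Y : Type} [NormedAddCommGroup Y] [NormedSpace ℝ Y] (e : X ≃ₗᵢ[ℝ] Y)
    (T : X →L[ℝ] X) : numRad (tr e T) ≤ numRad T := by
  refine numRad_le _ (numRad_nonneg _) ?_
  rintro ⟨y, f⟩ ⟨h1, h2, h3⟩
  simp only at h1 h2 h3
  have hp : ((e.symm y, f.comp (e.toContinuousLinearEquiv : X →L[ℝ] Y)) :
      X × StrongDual ℝ X) ∈ PiSet X := by
    have h4 : (f.comp (e.toContinuousLinearEquiv : X →L[ℝ] Y)) (e.symm y) = 1 := by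
      change f (e (e.symm y)) = 1
      rw [e.apply_symm_apply, h3]
    refine ⟨by rw [e.symm.norm_map, h1], le_antisymm ?_ ?_, h4⟩
    · refine ContinuousLinearMap.opNorm_le_bound _ zero_le_one fun x => ?_
      change ‖f (e x)‖ ≤ 1 * ‖x‖
      have := f.le_opNorm (e x)
      rwa [h2, e.norm_map] at this
    · have h5 := (f.comp (e.toContinuousLinearEquiv : X →L[ℝ] Y)).le_opNorm (e.symm y)
      rw [h4, e.symm.norm_map, h1] at h5
      simpa using h5
  exact le_numRad T hp

theorem norm_tr_le {Y : Type} [NormedAddCommGroup Y] [NormedSpace ℝ Y] (e : X ≃ₗᵢ[ℝ] Y)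
    (T : X →L[ℝ] X) : ‖tr e T‖ ≤ ‖T‖ := by
  refine ContinuousLinearMap.opNorm_le_bound _ (norm_nonneg _) fun y => ?_
  rw [tr_apply, e.norm_map]
  have := T.le_opNorm (e.symm y)
  rwa [e.symm.norm_map] at this

theorem Approx.transport {Y : Type} [NormedAddCommGroup Y] [NormedSpace ℝ Y] (e : X ≃ₗᵢ[ℝ] Y)
    {C : ℝ} (hC : 0 ≤ C) (h : Approx X C) : Approx Y C := by
  intro T
  obtain ⟨S, hS, hTS⟩ := h (tr e.symm T)
  refine ⟨tr e S, ?_, ?_⟩
  · exact le_antisymm ((numRad_tr_le e S).trans hS.le) (numRad_nonneg _)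
  · have h1 : T - tr e S = tr e (tr e.symm T - S) := by
      ext y
      rw [sub_apply, tr_apply, tr_apply, sub_apply,
        map_sub, tr_apply]
      simp
    rw [h1]
    refine (norm_tr_le e _).trans (hTS.trans ?_)
    gcongr
    exact numRad_tr_le e.symm T

end general

section lone

variable {Γ : Type} [DecidableEq Γ]

/-- `ℓ₁(Γ, ℂ)`. -/
noncomputable abbrev L1 (Γ : Type) := lp (fun _ : Γ => ℂ) 1

theorem hasSum_norm (y : L1 Γ) : HasSum (fun q => ‖y q‖) ‖y‖ := by
  have := lp.hasSum_norm (p := 1) (by norm_num) y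
  simpa using this

theorem summable_pair (w : Γ → ℂ) (hw : ∀ q, ‖w q‖ ≤ 1) (y : L1 Γ) :
    Summable fun q => (conj (w q) * y q).re := by
  refine Summable.of_norm_bounded (hasSum_norm y).summable fun q => ?_
  refine (Complex.abs_re_le_norm _).trans ?_
  rw [norm_mul, RCLike.norm_conj]
  exact mul_le_of_le_one_left (norm_nonneg _) (hw q)

/-- The functional on `ℓ₁` given by a bounded function. -/
noncomputable def fnl (w : Γ → ℂ) (hw : ∀ q, ‖w q‖ ≤ 1) : StrongDual ℝ (L1 Γ) :=
  LinearMap.mkContinuous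
    { toFun := fun y => ∑' q, (conj (w q) * y q).re
      map_add' := by
        intro x y
        rw [← (summable_pair w hw x).tsum_add (summable_pair w hw y)]
        congr 1
        funext q
        simp only [lp.coeFn_add, Pi.add_apply, mul_add, Complex.add_re]
      map_smul' := by
        intro c x
        simp only [RingHom.id_apply, smul_eq_mul]
        rw [← tsum_mul_left]
        congr 1
        funext q
        simp only [lp.coeFn_smul, Pi.smul_apply, Complex.real_smul]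
        rw [mul_left_comm, Complex.re_ofReal_mul] }
    1 (by
      intro y
      simp only [LinearMap.coe_mk, AddHom.coe_mk, one_mul]
      rw [← (hasSum_norm y).tsum_eq]
      refine (norm_tsum_le_tsum_norm (summable_pair w hw y).norm).trans ?_
      refine (summable_pair w hw y).norm.tsum_le_tsum (fun q => ?_) (hasSum_norm y).summable
      refine (Complex.abs_re_le_norm _).trans ?_
      rw [norm_mul, RCLike.norm_conj]
      exact mul_le_of_le_one_left (norm_nonneg _) (hw q))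

theorem fnl_apply (w : Γ → ℂ) (hw : ∀ q, ‖w q‖ ≤ 1) (y : L1 Γ) :
    fnl w hw y = ∑' q, (conj (w q) * y q).re := rfl

theorem fnl_norm (w : Γ → ℂ) (hw : ∀ q, ‖w q‖ ≤ 1) : ‖fnl w hw‖ ≤ 1 :=
  LinearMap.mkContinuous_norm_le _ zero_le_one _

/-- Unimodular sign. -/
noncomputable def sgn (z : ℂ) : ℂ := if z = 0 then 0 else z / (‖z‖ : ℂ)

theorem sgn_norm (z : ℂ) : ‖sgn z‖ ≤ 1 := by
  unfold sgn
  split_ifs with h
  · simp
  · rw [norm_div, Complex.norm_real, norm_norm, div_self (norm_ne_zero_iff.2 h)]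

theorem sgn_mul (z : ℂ) : (conj (sgn z) * z) = (‖z‖ : ℂ) := by
  unfold sgn
  split_ifs with h
  · simp [h]
  · have h1 : (‖z‖ : ℂ) ≠ 0 := by
      rw [Complex.ofReal_ne_zero]
      exact norm_ne_zero_iff.2 h
    rw [map_div₀, Complex.conj_ofReal, div_mul_eq_mul_div, ← Complex.normSq_eq_conj_mul_self,
      Complex.normSq_eq_norm_sq]
    push_cast
    field_simp

theorem numRad_ge (T : L1 Γ →L[ℝ] L1 Γ) (p : Γ) (z : ℂ) (hz : ‖z‖ = 1) :
    |(conj z * (T (lp.single 1 p z)) p).re| +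
      (‖T (lp.single 1 p z)‖ - ‖(T (lp.single 1 p z)) p‖) ≤ numRad T := by
  set y := T (lp.single 1 p z) with hy
  obtain ⟨ε, hε, hε2⟩ : ∃ ε : ℝ, |ε| = 1 ∧
      (conj z * y p).re = ε * |(conj z * y p).re| := by
    rcases le_total 0 (conj z * y p).re with h | h
    · exact ⟨1, by simp, by rw [abs_of_nonneg h, one_mul]⟩
    · exact ⟨-1, by simp, by rw [abs_of_nonpos h]; ring⟩
  set w : Γ → ℂ := fun q => if q = p then z else (ε : ℂ) * sgn (y q) with hw
  have hw1 : ∀ q, ‖w q‖ ≤ 1 := by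
    intro q
    simp only [hw]
    split_ifs with h
    · exact hz.le
    · rw [norm_mul, Complex.norm_real, Real.norm_eq_abs, hε, one_mul]
      exact sgn_norm _
  have hpq : ∀ q, (conj (w q) * (lp.single 1 p z : L1 Γ) q).re = if q = p then 1 else 0 := by
    intro q
    by_cases h : q = p
    · subst h
      rw [lp.single_apply_self]
      simp only [hw, if_true]
      rw [← Complex.normSq_eq_conj_mul_self, Complex.normSq_eq_norm_sq, hz]
      simp
    · rw [lp.single_apply_ne _ _ _ h]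
      simp [h]
  have h1 : fnl w hw1 (lp.single 1 p z) = 1 := by
    rw [fnl_apply]
    simp_rw [hpq]
    exact tsum_ite_eq p (fun _ => (1 : ℝ))
  have hn : ‖(lp.single 1 p z : L1 Γ)‖ = 1 := by
    rw [lp.norm_single (by norm_num), hz]
  have hmem : ((lp.single 1 p z, fnl w hw1) : L1 Γ × StrongDual ℝ (L1 Γ)) ∈ PiSet (L1 Γ) := by
    refine ⟨hn, le_antisymm (fnl_norm w hw1) ?_, h1⟩
    have h5 := (fnl w hw1).le_opNorm (lp.single 1 p z)
    rw [h1, hn] at h5
    simpa using h5
  have h2 := le_numRad T hmem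
  simp only at h2
  rw [← hy, fnl_apply] at h2
  have h3 : ∀ q, (conj (w q) * y q).re = ε * ‖y q‖ +
      if q = p then ((conj z * y p).re - ε * ‖y p‖) else 0 := by
    intro q
    by_cases h : q = p
    · subst h
      simp [hw]
    · simp only [hw, h, if_false, add_zero]
      rw [map_mul, Complex.conj_ofReal, mul_assoc, sgn_mul, ← Complex.ofReal_mul,
        Complex.ofReal_re]
  have h4 : HasSum (fun q => (conj (w q) * y q).re)
      (ε * ‖y‖ + ((conj z * y p).re - ε * ‖y p‖)) := by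
    simp_rw [h3]
    exact ((hasSum_norm y).mul_left ε).add
      (hasSum_ite_eq p ((conj z * y p).re - ε * ‖y p‖))
  rw [h4.tsum_eq, hε2] at h2
  have h6 : ε * ‖y‖ + (ε * |(conj z * y p).re| - ε * ‖y p‖) =
      ε * (|(conj z * y p).re| + (‖y‖ - ‖y p‖)) := by ring
  rw [h6, abs_mul, hε, one_mul] at h2
  exact (le_abs_self _).trans h2

/-- Diagonal operators with purely imaginary multipliers. -/
theorem diag_mem (γ : Γ → ℝ) (M : ℝ) (hγ : ∀ q, |γ q| ≤ M) (y : L1 Γ) :
    Memℓp (fun q => (Complex.I * γ q) * y q) 1 := by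
  apply memℓp_gen
  simp only [ENNReal.toReal_one, Real.rpow_one]
  refine Summable.of_nonneg_of_le (fun q => norm_nonneg _) (fun q => ?_)
    ((hasSum_norm y).summable.mul_left M)
  rw [norm_mul, norm_mul, Complex.norm_I, one_mul, Complex.norm_real, Real.norm_eq_abs]
  exact mul_le_mul_of_nonneg_right (hγ q) (norm_nonneg _)

/-- The diagonal operator. -/
noncomputable def diag (γ : Γ → ℝ) (M : ℝ) (hM : 0 ≤ M) (hγ : ∀ q, |γ q| ≤ M) :
    L1 Γ →L[ℝ] L1 Γ :=
  LinearMap.mkContinuous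
    { toFun := fun y => ⟨_, diag_mem γ M hγ y⟩
      map_add' := by
        intro x y
        ext q
        simp only [lp.coeFn_add, Pi.add_apply]
        ring
      map_smul' := by
        intro c x
        ext q
        simp only [lp.coeFn_smul, Pi.smul_apply, Complex.real_smul, RingHom.id_apply]
        ring }
    M (by
      intro y
      have h1 := hasSum_norm (⟨_, diag_mem γ M hγ y⟩ : L1 Γ)
      refine hasSum_le (fun q => ?_) h1 ((hasSum_norm y).mul_left M)
      change ‖(Complex.I * γ q) * y q‖ ≤ M * ‖y q‖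
      rw [norm_mul, norm_mul, Complex.norm_I, one_mul, Complex.norm_real, Real.norm_eq_abs]
      exact mul_le_mul_of_nonneg_right (hγ q) (norm_nonneg _))

theorem diag_apply (γ : Γ → ℝ) (M : ℝ) (hM : 0 ≤ M) (hγ : ∀ q, |γ q| ≤ M) (y : L1 Γ) (q : Γ) :
    (diag γ M hM hγ y) q = (Complex.I * γ q) * y q := rfl

theorem real_single (p : Γ) (c : ℝ) (z : ℂ) :
    (lp.single 1 p ((c : ℂ) * z) : L1 Γ) = c • (lp.single 1 p z : L1 Γ) := by
  ext q
  rw [lp.coeFn_smul, Pi.smul_apply, Complex.real_smul]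
  by_cases h : q = p
  · subst h
    rw [lp.single_apply_self, lp.single_apply_self]
  · rw [lp.single_apply_ne _ _ _ h, lp.single_apply_ne _ _ _ h, mul_zero]

/-- Orthogonality argument. -/
theorem ortho (g : StrongDual ℝ (L1 Γ)) (hg : ‖g‖ = 1) (q : Γ) (x : ℂ)
    (hx : g (lp.single 1 q x) = ‖x‖) : g (lp.single 1 q (Complex.I * x)) = 0 := by
  by_cases hx0 : x = 0
  · subst hx0
    rw [mul_zero, lp.single_zero, map_zero]
  have hpos : 0 < ‖x‖ := norm_pos_iff.2 hx0
  set c := g (lp.single 1 q (Complex.I * x)) with hc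
  set t := c / ‖x‖ with ht
  have h1 : g (lp.single 1 q (x + (t : ℂ) * (Complex.I * x))) = ‖x‖ + t * c := by
    rw [lp.single_add, map_add, hx, real_single, map_smul, smul_eq_mul]
  have h2 := g.le_opNorm (lp.single 1 q (x + (t : ℂ) * (Complex.I * x)))
  rw [h1, hg, one_mul, lp.norm_single (by norm_num)] at h2
  have h3 : ‖x + (t : ℂ) * (Complex.I * x)‖ ^ 2 = ‖x‖ ^ 2 * (1 + t ^ 2) := by
    have h4 : x + (t : ℂ) * (Complex.I * x) = x * (1 + t * Complex.I) := by ring
    rw [h4, norm_mul, mul_pow]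
    congr 1
    rw [← Complex.normSq_eq_norm_sq, Complex.normSq_apply]
    simp
    ring
  have h5 : ‖x‖ + t * c ≤ ‖x + (t : ℂ) * (Complex.I * x)‖ := (le_abs_self _).trans h2
  have htc : t * c = c ^ 2 / ‖x‖ := by
    rw [ht]
    ring
  have h6 : 0 ≤ t * c := by
    rw [htc]
    positivity
  have h7 : (‖x‖ + t * c) ^ 2 ≤ ‖x‖ ^ 2 * (1 + t ^ 2) := by
    rw [← h3]
    gcongr
  have h8 : ‖x‖ ^ 2 * (1 + t ^ 2) = ‖x‖ ^ 2 + c ^ 2 := by
    rw [ht]
    field_simp
  have hxt : ‖x‖ * (t * c) = c ^ 2 := by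
    rw [htc]
    field_simp
  have h9 : (‖x‖ + t * c) ^ 2 = ‖x‖ ^ 2 + 2 * c ^ 2 + (t * c) ^ 2 := by
    linear_combination 2 * hxt
  rw [h8, h9] at h7
  have h10 : c ^ 2 ≤ 0 := by nlinarith [sq_nonneg (t * c)]
  have h11 : c ^ 2 = 0 := le_antisymm h10 (sq_nonneg _)
  exact pow_eq_zero_iff (two_ne_zero) |>.1 h11

theorem numRad_diag (γ : Γ → ℝ) (M : ℝ) (hM : 0 ≤ M) (hγ : ∀ q, |γ q| ≤ M) :
    numRad (diag γ M hM hγ) = 0 := by
  refine le_antisymm (numRad_le _ le_rfl ?_) (numRad_nonneg _)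
  rintro ⟨x, g⟩ ⟨h1, h2, h3⟩
  simp only at h1 h2 h3 ⊢
  have hs := lp.hasSum_single (p := 1) (by norm_num) x
  have hs1 : HasSum (fun q => g (lp.single 1 q (x q))) 1 := by
    rw [← h3]
    exact hs.mapL g
  have hs2 : HasSum (fun q => ‖x q‖) 1 := by
    rw [← h1]
    exact hasSum_norm x
  have hs3 : HasSum (fun q => ‖x q‖ - g (lp.single 1 q (x q))) 0 := by
    have := hs2.sub hs1
    simpa using this
  have hnn : ∀ q, 0 ≤ ‖x q‖ - g (lp.single 1 q (x q)) := by
    intro q
    have := (le_abs_self _).trans (g.le_opNorm (lp.single 1 q (x q)))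
    rw [h2, one_mul, lp.norm_single (by norm_num)] at this
    linarith
  have hz := (hasSum_zero_iff_of_nonneg hnn).1 hs3
  have hz' : ∀ q, g (lp.single 1 q (x q)) = ‖x q‖ := by
    intro q
    have := congrFun hz q
    simp only [Pi.zero_apply] at this
    linarith
  have hd := lp.hasSum_single (p := 1) (by norm_num) (diag γ M hM hγ x)
  have hd1 := hd.mapL g
  have hd2 : ∀ q, g (lp.single 1 q ((diag γ M hM hγ x) q)) = 0 := by
    intro q
    rw [diag_apply]
    have : (Complex.I * (γ q : ℂ)) * x q = (γ q : ℂ) * (Complex.I * x q) := by ring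
    rw [this, real_single, map_smul, ortho g h2 q (x q) (hz' q), smul_zero]
  simp_rw [hd2] at hd1
  rw [hd1.unique hasSum_zero]
  simp

theorem norm_sub_single (y : L1 Γ) (p : Γ) (c : ℂ) :
    ‖(y - lp.single 1 p c : L1 Γ)‖ = ‖y‖ - ‖y p‖ + ‖y p - c‖ := by
  have h1 := hasSum_norm (y - lp.single 1 p c : L1 Γ)
  have h2 : HasSum (fun q => ‖(y - lp.single 1 p c : L1 Γ) q‖) (‖y‖ + (‖y p - c‖ - ‖y p‖)) := by
    have h3 : ∀ q, ‖(y - lp.single 1 p c : L1 Γ) q‖ =
        ‖y q‖ + if q = p then (‖y p - c‖ - ‖y p‖) else 0 := by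
      intro q
      rw [lp.coeFn_sub, Pi.sub_apply]
      by_cases h : q = p
      · subst h
        rw [lp.single_apply_self]
        simp
      · rw [lp.single_apply_ne _ _ _ h]
        simp [h]
    simp_rw [h3]
    exact (hasSum_norm y).add (hasSum_ite_eq p _)
  rw [h1.unique h2]
  ring

theorem opNorm_le_single (R : L1 Γ →L[ℝ] L1 Γ) (C : ℝ) (hC : 0 ≤ C)
    (h : ∀ p z, ‖R (lp.single 1 p z)‖ ≤ C * ‖z‖) : ‖R‖ ≤ C := by
  refine ContinuousLinearMap.opNorm_le_bound _ hC fun x => ?_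
  have hs := (lp.hasSum_single (p := 1) (by norm_num) x).mapL R
  have hs2 := (hasSum_norm x).mul_left C
  have hsum : Summable fun q => ‖R (lp.single 1 q (x q))‖ :=
    Summable.of_nonneg_of_le (fun _ => norm_nonneg _) (fun q => h q (x q)) hs2.summable
  rw [← hs.tsum_eq, ← hs2.tsum_eq]
  exact (norm_tsum_le_tsum_norm hsum).trans
    (hsum.tsum_le_tsum (fun q => h q (x q)) hs2.summable)

theorem exists_w (β : ℂ) : ∃ w : ℂ, ‖w‖ = 1 ∧ β * conj w = (‖β‖ : ℂ) * w := by
  refine ⟨Complex.exp ((Complex.arg β / 2 : ℝ) * Complex.I), ?_, ?_⟩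
  · exact Complex.norm_exp_ofReal_mul_I _
  · have h1 := Complex.norm_mul_exp_arg_mul_I β
    have h2 : β * conj (Complex.exp ((Complex.arg β / 2 : ℝ) * Complex.I)) =
        ((‖β‖ : ℂ) * Complex.exp (Complex.arg β * Complex.I)) *
          conj (Complex.exp ((Complex.arg β / 2 : ℝ) * Complex.I)) := by rw [h1]
    rw [h2, ← Complex.exp_conj, mul_assoc, ← Complex.exp_add]
    congr 2
    simp only [map_mul, Complex.conj_ofReal, Complex.conj_I]
    push_cast
    ring

theorem approx_l1 : Approx (L1 Γ) (Real.sqrt 2) := by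
  intro T
  set v := numRad T with hv
  have hv0 : 0 ≤ v := numRad_nonneg T
  -- the diagonal entries
  set α : Γ → ℂ := fun p => ((T (lp.single 1 p 1)) p -
    Complex.I * (T (lp.single 1 p Complex.I)) p) / 2 with hα
  set β : Γ → ℂ := fun p => ((T (lp.single 1 p 1)) p +
    Complex.I * (T (lp.single 1 p Complex.I)) p) / 2 with hβ
  have hcoord : ∀ (y : L1 Γ) (p : Γ), ‖y p‖ ≤ ‖y‖ := by
    intro y p
    exact lp.norm_apply_le_norm (by norm_num) y p
  have hTn : ∀ p z, ‖(T (lp.single 1 p z)) p‖ ≤ ‖T‖ * ‖z‖ := by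
    intro p z
    refine (hcoord _ _).trans ?_
    have := T.le_opNorm (lp.single 1 p z)
    rwa [lp.norm_single (by norm_num)] at this
  have hγ : ∀ p, |(α p).im| ≤ ‖T‖ := by
    intro p
    refine (Complex.abs_im_le_norm _).trans ?_
    simp only [hα]
    rw [norm_div]
    have h1 := hTn p 1
    have h2 := hTn p Complex.I
    rw [norm_one, mul_one] at h1
    rw [Complex.norm_I, mul_one] at h2
    have h3 := norm_sub_le ((T (lp.single 1 p 1)) p)
      (Complex.I * (T (lp.single 1 p Complex.I)) p)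
    rw [norm_mul, Complex.norm_I, one_mul] at h3
    have h4 : ‖(2 : ℂ)‖ = 2 := by simp
    rw [h4]
    linarith
  set S := diag (fun p => (α p).im) ‖T‖ (norm_nonneg _) hγ with hS
  refine ⟨S, numRad_diag _ _ _ _, ?_⟩
  have hD : ∀ p z, (T (lp.single 1 p z)) p = α p * z + β p * conj z := by
    intro p z
    have h1 : (lp.single 1 p z : L1 Γ) = z.re • lp.single 1 p 1 +
        z.im • (lp.single 1 p Complex.I : L1 Γ) := by
      rw [← real_single, ← real_single, ← lp.single_add]
      congr 1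
      rw [mul_one]
      exact (Complex.re_add_im z).symm
    rw [h1, map_add, map_smul, map_smul, lp.coeFn_add, lp.coeFn_smul, lp.coeFn_smul,
      Pi.add_apply, Pi.smul_apply, Pi.smul_apply, Complex.real_smul, Complex.real_smul]
    simp only [hα, hβ]
    have hz1 : z = z.re + z.im * Complex.I := (Complex.re_add_im z).symm
    have hz2 : conj z = z.re - z.im * Complex.I := by
      conv_lhs => rw [hz1]
      simp only [map_add, map_mul, Complex.conj_ofReal, Complex.conj_I]
      ring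
    rw [hz2]
    conv_rhs => rw [hz1]
    simp only [Complex.add_re, Complex.ofReal_re, Complex.mul_re, Complex.I_re, mul_zero,
      Complex.ofReal_im, Complex.I_im, mul_one, sub_self, add_zero, Complex.add_im,
      Complex.mul_im, zero_add]
    linear_combination ((z.im : ℂ) * (T (lp.single 1 p Complex.I)) p) * Complex.I_sq
  -- the norm on the two special vectors
  have hN : ∀ p z, ‖(T - S) (lp.single 1 p z)‖ =
      ‖T (lp.single 1 p z)‖ - ‖(T (lp.single 1 p z)) p‖ +
        ‖((α p).re : ℂ) * z + β p * conj z‖ := by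
    intro p z
    have h1 : S (lp.single 1 p z) = lp.single 1 p (Complex.I * (α p).im * z) := by
      ext q
      rw [hS, diag_apply]
      by_cases h : q = p
      · subst h
        rw [lp.single_apply_self, lp.single_apply_self]
      · rw [lp.single_apply_ne _ _ _ h, lp.single_apply_ne _ _ _ h, mul_zero]
    rw [sub_apply, h1, norm_sub_single]
    congr 2
    rw [hD]
    have h2 : (α p) = (α p).re + (α p).im * Complex.I := (Complex.re_add_im _).symm
    conv_lhs => rw [h2]
    simp only [Complex.add_re, Complex.ofReal_re, Complex.mul_re, Complex.I_re, mul_zero,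
      Complex.ofReal_im, Complex.I_im, mul_one, sub_self, add_zero, Complex.add_im,
      Complex.mul_im, zero_add]
    ring
  have hspecial : ∀ p w (b : ℝ), ‖w‖ = 1 → β p * conj w = (b : ℂ) * w →
      ‖(T - S) (lp.single 1 p w)‖ ≤ v := by
    intro p w b hw hbw
    have h1 := numRad_ge T p w hw
    rw [hN, hbw]
    have h2 : ((α p).re : ℂ) * w + (b : ℂ) * w = (((α p).re + b : ℝ) : ℂ) * w := by
      push_cast
      ring
    rw [h2, norm_mul, hw, mul_one, Complex.norm_real, Real.norm_eq_abs]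
    have h3 : (conj w * (T (lp.single 1 p w)) p).re = (α p).re + b := by
      rw [hD, hbw]
      have hww : conj w * w = 1 := by
        rw [← Complex.normSq_eq_conj_mul_self, Complex.normSq_eq_norm_sq, hw]
        simp
      have h4 : conj w * (α p * w + b * w) = α p + b := by
        linear_combination (α p + b) * hww
      rw [h4]
      simp
    rw [h3] at h1
    linarith
  refine opNorm_le_single _ _ (mul_nonneg (Real.sqrt_nonneg _) hv0) fun p z => ?_
  obtain ⟨w, hw, hbw⟩ := exists_w (β p)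
  have hN1 := hspecial p w ‖β p‖ hw hbw
  have hN2 := hspecial p (Complex.I * w) (-‖β p‖) (by rw [norm_mul, Complex.norm_I, hw, mul_one])
    (by
      rw [map_mul, Complex.conj_I]
      push_cast
      linear_combination (-Complex.I) * hbw)
  set u := z * conj w with hu
  have hww : conj w * w = 1 := by
    rw [← Complex.normSq_eq_conj_mul_self, Complex.normSq_eq_norm_sq, hw]
    simp
  have hz : z = (u.re : ℂ) * w + (u.im : ℂ) * (Complex.I * w) := by
    have h1 : z = u * w := by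
      rw [hu]
      linear_combination (-z) * hww
    have h2 : u = u.re + u.im * Complex.I := (Complex.re_add_im u).symm
    calc z = u * w := h1
      _ = (u.re + u.im * Complex.I) * w := by rw [← h2]
      _ = _ := by ring
  have hun : ‖u‖ = ‖z‖ := by
    rw [hu, norm_mul, RCLike.norm_conj, hw, mul_one]
  have h3 : ‖(T - S) (lp.single 1 p z)‖ ≤ |u.re| * v + |u.im| * v := by
    have h4 : (lp.single 1 p z : L1 Γ) = u.re • lp.single 1 p w +
        u.im • (lp.single 1 p (Complex.I * w) : L1 Γ) := by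
      rw [← real_single, ← real_single, ← lp.single_add]
      congr 1
    rw [h4, map_add, map_smul, map_smul]
    refine (norm_add_le _ _).trans ?_
    rw [norm_smul, norm_smul, Real.norm_eq_abs, Real.norm_eq_abs]
    gcongr
  refine h3.trans ?_
  have h5 : |u.re| + |u.im| ≤ Real.sqrt 2 * ‖z‖ := by
    rw [← hun]
    refine abs_le_of_sq_le_sq' ?_ (by positivity) |>.2
    rw [mul_pow, Real.sq_sqrt (by norm_num), ← Complex.normSq_eq_norm_sq, Complex.normSq_apply]
    have h6 := sq_abs u.re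
    have h7 := sq_abs u.im
    nlinarith [sq_nonneg (|u.re| - |u.im|)]
  calc |u.re| * v + |u.im| * v = (|u.re| + |u.im|) * v := by ring
    _ ≤ (Real.sqrt 2 * ‖z‖) * v := by gcongr
    _ = Real.sqrt 2 * v * ‖z‖ := by ring

end lone

end Pool.Agent.Q203.NumIndex
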