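import Mathlib
import Pool.Agent.Q203.NumIndex

/-!
The second numerical index of the space of convergent sequences in the plane and of its dual.
-/

open scoped ComplexConjugate OnePoint
open Filter Topology

namespace Pool.Agent.Q203.NumIndex

/-- Continuous functions on the one-point compactification of `ℕ`. -/
abbrev XC := C(OnePoint ℕ, ℂ)

theorem Xadd (f g : XC) (p : OnePoint ℕ) : (f + g) p = f p + g p := rfl
theorem Xsub (f g : XC) (p : OnePoint ℕ) : (f - g) p = f p - g p := rfl
theorem Xsmul (c : ℝ) (f : XC) (p : OnePoint ℕ) : (c • f) p = c • f p := rfl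
theorem Xsum {ι : Type} (s : Finset ι) (f : ι → XC) (p : OnePoint ℕ) :
    (∑ i ∈ s, f i) p = ∑ i ∈ s, f i p := by simp

/-- Decidable equality on the index set. -/
noncomputable local instance decOP : DecidableEq (OnePoint ℕ) := Classical.decEq _

theorem sgn_mul' (z : ℂ) : (conj z * sgn z) = (‖z‖ : ℂ) := by
  have h := congrArg conj (sgn_mul z)
  rw [map_mul, Complex.conj_conj, Complex.conj_ofReal] at h
  rw [mul_comm]
  exact h

/-- The function with value `z` at `n` and zero elsewhere. -/
noncomputable def ee (n : ℕ) (z : ℂ) : XC :=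
  ⟨fun p => if p = (n : OnePoint ℕ) then z else 0, by
    rw [OnePoint.continuous_iff_from_nat]
    have h1 : (∞ : OnePoint ℕ) ≠ (n : OnePoint ℕ) := OnePoint.infty_ne_coe n
    rw [if_neg h1]
    refine tendsto_const_nhds.congr' ?_
    filter_upwards [eventually_gt_atTop n] with m hm
    have : (m : OnePoint ℕ) ≠ (n : OnePoint ℕ) := by
      intro h
      exact hm.ne' (OnePoint.coe_injective h)
    rw [if_neg this]⟩

theorem ee_apply (n : ℕ) (z : ℂ) (p : OnePoint ℕ) :
    ee n z p = if p = (n : OnePoint ℕ) then z else 0 := rfl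

theorem ee_self (n : ℕ) (z : ℂ) : ee n z (n : OnePoint ℕ) = z := by
  rw [ee_apply, if_pos rfl]

/-- Constant functions. -/
noncomputable def cc (z : ℂ) : XC := ContinuousMap.const _ z

theorem cc_apply (z : ℂ) (p : OnePoint ℕ) : cc z p = z := rfl

theorem summable_psi (a : L1 (OnePoint ℕ)) (f : XC) :
    Summable fun p => (conj (a p) * f p).re := by
  refine Summable.of_norm_bounded ((hasSum_norm a).summable.mul_right ‖f‖) fun q => ?_
  refine (Complex.abs_re_le_norm _).trans ?_
  rw [norm_mul, RCLike.norm_conj]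
  gcongr
  exact f.norm_coe_le_norm q

/-- The functional on `XC` given by a summable family. -/
noncomputable def psi (a : L1 (OnePoint ℕ)) : StrongDual ℝ XC :=
  LinearMap.mkContinuous
    { toFun := fun f => ∑' p, (conj (a p) * f p).re
      map_add' := by
        intro x y
        rw [← (summable_psi a x).tsum_add (summable_psi a y)]
        congr 1
        funext q
        simp only [Xadd, mul_add, Complex.add_re]
      map_smul' := by
        intro c x
        simp only [RingHom.id_apply, smul_eq_mul]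
        rw [← tsum_mul_left]
        congr 1
        funext q
        simp only [Xsmul, Complex.real_smul]
        rw [mul_left_comm, Complex.re_ofReal_mul] }
    ‖a‖ (by
      intro f
      simp only [LinearMap.coe_mk, AddHom.coe_mk]
      rw [← (hasSum_norm a).tsum_eq, ← tsum_mul_right]
      refine (norm_tsum_le_tsum_norm (summable_psi a f).norm).trans ?_
      refine (summable_psi a f).norm.tsum_le_tsum (fun q => ?_)
        ((hasSum_norm a).summable.mul_right ‖f‖)
      refine (Complex.abs_re_le_norm _).trans ?_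
      rw [norm_mul, RCLike.norm_conj]
      gcongr
      exact f.norm_coe_le_norm q)

theorem psi_apply (a : L1 (OnePoint ℕ)) (f : XC) :
    psi a f = ∑' p, (conj (a p) * f p).re := rfl

theorem psi_norm_le (a : L1 (OnePoint ℕ)) : ‖psi a‖ ≤ ‖a‖ :=
  LinearMap.mkContinuous_norm_le _ (norm_nonneg _) _

/-- Test functions. -/
noncomputable def tst (a : L1 (OnePoint ℕ)) (F : Finset (OnePoint ℕ)) : XC :=
  ⟨fun p => if p ∈ F then sgn (a p) else sgn (a ∞), by
    rw [OnePoint.continuous_iff_from_nat]
    have h1 : (if ∞ ∈ F then sgn (a ∞) else sgn (a ∞)) = sgn (a ∞) := by split_ifs <;> rfl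
    rw [h1]
    refine tendsto_const_nhds.congr' ?_
    have hfin : {n : ℕ | (n : OnePoint ℕ) ∈ F}.Finite :=
      F.finite_toSet.preimage (OnePoint.coe_injective.injOn)
    obtain ⟨N, hN⟩ := hfin.bddAbove
    filter_upwards [eventually_gt_atTop N] with m hm
    have : (m : OnePoint ℕ) ∉ F := fun h => absurd (hN h) (not_le.2 hm)
    rw [if_neg this]⟩

theorem tst_apply (a : L1 (OnePoint ℕ)) (F : Finset (OnePoint ℕ)) (p : OnePoint ℕ) :
    tst a F p = if p ∈ F then sgn (a p) else sgn (a ∞) := rfl

theorem tst_norm (a : L1 (OnePoint ℕ)) (F : Finset (OnePoint ℕ)) : ‖tst a F‖ ≤ 1 := by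
  rw [ContinuousMap.norm_le _ zero_le_one]
  intro p
  rw [tst_apply]
  split_ifs <;> exact sgn_norm _

theorem psi_norm (a : L1 (OnePoint ℕ)) : ‖psi a‖ = ‖a‖ := by
  refine le_antisymm (psi_norm_le a) ?_
  have key : ∀ F : Finset (OnePoint ℕ), 2 * ∑ p ∈ F, ‖a p‖ - ‖a‖ ≤ ‖psi a‖ := by
    intro F
    have h1 : HasSum (fun p => 2 * (if p ∈ F then ‖a p‖ else 0) - ‖a p‖)
        (2 * ∑ p ∈ F, ‖a p‖ - ‖a‖) := by
      have h0 : HasSum (fun p => if p ∈ F then ‖a p‖ else 0) (∑ p ∈ F, ‖a p‖) := by
        have h8 : ∑ p ∈ F, (if p ∈ F then ‖a p‖ else 0) = ∑ p ∈ F, ‖a p‖ :=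
          Finset.sum_congr rfl fun p hp => by rw [if_pos hp]
        rw [← h8]
        exact hasSum_sum_of_ne_finset_zero (fun b hb => if_neg hb)
      exact (h0.mul_left 2).sub (hasSum_norm a)
    have h2 : 2 * ∑ p ∈ F, ‖a p‖ - ‖a‖ ≤ psi a (tst a F) := by
      have h7 := (summable_psi a (tst a F)).hasSum
      rw [psi_apply]
      refine hasSum_le (fun p => ?_) h1 h7
      rw [tst_apply]
      by_cases hp : p ∈ F
      · rw [if_pos hp, if_pos hp, sgn_mul', Complex.ofReal_re]
        linarith
      · rw [if_neg hp, if_neg hp]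
        have h3 := Complex.abs_re_le_norm (conj (a p) * sgn (a ∞))
        rw [norm_mul, RCLike.norm_conj] at h3
        have h4 := neg_abs_le (conj (a p) * sgn (a ∞)).re
        have h5 : ‖a p‖ * ‖sgn (a ∞)‖ ≤ ‖a p‖ :=
          mul_le_of_le_one_right (norm_nonneg _) (sgn_norm _)
        linarith
    have h3 := (le_abs_self _).trans ((psi a).le_opNorm (tst a F))
    have h4 : ‖psi a‖ * ‖tst a F‖ ≤ ‖psi a‖ :=
      mul_le_of_le_one_right (norm_nonneg _) (tst_norm a F)
    linarith
  have h0 : Tendsto (fun F : Finset (OnePoint ℕ) => ∑ p ∈ F, ‖a p‖) atTop (𝓝 ‖a‖) :=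
    hasSum_norm a
  have hlim : Tendsto (fun F : Finset (OnePoint ℕ) => 2 * ∑ p ∈ F, ‖a p‖ - ‖a‖) atTop
      (𝓝 (2 * ‖a‖ - ‖a‖)) := (h0.const_mul 2).sub_const _
  have := le_of_tendsto' hlim key
  linarith

/-- A real linear functional on the plane. -/
theorem fnl_plane {Y : Type} [NormedAddCommGroup Y] [NormedSpace ℝ Y] (φ : StrongDual ℝ Y)
    (L : ℂ → Y) (hL : ∀ z, L z = z.re • L 1 + z.im • L Complex.I) (z : ℂ) :
    φ (L z) = (conj ((φ (L 1) : ℂ) + φ (L Complex.I) * Complex.I) * z).re := by
  rw [hL z, map_add, map_smul, map_smul]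
  simp
  ring

theorem ee_lin (n : ℕ) (z : ℂ) : ee n z = z.re • ee n 1 + z.im • ee n Complex.I := by
  ext p
  rw [Xadd, Xsmul, Xsmul,
    ee_apply, ee_apply, ee_apply, Complex.real_smul, Complex.real_smul]
  by_cases h : p = (n : OnePoint ℕ)
  · rw [if_pos h, if_pos h, if_pos h, mul_one]
    exact (Complex.re_add_im z).symm
  · rw [if_neg h, if_neg h, if_neg h]
    simp

theorem cc_lin (z : ℂ) : cc z = z.re • cc 1 + z.im • cc Complex.I := by
  ext p
  rw [Xadd, Xsmul, Xsmul,
    cc_apply, cc_apply, cc_apply, Complex.real_smul, Complex.real_smul, mul_one]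
  exact (Complex.re_add_im z).symm

/-- Partial sums. -/
noncomputable def psum (f : XC) (N : ℕ) : XC :=
  cc (f ∞) + ∑ n ∈ Finset.range N, ee n (f n - f ∞)

theorem psum_apply (f : XC) (N : ℕ) (p : OnePoint ℕ) :
    psum f N p = f ∞ + ∑ n ∈ Finset.range N, ee n (f n - f ∞) p := by
  unfold psum
  rw [Xadd, cc_apply, Xsum]

theorem psum_tendsto (f : XC) : Tendsto (psum f) atTop (𝓝 f) := by
  rw [Metric.tendsto_atTop]
  intro ε hε
  have h1 := (OnePoint.continuous_iff_from_nat f).1 f.continuous
  rw [Metric.tendsto_atTop] at h1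
  obtain ⟨N₀, hN₀⟩ := h1 (ε / 2) (by positivity)
  refine ⟨N₀, fun N hN => ?_⟩
  rw [dist_eq_norm]
  refine lt_of_le_of_lt ?_ (half_lt_self hε)
  rw [ContinuousMap.norm_le _ (by positivity)]
  intro p
  rw [Xsub, psum_apply]
  induction p using OnePoint.rec with
  | infty =>
    have : ∑ n ∈ Finset.range N, ee n (f n - f ∞) ∞ = 0 := by
      refine Finset.sum_eq_zero fun n _ => ?_
      rw [ee_apply, if_neg (OnePoint.infty_ne_coe n)]
    rw [this]
    simp
    positivity
  | coe m =>
    have hsum : ∑ n ∈ Finset.range N, ee n (f n - f ∞) (m : OnePoint ℕ) =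
        if m < N then f m - f ∞ else 0 := by
      have : ∀ n, ee n (f n - f ∞) (m : OnePoint ℕ) = if m = n then f n - f ∞ else 0 := by
        intro n
        rw [ee_apply]
        by_cases h : m = n
        · subst h
          rw [if_pos rfl, if_pos rfl]
        · rw [if_neg h, if_neg (fun h' => h (OnePoint.coe_injective h'))]
      simp_rw [this]
      rw [Finset.sum_ite_eq]
      simp
    rw [hsum]
    by_cases hm : m < N
    · rw [if_pos hm]
      simp
      positivity
    · rw [if_neg hm, add_zero]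
      have := hN₀ m (by omega)
      rw [dist_eq_norm, norm_sub_rev] at this
      exact this.le

theorem psi_surj (φ : StrongDual ℝ XC) : ∃ a : L1 (OnePoint ℕ), psi a = φ := by
  set α : ℕ → ℂ := fun n => (φ (ee n 1) : ℂ) + φ (ee n Complex.I) * Complex.I with hα
  set b : ℂ := (φ (cc 1) : ℂ) + φ (cc Complex.I) * Complex.I with hb
  have hee : ∀ n z, φ (ee n z) = (conj (α n) * z).re := fun n z =>
    fnl_plane φ (ee n) (ee_lin n) z
  have hcc : ∀ z, φ (cc z) = (conj b * z).re := fun z => fnl_plane φ cc cc_lin z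
  have hbound : ∀ G : Finset ℕ, ∑ n ∈ G, ‖α n‖ ≤ ‖φ‖ := by
    intro G
    have h1 : φ (∑ n ∈ G, ee n (sgn (α n))) = ∑ n ∈ G, ‖α n‖ := by
      rw [map_sum]
      refine Finset.sum_congr rfl fun n _ => ?_
      rw [hee, sgn_mul', Complex.ofReal_re]
    have h2 : ‖∑ n ∈ G, ee n (sgn (α n))‖ ≤ 1 := by
      rw [ContinuousMap.norm_le _ zero_le_one]
      intro p
      rw [Xsum]
      induction p using OnePoint.rec with
      | infty =>
        have : ∑ n ∈ G, ee n (sgn (α n)) ∞ = 0 := by
          refine Finset.sum_eq_zero fun n _ => ?_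
          rw [ee_apply, if_neg (OnePoint.infty_ne_coe n)]
        rw [this]
        simp
      | coe m =>
        have : ∀ n, ee n (sgn (α n)) (m : OnePoint ℕ) = if m = n then sgn (α n) else 0 := by
          intro n
          rw [ee_apply]
          by_cases h : m = n
          · subst h
            rw [if_pos rfl, if_pos rfl]
          · rw [if_neg h, if_neg (fun h' => h (OnePoint.coe_injective h'))]
        simp_rw [this]
        rw [Finset.sum_ite_eq]
        split_ifs
        · exact sgn_norm _
        · simp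
    have h3 := (le_abs_self _).trans (φ.le_opNorm (∑ n ∈ G, ee n (sgn (α n))))
    rw [h1] at h3
    exact h3.trans (mul_le_of_le_one_right (norm_nonneg _) h2)
  have hsum : Summable fun n => ‖α n‖ :=
    summable_of_sum_le (fun _ => norm_nonneg _) hbound
  have hαs : Summable α := hsum.of_norm
  -- the part on the naturals
  let a' : OnePoint ℕ → ℂ := fun p => OnePoint.elim p (0 : ℂ) α
  have ha0 : a' ∞ = 0 := rfl
  have ha1 : ∀ n : ℕ, a' (n : OnePoint ℕ) = α n := fun n => rfl
  have hmem : Memℓp a' 1 := by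
    apply memℓp_gen
    simp only [ENNReal.toReal_one, Real.rpow_one]
    rw [← OnePoint.coe_injective.summable_iff]
    · exact hsum
    · intro x hx
      induction x using OnePoint.rec with
      | infty => rw [ha0, norm_zero]
      | coe m => exact absurd ⟨m, rfl⟩ hx
  set A : L1 (OnePoint ℕ) := ⟨a', hmem⟩ with hA
  set c : ℂ := b - ∑' n, α n with hc
  set a : L1 (OnePoint ℕ) := A + lp.single 1 ∞ c with ha
  have hpsi : ∀ f : XC, psi a f = (∑' n : ℕ, (conj (α n) * f n).re) + (conj c * f ∞).re := by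
    intro f
    have h1 : psi a f = psi A f + psi (lp.single 1 ∞ c) f := by
      rw [psi_apply, psi_apply, psi_apply,
        ← (summable_psi A f).tsum_add (summable_psi (lp.single 1 ∞ c) f)]
      congr 1
      funext p
      rw [ha, lp.coeFn_add, Pi.add_apply, map_add, add_mul, Complex.add_re]
    rw [h1, psi_apply, psi_apply]
    congr 1
    · rw [← OnePoint.coe_injective.tsum_eq (f := fun p => (conj (A p) * f p).re)]
      · rfl
      · intro x hx
        induction x using OnePoint.rec with
        | infty =>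
          exfalso
          apply hx
          change (conj (a' ∞) * f ∞).re = 0
          rw [ha0]
          simp
        | coe m => exact ⟨m, rfl⟩
    · rw [tsum_eq_single ∞]
      · rw [lp.single_apply_self]
      · intro p hp
        rw [lp.single_apply_ne _ _ _ hp]
        simp
  refine ⟨a, ?_⟩
  have h1 : ∀ n z, psi a (ee n z) = φ (ee n z) := by
    intro n z
    rw [hpsi, hee, ee_apply, if_neg (OnePoint.infty_ne_coe n), mul_zero, Complex.zero_re,
      add_zero, tsum_eq_single n]
    · rw [ee_self]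
    · intro m hm
      rw [ee_apply, if_neg (fun h => hm (OnePoint.coe_injective h))]
      simp
  have h2 : ∀ z, psi a (cc z) = φ (cc z) := by
    intro z
    rw [hpsi, hcc, cc_apply]
    have h3 : HasSum (fun n => (conj (α n) * z).re) (conj (∑' n, α n) * z).re := by
      have h4 := (hαs.hasSum.map (Complex.conjCLE : ℂ →+ ℂ) (Complex.conjCLE.continuous)).mul_right z
      exact Complex.hasSum_re h4
    have h5 : ∀ n : ℕ, cc z (n : OnePoint ℕ) = z := fun n => rfl
    simp_rw [h5]
    rw [h3.tsum_eq, ← Complex.add_re, ← add_mul, ← map_add]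
    congr 3
    rw [hc]
    ring_nf
  ext f
  have h3 : ∀ N, psi a (psum f N) = φ (psum f N) := by
    intro N
    unfold psum
    rw [map_add, map_add, h2, map_sum, map_sum]
    congr 1
    exact Finset.sum_congr rfl fun n _ => h1 n _
  have h4 := ((psi a).continuous.tendsto f).comp (psum_tendsto f)
  have h5 := (φ.continuous.tendsto f).comp (psum_tendsto f)
  refine tendsto_nhds_unique h4 (h5.congr fun N => ?_)
  exact (h3 N).symm

/-- The dual of `XC` is `ℓ₁`. -/
noncomputable def dualIso : L1 (OnePoint ℕ) ≃ₗᵢ[ℝ] StrongDual ℝ XC :=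
  LinearIsometryEquiv.ofSurjective
    { toFun := psi
      map_add' := by
        intro x y
        ext f
        rw [add_apply, psi_apply, psi_apply, psi_apply,
          ← (summable_psi x f).tsum_add (summable_psi y f)]
        congr 1
        funext p
        rw [lp.coeFn_add, Pi.add_apply, map_add, add_mul, Complex.add_re]
      map_smul' := by
        intro c x
        ext f
        rw [RingHom.id_apply, smul_apply, psi_apply, psi_apply, smul_eq_mul,
          ← tsum_mul_left]
        congr 1
        funext p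
        rw [lp.coeFn_smul, Pi.smul_apply, Complex.real_smul, map_mul, Complex.conj_ofReal,
          mul_assoc, Complex.re_ofReal_mul]
      norm_map' := psi_norm } psi_surj

theorem dual_ge : 1 / Real.sqrt 2 ≤ secondIndex (StrongDual ℝ XC) := by
  refine secondIndex_ge (by positivity) (approx_l1.transport dualIso (Real.sqrt_nonneg _)) ?_
  refine ⟨ContinuousLinearMap.id ℝ _, ?_⟩
  have hne : dualIso (lp.single 1 ∞ 1) ≠ 0 := by
    intro h
    have := congrArg norm h
    rw [dualIso.norm_map, lp.norm_single (by norm_num)] at this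
    simp at this
  obtain ⟨g, hg, hgx⟩ := exists_dual_vector ℝ (dualIso (lp.single 1 ∞ 1)) (norm_ne_zero_iff.2 hne)
  have hn : ‖dualIso (lp.single 1 ∞ 1)‖ = 1 := by
    rw [dualIso.norm_map, lp.norm_single (by norm_num)]
    simp
  have hp : ((dualIso (lp.single 1 ∞ 1), g) :
      StrongDual ℝ XC × StrongDual ℝ (StrongDual ℝ XC)) ∈ PiSet (StrongDual ℝ XC) := by
    refine ⟨hn, hg, ?_⟩
    rw [hgx, hn]
    simp
  have h1 := le_numRad (ContinuousLinearMap.id ℝ _) hp
  intro h0
  rw [h0] at h1
  have h2 : g (dualIso (lp.single 1 ∞ 1)) = 1 := hp.2.2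
  simp only [ContinuousLinearMap.id_apply] at h1
  rw [h2] at h1
  norm_num at h1

/-! ### The operator on `XC` -/

/-- The multipliers. -/
noncomputable def sg (p : OnePoint ℕ) : ℂ := OnePoint.elim p (0 : ℂ) (fun n : ℕ => (-1) ^ n * Complex.I)

theorem sg_infty : sg ∞ = 0 := rfl
theorem sg_coe (n : ℕ) : sg (n : OnePoint ℕ) = (-1) ^ n * Complex.I := rfl

theorem sg_norm (p : OnePoint ℕ) : ‖sg p‖ ≤ 1 := by
  induction p using OnePoint.rec with
  | infty => rw [sg_infty]; simp
  | coe n => rw [sg_coe]; simp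

theorem sg_sq (p : OnePoint ℕ) (t : ℝ) : ‖1 + (t : ℂ) * sg p‖ ≤ 1 + t ^ 2 / 2 := by
  induction p using OnePoint.rec with
  | infty =>
    rw [sg_infty]
    simp
    positivity
  | coe n =>
    rw [sg_coe]
    have h1 : ‖1 + (t : ℂ) * ((-1) ^ n * Complex.I)‖ ^ 2 = 1 + t ^ 2 := by
      rcases neg_one_pow_eq_or ℂ n with h | h
      · rw [h, ← Complex.normSq_eq_norm_sq, Complex.normSq_apply]
        simp
        ring
      · rw [h, ← Complex.normSq_eq_norm_sq, Complex.normSq_apply]
        simp
        ring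
    refine abs_le_of_sq_le_sq' ?_ (by positivity) |>.2
    rw [h1]
    nlinarith [sq_nonneg (t ^ 2)]

/-- The operator `T`. -/
noncomputable def TT : XC →L[ℝ] XC :=
  LinearMap.mkContinuous
    { toFun := fun f => ⟨fun p => sg p * (f p - f ∞), by
        rw [OnePoint.continuous_iff_from_nat]
        rw [sub_self, mul_zero]
        have h1 := (OnePoint.continuous_iff_from_nat f).1 f.continuous
        have h2 : Tendsto (fun x : ℕ => f x - f ∞) atTop (𝓝 0) := by
          have := h1.sub_const (f ∞)
          rwa [sub_self] at this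
        rw [tendsto_zero_iff_norm_tendsto_zero] at h2 ⊢
        refine squeeze_zero (fun _ => norm_nonneg _) (fun n => ?_) h2
        rw [norm_mul]
        exact mul_le_of_le_one_left (norm_nonneg _) (sg_norm _)⟩
      map_add' := by
        intro f g
        ext p
        simp only [Xadd, ContinuousMap.coe_mk]
        ring
      map_smul' := by
        intro c f
        ext p
        simp only [Xsmul, ContinuousMap.coe_mk, RingHom.id_apply,
          Complex.real_smul]
        ring }
    2 (by
      intro f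
      rw [ContinuousMap.norm_le _ (by positivity)]
      intro p
      simp only [LinearMap.coe_mk, AddHom.coe_mk, ContinuousMap.coe_mk]
      rw [norm_mul]
      have h1 := norm_sub_le (f p) (f ∞)
      have h2 := f.norm_coe_le_norm p
      have h3 := f.norm_coe_le_norm ∞
      calc ‖sg p‖ * ‖f p - f ∞‖ ≤ 1 * ‖f p - f ∞‖ := by gcongr; exact sg_norm p
        _ ≤ 2 * ‖f‖ := by linarith)

theorem TT_apply (f : XC) (p : OnePoint ℕ) : TT f p = sg p * (f p - f ∞) := rfl

theorem numRad_TT : numRad TT ≤ 1 := by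
  refine numRad_le _ zero_le_one ?_
  rintro ⟨f, φ⟩ ⟨h1, h2, h3⟩
  simp only at h1 h2 h3 ⊢
  have key : ∀ t : ℝ, 1 + t * φ (TT f) ≤ 1 + t ^ 2 / 2 + |t| := by
    intro t
    have h4 : φ (f + t • TT f) = 1 + t * φ (TT f) := by
      rw [map_add, map_smul, h3, smul_eq_mul]
    have h5 : ‖f + t • TT f‖ ≤ 1 + t ^ 2 / 2 + |t| := by
      rw [ContinuousMap.norm_le _ (by positivity)]
      intro p
      rw [Xadd, Xsmul, TT_apply, Complex.real_smul]
      have h6 : f p + (t : ℂ) * (sg p * (f p - f ∞)) =
          (1 + (t : ℂ) * sg p) * f p + (-((t : ℂ) * sg p)) * f ∞ := by ring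
      rw [h6]
      have h7 := f.norm_coe_le_norm p
      have h8 := f.norm_coe_le_norm ∞
      rw [h1] at h7 h8
      refine (norm_add_le _ _).trans ?_
      rw [norm_mul, norm_mul, norm_neg, norm_mul, Complex.norm_real, Real.norm_eq_abs]
      have h9 : ‖1 + (t : ℂ) * sg p‖ * ‖f p‖ ≤ (1 + t ^ 2 / 2) * 1 := by
        gcongr
        exact sg_sq p t
      have h10 : |t| * ‖sg p‖ * ‖f ∞‖ ≤ |t| * 1 * 1 := by
        gcongr
        exact sg_norm p
      linarith
    have h6 := (le_abs_self _).trans (φ.le_opNorm (f + t • TT f))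
    rw [h4, h2, one_mul] at h6
    exact h6.trans h5
  rw [abs_le]
  constructor
  · refine le_of_forall_pos_le_add fun ε hε => ?_
    have h4 := key (-ε)
    rw [abs_neg, abs_of_pos hε] at h4
    have h5 : ε * (-1 - φ (TT f)) ≤ ε * (ε / 2) := by nlinarith
    have h6 := le_of_mul_le_mul_left h5 hε
    linarith
  · refine le_of_forall_pos_le_add fun ε hε => ?_
    have h4 := key ε
    rw [abs_of_pos hε] at h4
    have h5 : ε * (φ (TT f) - 1) ≤ ε * (ε / 2) := by nlinarith
    have h6 := le_of_mul_le_mul_left h5 hε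
    linarith

/-- The evaluation functional as a linear map. -/
noncomputable def evl (u : ℂ) (n : ℕ) : XC →ₗ[ℝ] ℝ where
  toFun := fun f => (conj u * f n).re
  map_add' := by
    intro f g
    simp only [Xadd, mul_add, Complex.add_re]
  map_smul' := by
    intro c f
    simp only [Xsmul, Complex.real_smul, RingHom.id_apply, smul_eq_mul]
    rw [mul_left_comm, Complex.re_ofReal_mul]

theorem ev_bound (u : ℂ) (n : ℕ) (f : XC) : ‖evl u n f‖ ≤ ‖u‖ * ‖f‖ := by
  change |(conj u * f n).re| ≤ _
  refine (Complex.abs_re_le_norm _).trans ?_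
  rw [norm_mul, RCLike.norm_conj]
  gcongr
  exact f.norm_coe_le_norm _

/-- The evaluation functional. -/
noncomputable def ev (u : ℂ) (n : ℕ) : StrongDual ℝ XC :=
  LinearMap.mkContinuous (evl u n) ‖u‖ (ev_bound u n)

theorem ev_apply (u : ℂ) (n : ℕ) (f : XC) : ev u n f = (conj u * f n).re := rfl

theorem skew (S : XC →L[ℝ] XC) (hS : numRad S = 0) (f : XC) (n : ℕ) (hf : ‖f‖ ≤ 1)
    (hfn : ‖f n‖ = 1) : (conj (f n) * (S f) n).re = 0 := by
  have hww : conj (f n) * f n = 1 := by
    rw [← Complex.normSq_eq_conj_mul_self, Complex.normSq_eq_norm_sq, hfn]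
    simp
  have hnf : ‖f‖ = 1 := le_antisymm hf (by
    have := f.norm_coe_le_norm (n : OnePoint ℕ)
    rwa [hfn] at this)
  have h1 : ev (f n) n f = 1 := by
    rw [ev_apply, hww]
    simp
  have hp : ((f, ev (f n) n) : XC × StrongDual ℝ XC) ∈ PiSet XC := by
    refine ⟨hnf, le_antisymm ?_ ?_, h1⟩
    · refine le_trans (b := ‖f n‖) ?_ hfn.le
      exact LinearMap.mkContinuous_norm_le _ (norm_nonneg (f n)) (ev_bound (f n) n)
    · have h5 := (ev (f n) n).le_opNorm f
      rw [h1, hnf] at h5
      simpa using h5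
  have h2 := le_numRad S hp
  rw [hS] at h2
  have h3 := abs_eq_zero.1 (le_antisymm h2 (abs_nonneg _))
  exact h3

theorem local_zero (S : XC →L[ℝ] XC) (hS : numRad S = 0) (h : XC) (n : ℕ) (hh : ‖h‖ ≤ 1)
    (hn : h n = 0) : (S h) n = 0 := by
  have key : ∀ u : ℂ, ‖u‖ = 1 → (conj u * (S h) n).re = 0 := by
    intro u hu
    have h1 : ‖ee n u + h‖ ≤ 1 := by
      rw [ContinuousMap.norm_le _ zero_le_one]
      intro p
      rw [Xadd, ee_apply]
      by_cases hp : p = (n : OnePoint ℕ)
      · rw [if_pos hp, hp, hn, add_zero, hu]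
      · rw [if_neg hp, zero_add]
        exact (h.norm_coe_le_norm p).trans hh
    have h2 : ‖ee n u‖ ≤ 1 := by
      rw [ContinuousMap.norm_le _ zero_le_one]
      intro p
      rw [ee_apply]
      by_cases hp : p = (n : OnePoint ℕ)
      · rw [if_pos hp, hu]
      · rw [if_neg hp]
        simp
    have h3 : (ee n u + h) n = u := by
      rw [Xadd, ee_self, hn, add_zero]
    have h4 := skew S hS (ee n u + h) n h1 (by rw [h3, hu])
    have h5 := skew S hS (ee n u) n h2 (by rw [ee_self, hu])
    rw [h3, map_add, Xadd, mul_add, Complex.add_re] at h4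
    rw [ee_self] at h5
    linarith
  have h1 := key 1 (by simp)
  have h2 := key Complex.I (by simp)
  apply Complex.ext
  · simpa using h1
  · simpa using h2

theorem quot_TT : 2 ≤ quotNorm TT := by
  refine le_quotNorm _ fun S hS => ?_
  set s := (S (cc 1)) ∞ with hs
  have key : ∀ n : ℕ, ‖2 * sg n - (S (cc 1)) n‖ ≤ ‖TT - S‖ := by
    intro n
    set h : XC := ee n 1 - cc 1 with hh
    have h1 : ‖h‖ ≤ 1 := by
      rw [ContinuousMap.norm_le _ zero_le_one]
      intro p
      rw [hh, Xsub, ee_apply, cc_apply]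
      by_cases hp : p = (n : OnePoint ℕ)
      · rw [if_pos hp]
        simp
      · rw [if_neg hp]
        simp
    have h2 : h n = 0 := by
      rw [hh, Xsub, ee_self, cc_apply, sub_self]
    have h3 := local_zero S hS h n h1 h2
    set g : XC := cc 1 + h + h with hg
    have hgp : ∀ p, g p = if p = (n : OnePoint ℕ) then 1 else -1 := by
      intro p
      rw [hg, Xadd, Xadd, hh, Xsub,
        ee_apply, cc_apply]
      by_cases hp : p = (n : OnePoint ℕ)
      · rw [if_pos hp, if_pos hp]
        ring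
      · rw [if_neg hp, if_neg hp]
        ring
    have hgn : ‖g‖ ≤ 1 := by
      rw [ContinuousMap.norm_le _ zero_le_one]
      intro p
      rw [hgp]
      split_ifs <;> simp
    have h4 : (S g) n = (S (cc 1)) n := by
      rw [hg, map_add, map_add, Xadd, Xadd, h3]
      ring
    have h5 : (TT g) n = 2 * sg n := by
      rw [TT_apply, hgp, hgp, if_pos rfl, if_neg (OnePoint.infty_ne_coe n)]
      ring
    have h6 := (TT - S).le_opNorm g
    have h7 := ((TT - S) g).norm_coe_le_norm (n : OnePoint ℕ)
    have h8 : ((TT - S) g) n = 2 * sg n - (S (cc 1)) n := by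
      rw [sub_apply, Xsub, h4, h5]
    rw [h8] at h7
    have h9 : ‖TT - S‖ * ‖g‖ ≤ ‖TT - S‖ := mul_le_of_le_one_right (norm_nonneg _) hgn
    linarith
  have hlim := (OnePoint.continuous_iff_from_nat (S (cc 1))).1 (S (cc 1)).continuous
  have he : ‖2 * Complex.I - s‖ ≤ ‖TT - S‖ := by
    have h1 : Tendsto (fun k : ℕ => 2 * k) atTop atTop :=
      tendsto_atTop_mono (fun k => by simp only [id]; omega) tendsto_id
    have h0 : Tendsto (fun k : ℕ => (S (cc 1)) ((2 * k : ℕ) : OnePoint ℕ)) atTop (𝓝 s) :=
      hlim.comp h1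
    have h2 : Tendsto (fun k : ℕ => ‖2 * Complex.I - (S (cc 1)) ((2 * k : ℕ) : OnePoint ℕ)‖)
        atTop (𝓝 ‖2 * Complex.I - s‖) := (h0.const_sub (2 * Complex.I)).norm
    refine le_of_tendsto' h2 fun k => ?_
    have h3 := key (2 * k)
    rw [sg_coe, pow_mul] at h3
    simpa using h3
  have ho : ‖-(2 * Complex.I) - s‖ ≤ ‖TT - S‖ := by
    have h1 : Tendsto (fun k : ℕ => 2 * k + 1) atTop atTop :=
      tendsto_atTop_mono (fun k => by simp only [id]; omega) tendsto_id
    have h0 : Tendsto (fun k : ℕ => (S (cc 1)) ((2 * k + 1 : ℕ) : OnePoint ℕ)) atTop (𝓝 s) :=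
      hlim.comp h1
    have h2 : Tendsto (fun k : ℕ => ‖-(2 * Complex.I) -
        (S (cc 1)) ((2 * k + 1 : ℕ) : OnePoint ℕ)‖)
        atTop (𝓝 ‖-(2 * Complex.I) - s‖) := (h0.const_sub (-(2 * Complex.I))).norm
    refine le_of_tendsto' h2 fun k => ?_
    have h3 := key (2 * k + 1)
    rw [sg_coe, pow_succ, pow_mul] at h3
    simpa using h3
  have h4 : ‖(4 : ℂ) * Complex.I‖ ≤ ‖2 * Complex.I - s‖ + ‖-(2 * Complex.I) - s‖ := by
    have : (4 : ℂ) * Complex.I = (2 * Complex.I - s) - (-(2 * Complex.I) - s) := by ring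
    rw [this]
    exact norm_sub_le _ _
  have h5 : ‖(4 : ℂ) * Complex.I‖ = 4 := by simp
  rw [h5] at h4
  linarith

theorem index_le : secondIndex XC ≤ 1 / 2 := by
  have hne : numRad TT ≠ 0 := by
    intro h0
    have := quotNorm_le TT TT h0
    have h2 := quot_TT
    rw [sub_self, norm_zero] at this
    linarith
  refine (secondIndex_le TT hne).trans ?_
  have h1 := numRad_TT
  have h2 := quot_TT
  rw [div_le_div_iff₀ (by linarith) (by norm_num)]
  linarith

end Pool.Agent.Q203.NumIndex
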