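import Mathlib

/-!
Orthogonally additive maps on a space of step functions with values in a space of continuous
functions: a pair with a trivial join but a non trivial pointwise formula.
-/

open MeasureTheory Set
open scoped ENNReal

namespace Pool.Agent.Q203.OrthJoin

/-- Disjointness in a Riesz space: `|x| ∧ |y| = 0`. -/
def Disj {E : Type} [AddCommGroup E] [Lattice E] (x y : E) : Prop := |x| ⊓ |y| = 0

/-- Orthogonally additive maps. -/
def OrthAdd {E F : Type} [AddCommGroup E] [Lattice E] [AddCommGroup F] (T : E → F) : Prop :=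
  ∀ x y : E, Disj x y → T (x + y) = T x + T y

/-- `V` is the join of `S` and `T` in the set of orthogonally additive maps, ordered pointwise. -/
def IsJoin {E F : Type} [AddCommGroup E] [Lattice E] [AddCommGroup F] [Lattice F]
    (S T V : E → F) : Prop :=
  IsLeast {R : E → F | OrthAdd R ∧ S ≤ R ∧ T ≤ R} V

/-- The set `{S u + T v : x = u ⊔ v}`, where `x = u ⊔ v` means `x = u + v` with `u`, `v`
disjoint. -/
def Splits {E F : Type} [AddCommGroup E] [Lattice E] [AddCommGroup F]
    (S T : E → F) (x : E) : Set F :=
  {w | ∃ u v : E, x = u + v ∧ Disj u v ∧ w = S u + T v}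

/-! ### The measure space -/

/-- Infinite sequences of bits. -/
abbrev Om := ℕ → Bool

/-- The uniform measure on `Bool`. -/
noncomputable def mu0 : Measure Bool :=
  (2⁻¹ : ℝ≥0∞) • (Measure.dirac true + Measure.dirac false)

instance : IsProbabilityMeasure mu0 := by
  constructor
  simp only [mu0, Measure.smul_apply, Measure.add_apply, measure_univ, smul_eq_mul]
  rw [one_add_one_eq_two]
  exact ENNReal.inv_mul_cancel (by norm_num) (by norm_num)

theorem mu0_singleton (b : Bool) : mu0 {b} = 2⁻¹ := by
  simp only [mu0, Measure.smul_apply, Measure.add_apply, smul_eq_mul,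
    Measure.dirac_apply' _ (measurableSet_singleton _)]
  cases b <;> simp

theorem mu0_not : mu0.map not = mu0 := by
  unfold mu0
  rw [Measure.map_smul, Measure.map_add _ _ (measurable_of_finite _),
    Measure.map_dirac' (measurable_of_finite _), Measure.map_dirac' (measurable_of_finite _)]
  simp only [Bool.not_true, Bool.not_false]
  rw [add_comm]

/-- The product measure. -/
noncomputable def lam : Measure Om := Measure.infinitePi (fun _ : ℕ => mu0)

instance : IsProbabilityMeasure lam := by
  unfold lam
  infer_instance

/-- Flip the bit with index `c`. -/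
def flip (c : ℕ) (x : Om) : Om := fun i => if i = c then !(x i) else x i

theorem flip_flip (c : ℕ) (x : Om) : flip c (flip c x) = x := by
  funext i
  unfold flip
  by_cases h : i = c <;> simp [h]

theorem measurable_flip (c : ℕ) : Measurable (flip c) := by
  rw [measurable_pi_iff]
  intro i
  unfold flip
  by_cases h : i = c
  · simp only [h, if_true]
    exact (measurable_of_finite (fun b : Bool => !b)).comp
      (measurable_pi_apply c : Measurable fun x : Om => x c)
  · simp only [h, if_false]
    exact measurable_pi_apply i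

theorem flip_mp (c : ℕ) : MeasurePreserving (flip c) lam lam := by
  refine ⟨measurable_flip c, ?_⟩
  have h := Measure.infinitePi_map_pi (μ := fun _ : ℕ => mu0)
    (f := fun (i : ℕ) (b : Bool) => if i = c then !b else b) (fun i => measurable_of_finite _)
  have h2 : (fun i : ℕ => mu0.map (fun b : Bool => if i = c then !b else b)) =
      fun _ : ℕ => mu0 := by
    funext i
    by_cases h : i = c
    · simp only [h, if_true]
      exact mu0_not
    · simp only [h, if_false]
      exact Measure.map_id
  unfold lam
  have h3 : flip c = fun (x : Om) i => (if i = c then !(x i) else x i) := rfl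
  rw [h3]
  refine h.trans ?_
  congr 1

/-- Functions of the first `N` bits. -/
def Dep (N : ℕ) (f : Om → ℝ) : Prop := ∀ x y : Om, (∀ i < N, x i = y i) → f x = f y

theorem Dep.mono {N M : ℕ} {f : Om → ℝ} (h : Dep N f) (hNM : N ≤ M) : Dep M f :=
  fun x y hxy => h x y fun i hi => hxy i (lt_of_lt_of_le hi hNM)

/-- Extension of a finite string of bits. -/
def ext (N : ℕ) (y : Fin N → Bool) : Om := fun i => if h : i < N then y ⟨i, h⟩ else false

theorem Dep.factor {N : ℕ} {f : Om → ℝ} (h : Dep N f) :
    f = (fun y => f (ext N y)) ∘ (fun x : Om => fun i : Fin N => x i) := by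
  funext x
  refine h _ _ fun i hi => ?_
  simp [ext, hi]

theorem Dep.measurable {N : ℕ} {f : Om → ℝ} (h : Dep N f) : Measurable f := by
  rw [h.factor]
  refine (measurable_of_finite _).comp ?_
  rw [measurable_pi_iff]
  exact fun i => measurable_pi_apply _

theorem Dep.bounded {N : ℕ} {f : Om → ℝ} (h : Dep N f) : ∃ C : ℝ, ∀ x, ‖f x‖ ≤ C := by
  obtain ⟨C, hC⟩ := (Set.finite_range (fun y => ‖f (ext N y)‖)).bddAbove
  refine ⟨C, fun x => ?_⟩
  have := congrFun h.factor x
  rw [this]
  exact hC ⟨_, rfl⟩

theorem Dep.integrable {N : ℕ} {f : Om → ℝ} (h : Dep N f) : Integrable f lam := by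
  obtain ⟨C, hC⟩ := h.bounded
  exact Integrable.of_bound h.measurable.aestronglyMeasurable C (Filter.Eventually.of_forall hC)

theorem Dep.comp₂ {N M : ℕ} {f g : Om → ℝ} (hf : Dep N f) (hg : Dep M g) (F : ℝ → ℝ → ℝ) :
    Dep (max N M) fun x => F (f x) (g x) := by
  intro x y h
  have h1 := hf x y fun i hi => h i (lt_of_lt_of_le hi (le_max_left _ _))
  have h2 := hg x y fun i hi => h i (lt_of_lt_of_le hi (le_max_right _ _))
  simp only [h1, h2]

theorem Dep.flip {N : ℕ} {f : Om → ℝ} (hf : Dep N f) {c : ℕ} (hc : N ≤ c) (x : Om) :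
    f (OrthJoin.flip c x) = f x := by
  refine hf _ _ fun i hi => ?_
  unfold OrthJoin.flip
  have : i ≠ c := by omega
  simp [this]

/-- The Rademacher functions. -/
noncomputable def rad (c : ℕ) (x : Om) : ℝ := if x c then 1 else -1

theorem rad_flip (c : ℕ) (x : Om) : rad c (flip c x) = -rad c x := by
  unfold rad flip
  by_cases h : x c <;> simp [h]

theorem rad_dep (c : ℕ) : Dep (c + 1) (rad c) := by
  intro x y h
  unfold rad
  rw [h c (by omega)]

theorem rad_cases (c : ℕ) (x : Om) : rad c x = 1 ∨ rad c x = -1 := by
  unfold rad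
  by_cases h : x c <;> simp [h]

theorem integral_rad (h : Om → ℝ) (c : ℕ) (hflip : ∀ x, h (flip c x) = h x) :
    ∫ x, h x * rad c x ∂lam = 0 := by
  have e : MeasurableEquiv Om Om :=
    { toFun := flip c
      invFun := flip c
      left_inv := flip_flip c
      right_inv := flip_flip c
      measurable_toFun := measurable_flip c
      measurable_invFun := measurable_flip c }
  have h1 : ∫ x, h (flip c x) * rad c (flip c x) ∂lam = ∫ x, h x * rad c x ∂lam := by
    have he : MeasurableEmbedding (flip c) := by
      have : MeasurableEmbedding (⇑({ toFun := flip c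
                                      invFun := flip c
                                      left_inv := flip_flip c
                                      right_inv := flip_flip c
                                      measurable_toFun := measurable_flip c
                                      measurable_invFun := measurable_flip c } :
                                      MeasurableEquiv Om Om)) :=
        MeasurableEquiv.measurableEmbedding _
      exact this
    exact (flip_mp c).integral_comp he (fun x => h x * rad c x)
  have h2 : ∫ x, h (flip c x) * rad c (flip c x) ∂lam = -∫ x, h x * rad c x ∂lam := by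
    rw [← integral_neg]
    congr 1
    funext x
    rw [hflip, rad_flip]
    ring
  linarith

/-- Cylinder sets. -/
def cyl (k : ℕ) (b : Om) : Set Om := {x | ∀ i < k, x i = b i}

theorem lam_cyl (k : ℕ) (b : Om) : lam.real (cyl k b) = (1 / 2) ^ k := by
  have h1 : cyl k b = Set.pi (Finset.range k : Set ℕ) (fun i => {b i}) := by
    ext x
    simp [cyl]
  have h2 : lam (cyl k b) = (2⁻¹ : ℝ≥0∞) ^ k := by
    rw [h1]
    unfold lam
    rw [Measure.infinitePi_pi (fun _ : ℕ => mu0) (fun i _ => measurableSet_singleton _)]
    simp [mu0_singleton]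
  rw [measureReal_def, h2]
  simp

/-! ### The domain -/

/-- The space of functions of finitely many bits. -/
def fd : Submodule ℝ (Om → ℝ) where
  carrier := {f | ∃ N, Dep N f}
  zero_mem' := ⟨0, fun _ _ _ => rfl⟩
  add_mem' := by
    rintro f g ⟨N, hf⟩ ⟨M, hg⟩
    exact ⟨_, hf.comp₂ hg (fun a b => a + b)⟩
  smul_mem' := by
    rintro c f ⟨N, hf⟩
    exact ⟨_, hf.comp₂ hf (fun a _ => c * a)⟩

/-- The Riesz space of functions of finitely many bits. -/
def Dom : Type := ↥fd

noncomputable instance : AddCommGroup Dom := inferInstanceAs (AddCommGroup ↥fd)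
noncomputable instance : Module ℝ Dom := inferInstanceAs (Module ℝ ↥fd)

/-- Underlying function. -/
def Dom.val (f : Dom) : Om → ℝ := Subtype.val f

theorem Dom.val_inj : Function.Injective Dom.val := Subtype.val_injective

theorem Dom.dep (f : Dom) : ∃ N, Dep N f.val := f.2

theorem Dom.val_add (f g : Dom) : (f + g).val = f.val + g.val := rfl
theorem Dom.val_neg (f : Dom) : (-f).val = -f.val := rfl
theorem Dom.val_zero : (0 : Dom).val = 0 := rfl
theorem Dom.val_smul (c : ℝ) (f : Dom) : (c • f).val = c • f.val := rfl

instance : LE Dom := ⟨fun f g => f.val ≤ g.val⟩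
instance : LT Dom := ⟨fun f g => f.val < g.val⟩
noncomputable instance : Max Dom := ⟨fun f g => ⟨f.val ⊔ g.val, by
  obtain ⟨N, hf⟩ := f.dep
  obtain ⟨M, hg⟩ := g.dep
  exact ⟨_, hf.comp₂ hg (fun a b => a ⊔ b)⟩⟩⟩
noncomputable instance : Min Dom := ⟨fun f g => ⟨f.val ⊓ g.val, by
  obtain ⟨N, hf⟩ := f.dep
  obtain ⟨M, hg⟩ := g.dep
  exact ⟨_, hf.comp₂ hg (fun a b => a ⊓ b)⟩⟩⟩

noncomputable instance : Lattice Dom :=
  Function.Injective.lattice Dom.val Dom.val_inj Iff.rfl Iff.rfl (fun _ _ => rfl) (fun _ _ => rfl)

theorem Dom.val_sup (f g : Dom) : (f ⊔ g).val = f.val ⊔ g.val := rfl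
theorem Dom.val_inf (f g : Dom) : (f ⊓ g).val = f.val ⊓ g.val := rfl
theorem Dom.val_abs (f : Dom) : (|f|).val = fun x => |f.val x| := rfl

instance : IsOrderedAddMonoid Dom where
  add_le_add_left a b h c := by
    change (a + c).val ≤ (b + c).val
    rw [Dom.val_add, Dom.val_add]
    exact add_le_add_left (show a.val ≤ b.val from h) _

instance : PosSMulMono ℝ Dom where
  smul_le_smul_of_nonneg_left := by
    intro c hc f g h
    change (c • f).val ≤ (c • g).val
    rw [Dom.val_smul, Dom.val_smul]
    exact smul_le_smul_of_nonneg_left (show f.val ≤ g.val from h) hc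

theorem disj_iff (f g : Dom) : Disj f g ↔ ∀ x, f.val x = 0 ∨ g.val x = 0 := by
  unfold Disj
  constructor
  · intro h x
    have h1 := congrFun (congrArg Dom.val h) x
    rw [Dom.val_inf, Dom.val_abs, Dom.val_abs, Dom.val_zero] at h1
    simp only [Pi.inf_apply, Pi.zero_apply] at h1
    rcases le_total |f.val x| |g.val x| with h2 | h2
    · rw [inf_eq_left.2 h2] at h1
      exact Or.inl (abs_eq_zero.1 h1)
    · rw [inf_eq_right.2 h2] at h1
      exact Or.inr (abs_eq_zero.1 h1)
  · intro h
    apply Dom.val_inj
    rw [Dom.val_inf, Dom.val_abs, Dom.val_abs, Dom.val_zero]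
    funext x
    simp only [Pi.inf_apply, Pi.zero_apply]
    rcases h x with h1 | h1
    · rw [h1]
      simp
    · rw [h1]
      simp

/-- Predicates on finitely many bits. -/
def DepP (P : Om → Prop) : Prop := ∃ N : ℕ, ∀ x y : Om, (∀ i < N, x i = y i) → (P x ↔ P y)

open Classical in
/-- Restriction of a function to a set depending on finitely many bits. -/
noncomputable def cut (f : Dom) (P : Om → Prop) (hP : DepP P) : Dom :=
  ⟨fun x => if P x then f.val x else 0, by
    obtain ⟨N, hf⟩ := f.dep
    obtain ⟨M, hM⟩ := hP
    refine ⟨max N M, fun x y h => ?_⟩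
    have h1 := hf x y fun i hi => h i (lt_of_lt_of_le hi (le_max_left _ _))
    have h2 := hM x y fun i hi => h i (lt_of_lt_of_le hi (le_max_right _ _))
    simp only [h1, h2]⟩

open Classical in
theorem cut_val (f : Dom) (P : Om → Prop) (hP : DepP P) (x : Om) :
    (cut f P hP).val x = if P x then f.val x else 0 := rfl

/-! ### The functions `theta` -/

/-- Index of the Rademacher function used at a node. -/
def idx (t : List (ℕ × Om)) : ℕ := t.length + 1 + (t.map Prod.fst).sum

open Classical in
/-- The sign functions. -/
noncomputable def theta : List (ℕ × Om) → Om → ℝ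
  | [], _ => 0
  | (a :: s), x => if theta s x ≠ 0 then theta s x else
      if x ∈ cyl (s.length + 2) a.2 then rad (idx (a :: s)) x else 0

theorem theta_cases (t : List (ℕ × Om)) (x : Om) :
    theta t x = 0 ∨ theta t x = 1 ∨ theta t x = -1 := by
  induction t with
  | nil => exact Or.inl rfl
  | cons a s ih =>
    simp only [theta]
    split_ifs with h1 h2
    · exact ih
    · exact Or.inr (rad_cases _ _)
    · exact Or.inl rfl

theorem cyl_dep (k : ℕ) (b x y : Om) (h : ∀ i < k, x i = y i) : x ∈ cyl k b ↔ y ∈ cyl k b := by
  unfold cyl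
  simp only [Set.mem_ofPred_eq]
  constructor
  · intro h1 i hi
    rw [← h i hi]
    exact h1 i hi
  · intro h1 i hi
    rw [h i hi]
    exact h1 i hi

theorem theta_dep (t : List (ℕ × Om)) : ∃ N, Dep N (theta t) := by
  induction t with
  | nil => exact ⟨0, fun _ _ _ => rfl⟩
  | cons a s ih =>
    obtain ⟨N, hN⟩ := ih
    refine ⟨N + (s.length + 2) + (idx (a :: s) + 1), fun x y h => ?_⟩
    have h1 := hN x y fun i hi => h i (by omega)
    have h2 := cyl_dep (s.length + 2) a.2 x y fun i hi => h i (by omega)
    have h3 := rad_dep (idx (a :: s)) x y fun i hi => h i (by omega)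
    simp only [theta, h1, h3]
    by_cases h4 : y ∈ cyl (s.length + 2) a.2
    · have h5 := h2.2 h4
      simp [h4, h5]
    · have h5 : x ∉ cyl (s.length + 2) a.2 := fun h => h4 (h2.1 h)
      simp [h4, h5]

theorem theta_zero_iff (t : List (ℕ × Om)) (x y : Om) (h : ∀ i < t.length + 1, x i = y i) :
    theta t x = 0 ↔ theta t y = 0 := by
  induction t with
  | nil => simp [theta]
  | cons a s ih =>
    have ih' := ih fun i hi => h i (by simp only [List.length_cons]; omega)
    have h2 := cyl_dep (s.length + 2) a.2 x y fun i hi => h i (by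
      simp only [List.length_cons]; omega)
    have h3 : ∀ z, rad (idx (a :: s)) z ≠ 0 := by
      intro z
      rcases rad_cases (idx (a :: s)) z with h | h <;> rw [h] <;> norm_num
    simp only [theta]
    by_cases h1 : theta s x = 0
    · have h1' := ih'.1 h1
      simp only [h1, h1', ne_eq, not_true_eq_false, if_false]
      by_cases h4 : y ∈ cyl (s.length + 2) a.2
      · have h5 := h2.2 h4
        simp [h4, h5, h3]
      · have h5 : x ∉ cyl (s.length + 2) a.2 := fun h => h4 (h2.1 h)
        simp [h4, h5]
    · have h1' : ¬ theta s y = 0 := fun h => h1 (ih'.2 h)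
      simp [h1, h1']

theorem theta_abs_le (t : List (ℕ × Om)) (x : Om) : |theta t x| ≤ 1 := by
  rcases theta_cases t x with h | h | h <;> rw [h] <;> norm_num

theorem theta_kill (m : ℕ) (b : Om) (s : List (ℕ × Om)) (x : Om)
    (hx : x ∈ cyl (s.length + 2) b) :
    theta ((m, b) :: s) x = 1 ∨ theta ((m, b) :: s) x = -1 := by
  simp only [theta]
  split_ifs with h1
  · rcases theta_cases s x with h | h | h
    · exact absurd h h1
    · exact Or.inl h
    · exact Or.inr h
  · exact rad_cases _ _

open Classical in
theorem int_theta_cons (g : Om → ℝ) (N : ℕ) (hg : Dep N g) (a : ℕ × Om) (s : List (ℕ × Om))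
    (hN : N ≤ idx (a :: s)) :
    ∫ x, g x * theta (a :: s) x ∂lam = ∫ x, g x * theta s x ∂lam := by
  obtain ⟨M, hM⟩ := theta_dep s
  have hi1 : Integrable (fun x => g x * theta s x) lam :=
    (hg.comp₂ hM (fun a b => a * b)).integrable
  have hidx : s.length + 2 ≤ idx (a :: s) := by
    unfold idx
    simp only [List.length_cons]
    omega
  set h : Om → ℝ := fun x => if theta s x = 0 ∧ x ∈ cyl (s.length + 2) a.2 then g x else 0
    with hh
  have hdep : Dep (N + (s.length + 2)) h := by
    intro x y hxy
    have h1 := theta_zero_iff s x y fun i hi => hxy i (by omega)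
    have h2 := cyl_dep (s.length + 2) a.2 x y fun i hi => hxy i (by omega)
    have h3 := hg x y fun i hi => hxy i (by omega)
    simp only [hh, h1, h2, h3]
  have hflip : ∀ x, h (flip (idx (a :: s)) x) = h x := by
    intro x
    have h0 : ∀ i < idx (a :: s), flip (idx (a :: s)) x i = x i := by
      intro i hi
      unfold flip
      have : i ≠ idx (a :: s) := by omega
      simp [this]
    have h1 := theta_zero_iff s (flip (idx (a :: s)) x) x fun i hi => h0 i (by omega)
    have h2 := cyl_dep (s.length + 2) a.2 (flip (idx (a :: s)) x) x fun i hi => h0 i (by omega)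
    have h3 := hg (flip (idx (a :: s)) x) x fun i hi => h0 i (by omega)
    simp only [hh, h1, h2, h3]
  have hz := integral_rad h (idx (a :: s)) hflip
  have hi2 : Integrable (fun x => h x * rad (idx (a :: s)) x) lam :=
    (hdep.comp₂ (rad_dep _) (fun a b => a * b)).integrable
  have heq : ∀ x, g x * theta (a :: s) x = g x * theta s x + h x * rad (idx (a :: s)) x := by
    intro x
    simp only [hh, theta]
    by_cases h1 : theta s x = 0
    · by_cases h2 : x ∈ cyl (s.length + 2) a.2
      · simp [h1, h2]
      · simp [h1, h2]
    · simp [h1]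
  simp_rw [heq]
  rw [integral_add hi1 hi2, hz, add_zero]

theorem int_abs_theta (t : List (ℕ × Om)) :
    ∫ x, |theta t x| ∂lam ≤ 1 / 2 - (1 / 2) ^ (t.length + 1) := by
  induction t with
  | nil => simp [theta]
  | cons a s ih =>
    have h1 : ∀ x, |theta (a :: s) x| ≤ |theta s x| +
        (cyl (s.length + 2) a.2).indicator (fun _ => (1 : ℝ)) x := by
      intro x
      by_cases h2 : x ∈ cyl (s.length + 2) a.2
      · rw [Set.indicator_of_mem h2]
        have := theta_abs_le (a :: s) x
        have := abs_nonneg (theta s x)
        linarith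
      · rw [Set.indicator_of_notMem h2]
        simp only [theta, h2, if_false, add_zero]
        split_ifs with h3
        · exact le_refl _
        · simp
    obtain ⟨M, hM⟩ := theta_dep s
    obtain ⟨M', hM'⟩ := theta_dep (a :: s)
    have hi0 : Integrable (fun x => |theta (a :: s) x|) lam :=
      (hM'.comp₂ hM' (fun a _ => |a|)).integrable
    have hi1 : Integrable (fun x => |theta s x|) lam :=
      (hM.comp₂ hM (fun a _ => |a|)).integrable
    have hd : Dep (s.length + 2) ((cyl (s.length + 2) a.2).indicator (fun _ => (1 : ℝ))) := by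
      classical
      intro x y hxy
      have h2 := cyl_dep (s.length + 2) a.2 x y hxy
      simp only [Set.indicator_apply, h2]
    have hmeas : MeasurableSet (cyl (s.length + 2) a.2) := by
      have h3 : cyl (s.length + 2) a.2 =
          ((cyl (s.length + 2) a.2).indicator (fun _ => (1 : ℝ))) ⁻¹' {1} := by
        ext x
        by_cases h4 : x ∈ cyl (s.length + 2) a.2 <;> simp [h4]
      rw [h3]
      exact hd.measurable (measurableSet_singleton _)
    calc ∫ x, |theta (a :: s) x| ∂lam
        ≤ ∫ x, (|theta s x| + (cyl (s.length + 2) a.2).indicator (fun _ => (1 : ℝ)) x) ∂lam :=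
          integral_mono hi0 (hi1.add hd.integrable) h1
      _ = ∫ x, |theta s x| ∂lam + (1 / 2) ^ (s.length + 2) := by
          rw [integral_add hi1 hd.integrable]
          congr 1
          rw [integral_indicator_const _ hmeas, lam_cyl]
          simp
      _ ≤ (1 / 2 - (1 / 2) ^ (s.length + 1)) + (1 / 2) ^ (s.length + 2) := by gcongr
      _ = 1 / 2 - (1 / 2) ^ ((a :: s).length + 1) := by
          simp only [List.length_cons]
          ring

end Pool.Agent.Q203.OrthJoin
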