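import Mathlib
import Pool.Agent.Q203.OrthJoin

/-!
Orthogonally additive maps: the counterexample.
-/

open MeasureTheory Set
open scoped ENNReal Pointwise

namespace Pool.Agent.Q203.OrthJoin

/-- The tree of finite sequences (latest entry first). -/
def Tr : Type := List (ℕ × Om)

/-- Underlying list. -/
def Tr.l (t : Tr) : List (ℕ × Om) := t

/-- The topology of the tree: a set is open if with each `s` it contains all extensions of
`(m, b) :: s` for all large `m` and all `b`. -/
instance : TopologicalSpace Tr where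
  IsOpen U := ∀ s : List (ℕ × Om), s ∈ (U : Set (List (ℕ × Om))) →
    ∃ m₀ : ℕ, ∀ m ≥ m₀, ∀ (b : Om) (l : List (ℕ × Om)), (l ++ (m, b) :: s) ∈ (U : Set _)
  isOpen_univ := fun _ _ => ⟨0, fun _ _ _ _ => trivial⟩
  isOpen_inter := by
    intro U V hU hV s hs
    obtain ⟨m, hm⟩ := hU s hs.1
    obtain ⟨n, hn⟩ := hV s hs.2
    exact ⟨max m n, fun k hk b l => ⟨hm k (le_trans (le_max_left _ _) hk) b l,
      hn k (le_trans (le_max_right _ _) hk) b l⟩⟩
  isOpen_sUnion := by
    intro S hS s hs
    obtain ⟨U, hU, hsU⟩ := hs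
    obtain ⟨m, hm⟩ := hS U hU s hsU
    exact ⟨m, fun k hk b l => ⟨U, hU, hm k hk b l⟩⟩

theorem isOpen_iff (U : Set Tr) : IsOpen U ↔ ∀ s : List (ℕ × Om), s ∈ (U : Set (List (ℕ × Om))) →
    ∃ m₀ : ℕ, ∀ m ≥ m₀, ∀ (b : Om) (l : List (ℕ × Om)), (l ++ (m, b) :: s) ∈ (U : Set _) :=
  Iff.rfl

/-- Locally constant functions are continuous. -/
theorem cont_of (φ : Tr → ℝ) (h : ∀ s : List (ℕ × Om), ∃ m₀ : ℕ, ∀ m ≥ m₀, ∀ (b : Om)
    (l : List (ℕ × Om)), φ (l ++ (m, b) :: s : List (ℕ × Om)) = φ s) : Continuous φ := by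
  refine ⟨fun U _ => ?_⟩
  rw [isOpen_iff]
  intro s hs
  obtain ⟨m₀, hm₀⟩ := h s
  refine ⟨m₀, fun m hm b l => ?_⟩
  change φ _ ∈ U
  rw [hm₀ m hm b l]
  exact hs

theorem int_theta_append (g : Om → ℝ) (N : ℕ) (hg : Dep N g) (s : List (ℕ × Om)) (m : ℕ)
    (hm : N ≤ m) (b : Om) (l : List (ℕ × Om)) :
    ∫ x, g x * theta (l ++ (m, b) :: s) x ∂lam = ∫ x, g x * theta s x ∂lam := by
  induction l with
  | nil =>
    refine int_theta_cons g N hg (m, b) s ?_
    unfold idx
    simp only [List.map_cons, List.sum_cons]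
    omega
  | cons a l ih =>
    rw [List.cons_append, int_theta_cons g N hg a _ ?_, ih]
    unfold idx
    simp only [List.map_cons, List.sum_cons, List.map_append, List.sum_append]
    omega

/-- The values of the operators. -/
noncomputable def opv (e : ℝ) (f : Dom) (t : List (ℕ × Om)) : ℝ :=
  -∫ x, |f.val x| * (1 + e * theta t x) ∂lam

theorem int1 (f : Dom) : Integrable (fun x => |f.val x|) lam := by
  obtain ⟨N, hN⟩ := f.dep
  exact (hN.comp₂ hN (fun a _ => |a|)).integrable

theorem int2 (f : Dom) (t : List (ℕ × Om)) : Integrable (fun x => |f.val x| * theta t x) lam := by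
  obtain ⟨N, hN⟩ := f.dep
  obtain ⟨M, hM⟩ := theta_dep t
  exact (hN.comp₂ hM (fun a b => |a| * b)).integrable

theorem int3 (f : Dom) (e : ℝ) (t : List (ℕ × Om)) :
    Integrable (fun x => |f.val x| * (1 + e * theta t x)) lam := by
  obtain ⟨N, hN⟩ := f.dep
  obtain ⟨M, hM⟩ := theta_dep t
  exact (hN.comp₂ hM (fun a b => |a| * (1 + e * b))).integrable

theorem opv_eq (e : ℝ) (f : Dom) (t : List (ℕ × Om)) :
    opv e f t = -(∫ x, |f.val x| ∂lam + e * ∫ x, |f.val x| * theta t x ∂lam) := by
  unfold opv
  rw [← integral_const_mul, ← integral_add (int1 f) ((int2 f t).const_mul e)]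
  congr 2
  funext x
  ring

/-- The operators `S` (for `e = 1`) and `T` (for `e = -1`). -/
noncomputable def op (e : ℝ) (f : Dom) : C(Tr, ℝ) :=
  ⟨fun t => opv e f t, by
    refine cont_of _ fun s => ?_
    obtain ⟨N, hN⟩ := f.dep
    refine ⟨N, fun m hm b l => ?_⟩
    change opv e f (l ++ (m, b) :: s) = opv e f s
    rw [opv_eq, opv_eq, int_theta_append _ N (by
      intro x y h
      simp only [hN x y h]) s m hm b l]⟩

theorem op_apply (e : ℝ) (f : Dom) (t : Tr) : op e f t = opv e f t := rfl

theorem op_orth (e : ℝ) : OrthAdd (op e) := by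
  intro f g h
  rw [disj_iff] at h
  ext t
  rw [ContinuousMap.add_apply, op_apply, op_apply, op_apply]
  unfold opv
  rw [← neg_add, ← integral_add (int3 f e t) (int3 g e t)]
  congr 2
  funext x
  rw [Dom.val_add, Pi.add_apply]
  rcases h x with h1 | h1 <;> rw [h1] <;> simp

theorem op_nonpos (e : ℝ) (he : |e| ≤ 1) : op e ≤ 0 := by
  intro f t
  change opv e f t ≤ 0
  unfold opv
  rw [neg_nonpos]
  refine integral_nonneg fun x => ?_
  refine mul_nonneg (abs_nonneg _) ?_
  have h1 := theta_abs_le t x
  have h2 : |e * theta t x| ≤ 1 := by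
    rw [abs_mul]
    exact mul_le_one₀ he (abs_nonneg _) h1
  have := neg_abs_le (e * theta t x)
  linarith

theorem cut_add (f : Dom) (P Q R : Om → Prop) (hP : DepP P) (hQ : DepP Q) (hR : DepP R)
    (h1 : ∀ x, P x ↔ (Q x ∨ R x)) (h2 : ∀ x, ¬ (Q x ∧ R x)) :
    cut f P hP = cut f Q hQ + cut f R hR ∧ Disj (cut f Q hQ) (cut f R hR) := by
  constructor
  · apply Dom.val_inj
    funext x
    rw [Dom.val_add, Pi.add_apply, cut_val, cut_val, cut_val]
    have h3 := h1 x
    have h4 := h2 x
    by_cases hq : Q x
    · have hr : ¬ R x := fun h => h4 ⟨hq, h⟩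
      have hp : P x := h3.2 (Or.inl hq)
      simp [hq, hr, hp]
    · by_cases hr : R x
      · have hp : P x := h3.2 (Or.inr hr)
        simp [hq, hr, hp]
      · have hp : ¬ P x := fun h => (h3.1 h).elim hq hr
        simp [hq, hr, hp]
  · rw [disj_iff]
    intro x
    rw [cut_val, cut_val]
    by_cases hq : Q x
    · have hr : ¬ R x := fun h => h2 x ⟨hq, h⟩
      right
      simp [hr]
    · left
      simp [hq]

theorem depP_cyl (k : ℕ) (b : Om) : DepP (fun x => x ∈ cyl k b) :=
  ⟨k, fun x y h => cyl_dep k b x y h⟩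

theorem depP_theta (t : List (ℕ × Om)) (c : ℝ) (k : ℕ) (b : Om) :
    DepP (fun x => x ∈ cyl k b ∧ theta t x = c) := by
  obtain ⟨N, hN⟩ := theta_dep t
  refine ⟨N + k, fun x y h => ?_⟩
  have h1 := hN x y fun i hi => h i (by omega)
  have h2 := cyl_dep k b x y fun i hi => h i (by omega)
  simp only [h1, h2]

section

variable (R : Dom → C(Tr, ℝ)) (hR : OrthAdd R) (h1 : op 1 ≤ R) (h2 : op (-1) ≤ R)

include hR h1 h2 in
theorem kill_nonneg (f : Dom) (s : List (ℕ × Om)) (m : ℕ) (b : Om) :
    0 ≤ R (cut f _ (depP_cyl (s.length + 2) b)) ((m, b) :: s : List (ℕ × Om)) := by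
  set t : List (ℕ × Om) := (m, b) :: s with ht
  have key := cut_add f (fun x => x ∈ cyl (s.length + 2) b)
    (fun x => x ∈ cyl (s.length + 2) b ∧ theta t x = 1)
    (fun x => x ∈ cyl (s.length + 2) b ∧ theta t x = -1)
    (depP_cyl _ b) (depP_theta t 1 _ b) (depP_theta t (-1) _ b) (by
      intro x
      constructor
      · intro hx
        rcases theta_kill m b s x hx with h | h
        · exact Or.inl ⟨hx, h⟩
        · exact Or.inr ⟨hx, h⟩
      · rintro (h | h) <;> exact h.1) (by
      rintro x ⟨⟨_, h3⟩, ⟨_, h4⟩⟩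
      rw [h3] at h4
      norm_num at h4)
  rw [key.1, hR _ _ key.2]
  refine add_nonneg (a := R (cut f (fun x => x ∈ cyl (s.length + 2) b ∧ theta t x = 1)
    (depP_theta t 1 _ b)) t) (b := R (cut f (fun x => x ∈ cyl (s.length + 2) b ∧
    theta t x = -1) (depP_theta t (-1) _ b)) t) ?_ ?_
  · refine le_trans ?_ (h2 _ t)
    change 0 ≤ opv (-1) _ t
    unfold opv
    rw [le_neg, neg_zero]
    refine le_of_eq ?_
    rw [show (0 : ℝ) = ∫ x, (0 : ℝ) ∂lam by simp]
    congr 1
    funext x
    rw [cut_val]
    by_cases h : x ∈ cyl (s.length + 2) b ∧ theta t x = 1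
    · rw [h.2]
      simp
    · simp [h]
  · refine le_trans ?_ (h1 _ t)
    change 0 ≤ opv 1 _ t
    unfold opv
    rw [le_neg, neg_zero]
    refine le_of_eq ?_
    rw [show (0 : ℝ) = ∫ x, (0 : ℝ) ∂lam by simp]
    congr 1
    funext x
    rw [cut_val]
    by_cases h : x ∈ cyl (s.length + 2) b ∧ theta t x = -1
    · rw [h.2]
      simp
    · simp [h]

include hR h1 h2 in
theorem lim_nonneg (f : Dom) (s : List (ℕ × Om)) (b : Om) :
    0 ≤ R (cut f _ (depP_cyl (s.length + 2) b)) s := by
  by_contra hneg
  push Not at hneg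
  set φ : C(Tr, ℝ) := R (cut f _ (depP_cyl (s.length + 2) b)) with hφ
  have hopen : IsOpen {t : Tr | φ t < 0} := isOpen_lt φ.continuous continuous_const
  rw [isOpen_iff] at hopen
  obtain ⟨m₀, hm₀⟩ := hopen s hneg
  have h3 := hm₀ m₀ le_rfl b []
  have h4 := kill_nonneg R hR h1 h2 f s m₀ b
  exact absurd h3 (not_lt.2 h4)

theorem cyl_succ (j : ℕ) (b x : Om) :
    x ∈ cyl j b ↔ (x ∈ cyl (j + 1) b ∨ x ∈ cyl (j + 1) (flip j b)) := by
  unfold cyl
  simp only [Set.mem_ofPred_eq]
  constructor
  · intro h
    by_cases hx : x j = b j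
    · left
      intro i hi
      by_cases hij : i = j
      · rw [hij]
        exact hx
      · exact h i (by omega)
    · right
      intro i hi
      unfold flip
      by_cases hij : i = j
      · subst hij
        simp only [if_true]
        cases hb : b i <;> cases hx' : x i <;> simp_all
      · simp only [hij, if_false]
        exact h i (by omega)
  · rintro (h | h)
    · exact fun i hi => h i (by omega)
    · intro i hi
      have h1 := h i (by omega)
      unfold flip at h1
      have : i ≠ j := by omega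
      simpa [this] using h1

include hR h1 h2 in
theorem all_nonneg (f : Dom) (s : List (ℕ × Om)) : 0 ≤ R f s := by
  have key : ∀ d : ℕ, d ≤ s.length + 2 → ∀ b : Om,
      0 ≤ R (cut f _ (depP_cyl (s.length + 2 - d) b)) s := by
    intro d
    induction d with
    | zero =>
      intro _ b
      exact lim_nonneg R hR h1 h2 f s b
    | succ d ih =>
      intro hd b
      have ih' := ih (by omega)
      have hsub : s.length + 2 - d = s.length + 2 - (d + 1) + 1 := by omega
      rw [hsub] at ih'
      set j := s.length + 2 - (d + 1) with hj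
      have hk := cut_add f (fun x => x ∈ cyl j b) (fun x => x ∈ cyl (j + 1) b)
        (fun x => x ∈ cyl (j + 1) (flip j b)) (depP_cyl _ _) (depP_cyl _ _) (depP_cyl _ _)
        (cyl_succ j b) (by
          rintro x ⟨h3, h4⟩
          have h5 : x j = b j := h3 j (by omega)
          have h6 : x j = flip j b j := h4 j (by omega)
          rw [h5] at h6
          unfold flip at h6
          simp at h6)
      rw [hk.1, hR _ _ hk.2]
      exact add_nonneg (ih' b) (ih' (flip j b))
  have h0 := key (s.length + 2) le_rfl (fun _ => false)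
  have hcut : cut f _ (depP_cyl (s.length + 2 - (s.length + 2)) (fun _ => false)) = f := by
    apply Dom.val_inj
    funext x
    rw [cut_val]
    have : x ∈ cyl (s.length + 2 - (s.length + 2)) (fun _ => false) := by
      unfold cyl
      intro i hi
      omega
    rw [if_pos this]
  rw [hcut] at h0
  exact h0

end

/-- The join of `S` and `T` is zero. -/
theorem join_zero : IsJoin (op 1) (op (-1)) (0 : Dom → C(Tr, ℝ)) := by
  refine ⟨⟨fun x y _ => by simp, op_nonpos 1 (by simp), op_nonpos (-1) (by simp)⟩, ?_⟩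
  rintro R ⟨hR, h1, h2⟩ f t
  exact all_nonneg R hR h1 h2 f t

/-- The constant function one. -/
def one : Dom := ⟨fun _ => 1, 0, fun _ _ _ => rfl⟩

theorem one_val (x : Om) : one.val x = 1 := rfl

/-- The constant `c`. -/
def cst (c : ℝ) : C(Tr, ℝ) := ContinuousMap.const Tr c

theorem split_le (w : C(Tr, ℝ)) (hw : w ∈ Splits (op 1) (op (-1)) one) : w ≤ cst (-(1 / 2)) := by
  obtain ⟨u, v, huv, hd, rfl⟩ := hw
  rw [disj_iff] at hd
  intro t
  change opv 1 u t + opv (-1) v t ≤ -(1 / 2)
  unfold opv
  have h1 : ∀ x, 1 - |theta t x| ≤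
      |u.val x| * (1 + 1 * theta t x) + |v.val x| * (1 + -1 * theta t x) := by
    intro x
    have h2 : u.val x + v.val x = 1 := by
      have := congrFun (congrArg Dom.val huv) x
      rw [one_val, Dom.val_add, Pi.add_apply] at this
      exact this.symm
    rcases hd x with h3 | h3
    · rw [h3] at h2 ⊢
      have h4 : v.val x = 1 := by linarith
      rw [h4]
      have := le_abs_self (theta t x)
      simp only [abs_zero, zero_mul, abs_one]
      linarith
    · rw [h3] at h2 ⊢
      have h4 : u.val x = 1 := by linarith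
      rw [h4]
      have := neg_abs_le (theta t x)
      simp only [abs_zero, zero_mul, abs_one]
      linarith
  obtain ⟨M, hM⟩ := theta_dep t
  have hi1 : Integrable (fun x => 1 - |theta t x|) lam :=
    (hM.comp₂ hM (fun a _ => 1 - |a|)).integrable
  have hi2 : Integrable (fun x => |theta t x|) lam :=
    (hM.comp₂ hM (fun a _ => |a|)).integrable
  have h5 := integral_mono hi1 ((int3 u 1 t).add (int3 v (-1) t)) h1
  simp only [Pi.add_apply] at h5
  rw [integral_add (int3 u 1 t) (int3 v (-1) t), integral_sub (integrable_const _) hi2] at h5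
  have h6 := int_abs_theta t
  have h7 : (0 : ℝ) < (1 / 2) ^ (t.l.length + 1) := by positivity
  have h8 : ∫ (_ : Om), (1 : ℝ) ∂lam = 1 := by simp
  have h9 : (1 / 2 : ℝ) ^ (t.l.length + 1) = (1 / 2) ^ (List.length t + 1) := rfl
  rw [h9] at h7
  linarith

/-- The set of splittings is additive on disjoint elements. -/
theorem splits_add (S T : Dom → C(Tr, ℝ)) (hS : OrthAdd S) (hT : OrthAdd T) (x y : Dom)
    (hxy : Disj x y) : Splits S T (x + y) = Splits S T x + Splits S T y := by
  rw [disj_iff] at hxy
  ext w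
  rw [Set.mem_add]
  constructor
  · rintro ⟨u, v, huv, hd, rfl⟩
    rw [disj_iff] at hd
    have hval : ∀ p, x.val p + y.val p = u.val p + v.val p := fun p => by
      have := congrFun (congrArg Dom.val huv) p
      simpa [Dom.val_add] using this
    have hPx : DepP (fun p => x.val p ≠ 0) := by
      obtain ⟨N, hN⟩ := x.dep
      exact ⟨N, fun a b h => by simp only [hN a b h]⟩
    have hPx' : DepP (fun p => x.val p = 0) := by
      obtain ⟨N, hN⟩ := x.dep
      exact ⟨N, fun a b h => by simp only [hN a b h]⟩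
    have htriv : DepP (fun _ => True) := ⟨0, fun _ _ _ => Iff.rfl⟩
    have hu := cut_add u (fun _ => True) (fun p => x.val p ≠ 0) (fun p => x.val p = 0) htriv
      hPx hPx' (fun p => by tauto) (fun p => by tauto)
    have hv := cut_add v (fun _ => True) (fun p => x.val p ≠ 0) (fun p => x.val p = 0) htriv
      hPx hPx' (fun p => by tauto) (fun p => by tauto)
    have hcu : cut u (fun _ => True) htriv = u := by
      apply Dom.val_inj
      funext p
      rw [cut_val]
      simp
    have hcv : cut v (fun _ => True) htriv = v := by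
      apply Dom.val_inj
      funext p
      rw [cut_val]
      simp
    rw [hcu] at hu
    rw [hcv] at hv
    refine ⟨S (cut u _ hPx) + T (cut v _ hPx), ⟨_, _, ?_, ?_, rfl⟩,
      S (cut u _ hPx') + T (cut v _ hPx'), ⟨_, _, ?_, ?_, rfl⟩, ?_⟩
    · apply Dom.val_inj
      funext p
      rw [Dom.val_add, Pi.add_apply, cut_val, cut_val]
      by_cases h : x.val p = 0
      · simp [h]
      · have h3 : y.val p = 0 := (hxy p).resolve_left h
        have := hval p
        rw [h3, add_zero] at this
        simpa [h] using this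
    · rw [disj_iff]
      intro p
      rw [cut_val, cut_val]
      by_cases h : x.val p = 0
      · simp [h]
      · simpa [h] using hd p
    · apply Dom.val_inj
      funext p
      rw [Dom.val_add, Pi.add_apply, cut_val, cut_val]
      by_cases h : x.val p = 0
      · have := hval p
        rw [h, zero_add] at this
        simpa [h] using this
      · have h3 : y.val p = 0 := (hxy p).resolve_left h
        simp [h, h3]
    · rw [disj_iff]
      intro p
      rw [cut_val, cut_val]
      by_cases h : x.val p = 0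
      · simpa [h] using hd p
      · simp [h]
    · conv_rhs => rw [hu.1, hv.1, hS _ _ hu.2, hT _ _ hv.2]
      abel
  · rintro ⟨_, ⟨u, v, huv, hd, rfl⟩, _, ⟨u', v', huv', hd', rfl⟩, rfl⟩
    rw [disj_iff] at hd hd'
    have hval : ∀ p, x.val p = u.val p + v.val p := fun p => by
      have := congrFun (congrArg Dom.val huv) p
      simpa [Dom.val_add] using this
    have hval' : ∀ p, y.val p = u'.val p + v'.val p := fun p => by
      have := congrFun (congrArg Dom.val huv') p
      simpa [Dom.val_add] using this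
    have hzero : ∀ p, (u.val p = 0 ∧ v.val p = 0) ∨ (u'.val p = 0 ∧ v'.val p = 0) := by
      intro p
      rcases hxy p with h | h
      · left
        have h3 := hval p
        rw [h] at h3
        rcases hd p with h4 | h4
        · rw [h4] at h3
          exact ⟨h4, by linarith⟩
        · rw [h4] at h3
          exact ⟨by linarith, h4⟩
      · right
        have h3 := hval' p
        rw [h] at h3
        rcases hd' p with h4 | h4
        · rw [h4] at h3
          exact ⟨h4, by linarith⟩
        · rw [h4] at h3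
          exact ⟨by linarith, h4⟩
    have hdu : Disj u u' := by
      rw [disj_iff]
      intro p
      rcases hzero p with h | h
      · exact Or.inl h.1
      · exact Or.inr h.1
    have hdv : Disj v v' := by
      rw [disj_iff]
      intro p
      rcases hzero p with h | h
      · exact Or.inl h.2
      · exact Or.inr h.2
    refine ⟨u + u', v + v', ?_, ?_, ?_⟩
    · rw [huv, huv']
      abel
    · rw [disj_iff]
      intro p
      rw [Dom.val_add, Dom.val_add, Pi.add_apply, Pi.add_apply]
      rcases hzero p with h | h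
      · rw [h.1, h.2, zero_add, zero_add]
        exact hd' p
      · rw [h.1, h.2, add_zero, add_zero]
        exact hd p
    · rw [hS _ _ hdu, hT _ _ hdv]
      abel

/-- The suprema of the sets of splittings do not all exist. -/
theorem not_all : ∃ x : Dom, ¬ ∃ z : C(Tr, ℝ), IsLUB (Splits (op 1) (op (-1)) x) z := by
  by_contra hcon
  push Not at hcon
  choose V hV using hcon
  have horth : OrthAdd V := by
    intro x y hxy
    have h1 := hV (x + y)
    rw [splits_add _ _ (op_orth 1) (op_orth (-1)) x y hxy] at h1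
    exact h1.unique ((hV x).add (hV y))
  have hop0 : ∀ e, op e (0 : Dom) = 0 := by
    intro e
    ext t
    change opv e 0 t = 0
    unfold opv
    simp [Dom.val_zero]
  have hS : op 1 ≤ V := by
    intro x
    refine (hV x).1 ⟨x, 0, by simp, ?_, by rw [hop0]; simp⟩
    rw [disj_iff]
    intro p
    right
    rfl
  have hT : op (-1) ≤ V := by
    intro x
    refine (hV x).1 ⟨0, x, by simp, ?_, by rw [hop0]; simp⟩
    rw [disj_iff]
    intro p
    left
    rfl
  have h0 : (0 : C(Tr, ℝ)) ≤ V one := join_zero.2 ⟨horth, hS, hT⟩ one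
  have h1 : V one ≤ cst (-(1 / 2)) := (hV one).2 fun w hw => split_le w hw
  have h2 : (0 : C(Tr, ℝ)) ([] : List (ℕ × Om)) ≤ cst (-(1 / 2)) ([] : List (ℕ × Om)) :=
    (h0.trans h1) _
  change (0 : ℝ) ≤ -(1 / 2) at h2
  norm_num at h2

end Pool.Agent.Q203.OrthJoin
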