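import Mathlib

/-!
# The translation group on `C₀(ℝ)` and the resolvent condition for stability
-/

set_option autoImplicit false

namespace Pool.Agent.Q203.ShiftC0

open Filter Topology MeasureTheory
open scoped ZeroAtInfty

theorem norm_le_of {f : C₀(ℝ, ℂ)} {C : ℝ} (hC : 0 ≤ C) (h : ∀ x, ‖f x‖ ≤ C) : ‖f‖ ≤ C := by
  rw [← ZeroAtInftyContinuousMap.norm_toBCF_eq_norm]
  exact (BoundedContinuousFunction.norm_le hC).mpr h

theorem norm_coe_le (f : C₀(ℝ, ℂ)) (x : ℝ) : ‖f x‖ ≤ ‖f‖ := by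
  rw [← ZeroAtInftyContinuousMap.norm_toBCF_eq_norm]
  exact f.toBCF.norm_coe_le_norm x

/-- Translation by `t` as a cocompact map. -/
noncomputable def tr (t : ℝ) : CocompactMap ℝ ℝ where
  toFun u := u + t
  continuous_toFun := by fun_prop
  cocompact_tendsto' := (Homeomorph.addRight t).isClosedEmbedding.tendsto_cocompact

/-- The translation group. -/
noncomputable def T (t : ℝ) : C₀(ℝ, ℂ) →L[ℂ] C₀(ℝ, ℂ) :=
  LinearMap.mkContinuous (ZeroAtInftyContinuousMap.compLinearMap (tr t)) 1 (by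
    intro f
    rw [one_mul]
    exact norm_le_of (norm_nonneg _) (fun x => norm_coe_le f (x + t)))

@[simp] theorem T_apply (t : ℝ) (f : C₀(ℝ, ℂ)) (u : ℝ) : T t f u = f (u + t) := rfl

theorem T_zero : T 0 = 1 := by
  ext f u
  simp

theorem T_add (s t : ℝ) : T (s + t) = T s * T t := by
  ext f u
  simp [add_assoc]

theorem T_norm (t : ℝ) : ‖T t‖ ≤ 1 := LinearMap.mkContinuous_norm_le _ zero_le_one _

theorem T_cont (f : C₀(ℝ, ℂ)) : Continuous (fun t : ℝ => T t f) := by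
  rw [Metric.continuous_iff]
  intro t ε hε
  have huc : UniformContinuous f := ZeroAtInftyContinuousMap.uniformContinuous f
  obtain ⟨δ, hδ, h⟩ := Metric.uniformContinuous_iff.mp huc (ε / 2) (by positivity)
  refine ⟨δ, hδ, fun s hs => ?_⟩
  rw [dist_eq_norm]
  refine lt_of_le_of_lt (norm_le_of (by positivity : 0 ≤ ε / 2) ?_) (by linarith)
  intro u
  have h1 := h (a := u + s) (b := u + t) (by rwa [dist_add_left])
  rw [dist_eq_norm] at h1
  exact h1.le

/-- The function `1 / (1 + u²)`. -/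
noncomputable def f₀ : C₀(ℝ, ℂ) where
  toFun u := (((1 + u ^ 2)⁻¹ : ℝ) : ℂ)
  continuous_toFun := by
    apply Complex.continuous_ofReal.comp
    apply Continuous.inv₀ (by fun_prop)
    intro x
    positivity
  zero_at_infty' := by
    have h1 : Tendsto (fun u : ℝ => 1 + ‖u‖ ^ 2) (cocompact ℝ) atTop :=
      tendsto_atTop_add_const_left _ _
        ((tendsto_pow_atTop two_ne_zero).comp (tendsto_norm_cocompact_atTop))
    have h2 := tendsto_inv_atTop_zero.comp h1
    have h3 := (Complex.continuous_ofReal.tendsto 0).comp h2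
    simpa [Function.comp_def] using h3

theorem f₀_apply (u : ℝ) : f₀ u = (((1 + u ^ 2)⁻¹ : ℝ) : ℂ) := rfl

theorem f₀_norm (u : ℝ) : ‖f₀ u‖ = (1 + u ^ 2)⁻¹ := by
  rw [f₀_apply, Complex.norm_real, Real.norm_eq_abs, abs_of_pos (by positivity)]

/-- The derivative of `f₀`. -/
noncomputable def f₁ (u : ℝ) : ℂ := ((-(2 * u) / (1 + u ^ 2) ^ 2 : ℝ) : ℂ)

theorem f₀_deriv (u : ℝ) : HasDerivAt (fun v : ℝ => f₀ v) (f₁ u) u := by
  have h1 : HasDerivAt (fun v : ℝ => (1 + v ^ 2)⁻¹) (-(2 * u) / (1 + u ^ 2) ^ 2) u := by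
    have h2 : HasDerivAt (fun v : ℝ => 1 + v ^ 2) (2 * u) u := by
      simpa using (hasDerivAt_pow 2 u).const_add 1
    exact h2.inv (by positivity)
  exact h1.ofReal_comp

theorem f₁_norm (u : ℝ) : ‖f₁ u‖ ≤ (1 + u ^ 2)⁻¹ := by
  unfold f₁
  rw [Complex.norm_real, Real.norm_eq_abs, abs_div, abs_neg, abs_mul, abs_two,
    abs_of_pos (by positivity : (0 : ℝ) < (1 + u ^ 2) ^ 2), div_le_iff₀ (by positivity)]
  have h : (1 + u ^ 2)⁻¹ * (1 + u ^ 2) ^ 2 = 1 + u ^ 2 := by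
    field_simp
  rw [h]
  nlinarith [sq_nonneg (|u| - 1), sq_abs u]

theorem f₁_cont : Continuous f₁ := by
  unfold f₁
  apply Complex.continuous_ofReal.comp
  apply Continuous.div (by fun_prop) (by fun_prop)
  intro x
  positivity

theorem int_bound (h : ℝ → ℂ) (hc : Continuous h) (hb : ∀ u, ‖h u‖ ≤ (1 + u ^ 2)⁻¹)
    (l : ℂ) (hl : 0 < l.re) (u : ℝ) :
    IntegrableOn (fun t : ℝ => Complex.exp (-(l * t)) * h (u + t)) (Set.Ioi 0) ∧
      ‖∫ t in Set.Ioi (0 : ℝ), Complex.exp (-(l * t)) * h (u + t)‖ ≤ Real.pi := by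
  have hint : Integrable (fun t : ℝ => (1 + (u + t) ^ 2)⁻¹) :=
    integrable_inv_one_add_sq.comp_add_left u
  have hle : ∀ t ∈ Set.Ioi (0 : ℝ), ‖Complex.exp (-(l * t)) * h (u + t)‖ ≤
      (1 + (u + t) ^ 2)⁻¹ := by
    intro t ht
    rw [norm_mul, Complex.norm_exp]
    have h1 : Real.exp (-(l * t)).re ≤ 1 := by
      rw [Real.exp_le_one_iff]
      simp only [Complex.neg_re, Complex.mul_re, Complex.ofReal_re, Complex.ofReal_im, mul_zero,
        sub_zero]
      have : 0 < l.re * t := mul_pos hl ht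
      linarith
    calc Real.exp (-(l * t)).re * ‖h (u + t)‖ ≤ 1 * (1 + (u + t) ^ 2)⁻¹ := by
          gcongr
          exact hb _
      _ = _ := one_mul _
  have hmeas : AEStronglyMeasurable (fun t : ℝ => Complex.exp (-(l * t)) * h (u + t))
      (volume.restrict (Set.Ioi 0)) := by
    apply Continuous.aestronglyMeasurable
    fun_prop
  refine ⟨Integrable.mono' hint.integrableOn hmeas
    ((ae_restrict_mem measurableSet_Ioi).mono hle), ?_⟩
  calc ‖∫ t in Set.Ioi (0 : ℝ), Complex.exp (-(l * t)) * h (u + t)‖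
      ≤ ∫ t in Set.Ioi (0 : ℝ), (1 + (u + t) ^ 2)⁻¹ :=
        norm_integral_le_of_norm_le hint.integrableOn ((ae_restrict_mem measurableSet_Ioi).mono hle)
    _ ≤ ∫ t : ℝ, (1 + (u + t) ^ 2)⁻¹ := by
        apply setIntegral_le_integral hint
        exact Filter.Eventually.of_forall (fun t => by positivity)
    _ = Real.pi := by
        rw [integral_add_left_eq_self (fun t : ℝ => (1 + t ^ 2)⁻¹) u, integral_univ_inv_one_add_sq]

theorem resolvent_parts (l : ℂ) (hl : 0 < l.re) (u : ℝ) :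
    l * ∫ t in Set.Ioi (0 : ℝ), Complex.exp (-(l * t)) * f₀ (u + t) =
      f₀ u + ∫ t in Set.Ioi (0 : ℝ), Complex.exp (-(l * t)) * f₁ (u + t) := by
  have h0 := int_bound (fun u => f₀ u) f₀.continuous (fun u => (f₀_norm u).le) l hl u
  have h1 := int_bound f₁ f₁_cont f₁_norm l hl u
  have hder : ∀ t ∈ Set.Ioi (0 : ℝ), HasDerivAt
      (fun t : ℝ => Complex.exp (-(l * t)) * f₀ (u + t))
      (-l * (Complex.exp (-(l * t)) * f₀ (u + t)) + Complex.exp (-(l * t)) * f₁ (u + t)) t := by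
    intro t _
    have e1 : HasDerivAt (fun t : ℝ => Complex.exp (-(l * t)))
        (Complex.exp (-(l * t)) * (-(l * 1))) t := by
      have : HasDerivAt (fun t : ℝ => -(l * (t : ℂ))) (-(l * 1)) t :=
        ((hasDerivAt_id t).ofReal_comp.const_mul l).neg
      exact this.cexp
    have e2 : HasDerivAt (fun t : ℝ => f₀ (u + t)) (f₁ (u + t)) t := by
      have := (f₀_deriv (u + t)).comp_const_add u t
      exact this
    convert! e1.mul e2 using 1
    ring
  have hint : IntegrableOn (fun t : ℝ => -l * (Complex.exp (-(l * t)) * f₀ (u + t)) +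
      Complex.exp (-(l * t)) * f₁ (u + t)) (Set.Ioi 0) :=
    (h0.1.const_mul (-l)).add h1.1
  have hlim : Tendsto (fun t : ℝ => Complex.exp (-(l * t)) * f₀ (u + t)) atTop (𝓝 0) := by
    rw [tendsto_zero_iff_norm_tendsto_zero]
    have h2 : Tendsto (fun t : ℝ => Real.exp (-(l.re * t))) atTop (𝓝 0) :=
      Real.tendsto_exp_neg_atTop_nhds_zero.comp (tendsto_id.const_mul_atTop hl)
    refine squeeze_zero (fun t => norm_nonneg _) (fun t => ?_) h2
    rw [norm_mul, Complex.norm_exp, f₀_norm]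
    have h3 : (-(l * (t : ℂ))).re = -(l.re * t) := by simp
    rw [h3]
    have h4 : (1 + (u + t) ^ 2)⁻¹ ≤ 1 := inv_le_one_of_one_le₀ (by nlinarith [sq_nonneg (u + t)])
    calc Real.exp (-(l.re * t)) * (1 + (u + t) ^ 2)⁻¹ ≤ Real.exp (-(l.re * t)) * 1 := by gcongr
      _ = _ := mul_one _
  have hcw : ContinuousWithinAt (fun t : ℝ => Complex.exp (-(l * t)) * f₀ (u + t))
      (Set.Ici 0) 0 := by
    apply Continuous.continuousWithinAt
    have := f₀.continuous
    fun_prop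
  have hF := integral_Ioi_of_hasDerivAt_of_tendsto hcw hder hint hlim
  rw [integral_add (h0.1.const_mul (-l)) h1.1, integral_const_mul] at hF
  simp only [Complex.ofReal_zero, mul_zero, neg_zero, Complex.exp_zero, one_mul, add_zero,
    zero_sub] at hF
  linear_combination (-1) * hF

/-- Evaluation at a point. -/
noncomputable def ev (u : ℝ) : C₀(ℝ, ℂ) →L[ℂ] ℂ :=
  LinearMap.mkContinuous
    { toFun := fun f => f u, map_add' := fun _ _ => rfl, map_smul' := fun _ _ => rfl } 1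
    (fun f => by rw [one_mul]; exact norm_coe_le f u)

theorem resolvent_bounds (l : ℂ) (hl : 0 < l.re) :
    ‖∫ t in Set.Ioi (0 : ℝ), Complex.exp (-(l * (t : ℂ))) • T t f₀‖ ≤ Real.pi ∧
    ‖l‖ * ‖∫ t in Set.Ioi (0 : ℝ), Complex.exp (-(l * (t : ℂ))) • T t f₀‖ ≤ 1 + Real.pi := by
  have hpi := Real.pi_pos
  by_cases hI : IntegrableOn (fun t : ℝ => Complex.exp (-(l * (t : ℂ))) • T t f₀) (Set.Ioi 0)
  · have hev : ∀ u, (∫ t in Set.Ioi (0 : ℝ), Complex.exp (-(l * (t : ℂ))) • T t f₀) u =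
        ∫ t in Set.Ioi (0 : ℝ), Complex.exp (-(l * (t : ℂ))) * f₀ (u + t) := by
      intro u
      exact ((ev u).integral_comp_comm hI).symm
    constructor
    · apply norm_le_of hpi.le
      intro u
      rw [hev]
      exact (int_bound (fun u => f₀ u) f₀.continuous (fun u => (f₀_norm u).le) l hl u).2
    · have h1 : ‖l‖ * ‖∫ t in Set.Ioi (0 : ℝ), Complex.exp (-(l * (t : ℂ))) • T t f₀‖ =
          ‖l • ∫ t in Set.Ioi (0 : ℝ), Complex.exp (-(l * (t : ℂ))) • T t f₀‖ :=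
        (norm_smul _ _).symm
      rw [h1]
      apply norm_le_of (by positivity)
      intro u
      rw [ZeroAtInftyContinuousMap.smul_apply, hev, smul_eq_mul, resolvent_parts l hl u]
      refine le_trans (norm_add_le _ _) ?_
      have h2 := (int_bound f₁ f₁_cont f₁_norm l hl u).2
      have h3 : ‖f₀ u‖ ≤ 1 := by
        rw [f₀_norm]
        exact inv_le_one_of_one_le₀ (by nlinarith [sq_nonneg u])
      linarith
  · rw [integral_undef hI]
    simp only [norm_zero, mul_zero]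
    constructor <;> linarith

theorem resolvent_sq (a s : ℝ) (ha : 0 < a) :
    ((‖∫ t in Set.Ioi (0 : ℝ),
      Complex.exp (-(((a : ℂ) + (s : ℂ) * Complex.I) * (t : ℂ))) • T t f₀‖₊ : ENNReal)) ^ 2 ≤
      ENNReal.ofReal ((Real.pi ^ 2 + (1 + Real.pi) ^ 2) * (1 + s ^ 2)⁻¹) := by
  set l : ℂ := (a : ℂ) + (s : ℂ) * Complex.I with hl
  have hre : 0 < l.re := by simpa [hl] using ha
  obtain ⟨h1, h2⟩ := resolvent_bounds l hre
  set R : ℝ := ‖∫ t in Set.Ioi (0 : ℝ), Complex.exp (-(l * (t : ℂ))) • T t f₀‖ with hR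
  have hR0 : 0 ≤ R := norm_nonneg _
  have hs : s ^ 2 ≤ ‖l‖ ^ 2 := by
    have h3 : |l.im| ≤ ‖l‖ := Complex.abs_im_le_norm l
    have h4 : l.im = s := by simp [hl]
    rw [h4] at h3
    calc s ^ 2 = |s| ^ 2 := (sq_abs s).symm
      _ ≤ ‖l‖ ^ 2 := by gcongr
  have h5 : R ^ 2 ≤ (Real.pi ^ 2 + (1 + Real.pi) ^ 2) * (1 + s ^ 2)⁻¹ := by
    rw [← div_eq_mul_inv, le_div_iff₀ (by positivity)]
    have h6 : R ^ 2 ≤ Real.pi ^ 2 := by gcongr
    have h7 : (‖l‖ * R) ^ 2 ≤ (1 + Real.pi) ^ 2 := by gcongr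
    nlinarith [sq_nonneg R]
  have h8 : ((‖∫ t in Set.Ioi (0 : ℝ), Complex.exp (-(l * (t : ℂ))) • T t f₀‖₊ : ENNReal)) ^ 2 =
      ENNReal.ofReal (R ^ 2) := by
    rw [ENNReal.ofReal_pow hR0, hR, ofReal_norm]
    rfl
  rw [h8]
  exact ENNReal.ofReal_le_ofReal h5

theorem lintegral_bound (a : ℝ) (ha : 0 < a) :
    (∫⁻ s : ℝ, ((‖∫ t in Set.Ioi (0 : ℝ),
      Complex.exp (-(((a : ℂ) + (s : ℂ) * Complex.I) * (t : ℂ))) • T t f₀‖₊ : ENNReal)) ^ 2) ≤
      ENNReal.ofReal ((Real.pi ^ 2 + (1 + Real.pi) ^ 2) * Real.pi) := by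
  refine le_trans (lintegral_mono (fun s => resolvent_sq a s ha)) ?_
  rw [← ofReal_integral_eq_lintegral_ofReal (integrable_inv_one_add_sq.const_mul _)
    (Filter.Eventually.of_forall (fun s => by positivity)), integral_const_mul,
    integral_univ_inv_one_add_sq]

theorem condition_holds :
    Tendsto (fun a : ℝ => ENNReal.ofReal a *
      ∫⁻ s : ℝ, ((‖∫ t in Set.Ioi (0 : ℝ),
        Complex.exp (-(((a : ℂ) + (s : ℂ) * Complex.I) * (t : ℂ))) • T t f₀‖₊ : ENNReal)) ^ 2)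
      (𝓝[>] (0 : ℝ)) (𝓝 0) := by
  have h1 : Tendsto (fun a : ℝ => ENNReal.ofReal
      (a * ((Real.pi ^ 2 + (1 + Real.pi) ^ 2) * Real.pi))) (𝓝[>] (0 : ℝ)) (𝓝 0) := by
    have h2 : Continuous (fun a : ℝ => ENNReal.ofReal
      (a * ((Real.pi ^ 2 + (1 + Real.pi) ^ 2) * Real.pi))) :=
      ENNReal.continuous_ofReal.comp (by fun_prop)
    have h3 := h2.tendsto 0
    simp only [zero_mul, ENNReal.ofReal_zero] at h3
    exact h3.mono_left nhdsWithin_le_nhds
  refine tendsto_of_tendsto_of_tendsto_of_le_of_le' tendsto_const_nhds h1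
    (Filter.Eventually.of_forall fun _ => zero_le) ?_
  filter_upwards [self_mem_nhdsWithin] with a ha
  have ha' : (0 : ℝ) < a := ha
  rw [ENNReal.ofReal_mul ha'.le]
  gcongr
  exact lintegral_bound a ha'

theorem T_isometry (t : ℝ) (f : C₀(ℝ, ℂ)) : ‖T t f‖ = ‖f‖ := by
  apply le_antisymm
  · exact norm_le_of (norm_nonneg _) (fun x => norm_coe_le f (x + t))
  · refine norm_le_of (norm_nonneg _) (fun x => ?_)
    have := norm_coe_le (T t f) (x - t)
    rwa [T_apply, sub_add_cancel] at this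

theorem not_stable : ¬ Tendsto (fun t : ℝ => T t f₀) atTop (𝓝 0) := by
  intro h
  have h1 := (tendsto_zero_iff_norm_tendsto_zero.mp h)
  have h2 : ∀ t, (1 : ℝ) ≤ ‖T t f₀‖ := by
    intro t
    have h3 := norm_coe_le (T t f₀) (-t)
    rw [T_apply, neg_add_cancel, f₀_norm] at h3
    simpa using h3
  have h4 := ge_of_tendsto' h1 h2
  linarith

end Pool.Agent.Q203.ShiftC0
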