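import Mathlib

/-!
# Square roots of `1 - b` as limits of exponentials in a commutative real Banach algebra
-/

set_option autoImplicit false

namespace Pool.Agent.Q203.SqrtExp

open Filter Topology

section scalar

/-- The scalar iteration. -/
noncomputable def u : ℕ → ℝ
  | 0 => 0
  | n + 1 => (1 + u n ^ 2) / 2

theorem u_nonneg (n : ℕ) : 0 ≤ u n := by
  cases n with
  | zero => simp [u]
  | succ n => simp only [u]; positivity

theorem u_le_one (n : ℕ) : u n ≤ 1 := by
  induction n with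
  | zero => simp [u]
  | succ n ih =>
    simp only [u]
    have := u_nonneg n
    nlinarith

theorem u_mono (n : ℕ) : u n ≤ u (n + 1) := by
  simp only [u]
  nlinarith [sq_nonneg (u n - 1)]

theorem summable_u : Summable (fun n => u (n + 1) - u n) := by
  apply summable_of_sum_range_le (c := 1)
  · intro n
    have := u_mono n
    linarith
  · intro n
    rw [Finset.sum_range_sub]
    have := u_le_one n
    simp [u] at this ⊢
    linarith

end scalar

variable {V : Type*} [NormedCommRing V] [NormedAlgebra ℝ V] [CompleteSpace V]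

/-- The iteration for the square root. -/
noncomputable def W : ℕ → V → V
  | 0, _ => 0
  | n + 1, a => (1 / 2 : ℝ) • (a + W n a ^ 2)

omit [CompleteSpace V] in
theorem W_continuous (n : ℕ) : Continuous (W n : V → V) := by
  induction n with
  | zero => exact continuous_const
  | succ n ih =>
    simp only [W]
    fun_prop

omit [CompleteSpace V] in
theorem W_norm (n : ℕ) (a : V) (ha : ‖a‖ ≤ 1) : ‖W n a‖ ≤ u n := by
  induction n with
  | zero => simp [W, u]
  | succ n ih =>
    simp only [W, u]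
    rw [norm_smul]
    have h1 : ‖a + W n a ^ 2‖ ≤ 1 + u n ^ 2 := by
      refine le_trans (norm_add_le _ _) ?_
      have h2 : ‖W n a ^ 2‖ ≤ ‖W n a‖ ^ 2 := norm_pow_le' _ (by norm_num)
      have h3 : ‖W n a‖ ^ 2 ≤ u n ^ 2 := by gcongr
      linarith
    have h4 : ‖(1 / 2 : ℝ)‖ = 1 / 2 := by norm_num
    rw [h4]
    linarith

omit [CompleteSpace V] in
theorem W_diff (n : ℕ) (a : V) (ha : ‖a‖ ≤ 1) : ‖W (n + 1) a - W n a‖ ≤ u (n + 1) - u n := by
  induction n with
  | zero =>
    simp only [W, u]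
    have : ‖(1 / 2 : ℝ) • (a + 0 ^ 2) - 0‖ = 1 / 2 * ‖a‖ := by
      rw [sub_zero, norm_smul]
      norm_num
    rw [this]
    norm_num
    linarith
  | succ n ih =>
    have h1 : W (n + 1 + 1) a - W (n + 1) a =
        (1 / 2 : ℝ) • ((W (n + 1) a - W n a) * (W (n + 1) a + W n a)) := by
      have e1 : W (n + 1 + 1) a = (1 / 2 : ℝ) • (a + W (n + 1) a ^ 2) := rfl
      have e2 : W (n + 1) a = (1 / 2 : ℝ) • (a + W n a ^ 2) := rfl
      rw [e1]
      nth_rewrite 2 [e2]
      rw [← smul_sub]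
      congr 1
      ring
    have h2 : u (n + 1 + 1) - u (n + 1) = 1 / 2 * ((u (n + 1) - u n) * (u (n + 1) + u n)) := by
      have e1 : u (n + 1 + 1) = (1 + u (n + 1) ^ 2) / 2 := rfl
      have e2 : u (n + 1) = (1 + u n ^ 2) / 2 := rfl
      rw [e1]
      nth_rewrite 2 [e2]
      ring
    rw [h1, h2, norm_smul]
    have h4 : ‖(1 / 2 : ℝ)‖ = 1 / 2 := by norm_num
    rw [h4]
    gcongr
    refine le_trans (norm_mul_le _ _) ?_
    have h5 : ‖W (n + 1) a + W n a‖ ≤ u (n + 1) + u n :=
      le_trans (norm_add_le _ _) (add_le_add (W_norm _ a ha) (W_norm _ a ha))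
    have h6 : 0 ≤ u (n + 1) - u n := by linarith [u_mono n]
    gcongr

/-- The limit of the iteration. -/
noncomputable def U (a : V) : V := ∑' n, (W (n + 1) a - W n a)

theorem U_tendsto (a : V) (ha : ‖a‖ ≤ 1) : Tendsto (fun n => W n a) atTop (𝓝 (U a)) := by
  have hs : Summable (fun n => W (n + 1) a - W n a) :=
    Summable.of_norm_bounded summable_u (fun n => W_diff n a ha)
  have h := hs.hasSum.tendsto_sum_nat
  refine h.congr (fun n => ?_)
  rw [Finset.sum_range_sub (fun i => W i a)]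
  simp [W]

theorem U_continuousOn : ContinuousOn (U : V → V) (Metric.closedBall 0 1) := by
  apply continuousOn_tsum (u := fun n => u (n + 1) - u n)
  · intro n
    exact ((W_continuous (n + 1)).sub (W_continuous n)).continuousOn
  · exact summable_u
  · intro n a ha
    exact W_diff n a (by simpa using ha)

theorem U_eq (a : V) (ha : ‖a‖ ≤ 1) : U a = (1 / 2 : ℝ) • (a + U a ^ 2) := by
  have h1 := (U_tendsto a ha).comp (tendsto_add_atTop_nat 1)
  have h2 : Tendsto (fun n => (1 / 2 : ℝ) • (a + W n a ^ 2)) atTop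
      (𝓝 ((1 / 2 : ℝ) • (a + U a ^ 2))) :=
    (((U_tendsto a ha).pow 2).const_add a).const_smul _
  exact tendsto_nhds_unique h1 h2

omit [CompleteSpace V] in
theorem U_zero : U (0 : V) = 0 := by
  have h : ∀ n, W n (0 : V) = 0 := by
    intro n
    induction n with
    | zero => rfl
    | succ n ih => simp [W, ih]
  unfold U
  simp [h]

theorem sq_one_sub_U (a : V) (ha : ‖a‖ ≤ 1) : (1 - U a) * (1 - U a) = 1 - a := by
  have h := U_eq a ha
  have h2 : (2 : ℝ) • U a = a + U a ^ 2 := by
    nth_rewrite 1 [h]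
    rw [smul_smul]
    norm_num
  have h3 : U a + U a = a + U a ^ 2 := by rw [← h2, two_smul]
  linear_combination (-1) * h3

theorem range_exp_mem_nhds : Set.range (NormedSpace.exp : V → V) ∈ 𝓝 (1 : V) := by
  have h := hasStrictFDerivAt_exp_zero (𝕂 := ℝ) (𝔸 := V)
  have h2 := h.map_nhds_eq_of_surj (by
    rw [LinearMap.range_eq_top]
    intro x
    exact ⟨x, rfl⟩)
  have h0 : NormedSpace.exp (0 : V) = 1 := NormedSpace.exp_zero
  rw [h0] at h2
  rw [← h2]
  exact Filter.mem_map.mpr (Filter.Eventually.of_forall fun x => ⟨x, rfl⟩)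

theorem mem_range_exp_of_norm_lt (b : V) (hb : ‖b‖ < 1) :
    (1 - U b) ∈ Set.range (NormedSpace.exp : V → V) := by
  let _ : NormedAlgebra ℚ V := NormedAlgebra.restrictScalars ℚ ℝ V
  let cl : ℝ → ℝ := fun t => max 0 (min 1 t)
  have hcl0 : ∀ t, 0 ≤ cl t := fun t => le_max_left _ _
  have hcl1 : ∀ t, cl t ≤ 1 := fun t => max_le zero_le_one (min_le_left _ _)
  have hclc : Continuous cl := by fun_prop
  have hnorm : ∀ t, ‖cl t • b‖ ≤ ‖b‖ := by
    intro t
    rw [norm_smul, Real.norm_eq_abs, abs_of_nonneg (hcl0 t)]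
    have := hcl1 t
    nlinarith [norm_nonneg b]
  let p : ℝ → V := fun t => 1 - U (cl t • b)
  have hpc : Continuous p := by
    apply continuous_const.sub
    apply U_continuousOn.comp_continuous
    · exact hclc.smul continuous_const
    · intro t
      rw [mem_closedBall_zero_iff]
      linarith [hnorm t]
  have hpu : ∀ t, IsUnit (p t) := by
    intro t
    have h1 : p t * p t = 1 - cl t • b := sq_one_sub_U _ (by linarith [hnorm t])
    have h2 : IsUnit (1 - cl t • b) := isUnit_one_sub_of_norm_lt_one (by linarith [hnorm t])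
    rw [← h1] at h2
    exact isUnit_of_mul_isUnit_left h2
  have hmul : ∀ x y : V, x ∈ Set.range (NormedSpace.exp : V → V) →
      y ∈ Set.range (NormedSpace.exp : V → V) → x * y ∈ Set.range (NormedSpace.exp : V → V) := by
    rintro _ _ ⟨c, rfl⟩ ⟨d, rfl⟩
    exact ⟨c + d, NormedSpace.exp_add⟩
  have hlocal : ∀ t₀, ∀ᶠ t in 𝓝 t₀, (p t ∈ Set.range (NormedSpace.exp : V → V) ↔
      p t₀ ∈ Set.range (NormedSpace.exp : V → V)) := by
    intro t₀
    obtain ⟨v, hv⟩ := hpu t₀
    have h1 : Tendsto (fun t => p t * (↑v⁻¹ : V)) (𝓝 t₀) (𝓝 1) := by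
      have := (hpc.tendsto t₀).mul_const (↑v⁻¹ : V)
      rw [← hv, Units.mul_inv] at this
      exact this
    filter_upwards [h1.eventually_mem range_exp_mem_nhds] with t ht
    obtain ⟨c, hc⟩ := ht
    have h2 : p t = NormedSpace.exp c * p t₀ := by
      rw [hc, ← hv, mul_assoc, Units.inv_mul, mul_one]
    have h3 : p t₀ = NormedSpace.exp (-c) * p t := by
      rw [h2, ← mul_assoc, ← NormedSpace.exp_add, neg_add_cancel, NormedSpace.exp_zero, one_mul]
    constructor
    · intro h
      rw [h3]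
      exact hmul _ _ ⟨_, rfl⟩ h
    · intro h
      rw [h2]
      exact hmul _ _ ⟨_, rfl⟩ h
  have hclopen : IsClopen {t : ℝ | p t ∈ Set.range (NormedSpace.exp : V → V)} := by
    constructor
    · rw [← isOpen_compl_iff, isOpen_iff_mem_nhds]
      intro t₀ ht₀
      filter_upwards [hlocal t₀] with t ht
      intro h
      exact ht₀ (ht.mp h)
    · rw [isOpen_iff_mem_nhds]
      intro t₀ ht₀
      filter_upwards [hlocal t₀] with t ht
      exact ht.mpr ht₀
  have hne : (0 : ℝ) ∈ {t : ℝ | p t ∈ Set.range (NormedSpace.exp : V → V)} := by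
    refine ⟨0, ?_⟩
    have : cl 0 = 0 := by simp [cl]
    simp only [p, this, zero_smul, U_zero, sub_zero, NormedSpace.exp_zero]
  have huniv := hclopen.eq_univ ⟨0, hne⟩
  have h1 : (1 : ℝ) ∈ {t : ℝ | p t ∈ Set.range (NormedSpace.exp : V → V)} := by
    rw [huniv]; trivial
  have h2 : cl 1 = 1 := by simp [cl]
  have h3 : p 1 = 1 - U b := by simp only [p, h2, one_smul]
  rw [← h3]
  exact h1

/-- In a commutative real Banach algebra, `1 - b` with `‖b‖ ≤ 1` has a square root which is a
limit of exponentials. -/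
theorem exists_sqrt (b : V) (hb : ‖b‖ ≤ 1) :
    ∃ s ∈ closure (Set.range (NormedSpace.exp : V → V)), s * s = 1 - b := by
  refine ⟨1 - U b, ?_, sq_one_sub_U b hb⟩
  have h1 : Tendsto (fun n : ℕ => (1 - 1 / ((n : ℝ) + 1)) • b) atTop (𝓝 b) := by
    have h2 : Tendsto (fun n : ℕ => (1 : ℝ) - 1 / ((n : ℝ) + 1)) atTop (𝓝 (1 - 0)) :=
      tendsto_const_nhds.sub tendsto_one_div_add_atTop_nhds_zero_nat
    have h3 := h2.smul_const b
    simpa using h3
  have hlt : ∀ n : ℕ, ‖(1 - 1 / ((n : ℝ) + 1)) • b‖ < 1 := by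
    intro n
    have hn : (0 : ℝ) < 1 / ((n : ℝ) + 1) := by positivity
    have hn1 : 1 / ((n : ℝ) + 1) ≤ 1 := by
      rw [div_le_one (by positivity)]
      have : (0 : ℝ) ≤ n := n.cast_nonneg
      linarith
    rw [norm_smul, Real.norm_eq_abs, abs_of_nonneg (by linarith)]
    calc (1 - 1 / ((n : ℝ) + 1)) * ‖b‖ ≤ (1 - 1 / ((n : ℝ) + 1)) * 1 := by
          gcongr
      _ < 1 := by linarith
  have h4 : Tendsto (fun n : ℕ => U ((1 - 1 / ((n : ℝ) + 1)) • b)) atTop (𝓝 (U b)) := by
    have hc := U_continuousOn b (by simpa using hb)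
    apply hc.tendsto.comp
    rw [tendsto_nhdsWithin_iff]
    refine ⟨h1, Filter.Eventually.of_forall fun n => ?_⟩
    rw [mem_closedBall_zero_iff]
    exact (hlt n).le
  exact mem_closure_of_tendsto (h4.const_sub 1)
    (Filter.Eventually.of_forall fun n => mem_range_exp_of_norm_lt _ (hlt n))

theorem exists_sqrt_map {A : Type*} [NormedRing A] [NormedAlgebra ℝ A]
    (f : V →ₐ[ℝ] A) (hf : Continuous f) (b : V) (hb : ‖b‖ ≤ 1) :
    ∃ s : V, f s ∈ closure (Set.range (fun c : V => (NormedSpace.exp (f c) : A))) ∧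
      s * s = 1 - b := by
  let _ : NormedAlgebra ℚ V := NormedAlgebra.restrictScalars ℚ ℝ V
  let _ : NormedAlgebra ℚ A := NormedAlgebra.restrictScalars ℚ ℝ A
  obtain ⟨s, hs, hss⟩ := exists_sqrt b hb
  refine ⟨s, ?_, hss⟩
  have h1 := image_closure_subset_closure_image hf ⟨s, hs, rfl⟩
  refine closure_mono ?_ h1
  rintro _ ⟨_, ⟨c, rfl⟩, rfl⟩
  exact ⟨c, (NormedSpace.map_exp f hf c).symm⟩

end Pool.Agent.Q203.SqrtExp
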