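import Pool.Agent.Q203.SqrtExp

/-!
# Self-adjoint and strongly normal operators on smooth complex Banach spaces
-/

set_option autoImplicit false

namespace Pool.Agent.Q203.StrongNormal

open Filter Topology

/-- A Banach space is smooth if every unit vector has exactly one support functional. -/
def IsSmooth (X : Type*) [NormedAddCommGroup X] [NormedSpace ℂ X] : Prop :=
  ∀ x : X, ‖x‖ = 1 → ∃! f : X →L[ℂ] ℂ, ‖f‖ = 1 ∧ f x = 1

section duality

variable {X : Type*} [NormedAddCommGroup X] [NormedSpace ℂ X]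

theorem exists_duality (x : X) :
    ∃ f : X →L[ℂ] ℂ, ‖f‖ = ‖x‖ ∧ f x = ((‖x‖ ^ 2 : ℝ) : ℂ) := by
  by_cases hx : x = 0
  · exact ⟨0, by simp [hx], by simp [hx]⟩
  · obtain ⟨g, hg1, hg2⟩ := exists_dual_vector ℂ x (norm_ne_zero_iff.mpr hx)
    have hg3 : g x = ((‖x‖ : ℝ) : ℂ) := hg2
    refine ⟨((‖x‖ : ℝ) : ℂ) • g, ?_, ?_⟩
    · rw [norm_smul, hg1, mul_one, Complex.norm_real, norm_norm]
    · rw [_root_.smul_apply, hg3, smul_eq_mul]
      push_cast
      ring

/-- The duality map of a smooth space: `dualityMap x` is a functional `f` with `‖f‖ = ‖x‖` and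
`f x = ‖x‖²`; in a smooth space it is the only one (`duality_unique`). -/
noncomputable def dualityMap (x : X) : X →L[ℂ] ℂ := Classical.choose (exists_duality x)

theorem norm_J (x : X) : ‖dualityMap x‖ = ‖x‖ := (Classical.choose_spec (exists_duality x)).1

theorem J_self (x : X) : dualityMap x x = ((‖x‖ ^ 2 : ℝ) : ℂ) :=
  (Classical.choose_spec (exists_duality x)).2

theorem norm_J_apply_le (x y : X) : ‖dualityMap x y‖ ≤ ‖x‖ * ‖y‖ := by
  have := (dualityMap x).le_opNorm y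
  rwa [norm_J] at this

theorem duality_unique (hX : IsSmooth X) (x : X) (f : X →L[ℂ] ℂ) (h1 : ‖f‖ ≤ ‖x‖)
    (h2 : f x = ((‖x‖ ^ 2 : ℝ) : ℂ)) : f = dualityMap x := by
  by_cases hx : x = 0
  · subst hx
    have e1 : f = 0 := by
      rw [norm_zero] at h1
      exact norm_le_zero_iff.mp h1
    have e2 : dualityMap (0 : X) = 0 := by
      rw [← norm_le_zero_iff, norm_J, norm_zero]
    rw [e1, e2]
  · have hn : 0 < ‖x‖ := norm_pos_iff.mpr hx
    set r : ℂ := ((‖x‖⁻¹ : ℝ) : ℂ) with hr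
    have hrn : ‖r‖ = ‖x‖⁻¹ := by rw [hr, Complex.norm_real, norm_inv, norm_norm]
    have hr0 : r ≠ 0 := by
      rw [← norm_ne_zero_iff, hrn]
      exact (inv_pos.mpr hn).ne'
    have hunit : ‖r • x‖ = 1 := by rw [norm_smul, hrn, inv_mul_cancel₀ hn.ne']
    have key : ∀ g : X →L[ℂ] ℂ, ‖g‖ ≤ ‖x‖ → g x = ((‖x‖ ^ 2 : ℝ) : ℂ) →
        ‖r • g‖ = 1 ∧ (r • g) (r • x) = 1 := by
      intro g hg1 hg2
      have hv : (r • g) (r • x) = 1 := by
        rw [_root_.smul_apply, map_smul, hg2, smul_eq_mul, smul_eq_mul, hr, ← Complex.ofReal_mul,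
          ← Complex.ofReal_mul, Complex.ofReal_eq_one]
        field_simp
      refine ⟨le_antisymm ?_ ?_, hv⟩
      · rw [norm_smul, hrn]
        calc ‖x‖⁻¹ * ‖g‖ ≤ ‖x‖⁻¹ * ‖x‖ := by gcongr
          _ = 1 := inv_mul_cancel₀ hn.ne'
      · have := (r • g).le_opNorm (r • x)
        rw [hv, hunit, mul_one] at this
        simpa using this
    have h3 := (hX (r • x) hunit).unique (key f h1 h2) (key (dualityMap x) (norm_J x).le (J_self x))
    exact smul_right_injective _ hr0 h3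

theorem J_ofReal_smul (hX : IsSmooth X) (c : ℝ) (x : X) :
    dualityMap ((c : ℂ) • x) = (c : ℂ) • dualityMap x := by
  symm
  apply duality_unique hX
  · rw [norm_smul, norm_smul, norm_J]
  · rw [_root_.smul_apply, map_smul, J_self, norm_smul, smul_eq_mul, smul_eq_mul,
      Complex.norm_real, ← Complex.ofReal_mul, ← Complex.ofReal_mul, mul_pow, Real.norm_eq_abs,
      sq_abs]
    congr 1
    ring

/-- Half the square of the norm. -/
noncomputable def phi (x : X) : ℝ := ‖x‖ ^ 2 / 2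

theorem subgrad (x z : X) : phi x + (dualityMap x (z - x)).re ≤ phi z := by
  unfold phi
  rw [map_sub, Complex.sub_re, J_self, Complex.ofReal_re]
  have h1 : (dualityMap x z).re ≤ ‖x‖ * ‖z‖ :=
    le_trans (Complex.re_le_norm _) (norm_J_apply_le x z)
  nlinarith [sq_nonneg (‖x‖ - ‖z‖)]

theorem J_tendsto (hX : IsSmooth X) (x y : X) :
    Tendsto (fun x' => dualityMap x' y) (𝓝 x) (𝓝 (dualityMap x y)) := by
  rw [tendsto_iff_ultrafilter]
  intro g hg
  let F : X → WeakDual ℂ X := fun x' => StrongDual.toWeakDual (dualityMap x')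
  have hK := WeakDual.isCompact_closedBall (𝕜 := ℂ) (E := X) 0 (‖x‖ + 1)
  have hnt : Tendsto (fun x' : X => ‖x'‖) g (𝓝 ‖x‖) := (continuous_norm.tendsto x).mono_left hg
  have hev : ∀ᶠ x' in (g : Filter X),
      F x' ∈ (WeakDual.toStrongDual ⁻¹' Metric.closedBall (0 : StrongDual ℂ X) (‖x‖ + 1)) := by
    filter_upwards [hnt.eventually_le_const (show ‖x‖ < ‖x‖ + 1 by linarith)] with x' hx'
    rw [Set.mem_preimage, mem_closedBall_zero_iff]
    show ‖dualityMap x'‖ ≤ ‖x‖ + 1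
    rw [norm_J]
    exact hx'
  obtain ⟨w, -, hw⟩ := hK.ultrafilter_le_nhds (g.map F) (by
    rw [Filter.le_principal_iff]
    exact hev)
  have hwz : ∀ z : X, Tendsto (fun x' => dualityMap x' z) g (𝓝 (w z)) := by
    intro z
    have h1 : Continuous (fun v : WeakDual ℂ X => v z) := WeakDual.eval_continuous z
    exact (h1.tendsto w).comp hw
  have hwf : WeakDual.toStrongDual w = dualityMap x := by
    apply duality_unique hX
    · apply ContinuousLinearMap.opNorm_le_bound _ (norm_nonneg _)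
      intro z
      have h2 := (hwz z).norm
      have h3 : Tendsto (fun x' : X => ‖x'‖ * ‖z‖) g (𝓝 (‖x‖ * ‖z‖)) := hnt.mul_const _
      exact le_of_tendsto_of_tendsto' h2 h3 (fun x' => norm_J_apply_le x' z)
    · have h2 : Tendsto (fun x' => dualityMap x' x) g (𝓝 ((‖x‖ ^ 2 : ℝ) : ℂ)) := by
        have h4 : Tendsto (fun x' : X => ((‖x'‖ ^ 2 : ℝ) : ℂ)) g (𝓝 ((‖x‖ ^ 2 : ℝ) : ℂ)) :=
          (Complex.continuous_ofReal.tendsto _).comp (hnt.pow 2)
        have h5 : Tendsto (fun x' : X => dualityMap x' (x' - x)) g (𝓝 0) := by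
          rw [tendsto_zero_iff_norm_tendsto_zero]
          have h6 : Tendsto (fun x' : X => ‖x'‖ * ‖x' - x‖) g (𝓝 (‖x‖ * 0)) := by
            apply hnt.mul
            have : Tendsto (fun x' : X => ‖x' - x‖) (𝓝 x) (𝓝 ‖x - x‖) :=
              (continuous_id.sub continuous_const).norm.tendsto x
            rw [sub_self, norm_zero] at this
            exact this.mono_left hg
          rw [mul_zero] at h6
          exact squeeze_zero (fun _ => norm_nonneg _) (fun x' => norm_J_apply_le _ _) h6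
        have h7 := h4.sub h5
        rw [sub_zero] at h7
        refine h7.congr (fun x' => ?_)
        rw [map_sub, J_self]
        ring
      exact tendsto_nhds_unique (hwz x) h2
  have : w y = dualityMap x y := by
    rw [← hwf]; rfl
  rw [← this]
  exact hwz y

theorem J_tendsto_joint (hX : IsSmooth X) {ι : Type*} {l : Filter ι} {a b : ι → X} {x y : X}
    (ha : Tendsto a l (𝓝 x)) (hb : Tendsto b l (𝓝 y)) :
    Tendsto (fun i => dualityMap (a i) (b i)) l (𝓝 (dualityMap x y)) := by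
  have h1 : Tendsto (fun i => dualityMap (a i) y) l (𝓝 (dualityMap x y)) :=
    (J_tendsto hX x y).comp ha
  have h2 : Tendsto (fun i => dualityMap (a i) (b i - y)) l (𝓝 0) := by
    rw [tendsto_zero_iff_norm_tendsto_zero]
    have h3 : Tendsto (fun i => ‖a i‖ * ‖b i - y‖) l (𝓝 (‖x‖ * ‖y - y‖)) :=
      ha.norm.mul (hb.sub_const y).norm
    rw [sub_self, norm_zero, mul_zero] at h3
    exact squeeze_zero (fun _ => norm_nonneg _) (fun i => norm_J_apply_le _ _) h3
  have h4 := h1.add h2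
  rw [add_zero] at h4
  refine h4.congr (fun i => ?_)
  rw [map_sub]
  ring

theorem hasDerivAt_phi (hX : IsSmooth X) {c : ℝ → X} {c' : X} {s : ℝ} (hc : HasDerivAt c c' s) :
    HasDerivAt (fun t => phi (c t)) ((dualityMap (c s) c').re) s := by
  rw [hasDerivAt_iff_tendsto_slope] at hc ⊢
  have hcont : Tendsto c (𝓝[≠] s) (𝓝 (c s)) := by
    have := (hasDerivAt_iff_tendsto_slope.mpr hc).continuousAt
    exact this.tendsto.mono_left nhdsWithin_le_nhds
  have hL : Tendsto (fun t => (dualityMap (c s) (slope c s t)).re) (𝓝[≠] s)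
      (𝓝 ((dualityMap (c s) c').re)) :=
    (Complex.continuous_re.tendsto _).comp (((dualityMap (c s)).continuous.tendsto _).comp hc)
  have hU : Tendsto (fun t => (dualityMap (c t) (slope c s t)).re) (𝓝[≠] s)
      (𝓝 ((dualityMap (c s) c').re)) :=
    (Complex.continuous_re.tendsto _).comp (J_tendsto_joint hX hcont hc)
  have hmin := hL.min hU
  have hmax := hL.max hU
  rw [min_self] at hmin
  rw [max_self] at hmax
  have hsl : ∀ t, ∀ f : X →L[ℂ] ℂ, (f (slope c s t)).re = (t - s)⁻¹ * (f (c t - c s)).re := by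
    intro t f
    rw [slope_def_module, f.map_smul_of_tower, Complex.real_smul, Complex.re_ofReal_mul]
  have hb : ∀ t, t ≠ s → min ((dualityMap (c s) (slope c s t)).re)
      ((dualityMap (c t) (slope c s t)).re) ≤ slope (fun t => phi (c t)) s t ∧
      slope (fun t => phi (c t)) s t ≤ max ((dualityMap (c s) (slope c s t)).re)
      ((dualityMap (c t) (slope c s t)).re) := by
    intro t hts
    have h1 := subgrad (c s) (c t)
    have h2 := subgrad (c t) (c s)
    have h3 : (dualityMap (c t) (c s - c t)).re = -(dualityMap (c t) (c t - c s)).re := by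
      rw [← neg_sub, map_neg, Complex.neg_re]
    rw [h3] at h2
    rw [hsl, hsl, slope_def_field, div_eq_inv_mul]
    rcases lt_or_gt_of_ne hts with h | h
    · have hneg : (t - s)⁻¹ < 0 := inv_lt_zero.mpr (by linarith)
      constructor
      · apply le_trans (min_le_right _ _)
        apply mul_le_mul_of_nonpos_left _ hneg.le
        linarith
      · apply le_trans _ (le_max_left _ _)
        apply mul_le_mul_of_nonpos_left _ hneg.le
        linarith
    · have hpos : 0 < (t - s)⁻¹ := inv_pos.mpr (by linarith)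
      constructor
      · apply le_trans (min_le_left _ _)
        apply mul_le_mul_of_nonneg_left _ hpos.le
        linarith
      · apply le_trans _ (le_max_right _ _)
        apply mul_le_mul_of_nonneg_left _ hpos.le
        linarith
  refine tendsto_of_tendsto_of_tendsto_of_le_of_le' hmin hmax ?_ ?_
  · filter_upwards [self_mem_nhdsWithin] with t ht
    exact (hb t ht).1
  · filter_upwards [self_mem_nhdsWithin] with t ht
    exact (hb t ht).2

end duality

section selfadjoint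

variable {X : Type*} [NormedAddCommGroup X] [NormedSpace ℂ X]

/-- Self-adjoint operators on a smooth space: `J(Tx)(y) = J(x)(Ty)`. -/
def IsSelfAdj (T : X →L[ℂ] X) : Prop :=
  ∀ x y : X, dualityMap (T x) y = dualityMap x (T y)

/-- Strongly normal operators: squares of self-adjoint operators. -/
def StronglyNormal (T : X →L[ℂ] X) : Prop := ∃ S : X →L[ℂ] X, IsSelfAdj S ∧ T = S * S

/-- The minimum modulus. -/
noncomputable def minModulus (T : X →L[ℂ] X) : ℝ := sInf {r : ℝ | ∃ x : X, ‖x‖ = 1 ∧ r = ‖T x‖}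

theorem sa_one : IsSelfAdj (1 : X →L[ℂ] X) := fun _ _ => rfl

theorem sa_mul {S T : X →L[ℂ] X} (hS : IsSelfAdj S) (hT : IsSelfAdj T) (hc : Commute S T) :
    IsSelfAdj (S * T) := by
  intro x y
  show dualityMap (S (T x)) y = dualityMap x (S (T y))
  rw [hS, hT]
  have : T (S y) = S (T y) := by
    have := congrArg (fun A : X →L[ℂ] X => A y) hc.eq
    exact this.symm
  rw [this]

theorem sa_pow {T : X →L[ℂ] X} (hT : IsSelfAdj T) (n : ℕ) : IsSelfAdj (T ^ n) := by
  induction n with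
  | zero => rw [pow_zero]; exact sa_one
  | succ n ih =>
    rw [pow_succ]
    exact sa_mul ih hT ((Commute.refl T).pow_left n)

theorem sa_smul (hX : IsSmooth X) {T : X →L[ℂ] X} (hT : IsSelfAdj T) (c : ℝ) :
    IsSelfAdj ((c : ℂ) • T) := by
  intro x y
  rw [_root_.smul_apply, _root_.smul_apply, J_ofReal_smul hX, _root_.smul_apply, map_smul, hT]

theorem sa_inv {A B : X →L[ℂ] X} (hA : IsSelfAdj A) (h1 : A * B = 1) :
    IsSelfAdj B := by
  intro x y
  have e : ∀ z, A (B z) = z := fun z => congrArg (fun C : X →L[ℂ] X => C z) h1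
  have h2 := hA (B x) (B y)
  rw [e, e] at h2
  exact h2.symm

theorem isClosed_sa (hX : IsSmooth X) : IsClosed {T : X →L[ℂ] X | IsSelfAdj T} := by
  have : {T : X →L[ℂ] X | IsSelfAdj T} =
      ⋂ x : X, ⋂ y : X, {T : X →L[ℂ] X | dualityMap (T x) y = dualityMap x (T y)} := by
    ext T
    simp [IsSelfAdj]
  rw [this]
  refine isClosed_iInter fun x => isClosed_iInter fun y => ?_
  apply isClosed_eq
  · rw [continuous_iff_continuousAt]
    intro T
    have h1 : Tendsto (fun T : X →L[ℂ] X => T x) (𝓝 T) (𝓝 (T x)) :=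
      (ContinuousLinearMap.apply ℂ X x).continuous.tendsto T
    exact (J_tendsto hX (T x) y).comp h1
  · exact (dualityMap x).continuous.comp (ContinuousLinearMap.apply ℂ X y).continuous

variable [CompleteSpace X]

/-- The exponential group. -/
noncomputable def EE (B : X →L[ℂ] X) (s : ℝ) : X →L[ℂ] X := NormedSpace.exp (s • B)

omit [CompleteSpace X] in
theorem EE_zero (B : X →L[ℂ] X) : EE B 0 = 1 := by
  simp [EE, NormedSpace.exp_zero]

theorem EE_add (B : X →L[ℂ] X) (s t : ℝ) : EE B (s + t) = EE B s * EE B t := by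
  let _ : NormedAlgebra ℚ (X →L[ℂ] X) := NormedAlgebra.restrictScalars ℚ ℝ _
  unfold EE
  rw [add_smul]
  apply NormedSpace.exp_add_of_commute
  exact ((Commute.refl B).smul_left s).smul_right t

theorem EE_deriv (B : X →L[ℂ] X) (s : ℝ) : HasDerivAt (EE B) (B * EE B s) s :=
  hasDerivAt_exp_smul_const' B s

theorem EE_deriv_apply (B : X →L[ℂ] X) (s : ℝ) (x : X) :
    HasDerivAt (fun t => EE B t x) (B (EE B s x)) s := by
  have h := (EE_deriv B s)
  have h2 : HasDerivAt (fun t => (ContinuousLinearMap.apply ℂ X x) (EE B t))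
      ((ContinuousLinearMap.apply ℂ X x) (B * EE B s)) s := by
    exact ((ContinuousLinearMap.apply ℂ X x).restrictScalars ℝ).hasFDerivAt.comp_hasDerivAt s h
  exact h2

omit [CompleteSpace X] in
theorem commute_EE {A B : X →L[ℂ] X} (h : Commute A B) (s : ℝ) : Commute A (EE B s) := by
  let _ : NormedAlgebra ℚ (X →L[ℂ] X) := NormedAlgebra.restrictScalars ℚ ℝ _
  exact (h.smul_right s).exp_right

omit [CompleteSpace X] in
theorem real_smul_eq (c : ℝ) (A : X →L[ℂ] X) : c • A = (c : ℂ) • A := rfl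

/-- The defect in the subgradient inequality. -/
noncomputable def DD (B : X →L[ℂ] X) (x z : X) (s : ℝ) : ℝ :=
  phi (EE B s z) - phi (EE B s x) - (dualityMap x (EE B (2 * s) (z - x))).re

omit [CompleteSpace X] in
theorem DD_zero (B : X →L[ℂ] X) (x z : X) : 0 ≤ DD B x z 0 := by
  unfold DD
  rw [mul_zero, EE_zero]
  have := subgrad x z
  simp only [one_apply_eq_self] at this ⊢
  linarith

theorem phi_EE_deriv (hX : IsSmooth X) {T : X →L[ℂ] X} (hT : IsSelfAdj T) (z : X) (s : ℝ) :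
    HasDerivAt (fun t => phi (EE (T * T) t z)) (2 * phi (EE (T * T) s (T z))) s := by
  have h := hasDerivAt_phi hX (EE_deriv_apply (T * T) s z)
  have hcomm : Commute T (EE (T * T) s) :=
    commute_EE ((Commute.refl T).mul_right (Commute.refl T)) s
  have e1 : T (EE (T * T) s z) = EE (T * T) s (T z) :=
    congrArg (fun A : X →L[ℂ] X => A z) hcomm.eq
  have e2 : (dualityMap (EE (T * T) s z) ((T * T) (EE (T * T) s z))).re =
      2 * phi (EE (T * T) s (T z)) := by
    show (dualityMap (EE (T * T) s z) (T (T (EE (T * T) s z)))).re = _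
    rw [← hT, J_self, Complex.ofReal_re, e1]
    unfold phi
    ring
  rw [e2] at h
  exact h

theorem DD_deriv (hX : IsSmooth X) {T : X →L[ℂ] X} (hT : IsSelfAdj T) (x z : X) (s : ℝ) :
    HasDerivAt (DD (T * T) x z) (2 * DD (T * T) (T x) (T z) s) s := by
  have h1 := phi_EE_deriv hX hT z s
  have h2 := phi_EE_deriv hX hT x s
  have h3 : HasDerivAt (fun t => (dualityMap x (EE (T * T) (2 * t) (z - x))).re)
      (2 * (dualityMap (T x) (EE (T * T) (2 * s) (T z - T x))).re) s := by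
    have e1 : HasDerivAt (fun t => EE (T * T) (2 * t) (z - x))
        ((2 : ℝ) • ((T * T) (EE (T * T) (2 * s) (z - x)))) s := by
      have e2 : HasDerivAt (fun t : ℝ => 2 * t) 2 s := by
        simpa using (hasDerivAt_id s).const_mul 2
      exact (EE_deriv_apply (T * T) (2 * s) (z - x)).scomp s e2
    have e3 : HasDerivAt (fun t => (dualityMap x (EE (T * T) (2 * t) (z - x))).re)
        ((dualityMap x ((2 : ℝ) • ((T * T) (EE (T * T) (2 * s) (z - x))))).re) s := by
      have e4 := ((Complex.reCLM.comp ((dualityMap x).restrictScalars ℝ))).hasFDerivAt.comp_hasDerivAt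
        s e1
      exact e4
    have hcomm : Commute T (EE (T * T) (2 * s)) :=
      commute_EE ((Commute.refl T).mul_right (Commute.refl T)) (2 * s)
    have e5 : T (EE (T * T) (2 * s) (z - x)) = EE (T * T) (2 * s) (T z - T x) := by
      rw [← map_sub]
      exact congrArg (fun A : X →L[ℂ] X => A (z - x)) hcomm.eq
    have e6 : (dualityMap x ((2 : ℝ) • ((T * T) (EE (T * T) (2 * s) (z - x))))).re =
        2 * (dualityMap (T x) (EE (T * T) (2 * s) (T z - T x))).re := by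
      rw [(dualityMap x).map_smul_of_tower, Complex.real_smul, Complex.re_ofReal_mul]
      congr 2
      show dualityMap x (T (T (EE (T * T) (2 * s) (z - x)))) = _
      rw [← hT, e5]
    rw [e6] at e3
    exact e3
  have h4 := (h1.sub h2).sub h3
  refine h4.congr_deriv ?_
  unfold DD
  ring

theorem DD_bound (B : X →L[ℂ] X) (s₀ : ℝ) (hs₀ : 0 ≤ s₀) : ∃ C : ℝ, 0 ≤ C ∧
    ∀ s ∈ Set.Icc 0 s₀, ∀ x z : X, -(C * (‖x‖ ^ 2 + ‖z‖ ^ 2)) ≤ DD B x z s := by
  have hcont : Continuous (fun s => ‖EE B s‖) := by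
    apply Continuous.norm
    rw [continuous_iff_continuousAt]
    exact fun s => (EE_deriv B s).continuousAt
  obtain ⟨K, hK⟩ := (isCompact_Icc (a := (0 : ℝ)) (b := 2 * s₀)).bddAbove_image hcont.continuousOn
  have hK2 : ∀ s ∈ Set.Icc (0 : ℝ) (2 * s₀), ‖EE B s‖ ≤ max K 0 := fun s hs =>
    le_trans (hK ⟨s, hs, rfl⟩) (le_max_left _ _)
  set K' := max K 0 with hK'
  have hK0 : 0 ≤ K' := le_max_right _ _
  refine ⟨K' ^ 2 + 2 * K', by positivity, ?_⟩
  intro s hs x z
  have h1 : ‖EE B s x‖ ≤ K' * ‖x‖ :=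
    le_trans ((EE B s).le_opNorm x) (by gcongr; exact hK2 s ⟨hs.1, by linarith [hs.1, hs.2]⟩)
  have h2 : ‖EE B (2 * s) (z - x)‖ ≤ K' * (‖z‖ + ‖x‖) :=
    le_trans ((EE B (2 * s)).le_opNorm _) (by
      gcongr
      · exact hK2 (2 * s) ⟨by linarith [hs.1], by linarith [hs.2]⟩
      · exact norm_sub_le _ _)
  have h3 : (dualityMap x (EE B (2 * s) (z - x))).re ≤ ‖x‖ * (K' * (‖z‖ + ‖x‖)) := by
    refine le_trans (Complex.re_le_norm _) (le_trans (norm_J_apply_le _ _) ?_)
    gcongr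
  have h4 : 0 ≤ phi (EE B s z) := by unfold phi; positivity
  have h5 : phi (EE B s x) ≤ (K' * ‖x‖) ^ 2 / 2 := by
    unfold phi
    gcongr
  have h6 : ‖x‖ * ‖z‖ ≤ ‖x‖ ^ 2 + ‖z‖ ^ 2 := by nlinarith [sq_nonneg (‖x‖ - ‖z‖)]
  have h7 : 0 ≤ ‖x‖ := norm_nonneg x
  have h8 : 0 ≤ ‖z‖ := norm_nonneg z
  unfold DD
  have h9 : ‖x‖ * (K' * (‖z‖ + ‖x‖)) ≤ 2 * K' * (‖x‖ ^ 2 + ‖z‖ ^ 2) := by
    have : ‖x‖ * (K' * (‖z‖ + ‖x‖)) = K' * (‖x‖ * ‖z‖ + ‖x‖ ^ 2) := by ring
    rw [this]
    have : ‖x‖ * ‖z‖ + ‖x‖ ^ 2 ≤ 2 * (‖x‖ ^ 2 + ‖z‖ ^ 2) := by nlinarith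
    nlinarith
  have h10 : (K' * ‖x‖) ^ 2 / 2 ≤ K' ^ 2 * (‖x‖ ^ 2 + ‖z‖ ^ 2) := by
    have : 0 ≤ K' ^ 2 := by positivity
    nlinarith [mul_nonneg this (sq_nonneg ‖z‖), mul_nonneg this (sq_nonneg ‖x‖)]
  nlinarith

theorem DD_iter (hX : IsSmooth X) {T : X →L[ℂ] X} (hT : IsSelfAdj T) (s₀ C : ℝ) (hC : 0 ≤ C)
    (hb : ∀ s ∈ Set.Icc 0 s₀, ∀ x z : X, -(C * (‖x‖ ^ 2 + ‖z‖ ^ 2)) ≤ DD (T * T) x z s) (n : ℕ) :
    ∀ s ∈ Set.Icc 0 s₀, ∀ x z : X,
      -(C * (‖x‖ ^ 2 + ‖z‖ ^ 2) * ((2 * ‖T‖ ^ 2 * s) ^ n / n.factorial)) ≤ DD (T * T) x z s := by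
  induction n with
  | zero =>
    intro s hs x z
    simpa using hb s hs x z
  | succ n ih =>
    intro s hs x z
    set G : ℝ → ℝ := fun s => DD (T * T) x z s +
      C * (‖x‖ ^ 2 + ‖z‖ ^ 2) * ((2 * ‖T‖ ^ 2 * s) ^ (n + 1) / (n + 1).factorial) with hG
    have hder : ∀ t, HasDerivAt G (2 * DD (T * T) (T x) (T z) t +
        C * (‖x‖ ^ 2 + ‖z‖ ^ 2) * (2 * ‖T‖ ^ 2 * ((2 * ‖T‖ ^ 2 * t) ^ n / n.factorial))) t := by
      intro t
      apply (DD_deriv hX hT x z t).add
      apply HasDerivAt.const_mul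
      have h1 : HasDerivAt (fun t => 2 * ‖T‖ ^ 2 * t) (2 * ‖T‖ ^ 2) t := by
        simpa using (hasDerivAt_id t).const_mul (2 * ‖T‖ ^ 2)
      have h2 := (h1.pow (n + 1)).div_const ((n + 1).factorial : ℝ)
      refine h2.congr_deriv ?_
      rw [Nat.factorial_succ]
      push_cast
      have : ((n : ℝ) + 1) ≠ 0 := by positivity
      have : ((n.factorial : ℕ) : ℝ) ≠ 0 := by positivity
      field_simp
    have hmono : MonotoneOn G (Set.Icc 0 s₀) := by
      apply monotoneOn_of_deriv_nonneg (convex_Icc 0 s₀)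
      · exact fun t _ => (hder t).continuousAt.continuousWithinAt
      · exact fun t _ => (hder t).differentiableAt.differentiableWithinAt
      · intro t ht
        rw [interior_Icc] at ht
        rw [(hder t).deriv]
        have h1 := ih t ⟨ht.1.le, ht.2.le⟩ (T x) (T z)
        have h2 : ‖T x‖ ^ 2 + ‖T z‖ ^ 2 ≤ ‖T‖ ^ 2 * (‖x‖ ^ 2 + ‖z‖ ^ 2) := by
          have e1 := T.le_opNorm x
          have e2 := T.le_opNorm z
          have e3 : ‖T x‖ ^ 2 ≤ (‖T‖ * ‖x‖) ^ 2 := by gcongr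
          have e4 : ‖T z‖ ^ 2 ≤ (‖T‖ * ‖z‖) ^ 2 := by gcongr
          nlinarith
        have h3 : 0 ≤ (2 * ‖T‖ ^ 2 * t) ^ n / n.factorial := by
          have := ht.1.le
          positivity
        have h4 : C * (‖T x‖ ^ 2 + ‖T z‖ ^ 2) * ((2 * ‖T‖ ^ 2 * t) ^ n / n.factorial) ≤
            C * (‖T‖ ^ 2 * (‖x‖ ^ 2 + ‖z‖ ^ 2)) * ((2 * ‖T‖ ^ 2 * t) ^ n / n.factorial) := by
          gcongr
        nlinarith
    have h0 : (0 : ℝ) ∈ Set.Icc 0 s₀ := ⟨le_rfl, le_trans hs.1 hs.2⟩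
    have h5 := hmono h0 hs hs.1
    have h6 : 0 ≤ G 0 := by
      simp only [hG]
      have := DD_zero (T * T) x z
      simpa using this
    have h7 : 0 ≤ G s := le_trans h6 h5
    simp only [hG] at h7
    linarith

theorem DD_nonneg (hX : IsSmooth X) {T : X →L[ℂ] X} (hT : IsSelfAdj T) (x z : X) (s : ℝ)
    (hs : 0 ≤ s) : 0 ≤ DD (T * T) x z s := by
  obtain ⟨C, hC, hb⟩ := DD_bound (T * T) s hs
  have h1 : Tendsto (fun n : ℕ => -(C * (‖x‖ ^ 2 + ‖z‖ ^ 2) *
      ((2 * ‖T‖ ^ 2 * s) ^ n / n.factorial))) atTop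
      (𝓝 (-(C * (‖x‖ ^ 2 + ‖z‖ ^ 2) * 0))) :=
    ((FloorSemiring.tendsto_pow_div_factorial_atTop (2 * ‖T‖ ^ 2 * s)).const_mul _).neg
  rw [mul_zero, neg_zero] at h1
  exact le_of_tendsto' h1 (fun n => DD_iter hX hT s C hC hb n s ⟨hs, le_rfl⟩ x z)

theorem exp_sa_nonneg (hX : IsSmooth X) {T : X →L[ℂ] X} (hT : IsSelfAdj T) (s : ℝ)
    (hs : 0 ≤ s) : IsSelfAdj (EE (T * T) s) := by
  have hre : ∀ x y : X, (dualityMap (EE (T * T) s x) (EE (T * T) s y)).re =
      (dualityMap x (EE (T * T) (2 * s) y)).re := by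
    intro x y
    set h : ℝ → ℝ := fun t => DD (T * T) x (x + t • y) s with hh
    have hder : HasDerivAt h ((dualityMap (EE (T * T) s x) (EE (T * T) s y)).re -
        (dualityMap x (EE (T * T) (2 * s) y)).re) 0 := by
      have hline : HasDerivAt (fun t : ℝ => x + t • y) y 0 := by
        simpa using ((hasDerivAt_id (0 : ℝ)).smul_const y).const_add x
      have h1 : HasDerivAt (fun t : ℝ => EE (T * T) s (x + t • y)) (EE (T * T) s y) 0 :=
        ((EE (T * T) s).restrictScalars ℝ).hasFDerivAt.comp_hasDerivAt 0 hline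
      have h2 := hasDerivAt_phi hX h1
      simp only [zero_smul, add_zero] at h2
      have h3 : HasDerivAt (fun t : ℝ => (dualityMap x (EE (T * T) (2 * s)
          (x + t • y - x))).re) ((dualityMap x (EE (T * T) (2 * s) y)).re) 0 := by
        have e1 : HasDerivAt (fun t : ℝ => x + t • y - x) y 0 := by
          simpa using hline.sub_const x
        have e2 : HasDerivAt (fun t : ℝ => EE (T * T) (2 * s) (x + t • y - x))
            (EE (T * T) (2 * s) y) 0 :=
          ((EE (T * T) (2 * s)).restrictScalars ℝ).hasFDerivAt.comp_hasDerivAt 0 e1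
        exact ((Complex.reCLM.comp
          ((dualityMap x).restrictScalars ℝ))).hasFDerivAt.comp_hasDerivAt 0 e2
      exact (h2.sub_const (phi (EE (T * T) s x))).sub h3
    have hmin : IsLocalMin h 0 := by
      apply Filter.Eventually.of_forall
      intro t
      have h0 : h 0 = 0 := by
        simp [hh, DD]
      show h 0 ≤ h t
      rw [h0]
      exact DD_nonneg hX hT x _ s hs
    have := hmin.hasDerivAt_eq_zero hder
    linarith
  have hc : ∀ x y : X, dualityMap (EE (T * T) s x) (EE (T * T) s y) =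
      dualityMap x (EE (T * T) (2 * s) y) := by
    intro x y
    apply Complex.ext
    · exact hre x y
    · have h1 := hre x (Complex.I • y)
      simp only [map_smul, smul_eq_mul, Complex.mul_re, Complex.I_re, zero_mul, Complex.I_im,
        one_mul, zero_sub, neg_inj] at h1
      exact h1
  intro x y
  have hinv : EE (T * T) s * EE (T * T) (-s) = 1 := by
    rw [← EE_add, add_neg_cancel, EE_zero]
  have e1 : EE (T * T) s (EE (T * T) (-s) y) = y :=
    congrArg (fun A : X →L[ℂ] X => A y) hinv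
  have h1 := hc x (EE (T * T) (-s) y)
  rw [e1] at h1
  rw [h1, two_mul, EE_add]
  show dualityMap x (EE (T * T) s (EE (T * T) s (EE (T * T) (-s) y))) = _
  rw [e1]

theorem exp_sa (hX : IsSmooth X) {T : X →L[ℂ] X} (hT : IsSelfAdj T) (s : ℝ) :
    IsSelfAdj (EE (T * T) s) := by
  rcases le_total 0 s with hs | hs
  · exact exp_sa_nonneg hX hT s hs
  · apply sa_inv (exp_sa_nonneg hX hT (-s) (by linarith))
    rw [← EE_add, neg_add_cancel, EE_zero]

/-- Exponentials of elements of the closed real algebra generated by `T²` are self-adjoint. -/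
theorem exp_elemental_sa (hX : IsSmooth X) {T : X →L[ℂ] X} (hT : IsSelfAdj T)
    (c : X →L[ℂ] X) (hc : c ∈ Algebra.elemental ℝ (T * T)) : IsSelfAdj (NormedSpace.exp c) := by
  let _ : NormedAlgebra ℚ (X →L[ℂ] X) := NormedAlgebra.restrictScalars ℚ ℝ _
  have hclosed : IsClosed {c : X →L[ℂ] X | IsSelfAdj (NormedSpace.exp c)} :=
    (isClosed_sa hX).preimage NormedSpace.exp_continuous
  have hsub : ((Algebra.adjoin ℝ ({T * T} : Set (X →L[ℂ] X)) : Subalgebra ℝ (X →L[ℂ] X)) :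
      Set (X →L[ℂ] X)) ⊆ {c : X →L[ℂ] X | IsSelfAdj (NormedSpace.exp c)} := by
    intro c hc
    rw [SetLike.mem_coe, Algebra.adjoin_singleton_eq_range_aeval] at hc
    obtain ⟨p, rfl⟩ := hc
    show IsSelfAdj (NormedSpace.exp (Polynomial.aeval (T * T) p))
    induction p using Polynomial.induction_on' with
    | add p q hp hq =>
      rw [map_add]
      have hcomm : Commute (Polynomial.aeval (T * T) p) (Polynomial.aeval (T * T) q) := by
        have := congrArg (Polynomial.aeval (T * T)) (mul_comm p q)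
        rw [map_mul, map_mul] at this
        exact this
      rw [NormedSpace.exp_add_of_commute hcomm]
      exact sa_mul hp hq hcomm.exp
    | monomial n a =>
      rw [Polynomial.aeval_monomial, ← Algebra.smul_def]
      have e1 : (T * T) ^ n = T ^ n * T ^ n := by
        rw [(Commute.refl T).mul_pow]
      rw [e1]
      exact exp_sa hX (sa_pow hT n) a
  have h2 := closure_minimal hsub hclosed
  exact h2 hc

theorem main_sqrt (hX : IsSmooth X) {T : X →L[ℂ] X} (hT : IsSelfAdj T) :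
    ∃ S : X →L[ℂ] X, IsSelfAdj S ∧
      ((‖T‖ ^ 2 : ℝ) : ℂ) • (1 : X →L[ℂ] X) - T * T = S * S ∧
      ∀ D : X →L[ℂ] X, Commute D (T * T) → Commute D S := by
  by_cases hT0 : T = 0
  · subst hT0
    refine ⟨0, ?_, by simp, fun D _ => Commute.zero_right D⟩
    intro x y
    have : dualityMap (0 : X) = 0 := by
      rw [← norm_le_zero_iff, norm_J, norm_zero]
    simp [this]
  have hn : 0 < ‖T‖ := norm_pos_iff.mpr hT0
  let 𝒱 := Algebra.elemental ℝ (T * T)
  let _ : NormedCommRing 𝒱 :=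
    { SubringClass.toNormedRing 𝒱 with mul_comm := mul_comm }
  let b₀ : 𝒱 := ⟨T * T, Algebra.elemental.self_mem ℝ (T * T)⟩
  let b : 𝒱 := ((‖T‖ ^ 2)⁻¹ : ℝ) • b₀
  have hb : ‖b‖ ≤ 1 := by
    show ‖((‖T‖ ^ 2)⁻¹ : ℝ) • (T * T)‖ ≤ 1
    rw [norm_smul, norm_inv, Real.norm_eq_abs, abs_of_nonneg (by positivity)]
    have := norm_mul_le T T
    rw [inv_mul_le_iff₀ (by positivity)]
    linarith [this, sq ‖T‖]
  obtain ⟨s, hs, hss⟩ := Pool.Agent.Q203.SqrtExp.exists_sqrt_map 𝒱.val continuous_subtype_val b hb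
  have hssa : IsSelfAdj (s : X →L[ℂ] X) := by
    have hsub : Set.range (fun c : 𝒱 => (NormedSpace.exp (𝒱.val c) : X →L[ℂ] X)) ⊆
        {c : X →L[ℂ] X | IsSelfAdj c} := by
      rintro _ ⟨c, rfl⟩
      exact exp_elemental_sa hX hT _ c.2
    exact closure_minimal hsub (isClosed_sa hX) hs
  refine ⟨((‖T‖ : ℝ) : ℂ) • (s : X →L[ℂ] X), sa_smul hX hssa _, ?_, ?_⟩
  · have h1 : (s : X →L[ℂ] X) * (s : X →L[ℂ] X) = 1 - ((‖T‖ ^ 2)⁻¹ : ℝ) • (T * T) :=
      congrArg (fun c : 𝒱 => (c : X →L[ℂ] X)) hss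
    rw [smul_mul_smul_comm, h1, smul_sub, real_smul_eq, smul_smul, ← Complex.ofReal_mul,
      ← Complex.ofReal_mul, show ‖T‖ * ‖T‖ * (‖T‖ ^ 2)⁻¹ = 1 by field_simp,
      show ‖T‖ * ‖T‖ = ‖T‖ ^ 2 by ring, Complex.ofReal_one, one_smul]
  · intro D hD
    have h2 : (s : X →L[ℂ] X) ∈ (Subalgebra.centralizer ℝ ({D} : Set (X →L[ℂ] X))) := by
      have hcl : IsClosed ((Subalgebra.centralizer ℝ ({D} : Set (X →L[ℂ] X)) :
          Subalgebra ℝ (X →L[ℂ] X)) : Set (X →L[ℂ] X)) := by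
        rw [Subalgebra.coe_centralizer]
        exact Set.isClosed_centralizer _
      have hmem : T * T ∈ Subalgebra.centralizer ℝ ({D} : Set (X →L[ℂ] X)) := by
        rw [Subalgebra.mem_centralizer_iff]
        intro g hg
        rw [Set.mem_singleton_iff] at hg
        subst hg
        exact hD.eq
      exact Algebra.elemental.le_of_mem hcl hmem s.2
    rw [Subalgebra.mem_centralizer_iff] at h2
    have h3 : Commute D (s : X →L[ℂ] X) := h2 D rfl
    exact h3.smul_right _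

/-- A self-adjoint operator which is bounded below is invertible. -/
theorem exists_inv {T : X →L[ℂ] X} (hT : IsSelfAdj T) (μ : ℝ) (hμ : 0 < μ)
    (hb : ∀ x : X, μ * ‖x‖ ≤ ‖T x‖) :
    ∃ R : X →L[ℂ] X, T * R = 1 ∧ R * T = 1 := by
  rcases subsingleton_or_nontrivial X with hss | hnt
  · refine ⟨0, ?_, ?_⟩ <;> ext x <;> exact Subsingleton.elim _ _
  set A : ℝ → (X →L[ℂ] X) := fun l => T * T + (l : ℂ) • (1 : X →L[ℂ] X) with hA
  have hlow : ∀ l : ℝ, 0 ≤ l → ∀ x : X, μ ^ 2 * ‖x‖ ≤ ‖A l x‖ := by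
    intro l hl x
    have h1 : (dualityMap x (A l x)).re = ‖T x‖ ^ 2 + l * ‖x‖ ^ 2 := by
      have e1 : A l x = T (T x) + (l : ℂ) • x := rfl
      rw [e1, map_add, ← hT, J_self, map_smul, J_self, smul_eq_mul, Complex.add_re,
        Complex.ofReal_re, Complex.re_ofReal_mul, Complex.ofReal_re]
    have h2 : (dualityMap x (A l x)).re ≤ ‖x‖ * ‖A l x‖ :=
      le_trans (Complex.re_le_norm _) (norm_J_apply_le _ _)
    rw [h1] at h2
    have h3 : (μ * ‖x‖) ^ 2 ≤ ‖T x‖ ^ 2 := by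
      have := hb x
      gcongr
    by_cases hx : ‖x‖ = 0
    · rw [hx, mul_zero]
      exact norm_nonneg _
    · have hxp : 0 < ‖x‖ := lt_of_le_of_ne (norm_nonneg _) (Ne.symm hx)
      have h4 : ‖x‖ * (μ ^ 2 * ‖x‖) ≤ ‖x‖ * ‖A l x‖ := by
        have : 0 ≤ l * ‖x‖ ^ 2 := by positivity
        nlinarith
      exact le_of_mul_le_mul_left h4 hxp
  have hstep : ∀ l l' : ℝ, 0 ≤ l → |l' - l| < μ ^ 2 → IsUnit (A l) → IsUnit (A l') := by
    intro l l' hl hll hu
    obtain ⟨v, hv⟩ := hu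
    have hinv : ‖(↑v⁻¹ : X →L[ℂ] X)‖ ≤ (μ ^ 2)⁻¹ := by
      apply ContinuousLinearMap.opNorm_le_bound _ (by positivity)
      intro y
      have h1 := hlow l hl ((↑v⁻¹ : X →L[ℂ] X) y)
      have h2 : A l ((↑v⁻¹ : X →L[ℂ] X) y) = y := by
        rw [← hv]
        exact congrArg (fun C : X →L[ℂ] X => C y) v.mul_inv
      rw [h2] at h1
      rw [le_inv_mul_iff₀ (by positivity)]
      exact h1
    have hpos : 0 < ‖(↑v⁻¹ : X →L[ℂ] X)‖ := by
      rw [norm_pos_iff]
      exact v⁻¹.ne_zero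
    have hlt : ‖A l' - ↑v‖ < ‖(↑v⁻¹ : X →L[ℂ] X)‖⁻¹ := by
      have e1 : A l' - ↑v = ((l' - l : ℝ) : ℂ) • (1 : X →L[ℂ] X) := by
        rw [hv]
        simp only [hA]
        push_cast
        rw [sub_smul]
        abel
      rw [e1, norm_smul, Complex.norm_real, Real.norm_eq_abs]
      have h2 : μ ^ 2 ≤ ‖(↑v⁻¹ : X →L[ℂ] X)‖⁻¹ := by
        rw [le_inv_comm₀ (by positivity) hpos]
        exact hinv
      have h3 : ‖(1 : X →L[ℂ] X)‖ ≤ 1 := ContinuousLinearMap.norm_id_le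
      calc |l' - l| * ‖(1 : X →L[ℂ] X)‖ ≤ |l' - l| * 1 := by gcongr
        _ < μ ^ 2 := by linarith
        _ ≤ _ := h2
    exact ⟨Units.ofNearby v (A l') hlt, rfl⟩
  obtain ⟨N, hN⟩ := exists_nat_gt (‖T * T‖ / (μ ^ 2 / 2))
  have hNunit : IsUnit (A (N * (μ ^ 2 / 2))) := by
    have hl : ‖T * T‖ < N * (μ ^ 2 / 2) := by
      rwa [div_lt_iff₀ (by positivity)] at hN
    set l : ℝ := N * (μ ^ 2 / 2) with hldef
    have hlpos : 0 < l := lt_of_le_of_lt (norm_nonneg _) hl
    have hlc : (l : ℂ) ≠ 0 := by exact_mod_cast hlpos.ne'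
    have e1 : A l = (l : ℂ) • (1 - (-((l : ℂ)⁻¹) • (T * T))) := by
      simp only [hA]
      rw [smul_sub, smul_smul, mul_neg, mul_inv_cancel₀ hlc, neg_one_smul, sub_neg_eq_add,
        add_comm]
    rw [e1]
    have h2 : IsUnit (1 - (-((l : ℂ)⁻¹) • (T * T)) : X →L[ℂ] X) := by
      apply isUnit_one_sub_of_norm_lt_one
      rw [norm_smul, norm_neg, norm_inv, Complex.norm_real, Real.norm_eq_abs,
        abs_of_pos hlpos, inv_mul_lt_iff₀ hlpos]
      linarith
    exact (Units.mk0 (l : ℂ) hlc • h2.unit).isUnit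
  have hdesc : ∀ n : ℕ, n ≤ N → IsUnit (A ((N - n : ℕ) * (μ ^ 2 / 2))) := by
    intro n
    induction n with
    | zero => intro _; simpa using hNunit
    | succ n ih =>
      intro hn
      have h1 := ih (by omega)
      refine hstep _ _ (by positivity) ?_ h1
      have e1 : ((N - n : ℕ) : ℝ) = ((N - (n + 1) : ℕ) : ℝ) + 1 := by
        have : N - n = N - (n + 1) + 1 := by omega
        rw [this]
        push_cast
        ring
      rw [e1]
      have e2 : ((N - (n + 1) : ℕ) : ℝ) * (μ ^ 2 / 2) -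
          (((N - (n + 1) : ℕ) : ℝ) + 1) * (μ ^ 2 / 2) = -(μ ^ 2 / 2) := by ring
      rw [e2, abs_neg, abs_of_pos (by positivity)]
      have : 0 < μ ^ 2 := by positivity
      linarith
  have h0 := hdesc N le_rfl
  rw [Nat.sub_self] at h0
  have hA0 : A ((0 : ℕ) * (μ ^ 2 / 2)) = T * T := by
    simp [hA]
  rw [hA0] at h0
  obtain ⟨v, hv⟩ := h0
  have ha : T * (T * (↑v⁻¹ : X →L[ℂ] X)) = 1 := by
    rw [← mul_assoc, ← hv, v.mul_inv]
  have hb' : ((↑v⁻¹ : X →L[ℂ] X) * T) * T = 1 := by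
    rw [mul_assoc, ← hv, v.inv_mul]
  refine ⟨T * (↑v⁻¹ : X →L[ℂ] X), ha, ?_⟩
  have e3 : (↑v⁻¹ : X →L[ℂ] X) * T = T * (↑v⁻¹ : X →L[ℂ] X) := by
    calc (↑v⁻¹ : X →L[ℂ] X) * T = ((↑v⁻¹ : X →L[ℂ] X) * T) * (T * (T * (↑v⁻¹ : X →L[ℂ] X))) := by
          rw [ha, mul_one]
      _ = (((↑v⁻¹ : X →L[ℂ] X) * T) * T) * (T * (↑v⁻¹ : X →L[ℂ] X)) := by
          simp only [mul_assoc]
      _ = T * (↑v⁻¹ : X →L[ℂ] X) := by rw [hb', one_mul]
  rw [← e3]
  exact hb'

/-- Q1: `‖T‖² - T²` is strongly normal. -/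
theorem question_one (hX : IsSmooth X) {T : X →L[ℂ] X} (hT : IsSelfAdj T) :
    StronglyNormal (((‖T‖ ^ 2 : ℝ) : ℂ) • (1 : X →L[ℂ] X) - T * T) := by
  obtain ⟨S, hS, h1, -⟩ := main_sqrt hX hT
  exact ⟨S, hS, h1⟩

/-- Q2: `T² - μ(T)²` is strongly normal. -/
theorem question_two (hX : IsSmooth X) {T : X →L[ℂ] X} (hT : IsSelfAdj T) :
    StronglyNormal (T * T - ((minModulus T ^ 2 : ℝ) : ℂ) • (1 : X →L[ℂ] X)) := by
  have hbdd : BddBelow {r : ℝ | ∃ x : X, ‖x‖ = 1 ∧ r = ‖T x‖} := by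
    refine ⟨0, ?_⟩
    rintro r ⟨x, -, rfl⟩
    exact norm_nonneg _
  have hμ0 : 0 ≤ minModulus T := by
    apply Real.sInf_nonneg
    rintro r ⟨x, -, rfl⟩
    exact norm_nonneg _
  rcases eq_or_lt_of_le hμ0 with h0 | hμ
  · refine ⟨T, hT, ?_⟩
    rw [← h0]
    simp
  set μ := minModulus T with hμdef
  have hb : ∀ x : X, μ * ‖x‖ ≤ ‖T x‖ := by
    intro x
    by_cases hx : x = 0
    · simp [hx]
    have hn : 0 < ‖x‖ := norm_pos_iff.mpr hx
    have h1 : μ ≤ ‖T (((‖x‖⁻¹ : ℝ) : ℂ) • x)‖ := by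
      apply csInf_le hbdd
      refine ⟨_, ?_, rfl⟩
      rw [norm_smul, Complex.norm_real, norm_inv, norm_norm, inv_mul_cancel₀ hn.ne']
    rw [map_smul, norm_smul, Complex.norm_real, norm_inv, norm_norm, inv_mul_eq_div,
      le_div_iff₀ hn] at h1
    exact h1
  obtain ⟨R, hTR, hRT⟩ := exists_inv hT μ hμ hb
  have hR : IsSelfAdj R := sa_inv hT hTR
  obtain ⟨S', hS', h1, hcomm⟩ := main_sqrt hX hR
  have hTc : Commute T (R * R) := by
    show T * (R * R) = (R * R) * T
    rw [← mul_assoc, hTR, one_mul, mul_assoc, hRT, mul_one]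
  have hTS : Commute T S' := hcomm T hTc
  -- `μ ‖R‖ = 1`
  have hnt : ∃ x : X, ‖x‖ = 1 := by
    by_contra hcon
    push Not at hcon
    have : {r : ℝ | ∃ x : X, ‖x‖ = 1 ∧ r = ‖T x‖} = ∅ := by
      ext r
      simp only [Set.mem_ofPred_eq, Set.mem_empty_iff_false, iff_false]
      rintro ⟨x, hx, -⟩
      exact hcon x hx
    have h2 : μ = 0 := by
      rw [hμdef]
      unfold minModulus
      rw [this, Real.sInf_empty]
    exact hμ.ne' h2
  obtain ⟨x₀, hx₀⟩ := hnt
  have hRle : ‖R‖ ≤ μ⁻¹ := by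
    apply ContinuousLinearMap.opNorm_le_bound _ (by positivity)
    intro y
    have h2 := hb (R y)
    have h3 : T (R y) = y := congrArg (fun C : X →L[ℂ] X => C y) hTR
    rw [h3] at h2
    rw [le_inv_mul_iff₀ hμ]
    exact h2
  have hRpos : 0 < ‖R‖ := by
    rw [norm_pos_iff]
    rintro rfl
    have h3 : (0 : X) = x₀ := congrArg (fun C : X →L[ℂ] X => C x₀) hTR |> fun h => by
      simpa using h
    rw [← h3] at hx₀
    simp at hx₀
  have hRge : ‖R‖⁻¹ ≤ μ := by
    refine le_csInf (s := {r : ℝ | ∃ x : X, ‖x‖ = 1 ∧ r = ‖T x‖}) ⟨_, x₀, hx₀, rfl⟩ ?_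
    rintro r ⟨x, hx, rfl⟩
    have h3 : R (T x) = x := congrArg (fun C : X →L[ℂ] X => C x) hRT
    have h4 := R.le_opNorm (T x)
    rw [h3, hx] at h4
    rw [inv_le_iff_one_le_mul₀ hRpos, mul_comm]
    exact h4
  have hμR : μ * ‖R‖ = 1 := by
    apply le_antisymm
    · calc μ * ‖R‖ ≤ μ * μ⁻¹ := by gcongr
        _ = 1 := mul_inv_cancel₀ hμ.ne'
    · calc (1 : ℝ) = ‖R‖⁻¹ * ‖R‖ := (inv_mul_cancel₀ hRpos.ne').symm
        _ ≤ μ * ‖R‖ := by gcongr
  refine ⟨((μ : ℝ) : ℂ) • (T * S'), sa_smul hX (sa_mul hT hS' hTS) μ, ?_⟩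
  have e1 : (T * S') * (T * S') = (T * T) * (S' * S') := by
    calc (T * S') * (T * S') = T * (S' * T) * S' := by simp only [mul_assoc]
      _ = T * (T * S') * S' := by rw [hTS.eq]
      _ = _ := by simp only [mul_assoc]
  rw [smul_mul_smul_comm, e1, ← h1, mul_sub, smul_sub, mul_smul_comm, mul_one, smul_smul]
  have e2 : (T * T) * (R * R) = 1 := by
    calc (T * T) * (R * R) = T * (T * R) * R := by simp only [mul_assoc]
      _ = 1 := by rw [hTR, mul_one, hTR]
  rw [e2, ← Complex.ofReal_mul, ← Complex.ofReal_mul]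
  have e3 : μ * μ * ‖R‖ ^ 2 = 1 := by
    calc μ * μ * ‖R‖ ^ 2 = (μ * ‖R‖) ^ 2 := by ring
      _ = 1 := by rw [hμR, one_pow]
  rw [e3, Complex.ofReal_one, one_smul, sq]

end selfadjoint

end Pool.Agent.Q203.StrongNormal
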